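import Pool.Agent.Lib.MP_d439b2_co.HC.SpecD
import Pool.Agent.Lib.MP_d439b2_co.B.Path

/-!
# MP_d439b2_co, HC, D1: full vertices in the fibres
-/

set_option autoImplicit false

namespace Pool.Agent.MPd439b2.HC

open Pool.Agent.MPd439b2
open Pool.Agent.MPd439b2.BU

private theorem conn_walk {V : Type} {G : SimpleGraph V} (p : ℕ → V) (l : ℕ)
    (h : ∀ i < l, G.Adj (p i) (p (i + 1))) : ∀ k ≤ l, Conn G {v | ∃ i ≤ k, v = p i} := by
  intro k
  induction k with
  | zero =>
    intro _
    have e : {v | ∃ i ≤ 0, v = p i} = {p 0} := by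
      ext v
      constructor
      · rintro ⟨i, hi, rfl⟩
        have : i = 0 := by omega
        subst this
        rfl
      · intro hv
        exact ⟨0, le_rfl, hv⟩
    rw [e]
    exact Conn.singleton G _
  | succ k ih =>
    intro hk
    have e : {v | ∃ i ≤ k + 1, v = p i} = insert (p (k + 1)) {v | ∃ i ≤ k, v = p i} := by
      ext v
      constructor
      · rintro ⟨i, hi, rfl⟩
        by_cases h' : i = k + 1
        · subst h'
          exact Set.mem_insert _ _
        · exact Set.mem_insert_of_mem _ ⟨i, by omega, rfl⟩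
      · rintro (rfl | ⟨i, hi, rfl⟩)
        · exact ⟨k + 1, le_rfl, rfl⟩
        · exact ⟨i, by omega, rfl⟩
    rw [e]
    exact (ih (by omega)).insert ⟨p k, ⟨k, le_rfl, rfl⟩, h k (by omega)⟩

theorem d1 : S_Full := by
  intro V G X C F φ hSR hX z hz
  obtain ⟨l, p, h0, hl, hpX, -, hadj, -, hF⟩ := path V G X {z} F hX ⟨z, hz, rfl⟩
    ⟨φ z, hSR.FX (hSR.cF (hSR.map z hz)), hSR.cF (hSR.map z hz)⟩
  have h0' : p 0 = z := h0
  have hstep : ∀ i < l, G.Adj (p i) (p (i + 1)) := fun i hi =>
    (hadj i (by omega) (i + 1) (by omega)).mpr (Or.inr rfl)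
  have hφ : ∀ i ≤ l, φ (p i) = φ z := by
    intro i
    induction i with
    | zero =>
      intro _
      rw [h0']
    | succ i ih =>
      intro hi
      rw [← ih (by omega)]
      by_contra hne
      have h1 := (hSR.adj (p i) (hpX i (by omega)) (p (i + 1)) (hpX _ hi) (Ne.symm hne)).mp
        (hstep i (by omega))
      have h2 := hF i (by omega) h1.1
      omega
  refine ⟨⟨{v | ∃ i ≤ l, v = p i}, p l, conn_walk p l hstep l le_rfl, ⟨0, Nat.zero_le _, h0'.symm⟩,
    ?_, ⟨l, le_rfl, rfl⟩, hl⟩, fun hzF => ?_⟩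
  · rintro v ⟨i, hi, rfl⟩
    exact ⟨hpX i hi, hφ i hi⟩
  · have hl1 : 1 ≤ l := by
      rcases Nat.eq_zero_or_pos l with h | h
      · rw [h, h0'] at hl
        exact absurd hl hzF
      · exact h
    refine ⟨p (l - 1), p l, hpX _ (by omega), fun h => ?_, hφ _ (by omega), hl, hφ _ le_rfl, ?_⟩
    · have := hF (l - 1) (by omega) h
      omega
    · have := hstep (l - 1) (by omega)
      rwa [Nat.sub_add_cancel hl1] at this

end Pool.Agent.MPd439b2.HC
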