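import Pool.Agent.Lib.MP_d439b2_co.HC.SpecD

/-!
# MP_d439b2_co, HC: the statement `S_D10` (two vertices outside the fibre of `b`)
-/

set_option autoImplicit false

namespace Pool.Agent.MPd439b2.HC

open Pool.Agent.MPd439b2
open Pool.Agent.MPd439b2.BU

/-- **D10.** -/
theorem d10 (h8 : S_SPb) (h6 : S_D6) : S_D10 := by
  intro V _ G Z X u x c C F φ u' hD
  have hb : φ c ≠ u' := h6 V G Z X u x c C F φ u' hD
  have hcΓ : c ∈ X \ {u} := ⟨hD.cX, hD.cu⟩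
  have hbC : φ c ∈ C := hD.sr.map c hcΓ
  obtain ⟨_, _, h83, h84⟩ := h8 V G C hD.spC hD.card'
  have hQ : Conn G (C \ {u'}) := h83 u' hD.uni'
  generalize φ c = b at hb hbC ⊢
  by_contra hcon
  push Not at hcon
  -- `b` has a neighbour different from `u'`
  obtain ⟨n₂, hn₂, hbn₂⟩ : ∃ n ∈ C \ {u'}, G.Adj b n := by
    obtain ⟨b', hb', a, ha, hab⟩ := hQ.2 {b} (Set.singleton_subset_iff.2 ⟨hbC, hb⟩) ⟨b, rfl⟩ (by
      intro h
      have h1 : (C \ {u'}).ncard = C.ncard - 1 := Set.ncard_sdiff_singleton_of_mem hD.uni'.1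
      rw [← h, Set.ncard_singleton] at h1
      have := hD.card'
      omega)
    rw [Set.mem_singleton_iff] at hb'
    subst hb'
    exact ⟨a, ha.1, hab⟩
  -- `b` has a non-neighbour
  obtain ⟨t, htC, htb, htn⟩ : ∃ t ∈ C, t ≠ b ∧ ¬ G.Adj t b := by
    by_contra h
    push Not at h
    exact hb (h84 b u' ⟨hbC, fun x hx hxb => (h x hx hxb).symm⟩ hD.uni')
  refine hD.spC {s | s ∈ C ∧ s ≠ b ∧ G.Adj s b} (insert b {s | s ∈ C ∧ s ≠ b ∧ ¬ G.Adj s b})
    ⟨?_, ?_, ?_, ?_, ?_⟩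
  · ext s
    constructor
    · rintro (h | h | h)
      · exact h.1
      · rw [h]; exact hbC
      · exact h.1
    · intro hs
      by_cases h1 : s = b
      · right; left; exact h1
      · by_cases h2 : G.Adj s b
        · left; exact ⟨hs, h1, h2⟩
        · right; right; exact ⟨hs, h1, h2⟩
  · rw [Set.disjoint_left]
    rintro s ⟨_, h1, h2⟩ (h | h)
    · exact h1 h
    · exact h.2.2 h2
  · intro h
    have e1 : u' ∈ {s | s ∈ C ∧ s ≠ b ∧ G.Adj s b} := ⟨hD.uni'.1, hb.symm, hD.uni'.2 b hbC hb⟩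
    have e2 : n₂ ∈ {s | s ∈ C ∧ s ≠ b ∧ G.Adj s b} := ⟨hn₂.1, hbn₂.ne', hbn₂.symm⟩
    exact hn₂.2 (h e2 e1)
  · intro h
    exact htb (h (Or.inr ⟨htC, htb, htn⟩) (Or.inl rfl))
  · refine ⟨_, subset_rfl, _, subset_rfl, ?_⟩
    intro n hn y hy
    refine iff_of_true ?_ ⟨hn, hy⟩
    rcases hy with hy | hy
    · rw [hy]; exact hn.2.2
    · have hyn : y ≠ n := by
        rintro rfl
        exact hy.2.2 hn.2.2
      exact (hcon y hy.1 n hn.1 hy.2.1 hy.2.2 hn.2.1 hn.2.2 hyn).symm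

end Pool.Agent.MPd439b2.HC
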