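import Pool.Agent.Lib.MP_d439b2_co.HC.SpecD
import Pool.Agent.Lib.MP_d439b2_co.BU.B5

/-!
# MP_d439b2_co, HC: the statement `S_D12` (the depth lemma)
-/

set_option autoImplicit false

namespace Pool.Agent.MPd439b2.HC

open Pool.Agent.MPd439b2
open Pool.Agent.MPd439b2.BU

/-- a vertex of a long induced cycle is not adjacent to some other vertex of it -/
theorem D12x.far {V : Type} {G : SimpleGraph V} {X : Set V} {m : ℕ} {q : ℕ → V} (hm : 4 ≤ m)
    (hq : IC G X m q) (k : ℕ) (hk : k < m) : ∃ s < m, q s ≠ q k ∧ ¬ G.Adj (q k) (q s) := by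
  obtain ⟨h1, h2, h3⟩ := hq
  rcases Nat.lt_or_ge (k + 2) m with h | h
  · refine ⟨k + 2, h, fun e => ?_, fun e => ?_⟩
    · have := h2 _ h _ hk e
      omega
    · rw [h3 _ hk _ h] at e
      omega
  · have h' : k - 2 < m := by omega
    refine ⟨k - 2, h', fun e => ?_, fun e => ?_⟩
    · have := h2 _ h' _ hk e
      omega
    · rw [h3 _ hk _ h'] at e
      omega

/-- the smallest and the largest index with a property -/
theorem D12x.ext {m : ℕ} {P : ℕ → Prop} (h : ∃ k < m, P k) :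
    ∃ i j, i ≤ j ∧ j < m ∧ P i ∧ P j ∧ (∀ k < i, ¬ P k) ∧ ∀ k, j < k → k < m → ¬ P k := by
  classical
  have h' : ∃ k, k < m ∧ P (m - 1 - k) := by
    obtain ⟨k, hk, hP⟩ := h
    refine ⟨m - 1 - k, by omega, ?_⟩
    rw [show m - 1 - (m - 1 - k) = k by omega]
    exact hP
  obtain ⟨f1, f2⟩ := Nat.find_spec h
  obtain ⟨g1, g2⟩ := Nat.find_spec h'
  have f3 : ∀ k < Nat.find h, ¬ P k := fun k hk hP => Nat.find_min h hk ⟨by omega, hP⟩
  have g3 : ∀ k, m - 1 - Nat.find h' < k → k < m → ¬ P k := by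
    intro k hk hkm hP
    refine Nat.find_min h' (m := m - 1 - k) (by omega) ⟨by omega, ?_⟩
    rw [show m - 1 - (m - 1 - k) = k by omega]
    exact hP
  refine ⟨Nat.find h, m - 1 - Nat.find h', ?_, by omega, f2, g2, f3, g3⟩
  by_contra hlt
  exact f3 _ (not_le.1 hlt) g2

theorem d12 (h6 : S_D6) (h9 : S_D9) (h10 : S_D10) (h11 : S_D11) : S_D12 := by
  intro V _ G Z X u x c C F φ u' hD hR
  have hb : φ c ≠ u' := h6 V G Z X u x c C F φ u' hD
  have hCΓ : C ⊆ X \ {u} := hD.sr.cF.trans hD.sr.FX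
  have hu' : u' ∈ C := hD.uni'.1
  have hcΓ : c ∈ X \ {u} := ⟨hD.cX, hD.cu⟩
  have hbC : φ c ∈ C := hD.sr.map c hcΓ
  obtain ⟨w, hwX, hwu', hnw, m, p, hm, hp, s, hs, hps⟩ := hR.2 u' (hCΓ hu').1 (hCΓ hu').2
  obtain ⟨q, hqd⟩ : ∃ q : ℕ → V, q = fun k => p ((k + s) % m) := ⟨_, rfl⟩
  have hq : IC G X m q := by
    rw [hqd]
    exact b5.1 V G X m s p hp hs
  have hq0 : q 0 = w := by
    rw [hqd]
    show p ((0 + s) % m) = w
    rw [Nat.zero_add, Nat.mod_eq_of_lt hs]
    exact hps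
  have hqu : ∀ k < m, q k ≠ u := by
    intro k hk e
    obtain ⟨t, ht, htk, hn⟩ := D12x.far hm hq k hk
    rw [e] at htk hn
    exact hn (hR.1.2 _ (hq.1 t ht) htk)
  have hqΓ : ∀ k < m, q k ∈ X \ {u} := fun k hk => ⟨hq.1 k hk, hqu k hk⟩
  have hwΓ : w ∈ X \ {u} := by
    rw [← hq0]
    exact hqΓ 0 (by omega)
  -- `D9`
  have hC : ∀ z ∈ X \ {u}, φ z ≠ φ c → φ z = z ∧ z ∈ C := by
    intro z hz hzc
    have h := h9 V G Z X u x c C F φ u' hD z hz hzc
    refine ⟨h, ?_⟩
    have h' := hD.sr.map z hz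
    rwa [h] at h'
  have hwb : φ w = φ c := by
    by_contra hne
    exact hnw (hD.uni'.2 w (hC w hwΓ hne).2 hwu')
  have hwF : w ∉ F := by
    intro hwF
    apply hnw
    rw [hD.sr.adj u' (hCΓ hu') w hwΓ (by rw [hD.sr.fix u' hu', hwb]; exact hb.symm)]
    refine ⟨hD.sr.cF hu', hwF, ?_⟩
    rw [hD.sr.fix u' hu', hwb]
    exact hD.uni'.2 (φ c) hbC hb
  have hwN : ∀ z ∈ X \ {u}, G.Adj w z → φ z = φ c := by
    intro z hz hwz
    by_contra hne
    exact hwF ((hD.sr.adj w hwΓ z hz (by rw [hwb]; exact fun e => hne e.symm)).1 hwz).1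
  obtain ⟨y, hyC, n', hnC, hyb, hny, hnb, hnab, hyn, hnyn⟩ := h10 V G Z X u x c C F φ u' hD
  have hNoC := h11 V G Z X u x c C F φ u' hD y hyC n' hnC hyb hny hnb hnab hyn hnyn
  by_cases hI : ∃ k < m, φ (q k) ≠ φ c
  · obtain ⟨i, j, hij, hjm, hPi, hPj, hmin, hmax⟩ := D12x.ext hI
    have hmin' : ∀ k < i, φ (q k) = φ c := fun k hk => not_not.1 (hmin k hk)
    have hmax' : ∀ k, j < k → k < m → φ (q k) = φ c := fun k hk hkm => not_not.1 (hmax k hk hkm)
    have hi0 : i ≠ 0 := by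
      intro e
      apply hPi
      rw [e, hq0]
      exact hwb
    have hi1 : i ≠ 1 := by
      intro e
      apply hPi
      rw [e]
      refine hwN _ (hqΓ 1 (by omega)) ?_
      rw [← hq0, hq.2.2 0 (by omega) 1 (by omega)]
      exact Or.inl rfl
    have hj1 : j ≠ m - 1 := by
      intro e
      apply hPj
      rw [e]
      refine hwN _ (hqΓ (m - 1) (by omega)) ?_
      rw [← hq0, hq.2.2 0 (by omega) (m - 1) (by omega)]
      exact Or.inr (Or.inr (Or.inl ⟨rfl, by omega⟩))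
    have him : i < m := by omega
    -- the edge from `q (i-1)` to `q i`
    have e1 : G.Adj (q (i - 1)) (q i) := by
      rw [hq.2.2 (i - 1) (by omega) i him]
      exact Or.inl (by omega)
    have hb1 : φ (q (i - 1)) = φ c := hmin' _ (by omega)
    have a1 := (hD.sr.adj (q (i - 1)) (hqΓ _ (by omega)) (q i) (hqΓ _ him)
      (by rw [hb1]; exact fun e => hPi e.symm)).1 e1
    rw [hb1, (hC (q i) (hqΓ _ him) hPi).1] at a1
    have e2 : G.Adj (q (j + 1)) (q j) := by
      rw [hq.2.2 (j + 1) (by omega) j hjm]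
      exact Or.inr (Or.inl rfl)
    have hb2 : φ (q (j + 1)) = φ c := hmax' _ (by omega) (by omega)
    have a2 := (hD.sr.adj (q (j + 1)) (hqΓ _ (by omega)) (q j) (hqΓ _ hjm)
      (by rw [hb2]; exact fun e => hPj e.symm)).1 e2
    rw [hb2, (hC (q j) (hqΓ _ hjm) hPj).1] at a2
    have e3 : G.Adj (q (i - 1)) (q j) := by
      rw [hD.sr.adj (q (i - 1)) (hqΓ _ (by omega)) (q j) (hqΓ _ hjm)
        (by rw [hb1]; exact fun e => hPj e.symm)]
      refine ⟨a1.1, a2.2.1, ?_⟩
      rw [hb1, (hC (q j) (hqΓ _ hjm) hPj).1]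
      exact a2.2.2
    have hji : i = j := by
      rw [hq.2.2 (i - 1) (by omega) j hjm] at e3
      omega
    have hother : ∀ k < m, k ≠ i → φ (q k) = φ c := by
      intro k hk hki
      rcases Nat.lt_or_ge k i with h | h
      · exact hmin' k h
      · exact hmax' k (by omega) hk
    -- the new cycle
    have hnF : n' ∈ F := hD.sr.cF hnC
    have hnφ : φ n' = n' := hD.sr.fix n' hnC
    have hsw : ∀ k < m, k ≠ i → (G.Adj n' (q k) ↔ G.Adj (q i) (q k)) := by
      intro k hk hki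
      rw [hD.sr.adj n' (hCΓ hnC) (q k) (hqΓ k hk) (by rw [hnφ, hother k hk hki]; exact hnb),
        hD.sr.adj (q i) (hqΓ i him) (q k) (hqΓ k hk) (by rw [hother k hk hki]; exact hPi),
        hnφ, hother k hk hki, (hC (q i) (hqΓ _ him) hPi).1]
      constructor
      · rintro ⟨-, h, -⟩
        exact ⟨a1.2.1, h, G.adj_symm a1.2.2⟩
      · rintro ⟨-, h, -⟩
        exact ⟨hnF, h, hnab⟩
    obtain ⟨r, hr⟩ : ∃ r : ℕ → V, ∀ k, r k = if k = i then n' else q k := ⟨_, fun k => rfl⟩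
    have r1 : r i = n' := by rw [hr, if_pos rfl]
    have r2 : ∀ k, k ≠ i → r k = q k := fun k hk => by rw [hr, if_neg hk]
    refine hNoC m hm r ⟨?_, ?_, ?_⟩
    · intro k hk
      by_cases hki : k = i
      · rw [hki, r1]
        exact Set.mem_insert _ _
      · rw [r2 k hki]
        exact Set.mem_insert_of_mem _ ⟨hqΓ k hk, hother k hk hki⟩
    · have key : ∀ k < m, k ≠ i → q k ≠ n' := by
        intro k hk hki e
        have h := hother k hk hki
        rw [e, hnφ] at h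
        exact hnb h
      intro k hk k' hk' he
      by_cases hki : k = i <;> by_cases hki' : k' = i
      · rw [hki, hki']
      · rw [hki, r1, r2 k' hki'] at he
        exact absurd he.symm (key k' hk' hki')
      · rw [hki', r1, r2 k hki] at he
        exact absurd he (key k hk hki)
      · rw [r2 k hki, r2 k' hki'] at he
        exact hq.2.1 k hk k' hk' he
    · intro k hk k' hk'
      by_cases hki : k = i <;> by_cases hki' : k' = i
      · rw [hki, hki', r1, ← hq.2.2 i him i him]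
        exact iff_of_false (G.loopless.irrefl _) (G.loopless.irrefl _)
      · rw [hki, r1, r2 k' hki', hsw k' hk' hki', hq.2.2 i him k' hk']
      · rw [hki', r1, r2 k hki, G.adj_comm, hsw k hk hki, G.adj_comm, hq.2.2 k hk i him]
      · rw [r2 k hki, r2 k' hki', hq.2.2 k hk k' hk']
  · refine hNoC m hm q ⟨fun k hk => Set.mem_insert_of_mem _ ⟨hqΓ k hk, ?_⟩, hq.2.1, hq.2.2⟩
    by_contra hne
    exact hI ⟨k, hk, hne⟩

end Pool.Agent.MPd439b2.HC
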