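import Pool.Agent.Lib.MP_d439b2_co.HC.SpecD

/-!
# MP_d439b2_co, HC: the statement `S_AsmP` (first assembly)
-/

set_option autoImplicit false

namespace Pool.Agent.MPd439b2.HC

open Pool.Agent.MPd439b2
open Pool.Agent.MPd439b2.BU

/-- **D13.** -/
theorem d13 (hm : S_SplitMain) (h8 : S_SPb) (hr : S_Rep) (hp : S_Pend) (hu : S_UniL) :
    S_AsmP := by
  intro r k K hK hO
  have claim : ∀ (V : Type) [Finite V] (G : SimpleGraph V) (X : Set V), Cls r k G X → SPr G X →
      RL0 G X (2 ^ K + 1) X := by
    intro V _ G X hcls hspr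
    have hKK : K ≤ 2 ^ K + 1 := by
      have := Nat.lt_two_pow_self (n := K)
      omega
    rcases hO V G X hcls hspr with h | ⟨h4, u, hU⟩
    · exact RL0.mono hKK h
    · apply hu V G X u (2 ^ K) hU.1
      apply hm V G (X \ {u}) K hK
      intro C F φ hSR hSC
      have hCX : C ⊆ X := fun y hy => (hSR.FX (hSR.cF hy)).1
      rcases hO V G C (hcls.mono hCX) hSC with h | ⟨h4', u', hU'⟩
      · exact h
      · obtain ⟨d, f, hd, hdF, hfF, hfu', hdf, hadj⟩ :=
          hp V G X C F φ u u' hspr h4 hU.1 hSR (by omega) hU'.1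
        obtain ⟨⟨φ', hSR'⟩, r2, r3, r4⟩ := hr V G (X \ {u}) C F φ f hSR hfF
        have hC'X : insert f (C \ {φ f}) ⊆ X := fun y hy => (hSR'.FX (hSR'.cF hy)).1
        have hfΓ : f ∈ X \ {u} := hSR.FX hfF
        have hφfC : φ f ∈ C := hSR.map f hfΓ
        rcases hO V G _ (hcls.mono hC'X) (r2 hSC) with h | ⟨h4'', u'', hU''⟩
        · exact r4 K h
        · exfalso
          have hdC' : d ∉ insert f (C \ {φ f}) := fun h => hdF (hSR'.cF h)
          have hnf : ∀ y ∈ C, y ≠ φ f → y ≠ f := by
            rintro y hy hyf rfl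
            exact hyf (hSR.fix y hy).symm
          have hN : ∀ y ∈ insert f (C \ {φ f}), (G.Adj d y ↔ y = f) := by
            rintro y (hy | hy)
            · rw [hy]
              exact iff_of_true hadj rfl
            · refine iff_of_false ?_ (hnf y hy.1 hy.2)
              intro h
              have hyΓ : y ∈ X \ {u} := hSR.FX (hSR.cF hy.1)
              have hne : φ d ≠ φ y := by
                rw [hdf, hSR.fix y hy.1]
                exact fun e => hy.2 e.symm
              exact hdF ((hSR.adj d hd y hyΓ hne).1 h).1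
          have hsub : insert d (insert f (C \ {φ f})) ⊆ X := Set.insert_subset hd.1 hC'X
          by_cases hu'' : f = u''
          · subst hu''
            apply hfu'
            refine (h8 V G C hSC h4').2.2.2 (φ f) u' ⟨hφfC, ?_⟩ hU'.1
            intro y hy hyf
            rw [← r3 y hy hyf]
            exact hU''.1.2 y (Or.inr ⟨hy, hyf⟩) (hnf y hy hyf)
          · exact hU''.2 d f hdC' (Or.inl rfl) hu'' hN (hcls.house.mono hsub)
              (hcls.free.mono hsub)
  intro V _ G X hcls
  apply hm V G X (2 ^ K + 1) (Nat.le_add_left 1 _)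
  intro C F φ hSR hSC
  exact claim V G C (hcls.mono fun y hy => hSR.FX (hSR.cF hy)) hSC

end Pool.Agent.MPd439b2.HC
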