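import Pool.Agent.Lib.MP_d439b2_co.HC.SpecD

/-!
# MP_d439b2_co, HC: D14, the second assembly (helper53)
-/

set_option autoImplicit false

namespace Pool.Agent.MPd439b2.HC

open Pool.Agent.MPd439b2
open Pool.Agent.MPd439b2.BU

/-- the vertex `d` sees exactly `f` in the new piece -/
theorem d14nb {V : Type} {G : SimpleGraph V} {X C F : Set V} {φ : V → V} {d f : V}
    (hS : SR G X C φ F) (hd : d ∈ X) (hdF : d ∉ F) (hdf : φ d = φ f) (hadj : G.Adj d f) :
    ∀ y ∈ insert f (C \ {φ f}), (G.Adj d y ↔ y = f) := by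
  rintro y (rfl | ⟨hy, hyf⟩)
  · exact ⟨fun _ => rfl, fun _ => hadj⟩
  · have hyX : y ∈ X := hS.FX (hS.cF hy)
    constructor
    · intro h
      have hne : φ d ≠ φ y := by
        rw [hS.fix y hy, hdf]
        exact fun h => hyf h.symm
      exact absurd ((hS.adj d hd y hyX hne).1 h).1 hdF
    · intro h
      rw [h]
      exact hadj

/-- the universal vertex of the new piece is not `f` -/
theorem d14uni {V : Type} [Finite V] {G : SimpleGraph V} (hSPb : S_SPb) (hRep : S_Rep)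
    {X C F : Set V} {φ : V → V} {f u' : V} (hS : SR G X C φ F) (hfF : f ∈ F) (hC : SPr G C)
    (h4 : 4 ≤ C.ncard) (hu : Uni G C u') (hfu : φ f ≠ u') : ¬ Uni G (insert f (C \ {φ f})) f := by
  intro hu2
  have hfX : f ∈ X := hS.FX hfF
  have h1 : Uni G C (φ f) := by
    refine ⟨hS.map f hfX, ?_⟩
    intro y hy hyf
    rw [← (hRep V G X C F φ f hS hfF).2.2.1 y hy hyf]
    refine hu2.2 y (Or.inr ⟨hy, hyf⟩) ?_
    intro h
    rw [h] at hy hyf
    exact hyf (hS.fix f hy).symm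
  exact hfu ((hSPb V G C hC h4).2.2.2 _ _ h1 hu)

/-- a long induced cycle does not contain a universal vertex -/
theorem d14cyc {V : Type} {G : SimpleGraph V} {C : Set V} {u' : V} (hu : Uni G C u')
    {n : ℕ} {p : ℕ → V} (hn : 4 ≤ n) (hp : IC G C n p) : IC G (C \ {u'}) n p := by
  refine ⟨fun i hi => ⟨hp.1 i hi, ?_⟩, hp.2⟩
  intro h
  rw [Set.mem_singleton_iff] at h
  -- a vertex of the cycle which is not adjacent to `p i`
  obtain ⟨j, hj, hij, hnadj⟩ : ∃ j < n, i ≠ j ∧ ¬ (i + 1 = j ∨ j + 1 = i ∨ (i = 0 ∧ j + 1 = n) ∨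
      (j = 0 ∧ i + 1 = n)) := by
    by_cases h2 : i < 2
    · exact ⟨i + 2, by omega, by omega, by omega⟩
    · exact ⟨i - 2, by omega, by omega, by omega⟩
  have hne : p j ≠ u' := by
    intro h'
    exact hij (hp.2.1 i hi j hj (h.trans h'.symm))
  have := hu.2 (p j) (hp.1 j hj) hne
  rw [← h] at this
  exact hnadj ((hp.2.2 i hi j hj).1 this)

theorem d14 (hMain : S_SplitMain) (hSPb : S_SPb) (hRep : S_Rep) (hPend : S_Pend)
    (hUni : S_UniL) (hD12 : S_D12) : S_Asm7 := by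
  intro k K hK hOut
  have hpow : K ≤ 2 ^ K + 1 := (Nat.lt_two_pow_self).le.trans (Nat.le_succ _)
  have hpow2 : 2 ^ K + 1 ≤ 2 ^ (2 ^ K + 1) + 1 := (Nat.lt_two_pow_self).le.trans (Nat.le_succ _)
  have step1 : ∀ (V : Type) [Finite V] (G : SimpleGraph V) (X : Set V) (u x c : V),
      Cls r7 k G X → SPr G X → 4 ≤ X.ncard → Rich7 G X u → x ∉ X → c ∈ X → c ≠ u →
      (∀ y ∈ X, (G.Adj x y ↔ y = c)) → SPF G (insert x X) 6 r7 → RL0 G X (2 ^ K + 1) X := by
    intro V _ G X u x c hX hSX h4 hu hx hc hcu hpen hfree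
    refine hUni V G X u (2 ^ K) hu.1 ?_
    refine hMain V G (X \ {u}) K hK ?_
    intro C F φ hS hC
    have hCX : C ⊆ X := (hS.cF.trans hS.FX).trans Set.sdiff_subset
    rcases hOut V G C (hX.mono hCX) hC with h | ⟨h4', u', hu'⟩
    · exact h
    exfalso
    have hcyc : ∃ n p, 4 ≤ n ∧ IC G (C \ {u'}) n p := by
      obtain ⟨v, hv, hvu⟩ : ∃ v ∈ C, v ≠ u' := by
        by_contra hcon
        push Not at hcon
        have : C ⊆ {u'} := fun y hy => hcon y hy
        have := Set.ncard_le_ncard this (Set.finite_singleton _)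
        rw [Set.ncard_singleton] at this
        omega
      obtain ⟨w, _, _, _, n, p, hn, hp, _⟩ := hu'.2 v hv hvu
      exact ⟨n, p, hn, d14cyc hu'.1 hn hp⟩
    have hdep : Dep G (insert x X) X u x c C F φ u' := by
      exact ⟨Set.subset_insert _ _, Set.mem_insert _ _, hx, hc, hcu, hpen, hfree, hSX, h4, hu.1,
        hS, hC, h4', hu'.1, hcyc⟩
    exact hD12 V G (insert x X) X u x c C F φ u' hdep hu
  have step2 : ∀ (V : Type) [Finite V] (G : SimpleGraph V) (X : Set V), Cls r7 k G X → SPr G X →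
      RL0 G X (2 ^ (2 ^ K + 1) + 1) X := by
    intro V _ G X hX hSX
    rcases hOut V G X hX hSX with h | ⟨h4, u, hu⟩
    · exact RL0.mono (hpow.trans hpow2) h
    refine hUni V G X u (2 ^ (2 ^ K + 1)) hu.1 ?_
    refine hMain V G (X \ {u}) (2 ^ K + 1) (by omega) ?_
    intro C F φ hS hC
    have hCX : C ⊆ X := (hS.cF.trans hS.FX).trans Set.sdiff_subset
    rcases hOut V G C (hX.mono hCX) hC with h | ⟨h4', u', hu'⟩
    · exact RL0.mono hpow h
    obtain ⟨d, f, hd, hdF, hfF, hfu, hdf, hadj⟩ := hPend V G X C F φ u u' hSX h4 hu.1 hS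
      (le_trans (by norm_num) h4') hu'.1
    obtain ⟨⟨φ', hS'⟩, hSP', _, hback⟩ := hRep V G (X \ {u}) C F φ f hS hfF
    refine hback _ ?_
    have hfX : f ∈ X := (hS.FX hfF).1
    have hC'X : insert f (C \ {φ f}) ⊆ X := by
      rintro y (rfl | hy)
      · exact hfX
      · exact hCX hy.1
    have hcls' := hX.mono hC'X
    rcases hOut V G _ hcls' (hSP' hC) with h | ⟨h4'', u'', hu''⟩
    · exact RL0.mono hpow h
    have hdC' : d ∉ insert f (C \ {φ f}) := fun h => hdF (hS'.cF h)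
    have hfu'' : f ≠ u'' := by
      intro h
      rw [← h] at hu''
      exact d14uni hSPb hRep hS hfF hC h4' hu'.1 hfu hu''.1
    have hsub : insert d (insert f (C \ {φ f})) ⊆ X := by
      rintro y (rfl | hy)
      · exact hd.1
      · exact hC'X hy
    exact step1 V G _ u'' d f hcls' (hSP' hC) h4'' hu'' hdC' (Set.mem_insert _ _) hfu''
      (d14nb hS hd hdF hdf hadj) (hX.free.mono hsub)
  intro V _ G X hX
  refine hMain V G X (2 ^ (2 ^ K + 1) + 1) (Nat.le_add_left _ _) ?_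
  intro C F φ hS hC
  exact step2 V G C (hX.mono (hS.cF.trans hS.FX)) hC

end Pool.Agent.MPd439b2.HC
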