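import Pool.Agent.Lib.MP_d439b2_co.HC.SpecD
import Pool.Agent.Lib.MP_d439b2_co.B.Path

/-!
# MP_d439b2_co, HC, D15: the induced minor `C_4` and induced cycles
-/

set_option autoImplicit false

namespace Pool.Agent.MPd439b2.HC

open Pool.Agent.MPd439b2
open Pool.Agent.MPd439b2.BU

/-- two induced paths, closed up to an induced cycle -/
private theorem cyc_of {V : Type} {G : SimpleGraph V} {Y : Set V} {l m : ℕ} {s t : ℕ → V}
    (hm : 1 ≤ m) (hsY : ∀ i ≤ l, s i ∈ Y) (htY : ∀ i ≤ m, t i ∈ Y)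
    (hs : ∀ i ≤ l, ∀ j ≤ l, s i = s j → i = j) (ht : ∀ i ≤ m, ∀ j ≤ m, t i = t j → i = j)
    (hst : ∀ i ≤ l, ∀ j ≤ m, s i ≠ t j)
    (hsa : ∀ i ≤ l, ∀ j ≤ l, (G.Adj (s i) (s j) ↔ i = j + 1 ∨ j = i + 1))
    (hta : ∀ i ≤ m, ∀ j ≤ m, (G.Adj (t i) (t j) ↔ i = j + 1 ∨ j = i + 1))
    (hsta : ∀ i ≤ l, ∀ j ≤ m, (G.Adj (s i) (t j) ↔ (i = 0 ∧ j = 0) ∨ (i = l ∧ j = m))) :
    IC G Y (l + m + 2) fun i => if i ≤ l then s i else t (m - (i - l - 1)) := by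
  refine ⟨?_, ?_, ?_⟩
  · intro i hi
    by_cases h : i ≤ l
    · simp only [h, if_true]
      exact hsY i h
    · simp only [h, if_false]
      exact htY _ (by omega)
  · intro i hi j hj hij
    by_cases h : i ≤ l <;> by_cases h' : j ≤ l <;> simp only [h, h', if_true, if_false] at hij
    · exact hs i h j h' hij
    · exact absurd hij (hst i h _ (by omega))
    · exact absurd hij.symm (hst j h' _ (by omega))
    · have := ht _ (by omega) _ (by omega) hij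
      omega
  · intro i hi j hj
    by_cases h : i ≤ l <;> by_cases h' : j ≤ l <;> simp only [h, h', if_true, if_false]
    · rw [hsa i h j h']
      omega
    · rw [hsta i h _ (by omega)]
      omega
    · rw [G.adj_comm, hsta j h' _ (by omega)]
      omega
    · rw [hta _ (by omega) _ (by omega)]
      omega

theorem d15 : S_C4 := by
  rintro V G Y hNo ⟨T, hTY, hTc, hTd, hTa⟩
  have a01 : Tch G (T 0) (T 1) := (hTa 0 1 (by decide)).1 (by show (0 + 1) % 2 = 1; norm_num)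
  have a03 : Tch G (T 0) (T 3) := (hTa 0 3 (by decide)).1 (by show (0 + 3) % 2 = 1; norm_num)
  have a12 : Tch G (T 1) (T 2) := (hTa 1 2 (by decide)).1 (by show (1 + 2) % 2 = 1; norm_num)
  have a23 : Tch G (T 2) (T 3) := (hTa 2 3 (by decide)).1 (by show (2 + 3) % 2 = 1; norm_num)
  have n02 : ¬ Tch G (T 0) (T 2) := fun h => by
    have h1 : (0 + 2) % 2 = 1 := (hTa 0 2 (by decide)).2 h
    norm_num at h1
  have n13 : ¬ Tch G (T 1) (T 3) := fun h => by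
    have h1 : (1 + 3) % 2 = 1 := (hTa 1 3 (by decide)).2 h
    norm_num at h1
  obtain ⟨s₁, hs₁, t₁, ht₁, h₁⟩ := a01
  obtain ⟨s₃, hs₃, t₃, ht₃, h₃⟩ := a03
  obtain ⟨l, s, hs0, hsl, hsT, hsi, hsa, hs0', hsl'⟩ := path V G (T 0)
    {x | x ∈ T 0 ∧ ∃ y ∈ T 1, G.Adj x y} {x | x ∈ T 0 ∧ ∃ y ∈ T 3, G.Adj x y} (hTc 0)
    ⟨s₁, hs₁, hs₁, t₁, ht₁, h₁⟩ ⟨s₃, hs₃, hs₃, t₃, ht₃, h₃⟩
  have hconn : Conn G (T 1 ∪ T 2 ∪ T 3) :=
    ((hTc 1).union (hTc 2) (Or.inr a12)).union (hTc 3) (Or.inr (a23.mono Set.subset_union_right subset_rfl))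
  obtain ⟨y₁, hy₁, hy₁'⟩ := hs0.2
  obtain ⟨y₃, hy₃, hy₃'⟩ := hsl.2
  obtain ⟨m, t, ht0, htm, htT, hti, hta, ht0', htm'⟩ := path V G (T 1 ∪ T 2 ∪ T 3)
    {x | x ∈ T 1 ∧ G.Adj x (s 0)} {x | x ∈ T 3 ∧ G.Adj x (s l)} hconn
    ⟨y₁, Or.inl (Or.inl hy₁), hy₁, hy₁'.symm⟩ ⟨y₃, Or.inr hy₃, hy₃, hy₃'.symm⟩
  have hdis : ∀ w w' : Fin 4, w ≠ w' → ∀ x ∈ T w, x ∉ T w' := fun w w' hw x hx hx' =>
    Set.disjoint_left.1 (hTd w w' hw) hx hx'
  have hm : 2 ≤ m := by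
    by_contra hlt
    have h01 : m = 0 ∨ m = 1 := by omega
    rcases h01 with h | h
    · subst h
      exact hdis 1 3 (by decide) _ ht0.1 htm.1
    · subst h
      exact n13 ⟨t 0, ht0.1, t 1, htm.1, (hta 0 (by omega) 1 le_rfl).2 (Or.inr rfl)⟩
  refine hNo (l + m + 2) (by omega) _ (cyc_of (by omega) (fun i hi => hTY 0 (hsT i hi))
    (fun i hi => ?_) hsi hti ?_ hsa hta ?_)
  · rcases htT i hi with (h | h) | h
    · exact hTY 1 h
    · exact hTY 2 h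
    · exact hTY 3 h
  · intro i hi j hj h
    have h0 := hsT i hi
    rw [h] at h0
    rcases htT j hj with (h' | h') | h'
    · exact hdis 0 1 (by decide) _ h0 h'
    · exact hdis 0 2 (by decide) _ h0 h'
    · exact hdis 0 3 (by decide) _ h0 h'
  · intro i hi j hj
    constructor
    · intro h
      rcases htT j hj with (h' | h') | h'
      · have hi0 : i = 0 := hs0' i hi ⟨hsT i hi, t j, h', h⟩
        subst hi0
        exact Or.inl ⟨rfl, ht0' j hj ⟨h', h.symm⟩⟩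
      · exact absurd ⟨s i, hsT i hi, t j, h', h⟩ n02
      · have hil : i = l := hsl' i hi ⟨hsT i hi, t j, h', h⟩
        subst hil
        exact Or.inr ⟨rfl, htm' j hj ⟨h', h.symm⟩⟩
    · rintro (⟨rfl, rfl⟩ | ⟨rfl, rfl⟩)
      · exact ht0.2.symm
      · exact htm.2.symm

end Pool.Agent.MPd439b2.HC
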