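import Pool.Agent.Lib.MP_d439b2_co.HC.SpecD

/-!
# MP_d439b2_co, HC, D17: the patterns are the graphs
-/

set_option autoImplicit false

namespace Pool.Agent.MPd439b2.HC

open Pool.Agent.MPd439b2
open Pool.Agent.MPd439b2.BU

private theorem ims_of {V W : Type} {G : SimpleGraph V} {H : SimpleGraph W} {X : Set V} {n : ℕ}
    {S : ℕ → Set V} {r : ℕ → ℕ → Bool} (e : W → ℕ) (he : ∀ w, e w < n)
    (hinj : ∀ w w', e w = e w' → w = w')
    (hr : ∀ w w', e w' < e w → (H.Adj w w' ↔ r (e w) (e w') = true)) (hS : SP G X n S r) :
    IMS H G X := by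
  refine ⟨fun w => S (e w), fun w => hS.sub _ (he w), fun w => hS.conn _ (he w), ?_, ?_⟩
  · intro w w' hw
    rcases lt_trichotomy (e w) (e w') with h | h | h
    · exact (hS.dis _ (he w') _ h).symm
    · exact absurd (hinj w w' h) hw
    · exact hS.dis _ (he w) _ h
  · intro w w' hw
    rcases lt_trichotomy (e w) (e w') with h | h | h
    · rw [H.adj_comm, tch_comm, hr w' w h]
      exact (hS.tch _ (he w') _ h).symm
    · exact absurd (hinj w w' h) hw
    · rw [hr w w' h]
      exact (hS.tch _ (he w) _ h).symm

private theorem ims_KA {V : Type} {G : SimpleGraph V} {X : Set V} {S : ℕ → Set V}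
    {r : ℕ → ℕ → Bool} (m k : ℕ) (N : Fin k → Set (Fin m)) (h1 : ∀ i < m, ∀ j < i, r i j = true)
    (h2 : ∀ (q : Fin k) (i : Fin m), (i ∈ N q ↔ r (m + q.val) i.val = true))
    (h3 : ∀ q < k, ∀ q' < q, r (m + q) (m + q') = false) (hS : SP G X (m + k) S r) :
    IMS (KA m k N) G X := by
  refine ims_of (Sum.elim (fun i => i.val) fun i => m + i.val) ?_ ?_ ?_ hS
  · rintro (w | w)
    · exact w.2.trans_le (Nat.le_add_right m k)
    · exact Nat.add_lt_add_left w.2 m
  · rintro (w | w) (w' | w') h
    · exact congrArg Sum.inl (Fin.ext h)
    · have h' : w.val = m + w'.val := h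
      have := w.2
      omega
    · have h' : m + w.val = w'.val := h
      have := w'.2
      omega
    · have h' : m + w.val = m + w'.val := h
      exact congrArg Sum.inr (Fin.ext (by omega))
  · rintro (w | w) (w' | w') h
    · have h' : w'.val < w.val := h
      refine iff_of_true ?_ (h1 w.val w.2 w'.val h')
      show w ≠ w'
      rintro rfl
      exact lt_irrefl _ h'
    · have h' : m + w'.val < w.val := h
      have := w.2
      omega
    · exact h2 w w'
    · have h' : m + w'.val < m + w.val := h
      refine iff_of_false (fun h => h) ?_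
      have h4 := h3 w.val w.2 w'.val (by omega)
      show ¬ r (m + w.val) (m + w'.val) = true
      rw [h4]
      exact Bool.false_ne_true

theorem d17 : S_Link := by
  refine ⟨?_, ?_, ?_, ?_, ?_⟩
  · intro V G X h S hS
    apply h
    refine ims_of (fun i : Fin 5 => i.val) (fun i => i.2) (fun w w' h => Fin.ext h) ?_ hS
    intro w w' hw
    constructor
    · intro h
      exact h.1
    · intro h
      exact ⟨h, fun e => by subst e; exact lt_irrefl _ hw⟩
  · intro V G X h S hS
    refine h (ims_KA 3 3 _ (by decide) ?_ (by decide) hS)
    intro q i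
    fin_cases q <;> fin_cases i <;> first
      | exact iff_of_true (by simp) (by decide)
      | exact iff_of_false (by simp) (by decide)
  · intro V G X h S hS
    refine h (ims_KA 3 3 _ (by decide) ?_ (by decide) hS)
    intro q i
    fin_cases q <;> fin_cases i <;> first
      | exact iff_of_true (by simp) (by decide)
      | exact iff_of_false (by simp) (by decide)
  · intro V G X h S hS
    refine h (ims_KA 4 2 _ (by decide) ?_ (by decide) hS)
    intro q i
    fin_cases q <;> fin_cases i <;> first
      | exact iff_of_true (by simp) (by decide)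
      | exact iff_of_false (by simp) (by decide)
  · intro V G X h S hS
    refine h (ims_KA 4 2 _ (by decide) ?_ (by decide) hS)
    intro q i
    fin_cases q <;> fin_cases i <;> first
      | exact iff_of_true (by simp) (by decide)
      | exact iff_of_false (by simp) (by decide)

end Pool.Agent.MPd439b2.HC
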