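import Pool.Agent.Lib.MP_d439b2_co.HC.SpecD

/-!
# MP_d439b2_co, HC: D2, pendant vertices (helper50)
-/

set_option autoImplicit false

namespace Pool.Agent.MPd439b2.HC

open Pool.Agent.MPd439b2
open Pool.Agent.MPd439b2.BU

/-- **D2.** Pendant vertices. -/
theorem d2 (h8 : S_SPb) (h1 : S_Full) : S_Pend := by
  intro V _ G X C F φ u u' hX h4 hu hSR hC hu'
  obtain ⟨-, hmod, hcu, -⟩ := h8 V G X hX h4
  have hCX : ∀ c ∈ C, c ∈ X \ {u} := fun c hc => hSR.FX (hSR.cF hc)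
  have hu'X : u' ∈ X \ {u} := hCX u' hu'.1
  set M : Set V := {x | x ∈ X \ {u} ∧ φ x ≠ u'} with hM
  have hnm : ¬ Mod G X M := by
    intro hm
    rcases hmod M hm with h | h
    · have h2 : 1 < (C \ {u'}).ncard := by
        have h3 := Set.ncard_sdiff_singleton_add_one hu'.1 (Set.toFinite C)
        omega
      obtain ⟨a, b, ha, hb, hab⟩ := (Set.one_lt_ncard_iff (Set.toFinite _)).1 h2
      refine hab (h ⟨hCX a ha.1, ?_⟩ ⟨hCX b hb.1, ?_⟩)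
      · rw [hSR.fix a ha.1]
        exact ha.2
      · rw [hSR.fix b hb.1]
        exact hb.2
    · have h5 : u = u' := h ⟨hu.1, fun h6 => h6.1.2 rfl⟩
        ⟨hu'X.1, fun h6 => h6.2 (hSR.fix u' hu'.1)⟩
      exact hu'X.2 h5.symm
  have hex : ∃ y ∈ X, y ∉ M ∧ ∃ a ∈ M, ∃ b ∈ M, G.Adj y a ∧ ¬ G.Adj y b := by
    by_contra hcon
    push Not at hcon
    exact hnm ⟨fun x hx => hx.1.1, fun y hy hyM a ha b hb hya => hcon y hy hyM a ha b hb hya⟩
  obtain ⟨y, hy, hyM, a, ha, b, hb, hya, hyb⟩ := hex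
  have hyu : y ≠ u := by
    rintro rfl
    exact hyb (hu.2 b hb.1.1 hb.1.2)
  have hyX : y ∈ X \ {u} := ⟨hy, hyu⟩
  have hφy : φ y = u' := by
    by_contra h
    exact hyM ⟨hyX, h⟩
  have hyF : y ∈ F := by
    have h5 := (hSR.adj y hyX a ha.1 (by rw [hφy]; exact ha.2.symm)).1 hya
    exact h5.1
  have hbF : b ∉ F := by
    intro hbF
    refine hyb ((hSR.adj y hyX b hb.1 (by rw [hφy]; exact hb.2.symm)).2 ⟨hyF, hbF, ?_⟩)
    rw [hφy]
    exact hu'.2 _ (hSR.map b hb.1) hb.2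
  obtain ⟨d, f, hd, hdF, hdb, hfF, hfb, hdf⟩ := (h1 V G (X \ {u}) C F φ hSR (hcu u hu) b hb.1).2 hbF
  exact ⟨d, f, hd, hdF, hfF, by rw [hfb]; exact hb.2, hdb.trans hfb.symm, hdf⟩

end Pool.Agent.MPd439b2.HC
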