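import Pool.Agent.Lib.MP_d439b2_co.HC.SpecD
import Pool.Agent.Lib.MP_d439b2_co.B.Path
import Pool.Agent.Lib.MP_d439b2_co.BU.B5

/-!
# MP_d439b2_co, HC, D3: rooted triangles
-/

set_option autoImplicit false

namespace Pool.Agent.MPd439b2.HC

open Pool.Agent.MPd439b2
open Pool.Agent.MPd439b2.BU

private theorem conn_walk3 {V : Type} {G : SimpleGraph V} (p : ℕ → V) (l : ℕ)
    (h : ∀ i < l, G.Adj (p i) (p (i + 1))) : ∀ k ≤ l, Conn G {v | ∃ i ≤ k, v = p i} := by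
  intro k
  induction k with
  | zero =>
    intro _
    have e : {v | ∃ i ≤ 0, v = p i} = {p 0} := by
      ext v
      constructor
      · rintro ⟨i, hi, rfl⟩
        have : i = 0 := by omega
        subst this
        rfl
      · intro hv
        exact ⟨0, le_rfl, hv⟩
    rw [e]
    exact Conn.singleton G _
  | succ k ih =>
    intro hk
    have e : {v | ∃ i ≤ k + 1, v = p i} = insert (p (k + 1)) {v | ∃ i ≤ k, v = p i} := by
      ext v
      constructor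
      · rintro ⟨i, hi, rfl⟩
        by_cases h' : i = k + 1
        · subst h'
          exact Set.mem_insert _ _
        · exact Set.mem_insert_of_mem _ ⟨i, by omega, rfl⟩
      · rintro (rfl | ⟨i, hi, rfl⟩)
        · exact ⟨k + 1, le_rfl, rfl⟩
        · exact ⟨i, by omega, rfl⟩
    rw [e]
    exact (ih (by omega)).insert ⟨p k, ⟨k, le_rfl, rfl⟩, h k (by omega)⟩

/-- the case where the path ends in `p 0` -/
private theorem tri0 {V : Type} {G : SimpleGraph V} {Q : Set V} {q : V} {n l : ℕ} {p r : ℕ → V}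
    (hn : 4 ≤ n) (hp : IC G Q n p) (h0 : r 0 = q) (hl : r l = p 0) (hrQ : ∀ i ≤ l, r i ∈ Q)
    (hadj : ∀ i < l, G.Adj (r i) (r (i + 1))) (hY : ∀ i ≤ l, ∀ k < n, r i = p k → i = l) :
    ∃ A B C, Tri G Q q A B C := by
  have hstep : ∀ i, i + 1 < n → G.Adj (p i) (p (i + 1)) := fun i hi =>
    (hp.2.2 i (by omega) (i + 1) hi).2 (Or.inl rfl)
  refine ⟨{v | ∃ i ≤ l, v = r i}, {p 1}, {v | ∃ i ≤ n - 3, v = p (i + 2)}, ?_⟩
  refine ⟨⟨0, Nat.zero_le _, h0.symm⟩, ?_, ?_, ?_, conn_walk3 r l hadj l le_rfl,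
    Conn.singleton G _, conn_walk3 (fun i => p (i + 2)) (n - 3)
      (fun i hi => hstep (i + 2) (by omega)) (n - 3) le_rfl, ?_, ?_, ?_, ?_, ?_, ?_⟩
  · rintro v ⟨i, hi, rfl⟩
    exact hrQ i hi
  · rintro v rfl
    exact hp.1 1 (by omega)
  · rintro v ⟨i, hi, rfl⟩
    exact hp.1 (i + 2) (by omega)
  · rw [Set.disjoint_left]
    rintro v ⟨i, hi, rfl⟩ h
    have h1 : r i = p 1 := h
    have h2 := hY i hi 1 (by omega) h1
    subst h2
    have h3 := hp.2.1 0 (by omega) 1 (by omega) (hl.symm.trans h1)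
    omega
  · rw [Set.disjoint_left]
    rintro v ⟨i, hi, rfl⟩ ⟨k, hk, h1⟩
    have h2 := hY i hi (k + 2) (by omega) h1
    subst h2
    have h3 := hp.2.1 0 (by omega) (k + 2) (by omega) (hl.symm.trans h1)
    omega
  · rw [Set.disjoint_left]
    rintro v h ⟨k, hk, h1⟩
    have h2 : v = p 1 := h
    have h3 := hp.2.1 1 (by omega) (k + 2) (by omega) (h2.symm.trans h1)
    omega
  · exact ⟨r l, ⟨l, le_rfl, rfl⟩, p 1, rfl, by rw [hl]; exact hstep 0 (by omega)⟩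
  · refine ⟨r l, ⟨l, le_rfl, rfl⟩, p (n - 1), ⟨n - 3, le_rfl, ?_⟩, ?_⟩
    · exact congrArg p (by omega)
    · rw [hl]
      exact (hp.2.2 0 (by omega) (n - 1) (by omega)).2 (Or.inr (Or.inr (Or.inl ⟨rfl, by omega⟩)))
  · exact ⟨p 1, rfl, p 2, ⟨0, Nat.zero_le _, rfl⟩, hstep 1 (by omega)⟩

theorem d3 : S_Tri := by
  intro V G Q q n p hQ hq hn hp
  obtain ⟨l, r, h0, hl, hrQ, -, hadj, -, hF⟩ := path V G Q {q} {v | ∃ i < n, v = p i} hQ
    ⟨q, hq, rfl⟩ ⟨p 0, hp.1 0 (by omega), 0, by omega, rfl⟩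
  obtain ⟨j, hj, hj'⟩ := hl
  have hrot := b5.1 V G Q n j p hp hj
  refine tri0 hn hrot (show r 0 = q from h0) ?_ hrQ
    (fun i hi => (hadj i (by omega) (i + 1) (by omega)).mpr (Or.inr rfl)) ?_
  · show r l = p ((0 + j) % n)
    rw [Nat.zero_add, Nat.mod_eq_of_lt hj]
    exact hj'
  · intro i hi k _ h
    exact hF i hi ⟨(k + j) % n, Nat.mod_lt _ (by omega), h⟩

end Pool.Agent.MPd439b2.HC
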