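import Pool.Agent.Lib.MP_d439b2_co.HC.SpecD

/-!
# MP_d439b2_co, HC: the statement `S_M7` (models of `K4:0,1`)
-/

set_option autoImplicit false

namespace Pool.Agent.MPd439b2.HC

open Pool.Agent.MPd439b2
open Pool.Agent.MPd439b2.BU

/-- **D4.** -/
theorem d4 : S_M7 := by
  rintro V G Z A B C D P Q ⟨sA, sB, sC, sD, sP, sQ⟩ ⟨cA, cB, cC, cD, cP, cQ⟩
    ⟨AB, AC, AD, AP, AQ⟩ ⟨BC, BD, BP, BQ⟩ ⟨CD, CP, CQ, DP, DQ, PQ⟩
    ⟨tAB, tAC, tAD, tBC, tBD, tCD, tAP, tBQ⟩ ⟨nAQ, nBP, nCP, nCQ, nDP, nDQ, nPQ⟩ h
  refine h (fun i => if i = 0 then A else if i = 1 then B else if i = 2 then C else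
    if i = 3 then D else if i = 4 then P else Q) ⟨?_, ?_, ?_, ?_⟩
  · intro i hi
    interval_cases i
    · exact sA
    · exact sB
    · exact sC
    · exact sD
    · exact sP
    · exact sQ
  · intro i hi
    interval_cases i
    · exact cA
    · exact cB
    · exact cC
    · exact cD
    · exact cP
    · exact cQ
  · intro i hi j hj
    interval_cases i
    · omega
    · interval_cases j
      · exact AB.symm
    · interval_cases j
      · exact AC.symm
      · exact BC.symm
    · interval_cases j
      · exact AD.symm
      · exact BD.symm
      · exact CD.symm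
    · interval_cases j
      · exact AP.symm
      · exact BP.symm
      · exact CP.symm
      · exact DP.symm
    · interval_cases j
      · exact AQ.symm
      · exact BQ.symm
      · exact CQ.symm
      · exact DQ.symm
      · exact PQ.symm
  · intro i hi j hj
    have key : ∀ {S T : Set V}, ¬ Tch G S T → ¬ Tch G T S := fun h h' => h h'.symm
    interval_cases i
    · omega
    · interval_cases j
      · exact iff_of_true tAB.symm (by decide)
    · interval_cases j
      · exact iff_of_true tAC.symm (by decide)
      · exact iff_of_true tBC.symm (by decide)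
    · interval_cases j
      · exact iff_of_true tAD.symm (by decide)
      · exact iff_of_true tBD.symm (by decide)
      · exact iff_of_true tCD.symm (by decide)
    · interval_cases j
      · exact iff_of_true tAP.symm (by decide)
      · exact iff_of_false (key nBP) (by decide)
      · exact iff_of_false (key nCP) (by decide)
      · exact iff_of_false (key nDP) (by decide)
    · interval_cases j
      · exact iff_of_false (key nAQ) (by decide)
      · exact iff_of_true tBQ.symm (by decide)
      · exact iff_of_false (key nCQ) (by decide)
      · exact iff_of_false (key nDQ) (by decide)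
      · exact iff_of_false (key nPQ) (by decide)

end Pool.Agent.MPd439b2.HC
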