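import Pool.Agent.Lib.MP_d439b2_co.HC.SpecD

/-!
# MP_d439b2_co, HC, D5: replacing a vertex of a piece by a connected part of its fibre
-/

set_option autoImplicit false

namespace Pool.Agent.MPd439b2.HC

open Pool.Agent.MPd439b2
open Pool.Agent.MPd439b2.BU

theorem d5 : S_Lift := by
  intro V G X C F φ b g P hSR hb hP hPX hg hgF
  have hgb : φ g = b := (hPX hg).2
  have hadj : ∀ y ∈ C, y ≠ b → G.Adj b y → G.Adj g y := by
    intro y hy hyb h
    have h1 : φ g ≠ φ y := by
      rw [hgb, hSR.fix y hy]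
      exact hyb.symm
    refine (hSR.adj g (hPX hg).1 y (hSR.FX (hSR.cF hy)) h1).2 ⟨hgF, hSR.cF hy, ?_⟩
    rw [hgb, hSR.fix y hy]
    exact h
  have hPC : ∀ y ∈ P, y ∈ C → y = b := by
    intro y hy hyC
    rw [← hSR.fix y hyC]
    exact (hPX hy).2
  refine ⟨?_, ?_, ?_⟩
  · intro A hA hAc
    by_cases hbA : b ∈ A
    · refine ⟨⟨g, Or.inr ⟨hbA, hg⟩⟩, fun S hS hne hne' => ?_⟩
      by_cases h1 : (P ∩ S).Nonempty
      · by_cases h2 : P ∩ S = P
        · -- `P ⊆ S`
          have hPS : P ⊆ S := fun y hy => by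
            have : y ∈ P ∩ S := by
              rw [h2]
              exact hy
            exact this.2
          obtain ⟨w₀, hw₀, hw₀'⟩ : ∃ w ∈ Lf b P A, w ∉ S := by
            by_contra h
            push Not at h
            exact hne' (Set.Subset.antisymm hS h)
          obtain ⟨v, hv, w, hw, hvw⟩ := hAc.2 {y | (y ∈ S ∧ y ∈ A) ∨ y = b}
            (by
              rintro y (hy | rfl)
              · exact hy.2
              · exact hbA)
            ⟨b, Or.inr rfl⟩
            (by
              intro h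
              rcases hw₀ with hw₀ | hw₀
              · have : w₀ ∈ {y | (y ∈ S ∧ y ∈ A) ∨ y = b} := by
                  rw [h]
                  exact hw₀.1
                rcases this with h3 | h3
                · exact hw₀' h3.1
                · exact hw₀.2 h3
              · exact hw₀' (hPS hw₀.2))
          have hwb : w ≠ b := fun h => hw.2 (Or.inr h)
          have hwS : w ∉ S := fun h => hw.2 (Or.inl ⟨h, hw.1⟩)
          rcases hv with hv | hv
          · exact ⟨v, hv.1, w, ⟨Or.inl ⟨hw.1, hwb⟩, hwS⟩, hvw⟩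
          · subst hv
            exact ⟨g, hPS hg, w, ⟨Or.inl ⟨hw.1, hwb⟩, hwS⟩, hadj w (hA hw.1) hwb hvw⟩
        · obtain ⟨v, hv, w, hw, hvw⟩ := hP.2 (P ∩ S) Set.inter_subset_left h1 h2
          exact ⟨v, hv.2, w, ⟨Or.inr ⟨hbA, hw.1⟩, fun h => hw.2 ⟨hw.1, h⟩⟩, hvw⟩
      · -- `P ∩ S = ∅`
        have hPS : ∀ y ∈ P, y ∉ S := fun y hy hyS => h1 ⟨y, hy, hyS⟩
        have hSA : ∀ y ∈ S, y ∈ A ∧ y ≠ b := by
          intro y hy
          rcases hS hy with h | h
          · exact h
          · exact absurd hy (hPS y h.2)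
        obtain ⟨v, hv, w, hw, hvw⟩ := hAc.2 S (fun y hy => (hSA y hy).1) hne
          (by
            intro h
            have : b ∈ S := by
              rw [h]
              exact hbA
            exact (hSA b this).2 rfl)
        by_cases hwb : w = b
        · subst hwb
          exact ⟨v, hv, g, ⟨Or.inr ⟨hbA, hg⟩, hPS g hg⟩,
            (hadj v (hA (hSA v hv).1) (hSA v hv).2 hvw.symm).symm⟩
        · exact ⟨v, hv, w, ⟨Or.inl ⟨hw.1, hwb⟩, hw.2⟩, hvw⟩
    · have e : Lf b P A = A := by
        ext y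
        constructor
        · rintro (h | h)
          · exact h.1
          · exact absurd h.1 hbA
        · intro h
          exact Or.inl ⟨h, fun e => hbA (e ▸ h)⟩
      rw [e]
      exact hAc
  · intro A hA B hB hAB
    rw [Set.disjoint_left] at hAB ⊢
    rintro y (h | h) (h' | h')
    · exact hAB h.1 h'.1
    · exact h.2 (hPC y h'.2 (hA h.1))
    · exact h'.2 (hPC y h.2 (hB h'.1))
    · exact hAB h.1 h'.1
  · rintro A hA B hB hAB ⟨v, hv, w, hw, hvw⟩
    rw [Set.disjoint_left] at hAB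
    by_cases hvb : v = b
    · subst hvb
      have hwv : w ≠ v := fun h => hAB hv (h ▸ hw)
      exact ⟨g, Or.inr ⟨hv, hg⟩, w, Or.inl ⟨hw, hwv⟩, hadj w (hB hw) hwv hvw⟩
    · by_cases hwb : w = b
      · subst hwb
        exact ⟨v, Or.inl ⟨hv, hvb⟩, g, Or.inr ⟨hw, hg⟩, (hadj v (hA hv) hvb hvw.symm).symm⟩
      · exact ⟨v, Or.inl ⟨hv, hvb⟩, w, Or.inl ⟨hw, hwb⟩, hvw⟩

end Pool.Agent.MPd439b2.HC
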