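import Pool.Agent.Lib.MP_d439b2_co.HC.SpecD

/-!
# MP_d439b2_co, HC, D6: the pendant vertex is not at the fibre of the universal vertex
-/

set_option autoImplicit false

namespace Pool.Agent.MPd439b2.HC

open Pool.Agent.MPd439b2
open Pool.Agent.MPd439b2.BU

private theorem dsing {V : Type} {x y : V} (h : x ≠ y) : Disjoint ({x} : Set V) {y} :=
  Set.disjoint_singleton.mpr h

theorem d6 (h8 : S_SPb) (h1 : S_Full) (h2 : S_Pend) (h4 : S_M7) : S_D6 := by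
  intro V _ G Z X u x c C F φ u' hD hcu'
  have hconn : Conn G (X \ {u}) := (h8 V G X hD.spX hD.card).2.2.1 u hD.uni
  obtain ⟨z, f, hz, hzF, hfF, hfu, hzf, hadjzf⟩ := h2 V G X C F φ u u' hD.spX hD.card hD.uni
    hD.sr (le_trans (by norm_num) hD.card') hD.uni'
  obtain ⟨⟨P, g, hP, hcP, hPX, hgP, hgF⟩, -⟩ := h1 V G (X \ {u}) C F φ hD.sr hconn c
    ⟨hD.cX, hD.cu⟩
  have hPu : ∀ y ∈ P, y ∈ X \ {u} ∧ φ y = u' := fun y hy => ⟨(hPX hy).1, by rw [← hcu']; exact (hPX hy).2⟩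
  have hzu : φ z ≠ u' := by
    rw [hzf]
    exact hfu
  -- an edge of the cycle
  obtain ⟨a, b, ha, hb, hau, hbu, hac, hbc, hab⟩ : ∃ a b, a ∈ C ∧ b ∈ C ∧ a ≠ u' ∧ b ≠ u' ∧
      a ≠ φ z ∧ b ≠ φ z ∧ G.Adj a b := by
    obtain ⟨n, p, hn, hp⟩ := hD.cyc
    have hpC : ∀ i < n, p i ∈ C ∧ p i ≠ u' := fun i hi => hp.1 i hi
    by_cases h : p 0 ≠ φ z ∧ p 1 ≠ φ z
    · exact ⟨p 0, p 1, (hpC 0 (by omega)).1, (hpC 1 (by omega)).1, (hpC 0 (by omega)).2,
        (hpC 1 (by omega)).2, h.1, h.2, (hp.2.2 0 (by omega) 1 (by omega)).2 (Or.inl rfl)⟩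
    · have key : ∀ k, 2 ≤ k → k < n → p k ≠ φ z := by
        intro k hk hkn hkz
        rw [not_and_or, not_not, not_not] at h
        rcases h with h | h
        · have := hp.2.1 0 (by omega) k hkn (h.trans hkz.symm)
          omega
        · have := hp.2.1 1 (by omega) k hkn (h.trans hkz.symm)
          omega
      exact ⟨p 2, p 3, (hpC 2 (by omega)).1, (hpC 3 (by omega)).1, (hpC 2 (by omega)).2,
        (hpC 3 (by omega)).2, key 2 (by omega) (by omega), key 3 (by omega) (by omega),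
        (hp.2.2 2 (by omega) 3 (by omega)).2 (Or.inl rfl)⟩
  -- facts on the vertices of `C`
  have hCX : ∀ y ∈ C, y ∈ X \ {u} := fun y hy => hD.sr.FX (hD.sr.cF hy)
  have hCP : ∀ y ∈ C, y ≠ u' → Disjoint P {y} := by
    intro y hy hyu
    rw [Set.disjoint_singleton_right]
    intro hyP
    have := (hPu y hyP).2
    rw [hD.sr.fix y hy] at this
    exact hyu this
  have hCu : ∀ y ∈ C, G.Adj u y := fun y hy => hD.uni.2 y (hCX y hy).1 (hCX y hy).2
  have hgC : ∀ y ∈ C, y ≠ u' → G.Adj g y := by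
    intro y hy hyu
    have h5 : φ g ≠ φ y := by
      rw [(hPu g hgP).2, hD.sr.fix y hy]
      exact hyu.symm
    refine (hD.sr.adj g (hPu g hgP).1 y (hCX y hy) h5).2 ⟨hgF, hD.sr.cF hy, ?_⟩
    rw [(hPu g hgP).2, hD.sr.fix y hy]
    exact hD.uni'.2 y hy hyu
  have hCx : ∀ y ∈ C, y ≠ u' → ¬ Tch G {y} {x} := by
    intro y hy hyu h
    have h5 := (hD.pen y (hCX y hy).1).1 (tch_single.1 h).symm
    apply hyu
    rw [← hD.sr.fix y hy, h5]
    exact hcu'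
  have hCz : ∀ y ∈ X \ {u}, φ y ≠ φ z → ¬ G.Adj y z := by
    intro y hy hyz h
    exact hzF ((hD.sr.adj y hy z hz hyz).1 h).2.1
  have hxne : ∀ y ∈ X, y ≠ x := fun y hy h => hD.xX (h ▸ hy)
  have hzC : ∀ y ∈ C, y ≠ z := fun y hy h => hzF (h ▸ hD.sr.cF hy)
  have hsub : ∀ y ∈ X, ({y} : Set V) ⊆ Z := fun y hy => Set.singleton_subset_iff.2 (hD.XZ hy)
  refine h4 V G Z P {u} {a} {b} {x} {z} ⟨fun y hy => hD.XZ (hPu y hy).1.1, hsub u hD.uni.1,
    hsub a (hCX a ha).1, hsub b (hCX b hb).1, Set.singleton_subset_iff.2 hD.xZ, hsub z hz.1⟩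
    ⟨hP, Conn.singleton G _, Conn.singleton G _, Conn.singleton G _, Conn.singleton G _,
      Conn.singleton G _⟩ ⟨?_, hCP a ha hau, hCP b hb hbu, ?_, ?_⟩ ⟨?_, ?_, ?_, ?_⟩
    ⟨dsing hab.ne, ?_, ?_, ?_, ?_, ?_⟩ ⟨?_, ?_, ?_, ?_, ?_, ?_, ?_, ?_⟩
    ⟨?_, ?_, hCx a ha hau, ?_, hCx b hb hbu, ?_, ?_⟩ hD.free
  · rw [Set.disjoint_singleton_right]
    exact fun h => (hPu u h).1.2 rfl
  · rw [Set.disjoint_singleton_right]
    exact fun h => hD.xX (hPu x h).1.1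
  · rw [Set.disjoint_singleton_right]
    exact fun h => hzu (hPu z h).2
  · exact dsing (hCu a ha).ne
  · exact dsing (hCu b hb).ne
  · exact dsing (hxne u hD.uni.1)
  · exact dsing (Ne.symm hz.2)
  · exact dsing (hxne a (hCX a ha).1)
  · exact dsing (hzC a ha)
  · exact dsing (hxne b (hCX b hb).1)
  · exact dsing (hzC b hb)
  · exact dsing (hxne z hz.1).symm
  · exact ⟨c, hcP, u, rfl, (hD.uni.2 c hD.cX hD.cu).symm⟩
  · exact ⟨g, hgP, a, rfl, hgC a ha hau⟩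
  · exact ⟨g, hgP, b, rfl, hgC b hb hbu⟩
  · exact tch_single.2 (hCu a ha)
  · exact tch_single.2 (hCu b hb)
  · exact tch_single.2 hab
  · exact ⟨c, hcP, x, rfl, ((hD.pen c hD.cX).2 rfl).symm⟩
  · exact tch_single.2 (hD.uni.2 z hz.1 hz.2)
  · rintro ⟨y, hy, w, hw, h⟩
    rw [Set.mem_singleton_iff] at hw
    subst hw
    exact hCz y (hPu y hy).1 (by rw [(hPu y hy).2]; exact hzu.symm) h
  · intro h
    exact hD.cu ((hD.pen u hD.uni.1).1 (tch_single.1 h).symm).symm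
  · intro h
    exact hCz a (hCX a ha) (by rw [hD.sr.fix a ha]; exact hac) (tch_single.1 h)
  · intro h
    exact hCz b (hCX b hb) (by rw [hD.sr.fix b hb]; exact hbc) (tch_single.1 h)
  · intro h
    have h5 := (hD.pen z hz.1).1 (tch_single.1 h)
    apply hzu
    rw [h5]
    exact hcu'

end Pool.Agent.MPd439b2.HC
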