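import Pool.Agent.Lib.MP_d439b2_co.HC.SpecD

/-!
# MP_d439b2_co, HC: the statement `S_D7` (the fibre of `u'` is full)
-/

set_option autoImplicit false

namespace Pool.Agent.MPd439b2.HC

open Pool.Agent.MPd439b2
open Pool.Agent.MPd439b2.BU

theorem d7 (h8 : S_SPb) (h1 : S_Full) (h3 : S_Tri) (h5 : S_Lift) (h6 : S_D6) (h4 : S_M7) : S_D7 := by
  intro V _ G Z X u x c C F φ u' hD z₀ hz₀ hφz₀
  by_contra hz₀F
  have hb : φ c ≠ u' := h6 V G Z X u x c C F φ u' hD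
  have hΓ : Conn G (X \ {u}) := (h8 V G X hD.spX hD.card).2.2.1 u hD.uni
  have hcΓ : c ∈ X \ {u} := ⟨hD.cX, hD.cu⟩
  have hCΓ : C ⊆ X \ {u} := hD.sr.cF.trans hD.sr.FX
  have hCX : C ⊆ X := fun y hy => (hCΓ hy).1
  have hu' : u' ∈ C := hD.uni'.1
  obtain ⟨z, w, hzΓ, hzF, hφz, hwF, hφw, hzw⟩ :=
    (h1 V G (X \ {u}) C F φ hD.sr hΓ z₀ hz₀).2 hz₀F
  rw [hφz₀] at hφz hφw
  obtain ⟨P, g, hPc, hcP, hPsub, hgP, hgF⟩ := (h1 V G (X \ {u}) C F φ hD.sr hΓ c hcΓ).1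
  have hQ : Conn G (C \ {u'}) := (h8 V G C hD.spC hD.card').2.2.1 u' hD.uni'
  have hbC : φ c ∈ C := hD.sr.map c hcΓ
  obtain ⟨n, p, hn, hp⟩ := hD.cyc
  obtain ⟨A₀, A₁, A₂, hT⟩ := h3 V G (C \ {u'}) (φ c) n p hQ ⟨hbC, hb⟩ hn hp
  obtain ⟨l1, l2, l3⟩ := h5 V G (X \ {u}) C F φ (φ c) g P hD.sr hbC hPc hPsub hgP hgF
  have s0 : A₀ ⊆ C := fun y hy => (hT.sA hy).1
  have s1 : A₁ ⊆ C := fun y hy => (hT.sB hy).1
  have s2 : A₂ ⊆ C := fun y hy => (hT.sC hy).1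
  have b1 : φ c ∉ A₁ := Set.disjoint_left.1 hT.AB hT.qA
  have b2 : φ c ∉ A₂ := Set.disjoint_left.1 hT.AC hT.qA
  have hLf : ∀ A : Set V, φ c ∉ A → Lf (φ c) P A = A := by
    intro A hA
    ext y
    constructor
    · rintro (⟨hy, -⟩ | ⟨hy, -⟩)
      · exact hy
      · exact absurd hy hA
    · intro hy
      exact Or.inl ⟨hy, fun e => hA (e ▸ hy)⟩
  -- the values of `φ`
  have fC : ∀ y ∈ C \ {u'}, φ y ≠ u' := by
    intro y hy e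
    rw [hD.sr.fix y hy.1] at e
    exact hy.2 e
  have f0 : ∀ y ∈ Lf (φ c) P A₀, y ∈ X \ {u} ∧ φ y ≠ u' := by
    rintro y (⟨hy, -⟩ | ⟨-, hy⟩)
    · exact ⟨hCΓ (s0 hy), fC y (hT.sA hy)⟩
    · refine ⟨(hPsub hy).1, ?_⟩
      rw [(hPsub hy).2]
      exact hb
  have f1 : ∀ y ∈ A₁, φ y ≠ u' := fun y hy => fC y (hT.sB hy)
  have f2 : ∀ y ∈ A₂, φ y ≠ u' := fun y hy => fC y (hT.sC hy)
  have hwΓ : w ∈ X \ {u} := hD.sr.FX hwF
  -- `w` is adjacent to the elements of `C \ {u'}` and to `g`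
  have wC : ∀ y ∈ C \ {u'}, G.Adj w y := by
    intro y hy
    rw [hD.sr.adj w hwΓ y (hCΓ hy.1) (by rw [hφw]; exact (fC y hy).symm)]
    refine ⟨hwF, hD.sr.cF hy.1, ?_⟩
    rw [hφw, hD.sr.fix y hy.1]
    exact hD.uni'.2 y hy.1 hy.2
  have hgφ : φ g = φ c := (hPsub hgP).2
  have gw : G.Adj g w := by
    rw [hD.sr.adj g (hPsub hgP).1 w hwΓ (by rw [hgφ, hφw]; exact hb)]
    refine ⟨hgF, hwF, ?_⟩
    rw [hgφ, hφw]
    exact G.adj_symm (hD.uni'.2 (φ c) hbC hb)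
  -- `z` has no neighbours in other fibres
  have zN : ∀ y ∈ X \ {u}, φ y ≠ u' → ¬ G.Adj y z := by
    intro y hy hyu hyz
    exact hzF ((hD.sr.adj y hy z hzΓ (by rw [hφz]; exact hyu)).1 hyz).2.1
  have xN : ∀ y ∈ X, y ≠ c → ¬ G.Adj y x := fun y hy hyc hyx =>
    hyc ((hD.pen y hy).1 (G.adj_symm hyx))
  have gL : g ∈ Lf (φ c) P A₀ := Or.inr ⟨hT.qA, hgP⟩
  have cL : c ∈ Lf (φ c) P A₀ := Or.inr ⟨hT.qA, hcP⟩
  have c1 : ∀ y ∈ C, φ c ≠ y → y ≠ c := by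
    intro y hy hcy e
    apply hcy
    rw [← e]
    exact hD.sr.fix y hy
  refine h4 V G Z (Lf (φ c) P A₀) {w} A₁ A₂ {x} {z} ?_ ?_ ?_ ?_ ?_ ?_ ?_ hD.free
  · exact ⟨fun y hy => hD.XZ (f0 y hy).1.1, Set.singleton_subset_iff.2 (hD.XZ hwΓ.1),
      fun y hy => hD.XZ (hCX (s1 hy)), fun y hy => hD.XZ (hCX (s2 hy)),
      Set.singleton_subset_iff.2 hD.xZ, Set.singleton_subset_iff.2 (hD.XZ hzΓ.1)⟩
  · exact ⟨l1 A₀ s0 hT.cA, Conn.singleton G w, hT.cB, hT.cC, Conn.singleton G x,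
      Conn.singleton G z⟩
  · refine ⟨?_, ?_, ?_, ?_, ?_⟩
    · rw [Set.disjoint_singleton_right]
      exact fun h => (f0 w h).2 hφw
    · have := l2 A₀ s0 A₁ s1 hT.AB
      rwa [hLf A₁ b1] at this
    · have := l2 A₀ s0 A₂ s2 hT.AC
      rwa [hLf A₂ b2] at this
    · rw [Set.disjoint_singleton_right]
      exact fun h => hD.xX (f0 x h).1.1
    · rw [Set.disjoint_singleton_right]
      exact fun h => (f0 z h).2 hφz
  · refine ⟨?_, ?_, ?_, ?_⟩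
    · rw [Set.disjoint_singleton_left]
      exact fun h => f1 w h hφw
    · rw [Set.disjoint_singleton_left]
      exact fun h => f2 w h hφw
    · rw [Set.disjoint_singleton]
      exact fun e => hD.xX (e ▸ hwΓ.1)
    · rw [Set.disjoint_singleton]
      exact hzw.ne.symm
  · refine ⟨hT.BC, ?_, ?_, ?_, ?_, ?_⟩
    · rw [Set.disjoint_singleton_right]
      exact fun h => hD.xX (hCX (s1 h))
    · rw [Set.disjoint_singleton_right]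
      exact fun h => f1 z h hφz
    · rw [Set.disjoint_singleton_right]
      exact fun h => hD.xX (hCX (s2 h))
    · rw [Set.disjoint_singleton_right]
      exact fun h => f2 z h hφz
    · rw [Set.disjoint_singleton]
      exact fun e => hD.xX (e ▸ hzΓ.1)
  · refine ⟨⟨g, gL, w, rfl, gw⟩, ?_, ?_, ?_, ?_, hT.tBC, ?_, ?_⟩
    · have := l3 A₀ s0 A₁ s1 hT.AB hT.tAB
      rwa [hLf A₁ b1] at this
    · have := l3 A₀ s0 A₂ s2 hT.AC hT.tAC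
      rwa [hLf A₂ b2] at this
    · obtain ⟨y, hy⟩ := hT.cB.1
      exact ⟨w, rfl, y, hy, wC y (hT.sB hy)⟩
    · obtain ⟨y, hy⟩ := hT.cC.1
      exact ⟨w, rfl, y, hy, wC y (hT.sC hy)⟩
    · exact ⟨c, cL, x, rfl, G.adj_symm ((hD.pen c hD.cX).2 rfl)⟩
    · exact ⟨w, rfl, z, rfl, G.adj_symm hzw⟩
  · refine ⟨?_, ?_, ?_, ?_, ?_, ?_, ?_⟩
    · rintro ⟨y, hy, _, rfl, hyz⟩
      exact zN y (f0 y hy).1 (f0 y hy).2 hyz
    · rintro ⟨_, rfl, _, rfl, hwx⟩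
      refine xN _ hwΓ.1 (fun e => hb ?_) hwx
      rw [← e]
      exact hφw
    · rintro ⟨y, hy, _, rfl, hyx⟩
      exact xN y (hCX (s1 hy)) (c1 y (s1 hy) fun e => b1 (e ▸ hy)) hyx
    · rintro ⟨y, hy, _, rfl, hyz⟩
      exact zN y (hCΓ (s1 hy)) (f1 y hy) hyz
    · rintro ⟨y, hy, _, rfl, hyx⟩
      exact xN y (hCX (s2 hy)) (c1 y (s2 hy) fun e => b2 (e ▸ hy)) hyx
    · rintro ⟨y, hy, _, rfl, hyz⟩
      exact zN y (hCΓ (s2 hy)) (f2 y hy) hyz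
    · rintro ⟨_, rfl, _, rfl, hxz⟩
      refine xN _ hzΓ.1 (fun e => hb ?_) (G.adj_symm hxz)
      rw [← e]
      exact hφz

end Pool.Agent.MPd439b2.HC
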