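import Pool.Agent.Lib.MP_d439b2_co.HC.SpecD

/-!
# MP_d439b2_co, HC: D8, only the fibre of `φ c` contains vertices which are not full (helper73)
-/

set_option autoImplicit false

namespace Pool.Agent.MPd439b2.HC

open Pool.Agent.MPd439b2
open Pool.Agent.MPd439b2.BU

namespace D8Aux

variable {V : Type}

theorem lf_eq {b : V} {P A : Set V} (h : b ∉ A) : Lf b P A = A := by
  ext y
  constructor
  · rintro (⟨h1, _⟩ | ⟨h1, _⟩)
    · exact h1
    · exact absurd h1 h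
  · intro hy
    exact Or.inl ⟨hy, fun e => h (e ▸ hy)⟩

/-- a leaf is not on a long induced cycle -/
theorem leaf_cycle {G : SimpleGraph V} {Q : Set V} {b w : V} {n : ℕ} {p : ℕ → V} (hn : 4 ≤ n)
    (hp : IC G Q n p) (hb : ∀ t ∈ Q, G.Adj b t → t = w) : IC G (Q \ {b}) n p := by
  refine ⟨fun i hi => ⟨hp.1 i hi, fun e => ?_⟩, hp.2⟩
  have e' : p i = b := e
  have key : ∀ j < n, ∀ k < n, j ≠ k → G.Adj (p i) (p j) → G.Adj (p i) (p k) → False := by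
    intro j hj k hk hjk h1 h2
    rw [e'] at h1 h2
    have h3 := hb _ (hp.1 j hj) h1
    have h4 := hb _ (hp.1 k hk) h2
    exact hjk (hp.2.1 j hj k hk (h3.trans h4.symm))
  rcases Nat.eq_zero_or_pos i with h0 | h0
  · refine key 1 (by omega) (n - 1) (by omega) (by omega) ?_ ?_
    · rw [hp.2.2 i hi 1 (by omega)]; omega
    · rw [hp.2.2 i hi (n - 1) (by omega)]; omega
  · by_cases h1 : i + 1 = n
    · refine key 0 (by omega) (i - 1) (by omega) (by omega) ?_ ?_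
      · rw [hp.2.2 i hi 0 (by omega)]; omega
      · rw [hp.2.2 i hi (i - 1) (by omega)]; omega
    · refine key (i + 1) (by omega) (i - 1) (by omega) (by omega) ?_ ?_
      · rw [hp.2.2 i hi (i + 1) (by omega)]; omega
      · rw [hp.2.2 i hi (i - 1) (by omega)]; omega

end D8Aux

theorem d8 (h8 : S_SPb) (h1 : S_Full) (h3 : S_Tri) (h5 : S_Lift) (h6 : S_D6) (h7 : S_D7)
    (h4 : S_M7) : S_D8 := by
  intro V _ G Z X u x c C F φ u' h z₀ hz₀ hz₀F
  by_contra hne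
  have hcb : φ c ≠ u' := h6 V G Z X u x c C F φ u' h
  have hc'u : φ z₀ ≠ u' := fun e => hz₀F (h7 V G Z X u x c C F φ u' h z₀ hz₀ e)
  have hcX : c ∈ X \ {u} := ⟨h.cX, h.cu⟩
  have hbC : φ c ∈ C := h.sr.map c hcX
  have hc'C : φ z₀ ∈ C := h.sr.map z₀ hz₀
  have hu'C : u' ∈ C := h.uni'.1
  have hCF : ∀ y ∈ C, y ∈ F := fun y hy => h.sr.cF hy
  have hFX : ∀ y ∈ F, y ∈ X \ {u} := fun y hy => h.sr.FX hy
  have hCX : ∀ y ∈ C, y ∈ X \ {u} := fun y hy => hFX y (hCF y hy)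
  have hfix : ∀ y ∈ C, φ y = y := h.sr.fix
  have hXc : Conn G (X \ {u}) := (h8 V G X h.spX h.card).2.2.1 u h.uni
  have hCc : Conn G (C \ {u'}) := (h8 V G C h.spC h.card').2.2.1 u' h.uni'
  -- adjacency
  have nad : ∀ p ∈ X \ {u}, ∀ q ∈ X \ {u}, φ p ≠ φ q → p ∉ F → ¬ G.Adj p q := fun p hp q hq hpq hpF ha =>
    hpF ((h.sr.adj p hp q hq hpq).mp ha).1
  have adj : ∀ p ∈ F, ∀ q ∈ F, φ p ≠ φ q → G.Adj (φ p) (φ q) → G.Adj p q := fun p hp q hq hpq ha =>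
    (h.sr.adj p (hFX p hp) q (hFX q hq) hpq).mpr ⟨hp, hq, ha⟩
  have hu'a : ∀ y ∈ C, y ≠ u' → G.Adj u' y := fun y hy hyu => h.uni'.2 y hy hyu
  have hua : ∀ y ∈ X \ {u}, G.Adj u y := fun y hy => h.uni.2 y hy.1 hy.2
  have hxX : ∀ y ∈ X, y ≠ x := fun y hy e => h.xX (e ▸ hy)
  -- the vertices
  obtain ⟨z, f, hz, hzF, hφz, hf, hφf, hzf⟩ := (h1 V G (X \ {u}) C F φ h.sr hXc z₀ hz₀).2 hz₀F
  obtain ⟨P, g, hP, hcP, hPX, hgP, hgF⟩ := (h1 V G (X \ {u}) C F φ h.sr hXc c hcX).1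
  have hPφ : ∀ y ∈ P, φ y = φ c := fun y hy => (hPX hy).2
  have hPx : ∀ y ∈ P, y ∈ X \ {u} := fun y hy => (hPX hy).1
  have hφg : φ g = φ c := hPφ g hgP
  have hfX : f ∈ X \ {u} := hFX f hf
  have hφu' : φ u' = u' := hfix u' hu'C
  -- the neighbour of b
  have hex : ∃ t ∈ C \ {u'}, G.Adj (φ c) t := by
    have hcard : 3 ≤ (C \ {u'}).ncard := by
      have e1 := Set.ncard_sdiff_singleton_of_mem (s := C) hu'C
      have e2 := h.card'
      omega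
    have hne' : ({φ c} : Set V) ≠ C \ {u'} := by
      intro e
      rw [← e, Set.ncard_singleton] at hcard
      omega
    obtain ⟨b, hb, a, ha, hab⟩ := hCc.2 {φ c} (Set.singleton_subset_iff.mpr ⟨hbC, hcb⟩)
      (Set.singleton_nonempty _) hne'
    rw [Set.mem_singleton_iff.mp hb] at hab
    exact ⟨a, ha.1, hab⟩
  have hgu' : G.Adj g u' := by
    refine adj g hgF u' (hCF u' hu'C) ?_ ?_
    · rw [hφg, hφu']; exact hcb
    · rw [hφg, hφu']; exact (hu'a (φ c) hbC hcb).symm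
  have hxc : G.Adj x c := (h.pen c h.cX).mpr rfl
  have hxn : ∀ y ∈ X, y ≠ c → ¬ G.Adj x y := fun y hy hyc ha => hyc ((h.pen y hy).mp ha)
  have hzc : z ≠ c := fun e => hne (by rw [← hφz, e])
  have hzu' : z ≠ u' := fun e => hzF (e ▸ hCF u' hu'C)
  have hZ : ∀ y ∈ X, y ∈ Z := fun y hy => h.XZ hy
  have huX : u ∈ X := h.uni.1
  by_cases hcase : ∃ t ∈ C \ {u'}, G.Adj (φ c) t ∧ t ≠ φ z₀
  · -- CASE 1
    obtain ⟨t, ht, hbt, htc'⟩ := hcase
    have htC : t ∈ C := ht.1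
    have htb : t ≠ φ c := fun e => by rw [e] at hbt; exact G.irrefl hbt
    have hφt : φ t = t := hfix t htC
    have htX : t ∈ X \ {u} := hCX t htC
    have hu'X : u' ∈ X \ {u} := hCX u' hu'C
    have htc : t ≠ c := fun e => htb (by rw [← hφt, e])
    have hu'c : u' ≠ c := fun e => hcb (by rw [← e, hφu'])
    have htz : t ≠ z := fun e => hzF (e ▸ hCF t htC)
    have hgt : G.Adj g t := by
      refine adj g hgF t (hCF t htC) ?_ ?_
      · rw [hφg, hφt]; exact htb.symm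
      · rw [hφg, hφt]; exact hbt
    have dP : ∀ y, y ∉ P → Disjoint P ({y} : Set V) := fun y hy => Set.disjoint_singleton_right.mpr hy
    have ds : ∀ {y w : V}, y ≠ w → Disjoint ({y} : Set V) {w} := fun hyw =>
      Set.disjoint_singleton.mpr hyw
    have st : ∀ {y w : V}, G.Adj y w → Tch G ({y} : Set V) {w} := fun hyw => tch_single.mpr hyw
    have sn : ∀ {y w : V}, ¬ G.Adj y w → ¬ Tch G ({y} : Set V) {w} := fun hyw hT =>
      hyw (tch_single.mp hT)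
    refine h4 V G Z P {u} {u'} {t} {x} {z}
      ⟨fun y hy => hZ y (hPx y hy).1, Set.singleton_subset_iff.mpr (hZ u huX),
        Set.singleton_subset_iff.mpr (hZ u' hu'X.1), Set.singleton_subset_iff.mpr (hZ t htX.1),
        Set.singleton_subset_iff.mpr h.xZ, Set.singleton_subset_iff.mpr (hZ z hz.1)⟩
      ⟨hP, Conn.singleton G u, Conn.singleton G u', Conn.singleton G t, Conn.singleton G x,
        Conn.singleton G z⟩
      ⟨dP u fun hy => (hPx u hy).2 rfl, dP u' fun hy => hcb (by rw [← hPφ u' hy, hφu']),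
        dP t fun hy => htb (by rw [← hPφ t hy, hφt]), dP x fun hy => h.xX (hPx x hy).1,
        dP z fun hy => hne (by rw [← hφz, hPφ z hy])⟩
      ⟨ds fun e => hu'X.2 e.symm, ds fun e => htX.2 e.symm, ds (hxX u huX), ds fun e => hz.2 e.symm⟩
      ⟨ds fun e => ht.2 e.symm, ds (hxX u' hu'X.1), ds hzu'.symm, ds (hxX t htX.1), ds htz,
        ds (hxX z hz.1).symm⟩
      ⟨⟨g, hgP, u, rfl, (hua g (hPx g hgP)).symm⟩, ⟨g, hgP, u', rfl, hgu'⟩, ⟨g, hgP, t, rfl, hgt⟩,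
        st (hua u' hu'X), st (hua t htX), st (hu'a t htC ht.2), ⟨c, hcP, x, rfl, hxc.symm⟩,
        st (hua z hz)⟩
      ⟨?_, sn fun ha => hxn u huX (fun e => h.cu e.symm) ha.symm,
        sn fun ha => hxn u' hu'X.1 hu'c ha.symm, sn fun ha => ?_,
        sn fun ha => hxn t htX.1 htc ha.symm, sn fun ha => ?_, sn (hxn z hz.1 hzc)⟩ h.free
    · rintro ⟨y, hy, w, hw, ha⟩
      rw [Set.mem_singleton_iff.mp hw] at ha
      exact nad z hz y (hPx y hy) (by rw [hφz, hPφ y hy]; exact hne) hzF ha.symm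
    · exact nad z hz u' hu'X (by rw [hφz, hφu']; exact hc'u) hzF ha.symm
    · exact nad z hz t htX (by rw [hφz, hφt]; exact htc'.symm) hzF ha.symm
  · -- CASE 2
    push Not at hcase
    have hleaf : ∀ t ∈ C \ {u'}, G.Adj (φ c) t → t = φ z₀ := hcase
    obtain ⟨n, p, hn, hp⟩ := h.cyc
    have hQ : Conn G ((C \ {u'}) \ {φ c}) := by
      refine Conn.erase_leaf (u := φ z₀) hCc ?_ ⟨hbC, hcb⟩ hleaf
      obtain ⟨t, ht, hbt⟩ := hex
      intro e
      rw [e, Set.mem_singleton_iff] at ht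
      rw [ht] at hbt
      exact G.irrefl hbt
    obtain ⟨A₀, A₁, A₂, hT⟩ := h3 V G ((C \ {u'}) \ {φ c}) (φ z₀) n p hQ ⟨⟨hc'C, hc'u⟩, hne⟩ hn
      (D8Aux.leaf_cycle hn hp hleaf)
    have sC : ∀ {A : Set V}, A ⊆ (C \ {u'}) \ {φ c} → A ⊆ C := fun hA y hy => (hA hy).1.1
    have hc1 : φ z₀ ∉ A₁ := fun hy => Set.disjoint_left.mp hT.AB hT.qA hy
    have hc2 : φ z₀ ∉ A₂ := fun hy => Set.disjoint_left.mp hT.AC hT.qA hy
    obtain ⟨L1, _, L3⟩ := h5 V G (X \ {u}) C F φ (φ z₀) f {f} h.sr hc'C (Conn.singleton G f)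
      (by
        intro y hy
        rw [Set.mem_singleton_iff.mp hy]
        exact ⟨hfX, hφf⟩) rfl hf
    have hB := L1 A₀ (sC hT.sA) hT.cA
    have tB1 := L3 A₀ (sC hT.sA) A₁ (sC hT.sB) hT.AB hT.tAB
    have tB2 := L3 A₀ (sC hT.sA) A₂ (sC hT.sC) hT.AC hT.tAC
    rw [D8Aux.lf_eq hc1] at tB1
    rw [D8Aux.lf_eq hc2] at tB2
    -- properties of the sets
    have pA : ∀ {A : Set V}, A ⊆ (C \ {u'}) \ {φ c} → ∀ y ∈ A, y ∈ C ∧ y ≠ u' ∧ y ≠ φ c ∧ φ y = y :=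
      fun hA y hy => ⟨(hA hy).1.1, (hA hy).1.2, (hA hy).2, hfix y (hA hy).1.1⟩
    have pB : ∀ y ∈ Lf (φ z₀) {f} A₀, (y ∈ A₀ ∧ y ≠ φ z₀ ∧ φ y = y ∧ y ≠ u' ∧ y ≠ φ c ∧ y ∈ C) ∨
        y = f := by
      rintro y (⟨hy, hy'⟩ | ⟨_, hy⟩)
      · obtain ⟨e1, e2, e3, e4⟩ := pA hT.sA y hy
        exact Or.inl ⟨hy, hy', e4, e2, e3, e1⟩
      · exact Or.inr hy
    have hfB : f ∈ Lf (φ z₀) {f} A₀ := Or.inr ⟨hT.qA, rfl⟩
    have pBX : ∀ y ∈ Lf (φ z₀) {f} A₀, y ∈ X \ {u} ∧ y ∈ F ∧ φ y ≠ φ c ∧ φ y ≠ u' := by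
      intro y hy
      rcases pB y hy with ⟨_, _, e1, e2, e3, e4⟩ | e
      · rw [e1]; exact ⟨hCX y e4, hCF y e4, e3, e2⟩
      · rw [e, hφf]; exact ⟨hfX, hf, hne, hc'u⟩
    have pAX : ∀ {A : Set V}, A ⊆ (C \ {u'}) \ {φ c} → ∀ y ∈ A, y ∈ X \ {u} ∧ y ∈ F ∧ φ y ≠ φ c ∧
        φ y ≠ u' := by
      intro A hA y hy
      obtain ⟨e1, e2, e3, e4⟩ := pA hA y hy
      rw [e4]; exact ⟨hCX y e1, hCF y e1, e3, e2⟩
    have hu'X : u' ∈ X \ {u} := hCX u' hu'C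
    -- the first set
    have pI : ∀ y ∈ insert u' P, y ∈ X \ {u} ∧ (φ y = φ c ∨ φ y = u') := by
      intro y hy
      rcases hy with e | hy
      · rw [e]; exact ⟨hu'X, Or.inr hφu'⟩
      · exact ⟨hPx y hy, Or.inl (hPφ y hy)⟩
    have hI : Conn G (insert u' P) := hP.insert ⟨g, hgP, hgu'⟩
    have dI : ∀ {A : Set V}, (∀ y ∈ A, y ∈ X \ {u} ∧ y ∈ F ∧ φ y ≠ φ c ∧ φ y ≠ u') →
        Disjoint (insert u' P) A := by
      intro A hA
      rw [Set.disjoint_left]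
      intro y hy hyA
      rcases (pI y hy).2 with e | e
      · exact (hA y hyA).2.2.1 e
      · exact (hA y hyA).2.2.2 e
    have dz : ∀ {A : Set V}, (∀ y ∈ A, y ∈ F) → Disjoint A {z} := fun hA =>
      Set.disjoint_singleton_right.mpr fun hy => hzF (hA z hy)
    have dx : ∀ {A : Set V}, (∀ y ∈ A, y ∈ X \ {u}) → Disjoint A {x} := fun hA =>
      Set.disjoint_singleton_right.mpr fun hy => h.xX (hA x hy).1
    have nx : ∀ {A : Set V}, (∀ y ∈ A, y ∈ X \ {u} ∧ y ∈ F ∧ φ y ≠ φ c ∧ φ y ≠ u') →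
        ¬ Tch G A {x} := by
      rintro A hA ⟨y, hy, w, hw, ha⟩
      rw [Set.mem_singleton_iff.mp hw] at ha
      refine hxn y (hA y hy).1.1 (fun e => ?_) ha.symm
      exact (hA y hy).2.2.1 (by rw [e])
    have nz : ∀ {A : Set V}, A ⊆ (C \ {u'}) \ {φ c} → φ z₀ ∉ A → ¬ Tch G A {z} := by
      rintro A hA hA' ⟨y, hy, w, hw, ha⟩
      rw [Set.mem_singleton_iff.mp hw] at ha
      obtain ⟨_, _, _, e4⟩ := pA hA y hy
      refine nad z hz y (pAX hA y hy).1 ?_ hzF ha.symm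
      rw [hφz, e4]
      exact fun e => hA' (e ▸ hy)
    have tu : ∀ {A : Set V}, A ⊆ (C \ {u'}) \ {φ c} → A.Nonempty → Tch G (insert u' P) A := by
      rintro A hA ⟨y, hy⟩
      obtain ⟨e1, e2, _, _⟩ := pA hA y hy
      exact ⟨u', Or.inl rfl, y, hy, hu'a y e1 e2⟩
    refine h4 V G Z (insert u' P) (Lf (φ z₀) {f} A₀) A₁ A₂ {x} {z}
      ⟨fun y hy => hZ y (pI y hy).1.1, fun y hy => hZ y (pBX y hy).1.1,
        fun y hy => hZ y (pAX hT.sB y hy).1.1, fun y hy => hZ y (pAX hT.sC y hy).1.1,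
        Set.singleton_subset_iff.mpr h.xZ, Set.singleton_subset_iff.mpr (hZ z hz.1)⟩
      ⟨hI, hB, hT.cB, hT.cC, Conn.singleton G x, Conn.singleton G z⟩
      ⟨dI pBX, dI (pAX hT.sB), dI (pAX hT.sC), dx fun y hy => (pI y hy).1, ?_⟩
      ⟨?_, ?_, dx fun y hy => (pBX y hy).1, dz fun y hy => (pBX y hy).2.1⟩
      ⟨hT.BC, dx fun y hy => (pAX hT.sB y hy).1, dz fun y hy => (pAX hT.sB y hy).2.1,
        dx fun y hy => (pAX hT.sC y hy).1, dz fun y hy => (pAX hT.sC y hy).2.1,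
        Set.disjoint_singleton.mpr (hxX z hz.1).symm⟩
      ⟨⟨u', Or.inl rfl, f, hfB, ?_⟩, tu hT.sB hT.cB.1, tu hT.sC hT.cC.1, tB1, tB2, hT.tBC,
        ⟨c, Or.inr hcP, x, rfl, hxc.symm⟩, ⟨f, hfB, z, rfl, hzf.symm⟩⟩
      ⟨?_, nx pBX, nx (pAX hT.sB), nz hT.sB hc1, nx (pAX hT.sC), nz hT.sC hc2,
        fun hT' => hxn z hz.1 hzc (tch_single.mp hT')⟩ h.free
    · rw [Set.disjoint_singleton_right]
      intro hy
      rcases (pI z hy).2 with e | e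
      · exact hne (hφz.symm.trans e)
      · exact hc'u (hφz.symm.trans e)
    · rw [Set.disjoint_left]
      intro y hy hyA
      rcases pB y hy with ⟨e, _⟩ | e
      · exact Set.disjoint_left.mp hT.AB e hyA
      · have := (pA hT.sB y hyA).2.2.2
        rw [e, hφf] at this
        rw [e, ← this] at hyA
        exact hc1 hyA
    · rw [Set.disjoint_left]
      intro y hy hyA
      rcases pB y hy with ⟨e, _⟩ | e
      · exact Set.disjoint_left.mp hT.AC e hyA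
      · have := (pA hT.sC y hyA).2.2.2
        rw [e, hφf] at this
        rw [e, ← this] at hyA
        exact hc2 hyA
    · refine adj u' (hCF u' hu'C) f hf ?_ ?_
      · rw [hφu', hφf]; exact hc'u.symm
      · rw [hφu', hφf]; exact hu'a _ hc'C hc'u
    · rintro ⟨y, hy, w, hw, ha⟩
      rw [Set.mem_singleton_iff.mp hw] at ha
      refine nad z hz y (pI y hy).1 ?_ hzF ha.symm
      rw [hφz]
      rcases (pI y hy).2 with e | e
      · rw [e]; exact hne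
      · rw [e]; exact hc'u

end Pool.Agent.MPd439b2.HC
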