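import Pool.Agent.Lib.MP_d439b2_co.HC.SpecD

/-!
# MP_d439b2_co, HC: the statement `S_D9` (the other fibres are singletons)
-/

set_option autoImplicit false

namespace Pool.Agent.MPd439b2.HC

open Pool.Agent.MPd439b2
open Pool.Agent.MPd439b2.BU

/-- **D9.** -/
theorem d9 (h8 : S_SPb) (h : S_D8) : S_D9 := by
  intro V _ G Z X u x c C F φ u' hD z hz hzc
  have hCΓ : C ⊆ X \ {u} := hD.sr.cF.trans hD.sr.FX
  have hcΓ : c ∈ X \ {u} := ⟨hD.cX, hD.cu⟩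
  have hD8 := h V G Z X u x c C F φ u' hD
  set M : Set V := {y | y ∈ X \ {u} ∧ φ y = φ z} with hM
  have hMF : ∀ y ∈ M, y ∈ F := by
    intro y hy
    by_contra hyF
    apply hzc
    rw [← hy.2]
    exact hD8 y hy.1 hyF
  have hmod : Mod G X M := by
    refine ⟨fun y hy => hy.1.1, ?_⟩
    intro y hy hyM a ha b hb hya
    by_cases hyu : y = u
    · rw [hyu]
      exact hD.uni.2 b hb.1.1 hb.1.2
    · have hyΓ : y ∈ X \ {u} := ⟨hy, hyu⟩
      have hφ : φ y ≠ φ z := fun e => hyM ⟨hyΓ, e⟩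
      have h1 := (hD.sr.adj y hyΓ a ha.1 (by rw [ha.2]; exact hφ)).1 hya
      rw [hD.sr.adj y hyΓ b hb.1 (by rw [hb.2]; exact hφ)]
      refine ⟨h1.1, hMF b hb, ?_⟩
      rw [hb.2, ← ha.2]
      exact h1.2.2
  rcases (h8 V G X hD.spX hD.card).2.1 M hmod with h1 | h1
  · have e1 : z ∈ M := ⟨hz, rfl⟩
    have e2 : φ z ∈ M := ⟨hCΓ (hD.sr.map z hz), hD.sr.fix _ (hD.sr.map z hz)⟩
    exact h1 e2 e1
  · exfalso
    have e1 : u ∈ X \ M := ⟨hD.uni.1, fun h => h.1.2 rfl⟩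
    have hφc : φ c ∈ C := hD.sr.map c hcΓ
    have e2 : φ c ∈ X \ M := ⟨(hCΓ hφc).1, fun h => hzc (by
      have := h.2
      rw [hD.sr.fix _ hφc] at this
      exact this.symm)⟩
    exact (hCΓ hφc).2 (h1 e2 e1)

end Pool.Agent.MPd439b2.HC
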