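import Pool.Agent.Lib.MP_d439b2_co.HC.SpecE

/-!
# MP_d439b2_co, HC: task E1, one ear (helper62)
-/

set_option autoImplicit false

namespace Pool.Agent.MPd439b2.HC

open Pool.Agent.MPd439b2
open Pool.Agent.MPd439b2.BU

theorem e1 : S_E1 := by
  intro V G X n p h
  have n4 := h.n4
  have iX : ∀ i < n, p i ∈ X := h.ic.1
  have hinj := h.ic.2.1
  -- a vertex of the cycle is not complete to the cycle
  have hUC : ∀ j < n, p j ∉ UC G X n p := fun j hj hu => G.loopless.irrefl _ (hu.2 j hj)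
  have hoff : ∀ j < n, ¬ Off G X n p (p j) := fun j hj ho => ho.2.1 j hj rfl
  have hYi : ∀ i, 1 ≤ i → i < n → p i ∈ Yb G X n p := fun i h1 h2 => Or.inl ⟨i, h1, h2, rfl⟩
  have c1 : ∀ x ∈ Yb G X n p, ∀ y ∈ X, y ∉ Yb G X n p → G.Adj x y → y = p 0 ∨ y ∈ UC G X n p := by
    rintro x (⟨i, hi1, hin, rfl⟩ | ⟨ho, i, hi1, hin, hxi⟩) y hy hyY hxy
    · by_cases hyC : ∃ j < n, y = p j
      · obtain ⟨j, hj, rfl⟩ := hyC
        left
        rcases Nat.eq_zero_or_pos j with h0 | h0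
        · rw [h0]
        · exact absurd (hYi j h0 hj) hyY
      · right
        by_contra hyU
        push Not at hyC
        exact hyY (Or.inr ⟨⟨hy, hyC, hyU⟩, i, hi1, hin, hxy.symm⟩)
    · rcases (h.pen x ho i hi1 hin hxi y hy).1 hxy with e | e
      · rw [e] at hyY
        exact absurd (hYi i hi1 hin) hyY
      · exact Or.inr e
  have c2 : ∀ u ∈ UC G X n p, u ∉ Yb G X n p ∧ ∀ x ∈ Yb G X n p, G.Adj u x := by
    intro u hu
    constructor
    · rintro (⟨i, hi1, hin, rfl⟩ | ⟨ho, -⟩)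
      · exact hUC i hin hu
      · exact ho.2.2 hu
    · rintro x (⟨i, hi1, hin, rfl⟩ | ⟨ho, i, hi1, hin, hxi⟩)
      · exact hu.2 i hin
      · exact ((h.pen x ho i hi1 hin hxi u hu.1).2 (Or.inr hu)).symm
  refine ⟨c1, c2, ?_, ?_, ?_, ?_⟩
  · rintro x (⟨i, hi1, hin, rfl⟩ | ⟨ho, -⟩)
    · exact iX i hin
    · exact ho.1
  · rintro (⟨i, hi1, hin, e⟩ | ⟨ho, -⟩)
    · have := hinj 0 (by omega) i hin e
      omega
    · exact hoff 0 (by omega) ho
  · rintro x (rfl | hx) y (rfl | hy) hxy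
    · exact absurd rfl hxy
    · exact (hy.2 0 (by omega)).symm
    · exact hx.2 0 (by omega)
    · exact h.cl x hx y hy hxy
  · intro x ho i j hi1 hin hj1 hjn hxi hxj
    rcases (h.pen x ho i hi1 hin hxi (p j) (iX j hjn)).1 hxj with e | e
    · exact (hinj j hjn i hin e).symm
    · exact absurd e (hUC j hjn)

end Pool.Agent.MPd439b2.HC
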