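import Pool.Agent.Lib.MP_d439b2_co.HC.SpecE

/-!
# MP_d439b2_co, HC: the number of rows
-/

set_option autoImplicit false

namespace Pool.Agent.MPd439b2.HC

open Pool.Agent.MPd439b2
open Pool.Agent.MPd439b2.BU

namespace E11Aux

/-- if `r` factors through `ρ` on `S` then the image under `r` is not larger -/
theorem encard_image_factor {α β γ : Type} (S : Set α) (r : α → β) (ρ : α → γ) [Nonempty β]
    (h : ∀ a ∈ S, ∀ b ∈ S, ρ a = ρ b → r a = r b) : (r '' S).encard ≤ (ρ '' S).encard := by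
  classical
  let g : γ → β := fun y => if hy : ∃ a ∈ S, ρ a = y then r hy.choose else Classical.arbitrary β
  have hg : r '' S ⊆ g '' (ρ '' S) := by
    rintro _ ⟨a, ha, rfl⟩
    refine ⟨ρ a, ⟨a, ha, rfl⟩, ?_⟩
    have hy : ∃ a' ∈ S, ρ a' = ρ a := ⟨a, ha, rfl⟩
    have e : g (ρ a) = r hy.choose := dif_pos hy
    rw [e]
    exact h _ hy.choose_spec.1 a ha hy.choose_spec.2
  exact (Set.encard_le_encard hg).trans (Set.encard_image_le _ _)

end E11Aux

open E11Aux in
/-- **E11.** -/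
theorem e11 (h6 : S_E6) (h8 : S_E8) (h9 : S_E9) (h10 : S_E10) : S_E11 := by
  intro V _ G X A 𝒯 N P k hF hAX hk
  obtain ⟨k1, k2⟩ := h8 V G X A 𝒯 N P k hF hAX hk
  set A' : Set V := ⋃ y ∈ A, Hg G X 𝒯 N P y with hA'
  set r : V → Set V := fun a => (G.neighborSet a ∩ X) \ A' with hr
  set ρ : V → Set V := fun a => (G.neighborSet a ∩ Xh G X 𝒯 N P) \ A with hρ
  set I : Set (Set V) := {T | T ∈ 𝒯 ∧ P T 2 ∈ A ∧ P T 1 ∉ A} with hI
  set J : Set (Set V) := {T | T ∈ 𝒯 ∧ P T 1 ∈ A ∧ P T 2 ∉ A} with hJ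
  set Reg : Set V := {a | a ∈ A ∧ ∀ T ∈ 𝒯, P T 1 ∈ A → P T 2 ∉ A → a ≠ P T 0 ∧ a ≠ P T 1} with hReg
  have hRk : (Rw G (Xh G X 𝒯 N P) A).encard ≤ k :=
    (Set.encard_le_encard (Set.subset_insert _ _)).trans hk
  have hsub : insert ∅ (Rw G X A') ⊆ {∅} ∪ (r '' Reg ∪ ((fun T => r (P T 0)) '' J ∪
      ((fun T => r (P T 1)) '' J ∪ ((fun T => (UC G X (N T) (P T) ∪ ∅) \ A) '' I ∪
      ((fun T => (UC G X (N T) (P T) ∪ {P T 0}) \ A) '' I ∪
      ((fun T => (UC G X (N T) (P T) ∪ {P T 1}) \ A) '' I ∪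
      ((fun T => (UC G X (N T) (P T) ∪ {P T 0, P T 1}) \ A) '' I ∪
      Rw G (Xh G X 𝒯 N P) A))))))) := by
    rintro R (hR | ⟨a, ha, hRa⟩)
    · exact Or.inl hR
    · right
      have haA := ha
      rw [hA', Set.mem_iUnion₂] at haA
      obtain ⟨y, hy, h | ⟨T, hT, j1, j2, j3⟩⟩ := haA
      · -- `a ∈ A`
        by_cases hreg : a ∈ Reg
        · exact Or.inl ⟨a, hreg, hRa.symm⟩
        · right
          have hex : ∃ T ∈ 𝒯, P T 1 ∈ A ∧ P T 2 ∉ A ∧ (a = P T 0 ∨ a = P T 1) := by
            by_contra hcon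
            apply hreg
            refine ⟨by rw [h]; exact hy, fun T hT q1 q2 => ?_⟩
            constructor
            · intro q; exact hcon ⟨T, hT, q1, q2, Or.inl q⟩
            · intro q; exact hcon ⟨T, hT, q1, q2, Or.inr q⟩
          obtain ⟨T, hT, q1, q2, q | q⟩ := hex
          · left
            refine ⟨T, ⟨hT, q1, q2⟩, ?_⟩
            rw [hRa, q]
          · right; left
            refine ⟨T, ⟨hT, q1, q2⟩, ?_⟩
            rw [hRa, q]
      · -- `a` in the body of `T`
        have hT2 : P T 2 ∈ A := by rw [← j1]; exact hy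
        obtain ⟨q1, F, hFF, q2⟩ := h9 V G X A 𝒯 N P hF hAX T hT hT2 a j2 j3
        right; right; right
        by_cases hT1 : P T 1 ∈ A
        · right; right; right; right
          rw [hRa]
          exact q1 hT1
        · have hTI : T ∈ I := ⟨hT, hT2, hT1⟩
          have hRF : R = (UC G X (N T) (P T) ∪ F) \ A := by rw [hRa]; exact q2
          rcases Set.subset_pair_iff_eq.1 hFF with q | q | q | q
          · left
            exact ⟨T, hTI, by rw [hRF, q]⟩
          · right; left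
            exact ⟨T, hTI, by rw [hRF, q]⟩
          · right; right; left
            exact ⟨T, hTI, by rw [hRF, q]⟩
          · right; right; right; left
            exact ⟨T, hTI, by rw [hRF, q]⟩
  have hReg : (r '' Reg).encard ≤ k := by
    have q1 := encard_image_factor Reg r ρ (by
      intro a ha b hb hab
      exact h10 V G X A 𝒯 N P hF hAX a ha.1 b hb.1 (fun T hT q1 q2 =>
        ⟨(ha.2 T hT q1 q2).1, (ha.2 T hT q1 q2).2, (hb.2 T hT q1 q2).1, (hb.2 T hT q1 q2).2⟩) hab)
    refine q1.trans (le_trans (Set.encard_le_encard ?_) hRk)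
    rintro _ ⟨a, ha, rfl⟩
    exact ⟨a, ha.1, rfl⟩
  have hi : ∀ (f : Set V → Set V) (S : Set (Set V)), S.encard ≤ k → (f '' S).encard ≤ k :=
    fun f S h => (Set.encard_image_le _ _).trans h
  refine (Set.encard_le_encard hsub).trans ?_
  have hfin : ((8 * k + 1 : ℕ) : ℕ∞) = 1 + (k + (k + (k + (k + (k + (k + (k + k))))))) := by
    push_cast
    ring
  rw [hfin]
  refine (Set.encard_union_le _ _).trans (add_le_add (by rw [Set.encard_singleton]) ?_)
  refine (Set.encard_union_le _ _).trans (add_le_add hReg ?_)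
  refine (Set.encard_union_le _ _).trans (add_le_add (hi _ _ k2) ?_)
  refine (Set.encard_union_le _ _).trans (add_le_add (hi _ _ k2) ?_)
  refine (Set.encard_union_le _ _).trans (add_le_add (hi _ _ k1) ?_)
  refine (Set.encard_union_le _ _).trans (add_le_add (hi _ _ k1) ?_)
  refine (Set.encard_union_le _ _).trans (add_le_add (hi _ _ k1) ?_)
  exact (Set.encard_union_le _ _).trans (add_le_add (hi _ _ k1) hRk)

end Pool.Agent.MPd439b2.HC
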