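import Pool.Agent.Lib.MP_d439b2_co.HC.SpecE
import Pool.Agent.Lib.MP_d439b2_co.BU.B5

/-!
# MP_d439b2_co, HC, E2: long induced cycles and cliques
-/

set_option autoImplicit false

namespace Pool.Agent.MPd439b2.HC

open Pool.Agent.MPd439b2
open Pool.Agent.MPd439b2.BU

variable {V : Type}

private theorem e2_seg {G : SimpleGraph V} {X : Set V} {n : ℕ} {q : ℕ → V} (hq : IC G X n q)
    (s : ℕ) : ∀ k, s + k < n → Conn G {x | ∃ i, s ≤ i ∧ i ≤ s + k ∧ q i = x} := by
  intro k
  induction k with
  | zero =>
    intro _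
    have : {x | ∃ i, s ≤ i ∧ i ≤ s + 0 ∧ q i = x} = {q s} := by
      ext x
      simp only [Set.mem_setOf_eq, Set.mem_singleton_iff]
      constructor
      · rintro ⟨i, h1, h2, h3⟩
        have : i = s := by omega
        rw [← h3, this]
      · rintro rfl
        exact ⟨s, le_refl _, le_refl _, rfl⟩
    rw [this]
    exact Conn.singleton G _
  | succ k ih =>
    intro hk
    have h1 := ih (by omega)
    have h2 : {x | ∃ i, s ≤ i ∧ i ≤ s + (k + 1) ∧ q i = x} =
        insert (q (s + (k + 1))) {x | ∃ i, s ≤ i ∧ i ≤ s + k ∧ q i = x} := by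
      ext x
      simp only [Set.mem_setOf_eq, Set.mem_insert_iff]
      constructor
      · rintro ⟨i, h1, h2, h3⟩
        rcases Nat.lt_or_ge i (s + (k + 1)) with h | h
        · exact Or.inr ⟨i, h1, by omega, h3⟩
        · have : i = s + (k + 1) := by omega
          left
          rw [← h3, this]
      · rintro (rfl | ⟨i, h1, h2, h3⟩)
        · exact ⟨s + (k + 1), by omega, le_refl _, rfl⟩
        · exact ⟨i, h1, by omega, h3⟩
    rw [h2]
    refine h1.insert ⟨q (s + k), ⟨s + k, by omega, le_refl _, rfl⟩, ?_⟩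
    exact (hq.2.2 (s + k) (by omega) (s + (k + 1)) hk).2 (Or.inl (by omega))

private theorem e2_rot {n : ℕ} {q : ℕ → V} {s : ℕ} (hs : s < n) :
    Vs n (fun i => q ((i + s) % n)) = Vs n q := by
  ext x
  simp only [Vs, Set.mem_setOf_eq]
  constructor
  · rintro ⟨i, hi, h⟩
    exact ⟨(i + s) % n, Nat.mod_lt _ (by omega), h⟩
  · rintro ⟨i, hi, h⟩
    refine ⟨(i + (n - s)) % n, Nat.mod_lt _ (by omega), ?_⟩
    have : ((i + (n - s)) % n + s) % n = i := by
      rw [Nat.mod_add_mod]
      have : i + (n - s) + s = i + n := by omega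
      rw [this, Nat.add_mod_right, Nat.mod_eq_of_lt hi]
    rw [this]
    exact h

/-- the rotated situation -/
private theorem e2_fin {G : SimpleGraph V} {X Q : Set V} {n : ℕ} {q : ℕ → V} (hn : 4 ≤ n)
    (hq : IC G X n q) (s : ℕ) (hs : s ≤ 2) (h : ∀ i < n, (q i ∈ Q ↔ i < s)) :
    Conn G (Vs n q \ Q) := by
  have h1 := e2_seg hq s (n - 1 - s) (by omega)
  have h2 : Vs n q \ Q = {x | ∃ i, s ≤ i ∧ i ≤ s + (n - 1 - s) ∧ q i = x} := by
    ext x
    simp only [Vs, Set.mem_setOf_eq, Set.mem_sdiff]
    constructor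
    · rintro ⟨⟨i, hi, rfl⟩, hx⟩
      rw [h i hi] at hx
      exact ⟨i, by omega, by omega, rfl⟩
    · rintro ⟨i, hi1, hi2, rfl⟩
      have hin : i < n := by omega
      refine ⟨⟨i, hin, rfl⟩, ?_⟩
      rw [h i hin]
      omega
  rw [h2]
  exact h1

/-- **E2** -/
theorem e2 : S_E2 := by
  intro V G X Q n q hn hq hQ
  have hadj : ∀ {q : ℕ → V}, IC G X n q → ∀ i < n, ∀ j < n, i ≠ j → q i ∈ Q → q j ∈ Q →
      i + 1 = j ∨ j + 1 = i ∨ (i = 0 ∧ j + 1 = n) ∨ (j = 0 ∧ i + 1 = n) := by
    intro q hq i hi j hj hij h1 h2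
    exact (hq.2.2 i hi j hj).1 (hQ _ h1 _ h2 (fun h => hij (hq.2.1 i hi j hj h)))
  constructor
  · by_contra hcon
    push Not at hcon
    have := hadj hq 0 (by omega) 2 (by omega) (by omega) (hcon 0 (by omega)) (hcon 2 (by omega))
    omega
  · by_cases hne : ∃ j < n, q j ∈ Q
    · obtain ⟨j, hj, hjQ⟩ := hne
      -- the rotation
      obtain ⟨q', hq', hV, h0, h1⟩ : ∃ q', IC G X n q' ∧ Vs n q' = Vs n q ∧ q' 0 ∈ Q ∧
          (q' (n - 1) ∉ Q ∨ q' 1 ∈ Q) := by
        by_cases hp : q ((j + (n - 1)) % n) ∈ Q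
        · refine ⟨fun i => q ((i + (j + (n - 1)) % n) % n),
            b5.1 V G X n _ q hq (Nat.mod_lt _ (by omega)), e2_rot (Nat.mod_lt _ (by omega)), ?_,
            Or.inr ?_⟩
          · simpa using hp
          · have : (1 + (j + (n - 1)) % n) % n = j := by
              rw [Nat.add_mod_mod]
              have : 1 + (j + (n - 1)) = j + n := by omega
              rw [this, Nat.add_mod_right, Nat.mod_eq_of_lt hj]
            simpa only [this] using hjQ
        · refine ⟨fun i => q ((i + j) % n), b5.1 V G X n _ q hq hj, e2_rot hj, ?_, Or.inl ?_⟩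
          · have : (0 + j) % n = j := by rw [Nat.zero_add, Nat.mod_eq_of_lt hj]
            simpa only [this] using hjQ
          · have : (n - 1 + j) = j + (n - 1) := by omega
            simpa only [this] using hp
      rw [← hV]
      by_cases h2 : q' 1 ∈ Q
      · refine e2_fin hn hq' 2 (le_refl _) fun i hi => ?_
        constructor
        · intro hiQ
          by_contra hcon
          have a1 := hadj hq' i hi 0 (by omega) (by omega) hiQ h0
          have a2 := hadj hq' i hi 1 (by omega) (by omega) hiQ h2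
          omega
        · intro h
          rcases (by omega : i = 0 ∨ i = 1) with rfl | rfl
          · exact h0
          · exact h2
      · have h3 : q' (n - 1) ∉ Q := h1.resolve_right h2
        refine e2_fin hn hq' 1 (by omega) fun i hi => ?_
        constructor
        · intro hiQ
          by_contra hcon
          have a1 := hadj hq' i hi 0 (by omega) (by omega) hiQ h0
          have : i = 1 ∨ i = n - 1 := by omega
          rcases this with rfl | rfl
          · exact h2 hiQ
          · exact h3 hiQ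
        · intro h
          have : i = 0 := by omega
          rw [this]
          exact h0
    · push Not at hne
      refine e2_fin hn hq 0 (by omega) fun i hi => ?_
      exact ⟨fun h => absurd h (hne i hi), fun h => by omega⟩

end Pool.Agent.MPd439b2.HC
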