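import Pool.Agent.Lib.MP_d439b2_co.HC.SpecE

/-!
# MP_d439b2_co, HC: other long cycles avoid the body of an ear
-/

set_option autoImplicit false

namespace Pool.Agent.MPd439b2.HC

open Pool.Agent.MPd439b2
open Pool.Agent.MPd439b2.BU

namespace E3Aux

variable {V : Type} {G : SimpleGraph V} {X : Set V}

/-- a cycle which is contained in another one is equal to it -/
theorem cycle_subset {n m : ℕ} {p q : ℕ → V} (hn : 4 ≤ n) (hm : 4 ≤ m) (hp : IC G X n p)
    (hq : IC G X m q) (h : Vs m q ⊆ Vs n p) : Vs m q = Vs n p := by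
  apply Set.Subset.antisymm h
  -- closed under successors
  have hsucc : ∀ i < n, p i ∈ Vs m q → p (if i + 1 < n then i + 1 else 0) ∈ Vs m q := by
    rintro i hi ⟨j, hj, hji⟩
    -- the two neighbours of `q j`
    have hj1 : (if j + 1 < m then j + 1 else 0) < m := by split_ifs <;> omega
    have hj2 : (if j = 0 then m - 1 else j - 1) < m := by split_ifs <;> omega
    obtain ⟨a, ha, hqa⟩ := h ⟨_, hj1, rfl⟩
    obtain ⟨b, hb, hqb⟩ := h ⟨_, hj2, rfl⟩
    have adj1 : G.Adj (q j) (q (if j + 1 < m then j + 1 else 0)) := by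
      rw [hq.2.2 j hj _ hj1]
      split_ifs <;> omega
    have adj2 : G.Adj (q j) (q (if j = 0 then m - 1 else j - 1)) := by
      rw [hq.2.2 j hj _ hj2]
      split_ifs <;> omega
    have hab : a ≠ b := by
      rintro rfl
      have h1 := hq.2.1 _ hj1 _ hj2 (hqa.symm.trans hqb)
      split_ifs at h1 <;> omega
    rw [hji, ← hqa, hp.2.2 i hi a ha] at adj1
    rw [hji, ← hqb, hp.2.2 i hi b hb] at adj2
    have hs : a = (if i + 1 < n then i + 1 else 0) ∨ b = (if i + 1 < n then i + 1 else 0) := by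
      split_ifs <;> omega
    rcases hs with hs | hs
    · rw [← hs]
      exact ⟨_, hj1, hqa.symm⟩
    · rw [← hs]
      exact ⟨_, hj2, hqb.symm⟩
  -- a start
  obtain ⟨i₀, hi₀, hpi₀⟩ := h ⟨0, by omega, rfl⟩
  have hstart : p i₀ ∈ Vs m q := by rw [hpi₀]; exact ⟨0, by omega, rfl⟩
  have h1 : ∀ d, i₀ + d < n → p (i₀ + d) ∈ Vs m q := by
    intro d
    induction d with
    | zero => intro _; exact hstart
    | succ d ih =>
      intro hd
      have := hsucc (i₀ + d) (by omega) (ih (by omega))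
      rw [if_pos (by omega)] at this
      exact this
  have h0 : p 0 ∈ Vs m q := by
    have h2 := h1 (n - 1 - i₀) (by omega)
    have h3 := hsucc (i₀ + (n - 1 - i₀)) (by omega) h2
    rw [if_neg (by omega)] at h3
    exact h3
  have h2 : ∀ d, d < n → p d ∈ Vs m q := by
    intro d
    induction d with
    | zero => intro _; exact h0
    | succ d ih =>
      intro hd
      have := hsucc d (by omega) (ih (by omega))
      rw [if_pos (by omega)] at this
      exact this
  rintro x ⟨i, hi, rfl⟩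
  exact h2 i hi

end E3Aux

open E3Aux in
/-- **E3.** -/
theorem e3 (h1 : S_E1) (h2 : S_E2) : S_E3 := by
  intro V G X n m p q hear hm hq hne j₀ hj₀ hj₀Y
  obtain ⟨g1, g2, g3, g4, g5, g6⟩ := h1 V G X n p hear
  obtain ⟨_, hconn⟩ := h2 V G X (insert (p 0) (UC G X n p)) m q hm hq g5
  have hQY : ∀ x ∈ Yb G X n p, x ∉ insert (p 0) (UC G X n p) := by
    rintro x hx (h | h)
    · rw [h] at hx; exact g4 hx
    · exact (g2 x h).1 hx
  -- all of the cycle is in `Y ∪ Q`
  have hall : ∀ j < m, q j ∈ Yb G X n p ∨ q j ∈ insert (p 0) (UC G X n p) := by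
    intro j hj
    by_contra hcon
    push Not at hcon
    obtain ⟨b, hb, a, ha, hba⟩ := hconn.2
      {x | x ∈ Vs m q \ insert (p 0) (UC G X n p) ∧ x ∈ Yb G X n p} (fun x hx => hx.1)
      ⟨q j₀, ⟨⟨j₀, hj₀, rfl⟩, hQY _ hj₀Y⟩, hj₀Y⟩ (by
        intro h
        have h3 : q j ∈ Vs m q \ insert (p 0) (UC G X n p) := ⟨⟨j, hj, rfl⟩, hcon.2⟩
        rw [← h] at h3
        exact hcon.1 h3.2)
    have haX : a ∈ X := by
      obtain ⟨i, hi, rfl⟩ := ha.1.1
      exact hq.1 i hi
    have haY : a ∉ Yb G X n p := fun h => ha.2 ⟨ha.1, h⟩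
    rcases g1 b hb.2 a haX haY hba with h | h
    · exact ha.1.2 (Or.inl h)
    · exact ha.1.2 (Or.inr h)
  -- (a)
  have hnoU : ∀ j < m, q j ∉ UC G X n p := by
    intro j hj hU
    have hj' : (if j + 2 < m then j + 2 else j + 2 - m) < m := by split_ifs <;> omega
    have hne' : q j ≠ q (if j + 2 < m then j + 2 else j + 2 - m) := by
      intro h
      have h3 := hq.2.1 j hj _ hj' h
      split_ifs at h3 <;> omega
    have hnadj : ¬ G.Adj (q j) (q (if j + 2 < m then j + 2 else j + 2 - m)) := by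
      rw [hq.2.2 j hj _ hj']
      split_ifs <;> omega
    rcases hall _ hj' with h | h
    · exact hnadj ((g2 _ hU).2 _ h)
    · exact hnadj (g5 _ (Or.inr hU) _ h hne')
  -- (b)
  have hnopen : ∀ j < m, ¬ (Off G X n p (q j) ∧ ∃ i, 1 ≤ i ∧ i < n ∧ G.Adj (q j) (p i)) := by
    rintro j hj ⟨hoff, i, hi1, hi2, hadj⟩
    have hpen := hear.pen (q j) hoff i hi1 hi2 hadj
    have hj1 : (if j + 1 < m then j + 1 else 0) < m := by split_ifs <;> omega
    have hj2 : (if j = 0 then m - 1 else j - 1) < m := by split_ifs <;> omega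
    have adj1 : G.Adj (q j) (q (if j + 1 < m then j + 1 else 0)) := by
      rw [hq.2.2 j hj _ hj1]
      split_ifs <;> omega
    have adj2 : G.Adj (q j) (q (if j = 0 then m - 1 else j - 1)) := by
      rw [hq.2.2 j hj _ hj2]
      split_ifs <;> omega
    have e1 := (hpen _ (hq.1 _ hj1)).1 adj1
    have e2 := (hpen _ (hq.1 _ hj2)).1 adj2
    rcases e1 with e1 | e1
    · rcases e2 with e2 | e2
      · have h3 := hq.2.1 _ hj1 _ hj2 (e1.trans e2.symm)
        split_ifs at h3 <;> omega
      · exact hnoU _ hj2 e2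
    · exact hnoU _ hj1 e1
  -- the cycle is contained in the other one
  apply hne
  apply cycle_subset hear.n4 hm hear.ic hq
  rintro x ⟨j, hj, rfl⟩
  rcases hall j hj with (⟨i, hi1, hi2, h⟩ | h) | (h | h)
  · exact ⟨i, hi2, h.symm⟩
  · exact absurd h (hnopen j hj)
  · have := hear.n4
    exact ⟨0, by omega, h.symm⟩
  · exact absurd h (hnoU j hj)

end Pool.Agent.MPd439b2.HC
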