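import Pool.Agent.Lib.MP_d439b2_co.HC.SpecE

/-!
# MP_d439b2_co, HC: task E4, different ears are disjoint and anticomplete (helper62)
-/

set_option autoImplicit false

namespace Pool.Agent.MPd439b2.HC

open Pool.Agent.MPd439b2
open Pool.Agent.MPd439b2.BU

namespace E4Aux

theorem key (h1 : S_E1) (h2 : S_E2) {V : Type} {G : SimpleGraph V} {X : Set V} {n m : ℕ} {p q : ℕ → V}
    (hp : EarS G X n p) (hq : EarS G X m q) (H1 : ∀ j < m, q j ∉ Yb G X n p) {u : V}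
    (hu : u ∈ Yb G X n p) (hu' : u ∈ UC G X m q) : False := by
  obtain ⟨c1, -, -, -, c5, -⟩ := h1 V G X n p hp
  obtain ⟨⟨j, hj, hjQ⟩, -⟩ := h2 V G X (insert (p 0) (UC G X n p)) m q hq.n4 hq.ic c5
  exact hjQ (c1 u hu (q j) (hq.ic.1 j hj) (H1 j hj) (hu'.2 j hj))

end E4Aux

theorem e4 (h1 : S_E1) (h2 : S_E2) (h3 : S_E3) : S_E4 := by
  intro V G X n m p q hp hq hne
  have H1 : ∀ j < m, q j ∉ Yb G X n p := h3 V G X n m p q hp hq.n4 hq.ic hne
  have H2 : ∀ j < n, p j ∉ Yb G X m q := h3 V G X m n q p hq hp.n4 hp.ic hne.symm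
  have K1 : ∀ u, u ∈ Yb G X n p → u ∈ UC G X m q → False := fun u => E4Aux.key h1 h2 hp hq H1
  have K2 : ∀ u, u ∈ Yb G X m q → u ∈ UC G X n p → False := fun u => E4Aux.key h1 h2 hq hp H2
  have D : ∀ z, z ∈ Yb G X n p → z ∈ Yb G X m q → False := by
    intro z hz hz'
    rcases hz with ⟨i, hi1, hin, rfl⟩ | ⟨ho, i, hi1, hin, hzi⟩
    · exact H2 i hin hz'
    · rcases hz' with ⟨j, hj1, hjm, rfl⟩ | ⟨ho', j, hj1, hjm, hzj⟩
      · exact H1 j hjm (Or.inr ⟨ho, i, hi1, hin, hzi⟩)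
      · rcases (hq.pen z ho' j hj1 hjm hzj (p i) (hp.ic.1 i hin)).1 hzi with e | e
        · exact H2 i hin (Or.inl ⟨j, hj1, hjm, e⟩)
        · exact K1 (p i) (Or.inl ⟨i, hi1, hin, rfl⟩) e
  refine ⟨Set.disjoint_left.2 fun z hz hz' => D z hz hz', ?_, H2⟩
  intro x hx y hy hxy
  obtain ⟨c1, -, -, -, -, -⟩ := h1 V G X n p hp
  have hyX : y ∈ X := (h1 V G X m q hq).2.2.1 hy
  rcases c1 x hx y hyX (fun hy' => D y hy' hy) hxy with e | e
  · rw [e] at hy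
    exact H2 0 (by have := hp.n4; omega) hy
  · exact K2 y hy e

end Pool.Agent.MPd439b2.HC
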