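import Pool.Agent.Lib.MP_d439b2_co.HC.SpecE

/-!
# MP_d439b2_co, HC: E5, the family of all ears

`S_E5` as it was written in `SpecE` is false for the empty type `V` (there is no `P : Set V → ℕ → V`, but
`AllEar G X` holds), so here is the statement for nonempty `V`.
-/

set_option autoImplicit false

namespace Pool.Agent.MPd439b2.HC

open Pool.Agent.MPd439b2
open Pool.Agent.MPd439b2.BU

/-- `S_E5` for nonempty `V` -/
def S_E5' : Prop := ∀ (V : Type) [Nonempty V] (G : SimpleGraph V) (X : Set V), AllEar G X →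
  ∃ (𝒯 : Set (Set V)) (N : Set V → ℕ) (P : Set V → ℕ → V), Fam G X 𝒯 N P

theorem e5' (h1 : S_E1) (h4 : S_E4) : S_E5' := by
  classical
  intro V hV G X hE
  have hch : ∀ T : Set V, ∃ z : ℕ × (ℕ → V),
      (∃ n p, 4 ≤ n ∧ IC G X n p ∧ T = Vs n p) → EarS G X z.1 z.2 ∧ Vs z.1 z.2 = T := by
    intro T
    by_cases hT : ∃ n p, 4 ≤ n ∧ IC G X n p ∧ T = Vs n p
    · obtain ⟨n, p, hn, hp, rfl⟩ := hT
      obtain ⟨p', hp', he⟩ := hE n p hn hp
      exact ⟨(n, p'), fun _ => ⟨he, hp'⟩⟩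
    · exact ⟨(0, fun _ => Classical.arbitrary V), fun h => absurd h hT⟩
  choose z hz using hch
  have hne : ∀ T ∈ {T | ∃ n p, 4 ≤ n ∧ IC G X n p ∧ T = Vs n p},
      ∀ T' ∈ {T | ∃ n p, 4 ≤ n ∧ IC G X n p ∧ T = Vs n p}, T ≠ T' →
      Vs (z T').1 (z T').2 ≠ Vs (z T).1 (z T).2 := by
    intro T hT T' hT' hne h
    rw [(hz T hT).2, (hz T' hT').2] at h
    exact hne h.symm
  refine ⟨{T | ∃ n p, 4 ≤ n ∧ IC G X n p ∧ T = Vs n p}, fun T => (z T).1, fun T => (z T).2,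
    ?_, ?_, ?_, ?_, ?_⟩
  · intro T hT
    exact (hz T hT).1
  · intro T hT T' hT' h
    exact (h4 V G X _ _ _ _ (hz T hT).1 (hz T' hT').1 (hne T hT T' hT' h)).1
  · intro T hT T' hT' h
    exact (h4 V G X _ _ _ _ (hz T hT).1 (hz T' hT').1 (hne T hT T' hT' h)).2.1
  · intro T hT T' hT'
    by_cases h : T = T'
    · subst h
      exact (h1 V G X _ _ (hz T hT).1).2.2.2.1
    · exact (h4 V G X _ _ _ _ (hz T hT).1 (hz T' hT').1 (hne T hT T' hT' h)).2.2 0
        (by have := (hz T hT).1.n4; omega)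
  · intro m hm q hq
    have hq' : IC G X m q := hq.mono Set.sdiff_subset
    have hT : Vs m q ∈ {T | ∃ n p, 4 ≤ n ∧ IC G X n p ∧ T = Vs n p} := ⟨m, q, hm, hq', rfl⟩
    obtain ⟨he, hv⟩ := hz _ hT
    have h4' := he.n4
    have h3 : (z (Vs m q)).2 3 ∈ Vs (z (Vs m q)).1 (z (Vs m q)).2 := ⟨3, by omega, rfl⟩
    rw [hv] at h3
    obtain ⟨i, hi, hi'⟩ := h3
    have h5 := hq.1 i hi
    rw [hi'] at h5
    refine h5.2 ⟨_, hT, Or.inl ⟨3, by omega, by omega, rfl⟩, ?_, ?_⟩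
    · intro h
      have := he.ic.2.1 3 (by omega) 1 (by omega) h
      omega
    · intro h
      have := he.ic.2.1 3 (by omega) 2 (by omega) h
      omega

end Pool.Agent.MPd439b2.HC
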