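import Pool.Agent.Lib.MP_d439b2_co.HC.SpecE

/-!
# MP_d439b2_co, HC: membership in the core (E6)
-/

set_option autoImplicit false

namespace Pool.Agent.MPd439b2.HC

open Pool.Agent.MPd439b2 Pool.Agent.MPd439b2.BU

namespace E6x

variable {V : Type} {G : SimpleGraph V} {X : Set V} {𝒯 : Set (Set V)} {N : Set V → ℕ}
  {P : Set V → ℕ → V}

theorem memY {T : Set V} (i : ℕ) (h1 : 1 ≤ i) (h2 : i < N T) : P T i ∈ Yb G X (N T) (P T) :=
  Or.inl ⟨i, h1, h2, rfl⟩

/-- vertices of `X` in no body, or equal to `P T 1` or `P T 2`, are in the core -/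
theorem memXh {x : V} (hx : x ∈ X)
    (h : ∀ T ∈ 𝒯, x ∈ Yb G X (N T) (P T) → x = P T 1 ∨ x = P T 2) : x ∈ Xh G X 𝒯 N P := by
  refine ⟨hx, ?_⟩
  rintro ⟨T, hT, h1, h2, h3⟩
  rcases h T hT h1 with h4 | h4
  · exact h2 h4
  · exact h3 h4

theorem xhY {x : V} (hx : x ∈ Xh G X 𝒯 N P) {T : Set V} (hT : T ∈ 𝒯)
    (h : x ∈ Yb G X (N T) (P T)) : x = P T 1 ∨ x = P T 2 := by
  by_contra hc
  rw [not_or] at hc
  exact hx.2 ⟨T, hT, h, hc.1, hc.2⟩

theorem same (hF : Fam G X 𝒯 N P) {T T' : Set V} (hT : T ∈ 𝒯) (hT' : T' ∈ 𝒯) {x : V}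
    (h : x ∈ Yb G X (N T) (P T)) (h' : x ∈ Yb G X (N T') (P T')) : T = T' := by
  by_contra hne
  exact Set.disjoint_left.mp (hF.dis T hT T' hT' hne) h h'

end E6x

open E6x in
theorem e6 (h1 : S_E1) : S_E6 := by
  intro V G X 𝒯 N P hF
  have core : ∀ T ∈ 𝒯, P T 0 ∈ Xh G X 𝒯 N P ∧ P T 1 ∈ Xh G X 𝒯 N P ∧ P T 2 ∈ Xh G X 𝒯 N P ∧
      UC G X (N T) (P T) ⊆ Xh G X 𝒯 N P := by
    intro T hT
    have hE := hF.ear T hT
    have hn4 := hE.n4
    refine ⟨memXh (hE.ic.1 0 (by omega)) fun T' hT' h => absurd h (hF.p0 T hT T' hT'), ?_, ?_, ?_⟩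
    · refine memXh (hE.ic.1 1 (by omega)) fun T' hT' h => ?_
      obtain rfl := same hF hT hT' (memY 1 le_rfl (by omega)) h
      exact Or.inl rfl
    · refine memXh (hE.ic.1 2 (by omega)) fun T' hT' h => ?_
      obtain rfl := same hF hT hT' (memY 2 (by omega) (by omega)) h
      exact Or.inr rfl
    · intro u hu
      refine memXh hu.1 fun T' hT' h => ?_
      exfalso
      by_cases he : T' = T
      · subst he
        exact ((h1 V G X (N T') (P T') hE).2.1 u hu).1 h
      · exact hF.nad T' hT' T hT he u h (P T 1) (memY 1 le_rfl (by omega)) (hu.2 1 (by omega))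
  refine ⟨core, ?_, ?_, ?_, ?_⟩
  · intro T hT T' hT' h
    have hn4 := (hF.ear T hT).n4
    have hn4' := (hF.ear T' hT').n4
    refine same hF hT hT' (memY 2 (by omega) (by omega)) ?_
    rw [h]
    exact memY 2 (by omega) (by omega)
  · intro T hT y hy
    have hE := hF.ear T hT
    have hn4 := hE.n4
    obtain ⟨hic1, hic2, hic3⟩ := hE.ic
    -- the neighbours of `P T i` in the core
    have key : ∀ i, 1 ≤ i → i < N T → G.Adj (P T i) y →
        y ∈ UC G X (N T) (P T) ∨ ∃ j < N T, y = P T j := by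
      intro i hi1 hi2 h
      by_contra hc
      rw [not_or] at hc
      have ho : Off G X (N T) (P T) y := ⟨hy.1, fun j hj e => hc.2 ⟨j, hj, e⟩, hc.1⟩
      rcases xhY hy hT (Or.inr ⟨ho, i, hi1, hi2, h.symm⟩) with h2 | h2
      · exact ho.2.1 1 (by omega) h2
      · exact ho.2.1 2 (by omega) h2
    constructor
    · constructor
      · intro h
        rcases key 2 (by omega) (by omega) h with h2 | ⟨j, hj, rfl⟩
        · exact Or.inr h2
        · rw [hic3 2 (by omega) j hj] at h
          have hj' : j = 1 ∨ j = 3 := by omega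
          rcases hj' with rfl | rfl
          · exact Or.inl rfl
          · rcases xhY hy hT (memY 3 (by omega) hj) with h3 | h3
            · have := hic2 3 hj 1 (by omega) h3
              omega
            · have := hic2 3 hj 2 (by omega) h3
              omega
      · rintro (rfl | h)
        · rw [hic3 2 (by omega) 1 (by omega)]
          omega
        · exact (h.2 2 (by omega)).symm
    · constructor
      · intro h
        rcases key 1 (by omega) (by omega) h with h2 | ⟨j, hj, rfl⟩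
        · exact Or.inr (Or.inr h2)
        · rw [hic3 1 (by omega) j hj] at h
          have hj' : j = 0 ∨ j = 2 := by omega
          rcases hj' with rfl | rfl
          · exact Or.inl rfl
          · exact Or.inr (Or.inl rfl)
      · rintro (rfl | rfl | h)
        · rw [hic3 1 (by omega) 0 (by omega)]
          omega
        · rw [hic3 1 (by omega) 2 (by omega)]
          omega
        · exact (h.2 1 (by omega)).symm
  · intro y hy z hz hyz
    rw [Set.disjoint_left]
    rintro x (rfl | ⟨T, hT, h2, h3, h4⟩) (rfl | ⟨T', hT', h2', h3', h4'⟩)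
    · exact hyz rfl
    · rcases xhY hy hT' h3' with h5 | h5
      · exact h4' h5
      · exact hyz (h5.trans h2'.symm)
    · rcases xhY hz hT h3 with h5 | h5
      · exact h4 h5
      · exact hyz (h2.trans h5.symm)
    · obtain rfl := same hF hT hT' h3 h3'
      exact hyz (h2.trans h2'.symm)
  · ext x
    simp only [Set.mem_iUnion, exists_prop]
    constructor
    · rintro ⟨y, hy, rfl | ⟨T, hT, -, h3, -⟩⟩
      · exact hy.1
      · exact (h1 V G X (N T) (P T) (hF.ear T hT)).2.2.1 h3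
    · intro hx
      by_cases hxh : x ∈ Xh G X 𝒯 N P
      · exact ⟨x, hxh, Or.inl rfl⟩
      · have h2 : ∃ T ∈ 𝒯, x ∈ Yb G X (N T) (P T) ∧ x ≠ P T 1 ∧ x ≠ P T 2 := by
          by_contra hc
          exact hxh ⟨hx, hc⟩
        obtain ⟨T, hT, h3, h4, -⟩ := h2
        exact ⟨P T 2, (core T hT).2.2.1, Or.inr ⟨T, hT, rfl, h3, h4⟩⟩

end Pool.Agent.MPd439b2.HC
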