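import Pool.Agent.Lib.MP_d439b2_co.HC.SpecE

/-!
# MP_d439b2_co, HC: the layout of one ear (E7)
-/

set_option autoImplicit false

namespace Pool.Agent.MPd439b2.HC

open Pool.Agent.MPd439b2 Pool.Agent.MPd439b2.BU

namespace E7x

variable {V : Type}

/-- the initial part of the body -/
def Sm (G : SimpleGraph V) (X : Set V) (n : ℕ) (p : ℕ → V) (m : ℕ) : Set V :=
  {x | (∃ i, 2 ≤ i ∧ i < m ∧ x = p i) ∨ (Off G X n p x ∧ ∃ i, 1 ≤ i ∧ i < m ∧ G.Adj x (p i))}

theorem enc_ins {α : Type} {s : Set α} {k : ℕ} (a : α) (h : s.encard ≤ k) :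
    (insert a s).encard ≤ (k + 1 : ℕ) :=
  (Set.encard_insert_le _ _).trans (by push_cast; gcongr)

theorem ins {R : Set V → Prop} {A : Set V} {v : V} (hA : LT R A) (h : R (insert v A)) :
    LT R (insert v A) := by
  by_cases hv : v ∈ A
  · rwa [Set.insert_eq_of_mem hv]
  · exact hA.insert hv h

/-- growing by several vertices -/
theorem grow [Finite V] {R : Set V → Prop} {B : Set V} : ∀ (k : ℕ) (A : Set V), (B \ A).ncard = k →
    LT R A → A ⊆ B → (∀ D, A ⊆ D → D ⊆ B → R D) → LT R B := by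
  intro k
  induction k with
  | zero =>
    intro A hk hA hAB _
    rw [Set.ncard_eq_zero, Set.sdiff_eq_empty] at hk
    rwa [Set.Subset.antisymm hk hAB]
  | succ k ih =>
    intro A hk hA hAB h
    obtain ⟨v, hv⟩ : (B \ A).Nonempty := by
      rw [← Set.ncard_pos]
      omega
    have hins : insert v A ⊆ B := Set.insert_subset hv.1 hAB
    refine ih (insert v A) ?_ (ins hA (h _ (Set.subset_insert v A) hins)) hins
      fun D hD => h D ((Set.subset_insert v A).trans hD)
    have h1 : B \ insert v A = (B \ A) \ {v} := by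
      ext z
      simp only [Set.mem_sdiff, Set.mem_insert_iff, Set.mem_singleton_iff]
      tauto
    rw [h1, Set.ncard_sdiff_singleton_of_mem hv]
    omega

variable {G : SimpleGraph V} {X : Set V} {n : ℕ} {p : ℕ → V}

/-- there is at most one pendant vertex at `p i` -/
theorem pend (hE : EarS G X n p) (i : ℕ) (h1 : 1 ≤ i) (h2 : i < n) :
    ∃ x₀, ∀ x, Off G X n p x → G.Adj x (p i) → x = x₀ := by
  by_cases h : ∃ x, Off G X n p x ∧ G.Adj x (p i)
  · obtain ⟨x₀, h3, h4⟩ := h
    exact ⟨x₀, fun x hx hxi => hE.uniq x hx x₀ h3 i h1 h2 hxi h4⟩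
  · exact ⟨p 0, fun x hx hxi => absurd ⟨x, hx, hxi⟩ h⟩

theorem uc_not {m : ℕ} (hm : m ≤ n) {u : V} (hu : u ∈ UC G X n p) : u ∉ Sm G X n p m := by
  rintro (⟨i, -, hi, rfl⟩ | ⟨ho, -⟩)
  · exact (hu.2 i (by omega)).ne rfl
  · exact ho.2.2 hu

/-- the rows -/
theorem rows (hE : EarS G X n p) {m : ℕ} (hm : m < n) {D : Set V} (h1 : Sm G X n p m ⊆ D)
    (h2 : D ⊆ Sm G X n p (m + 1)) : (insert ∅ (Rw G X D)).encard ≤ (10 : ℕ) := by
  have hn4 := hE.n4
  obtain ⟨hic1, hic2, hic3⟩ := hE.ic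
  obtain ⟨x₁, hx₁⟩ := pend hE 1 le_rfl (by omega)
  obtain ⟨xm, hxm⟩ : ∃ x₀, 1 ≤ m → ∀ x, Off G X n p x → G.Adj x (p m) → x = x₀ := by
    by_cases h : 1 ≤ m
    · obtain ⟨x₀, h3⟩ := pend hE m h hm
      exact ⟨x₀, fun _ => h3⟩
    · exact ⟨p 0, fun h' => absurd h' h⟩
  let r : V → Set V := fun a => (G.neighborSet a ∩ X) \ D
  have hUD : ∀ u ∈ UC G X n p, u ∉ D := fun u hu hD => uc_not (by omega) hu (h2 hD)
  have hsub : insert ∅ (Rw G X D) ⊆
      {∅, UC G X n p, r (p 2), r (p (m - 1)), r (p m), r x₁, r xm} := by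
    rintro T (rfl | ⟨a, ha, rfl⟩)
    · exact Or.inl rfl
    · change r a ∈ _
      rcases h2 ha with ⟨i, hi1, hi2, rfl⟩ | ⟨ho, i, hi1, hi2, hai⟩
      · by_cases c1 : i = 2
        · rw [c1]
          right; right; left; rfl
        by_cases c2 : i = m
        · rw [c2]
          right; right; right; right; left; rfl
        by_cases c3 : i = m - 1
        · rw [c3]
          right; right; right; left; rfl
        right; left
        ext y
        constructor
        · rintro ⟨⟨hy1, hy2⟩, hy3⟩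
          have hy1' : G.Adj (p i) y := hy1
          by_contra hyU
          by_cases hyc : ∃ j < n, y = p j
          · obtain ⟨j, hj, rfl⟩ := hyc
            rw [hic3 i (by omega) j hj] at hy1'
            exact hy3 (h1 (Or.inl ⟨j, by omega, by omega, rfl⟩))
          · have hoy : Off G X n p y := ⟨hy2, fun j hj e => hyc ⟨j, hj, e⟩, hyU⟩
            exact hy3 (h1 (Or.inr ⟨hoy, i, by omega, by omega, hy1'.symm⟩))
        · intro hy
          exact ⟨⟨(hy.2 i (by omega)).symm, hy.1⟩, hUD y hy⟩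
      · by_cases c1 : i = 1
        · subst c1
          rw [hx₁ a ho hai]
          right; right; right; right; right; left; rfl
        by_cases c2 : i = m
        · subst c2
          rw [hxm hi1 a ho hai]
          right; right; right; right; right; right; rfl
        right; left
        have hpen := hE.pen a ho i hi1 (by omega) hai
        ext y
        constructor
        · rintro ⟨⟨hy1, hy2⟩, hy3⟩
          rcases (hpen y hy2).mp hy1 with h | h
          · exact absurd (h1 (Or.inl ⟨i, by omega, by omega, h⟩)) hy3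
          · exact h
        · intro hy
          exact ⟨⟨(hpen y hy.1).mpr (Or.inr hy), hy.1⟩, hUD y hy⟩
  refine (Set.encard_le_encard hsub).trans ?_
  have h7 : ({∅, UC G X n p, r (p 2), r (p (m - 1)), r (p m), r x₁, r xm} : Set (Set V)).encard ≤
      ((1 + 1 + 1 + 1 + 1 + 1 + 1 : ℕ) : ℕ∞) := by
    refine enc_ins _ (enc_ins _ (enc_ins _ (enc_ins _ (enc_ins _ (enc_ins _ ?_)))))
    rw [Set.encard_singleton]
    exact le_rfl
  refine h7.trans ?_
  exact_mod_cast (by norm_num : (1 + 1 + 1 + 1 + 1 + 1 + 1 : ℕ) ≤ 10)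

theorem sm_mono {m : ℕ} : Sm G X n p m ⊆ Sm G X n p (m + 1) := by
  rintro x (⟨i, h1, h2, h3⟩ | ⟨ho, i, h1, h2, h3⟩)
  · exact Or.inl ⟨i, h1, by omega, h3⟩
  · exact Or.inr ⟨ho, i, h1, by omega, h3⟩

theorem lay [Finite V] (hE : EarS G X n p) : ∀ m ≤ n, RL0 G X 10 (Sm G X n p m) := by
  intro m
  induction m with
  | zero =>
    intro _
    have h : Sm G X n p 0 = ∅ := by
      ext x
      constructor
      · rintro (⟨i, _, h2, _⟩ | ⟨_, i, _, h2, _⟩) <;> exact absurd h2 (Nat.not_lt_zero i)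
      · intro h
        exact h.elim
    rw [h]
    exact LT.empty
  | succ m ih =>
    intro hm
    exact grow _ (Sm G X n p m) rfl (ih (by omega)) sm_mono fun D h1 h2 => rows hE (by omega) h1 h2

theorem eq (hE : EarS G X n p) : Yb G X n p \ {p 1} = Sm G X n p n := by
  have hn4 := hE.n4
  ext x
  constructor
  · rintro ⟨h, hx⟩
    rcases h with ⟨i, h1, h2, rfl⟩ | h
    · refine Or.inl ⟨i, ?_, h2, rfl⟩
      have h3 : i ≠ 1 := fun e => hx (by rw [e]; rfl)
      omega
    · exact Or.inr h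
  · rintro (⟨i, h1, h2, rfl⟩ | h)
    · refine ⟨Or.inl ⟨i, by omega, h2, rfl⟩, fun e => ?_⟩
      have h3 := hE.ic.2.1 i h2 1 (by omega) e
      omega
    · exact ⟨Or.inr h, fun e => h.1.2.1 1 (by omega) e⟩

end E7x

open E7x in
theorem e7 (_ : S_E1) : S_E7 := by
  intro V _ G X n p hE
  rw [eq hE]
  exact lay hE n le_rfl

end Pool.Agent.MPd439b2.HC
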