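import Pool.Agent.Lib.MP_d439b2_co.HC.SpecE

/-!
# MP_d439b2_co, HC: task E8, the number of crossing ears (helper62)
-/

set_option autoImplicit false

namespace Pool.Agent.MPd439b2.HC

open Pool.Agent.MPd439b2
open Pool.Agent.MPd439b2.BU

namespace E8Aux

theorem gen {V : Type} {G : SimpleGraph V} {X A : Set V} {𝒯 : Set (Set V)}
    {N : Set V → ℕ} {P : Set V → ℕ → V} {k : ℕ} (hF : Fam G X 𝒯 N P)
    (hR : (Rw G (Xh G X 𝒯 N P) A).encard ≤ k) (u v : Set V → V) (S : Set (Set V))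
    (hS : ∀ T ∈ S, T ∈ 𝒯 ∧ u T ∈ A ∧ v T ∉ A ∧ v T ∈ Xh G X 𝒯 N P ∧ G.Adj (u T) (v T) ∧
      u T ∈ Yb G X (N T) (P T) ∧ v T ∈ Yb G X (N T) (P T)) : S.encard ≤ k := by
  have hinj : Set.InjOn (fun T => (G.neighborSet (u T) ∩ Xh G X 𝒯 N P) \ A) S := by
    intro T hT T' hT' e
    by_contra hne
    obtain ⟨t1, t2, t3, t4, t5, t6, t7⟩ := hS T hT
    obtain ⟨s1, s2, s3, s4, s5, s6, s7⟩ := hS T' hT'
    have e' : (G.neighborSet (u T) ∩ Xh G X 𝒯 N P) \ A =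
        (G.neighborSet (u T') ∩ Xh G X 𝒯 N P) \ A := e
    have h1 : v T ∈ (G.neighborSet (u T) ∩ Xh G X 𝒯 N P) \ A := ⟨⟨t5, t4⟩, t3⟩
    rw [e'] at h1
    exact hF.nad T' s1 T t1 (fun e => hne e.symm) _ s6 _ t7 h1.1.1
  rw [← hinj.encard_image]
  refine (Set.encard_le_encard ?_).trans hR
  rintro _ ⟨T, hT, rfl⟩
  exact ⟨u T, (hS T hT).2.1, rfl⟩

end E8Aux

theorem e8 (_h1 : S_E1) (h6 : S_E6) : S_E8 := by
  intro V _ G X A 𝒯 N P k hF _ hk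
  obtain ⟨c1, -⟩ := h6 V G X 𝒯 N P hF
  have hR : (Rw G (Xh G X 𝒯 N P) A).encard ≤ k :=
    (Set.encard_le_encard (Set.subset_insert _ _)).trans hk
  have y1 : ∀ T ∈ 𝒯, P T 1 ∈ Yb G X (N T) (P T) := fun T hT =>
    Or.inl ⟨1, le_rfl, by have := (hF.ear T hT).n4; omega, rfl⟩
  have y2 : ∀ T ∈ 𝒯, P T 2 ∈ Yb G X (N T) (P T) := fun T hT =>
    Or.inl ⟨2, by omega, by have := (hF.ear T hT).n4; omega, rfl⟩
  have a12 : ∀ T ∈ 𝒯, G.Adj (P T 1) (P T 2) := fun T hT =>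
    ((hF.ear T hT).ic.2.2 1 (by have := (hF.ear T hT).n4; omega) 2
      (by have := (hF.ear T hT).n4; omega)).2 (Or.inl rfl)
  constructor
  · exact E8Aux.gen hF hR (fun T => P T 2) (fun T => P T 1) _ fun T hT =>
      ⟨hT.1, hT.2.1, hT.2.2, (c1 T hT.1).2.1, (a12 T hT.1).symm, y2 T hT.1, y1 T hT.1⟩
  · exact E8Aux.gen hF hR (fun T => P T 1) (fun T => P T 2) _ fun T hT =>
      ⟨hT.1, hT.2.1, hT.2.2, (c1 T hT.1).2.2.1, a12 T hT.1, y1 T hT.1, y2 T hT.1⟩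

end Pool.Agent.MPd439b2.HC
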