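import Pool.Agent.Lib.MP_d439b2_co.HC.SpecE

/-!
# MP_d439b2_co, HC: the rows of the vertices in the hanging parts
-/

set_option autoImplicit false

namespace Pool.Agent.MPd439b2.HC

open Pool.Agent.MPd439b2
open Pool.Agent.MPd439b2.BU

/-- **E9.** -/
theorem e9 (h1 : S_E1) (h6 : S_E6) : S_E9 := by
  intro V G X A 𝒯 N P hF hAX T hT hT2 a ha ha1
  obtain ⟨e1, e2, e3, e4, e5⟩ := h6 V G X 𝒯 N P hF
  obtain ⟨f0, f1, f2, fU⟩ := e1 T hT
  have hear := hF.ear T hT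
  obtain ⟨g1, g2, g3, g4, g5, g6⟩ := h1 V G X (N T) (P T) hear
  -- `A' ∩ Xh = A`
  have hA1 : ∀ x ∈ A, x ∈ ⋃ y ∈ A, Hg G X 𝒯 N P y := by
    intro x hx
    rw [Set.mem_iUnion₂]
    exact ⟨x, hx, Or.inl rfl⟩
  have hA2 : ∀ x ∈ Xh G X 𝒯 N P, x ∈ (⋃ y ∈ A, Hg G X 𝒯 N P y) → x ∈ A := by
    intro x hx hx'
    rw [Set.mem_iUnion₂] at hx'
    obtain ⟨y, hy, h | ⟨T', hT', k1, k2, k3⟩⟩ := hx'
    · rw [h]; exact hy
    · have hx2 : x = P T' 2 := by
        by_contra hne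
        exact hx.2 ⟨T', hT', k2, k3, hne⟩
      rw [hx2, ← k1]
      exact hy
  have hA3 : ∀ x ∈ Yb G X (N T) (P T), x ≠ P T 1 → x ∈ ⋃ y ∈ A, Hg G X 𝒯 N P y := by
    intro x hx hx1
    rw [Set.mem_iUnion₂]
    exact ⟨P T 2, hT2, Or.inr ⟨T, hT, rfl, hx, hx1⟩⟩
  have hrow : (G.neighborSet a ∩ X) \ (⋃ y ∈ A, Hg G X 𝒯 N P y) =
      (UC G X (N T) (P T) ∪ {x | x ∈ ({P T 0, P T 1} : Set V) ∧ G.Adj a x}) \ A := by
    ext x
    constructor
    · rintro ⟨⟨k1, k2⟩, k3⟩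
      refine ⟨?_, fun h => k3 (hA1 x h)⟩
      by_cases hY : x ∈ Yb G X (N T) (P T)
      · have hx1 : x = P T 1 := by
          by_contra hne
          exact k3 (hA3 x hY hne)
        exact Or.inr ⟨Or.inr hx1, k1⟩
      · rcases g1 a ha x k2 hY k1 with h | h
        · exact Or.inr ⟨Or.inl h, k1⟩
        · exact Or.inl h
    · rintro ⟨h | ⟨h, h'⟩, k3⟩
      · exact ⟨⟨((g2 x h).2 a ha).symm, (fU h).1⟩, fun h' => k3 (hA2 x (fU h) h')⟩
      · have hxX : x ∈ Xh G X 𝒯 N P := by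
          rcases h with h | h
          · rw [h]; exact f0
          · rw [h]; exact f1
        exact ⟨⟨h', hxX.1⟩, fun h' => k3 (hA2 x hxX h')⟩
  refine ⟨?_, _, fun x hx => hx.1, hrow⟩
  intro hT1
  rw [hrow]
  by_cases ha0 : G.Adj a (P T 0)
  · refine ⟨P T 1, hT1, ?_⟩
    ext x
    constructor
    · rintro ⟨h | ⟨h, h'⟩, k3⟩
      · exact ⟨⟨((e3 T hT x (fU h)).2).2 (Or.inr (Or.inr h)), fU h⟩, k3⟩
      · rcases h with h | h
        · rw [h]
          refine ⟨⟨((e3 T hT _ f0).2).2 (Or.inl rfl), f0⟩, ?_⟩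
          rw [← h]; exact k3
        · exfalso
          rw [Set.mem_singleton_iff.1 h] at k3
          exact k3 hT1
    · rintro ⟨⟨k1, k2⟩, k3⟩
      refine ⟨?_, k3⟩
      rcases ((e3 T hT x k2).2).1 k1 with h | h | h
      · right
        refine ⟨Or.inl h, ?_⟩
        rw [h]; exact ha0
      · exfalso
        rw [h] at k3
        exact k3 hT2
      · exact Or.inl h
  · refine ⟨P T 2, hT2, ?_⟩
    ext x
    constructor
    · rintro ⟨h | ⟨h, h'⟩, k3⟩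
      · exact ⟨⟨((e3 T hT x (fU h)).1).2 (Or.inr h), fU h⟩, k3⟩
      · rcases h with h | h
        · exfalso
          rw [h] at h'
          exact ha0 h'
        · exfalso
          rw [Set.mem_singleton_iff.1 h] at k3
          exact k3 hT1
    · rintro ⟨⟨k1, k2⟩, k3⟩
      refine ⟨?_, k3⟩
      rcases ((e3 T hT x k2).1).1 k1 with h | h
      · exfalso
        rw [h] at k3
        exact k3 hT1
      · exact Or.inl h

end Pool.Agent.MPd439b2.HC
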