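import Pool.Agent.Lib.MP_d439b2_co.HC.SpecD
import Pool.Agent.Lib.MP_d439b2_co.BU.Spec

/-!
# MP_d439b2_co, HC: the final assembly of the house column (helper53)
-/

set_option autoImplicit false

namespace Pool.Agent.MPd439b2.HC

open Pool.Agent.MPd439b2
open Pool.Agent.MPd439b2.BU

/-- from a layout of `restr G Y` to a layout of `G[Y]` with rows -/
theorem mainLay {V : Type} (G : SimpleGraph V) (Y : Set V) (k : ℕ)
    (h : Lay (restr G Y) k Set.univ) : RL0 G Y (k + 1) Y := by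
  have h1 : ∀ A : Set V, Lay (restr G Y) k A → LT (fun B => (Types (restr G Y) B).encard ≤ k) A := by
    intro A hA
    induction hA with
    | empty => exact LT.empty
    | single v _ => exact LT.single v
    | union _ _ hd hr ihA ihB => exact LT.union ihA ihB hd hr
  have h2 : RL0 G Y (k + 1) (Set.univ ∩ Y) := by
    refine LT.restrict (h1 _ h) Y fun A _ hA => ?_
    have h3 : insert ∅ (Rw G Y (A ∩ Y)) ⊆ insert ∅ ((fun T => T ∩ Y) '' Types (restr G Y) A) := by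
      rintro T (rfl | ⟨a, ha, rfl⟩)
      · exact Set.mem_insert _ _
      · by_cases hne : ((restr G Y).neighborSet a \ A).Nonempty
        · right
          refine ⟨_, ⟨hne, a, ha.1, rfl⟩, ?_⟩
          ext z
          constructor
          · rintro ⟨⟨hz1, hz2⟩, hz3⟩
            exact ⟨⟨hz1.1, hz3⟩, fun h => hz2 h.1⟩
          · rintro ⟨⟨hz1, hz2⟩, hz3⟩
            exact ⟨⟨⟨hz1, ha.2, hz2⟩, fun h => hz3 ⟨h, hz2⟩⟩, hz2⟩
        · left
          rw [Set.eq_empty_iff_forall_notMem]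
          rintro z ⟨⟨hz1, hz2⟩, hz3⟩
          exact hne ⟨z, ⟨hz1, ha.2, hz2⟩, fun h => hz3 ⟨h, hz2⟩⟩
    refine (Set.encard_le_encard h3).trans ((Set.encard_insert_le _ _).trans ?_)
    have h4 := (Set.encard_image_le (fun T => T ∩ Y) (Types (restr G Y) A)).trans hA
    push_cast
    exact add_le_add h4 le_rfl
  rwa [Set.univ_inter] at h2

theorem mainStep (hC4 : S_C4) (hRestr : S_Restr) (hL : S_Link) (hR3 : S_R3) {W : Type}
    (H : SimpleGraph W) (hH : ∀ w, ∃ w', H.Adj w w') (r : ℕ → ℕ → Bool)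
    (hr : ∀ (V : Type) (G : SimpleGraph V) (X : Set V), ¬ IMS H G X → SPF G X 6 r)
    (f : ℕ → ℕ) (hf : ∀ k, 1 ≤ f k) (hA : ∀ (k : ℕ) (V : Type) [Finite V] (G : SimpleGraph V)
      (X : Set V), Cls r k G X → RL0 G X (f k) X) : BL H cyc4 → BL H houseG := by
  rintro ⟨k, hk⟩
  refine ⟨f (k + 1), ?_⟩
  intro V _ G hGH hGh
  have hcls : Cls r (k + 1) G Set.univ := by
    refine ⟨hL.1 V G _ hGh, hr V G _ hGH, ?_⟩
    intro Y _ hY
    have h1 : ¬ IMS H (restr G Y) Set.univ := fun h =>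
      hGH ((hRestr V W G H Y hH h).mono (Set.subset_univ _))
    have h2 : ¬ IMS cyc4 (restr G Y) Set.univ := by
      intro h
      refine hC4 V G Y hY (hRestr V (Fin 4) G cyc4 Y ?_ h)
      intro w
      refine ⟨w + 1, ?_⟩
      show (w.val + (w + 1).val) % 2 = 1
      fin_cases w <;> rfl
    exact mainLay G Y k (hk V (restr G Y) h1 h2)
  have h3 := hA (k + 1) V G Set.univ hcls
  exact hR3.2 V G (f (k + 1)) (hf _)
    (LT.mono (fun _ h => (Set.encard_le_encard (Set.subset_insert _ _)).trans h) h3)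

theorem mainKA {m r : ℕ} (N : Fin r → Set (Fin m)) (hm : 2 ≤ m) (hN : ∀ q, (N q).Nonempty) :
    ∀ w, ∃ w', (KA m r N).Adj w w' := by
  rintro (i | q)
  · by_cases hi : i = ⟨0, by omega⟩
    · refine ⟨Sum.inl ⟨1, by omega⟩, ?_⟩
      show i ≠ _
      rw [hi]
      intro h
      have := congrArg Fin.val h
      simp at this
    · exact ⟨Sum.inl ⟨0, by omega⟩, hi⟩
  · obtain ⟨i, hi⟩ := hN q
    exact ⟨Sum.inl i, hi⟩

/-- **THEOREM (house column).** -/
theorem houseColumn (hOP : S_OutP) (hO7 : S_Out7) (hAP : S_AsmP) (hA7 : S_Asm7) (hC4 : S_C4)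
    (hRestr : S_Restr) (hL : S_Link) (hR3 : S_R3) : S_HouseColumn := by
  have hP : ∀ r, r = r1 ∨ r = r3 ∨ r = r6 → ∀ (k : ℕ) (V : Type) [Finite V] (G : SimpleGraph V)
      (X : Set V), Cls r k G X → RL0 G X (2 ^ (2 ^ (8 * k + 20) + 1)) X := by
    intro r hr k V _ G X hX
    exact hAP r k (8 * k + 20) (by omega) (hOP r hr k) V G X hX
  have h7 : ∀ (k : ℕ) (V : Type) [Finite V] (G : SimpleGraph V)
      (X : Set V), Cls r7 k G X → RL0 G X (2 ^ (2 ^ (2 ^ (8 * k + 20) + 1) + 1)) X := by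
    intro k V _ G X hX
    exact hA7 k (8 * k + 20) (by omega) (hO7 k) V G X hX
  refine ⟨?_, ?_, ?_, ?_⟩
  · refine mainStep hC4 hRestr hL hR3 _ (mainKA _ (by omega) ?_) r1 hL.2.1 _
      (fun k => Nat.one_le_two_pow) (hP r1 (Or.inl rfl))
    intro q
    fin_cases q
    · exact ⟨0, rfl⟩
    · exact ⟨1, rfl⟩
    · exact ⟨0, Or.inl rfl⟩
  · refine mainStep hC4 hRestr hL hR3 _ (mainKA _ (by omega) ?_) r3 hL.2.2.1 _
      (fun k => Nat.one_le_two_pow) (hP r3 (Or.inr (Or.inl rfl)))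
    intro q
    fin_cases q
    · exact ⟨0, rfl⟩
    · exact ⟨0, Or.inl rfl⟩
    · exact ⟨1, Or.inl rfl⟩
  · refine mainStep hC4 hRestr hL hR3 _ (mainKA _ (by omega) ?_) r6 hL.2.2.2.1 _
      (fun k => Nat.one_le_two_pow) (hP r6 (Or.inr (Or.inr rfl)))
    intro q
    fin_cases q
    · exact ⟨0, rfl⟩
    · exact ⟨1, Or.inl rfl⟩
  · refine mainStep hC4 hRestr hL hR3 _ (mainKA _ (by omega) ?_) r7 hL.2.2.2.2 _
      (fun k => Nat.one_le_two_pow) h7
    intro q
    fin_cases q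
    · exact ⟨0, rfl⟩
    · exact ⟨1, rfl⟩

end Pool.Agent.MPd439b2.HC
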