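import Pool.Agent.Lib.MP_d439b2_co.HC.SpecC

set_option autoImplicit false

namespace Pool.Agent.MPd439b2.HC

open Pool.Agent.MPd439b2
open Pool.Agent.MPd439b2.BU

namespace qA1Aux

theorem kill_all : ∀ r, r = r1 ∨ r = r3 ∨ r = r6 → ∀ t, t = 31 ∨ t = 47 →
    killC r csK [0, 0, 3, 3, 1, 4, t] = true := by
  rintro r (rfl | rfl | rfl) t (rfl | rfl) <;> decide +kernel

theorem codes : ∀ t < 64, (∀ j < 4, t.testBit j = true) →
    (t.testBit 4 = true ↔ t.testBit 5 = true) ∨ t = 31 ∨ t = 47 := by
  decide +kernel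

end qA1Aux

open qA1Aux in
theorem qA1 : S_A1 := by
  intro V G X S x y u r hr hH hf hB hu hful
  by_contra hne
  have hux : u ≠ x := by
    rintro rfl
    exact absurd ((hB.xS 1 (by norm_num)).2.1 (hful 1 (by norm_num)).2) (by norm_num)
  have huy : u ≠ y := by
    rintro rfl
    exact absurd ((hB.yS 1 (by norm_num)).2.1 (hful 1 (by norm_num)).2) (by norm_num)
  have hd : ∀ j < 6, u ∉ Sxy S x y j := by
    intro j hj
    unfold Sxy
    split_ifs with h1 h2
    · exact (hful j h1).1
    · exact hux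
    · exact huy
  obtain ⟨t, ht, h1, h2⟩ := snocV hB.sp rfl hu hd
  have hb : ∀ j < 4, t.testBit j = true := by
    intro j hj
    have h3 := (h1 j (by omega)).1
    unfold Sxy at h3
    rw [if_pos hj] at h3
    exact h3 (hful j hj).2
  have h4 : G.Adj u x ↔ t.testBit 4 = true := by
    rw [← h1 4 (by norm_num)]
    exact tch_single.symm
  have h5 : G.Adj u y ↔ t.testBit 5 = true := by
    rw [← h1 5 (by norm_num)]
    exact tch_single.symm
  rcases codes t ht hb with h6 | h6
  · exact hne (h4.trans (h6.trans h5.symm))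
  · exact kill hH hf h2 rfl csK (kill_all r hr t h6)

end Pool.Agent.MPd439b2.HC
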