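import Pool.Agent.Lib.MP_d439b2_co.HC.SpecC

/-!
# MP_d439b2_co, HC: `S_A3`
-/

set_option autoImplicit false

namespace Pool.Agent.MPd439b2.HC

open Pool.Agent.MPd439b2
open Pool.Agent.MPd439b2.BU

namespace qA3Aux

theorem dec1 : ∀ t < 2 ^ 6, t.testBit 0 = true → t.testBit 1 = true → t.testBit 2 = true →
    t.testBit 3 = true → t.testBit 4 = true → t = 31 ∨ t = 63 := by
  intro t ht
  norm_num at ht
  interval_cases t <;> decide

theorem dec2 : ∀ t < 2 ^ 7, t.testBit 0 = true → t.testBit 1 = true → t.testBit 2 = true →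
    t.testBit 3 = true → t.testBit 4 = false → t.testBit 6 = false → t = 15 ∨ t = 47 := by
  intro t ht
  norm_num at ht
  interval_cases t <;> decide

theorem dec3 : ∀ s ∈ [31, 63], ∀ t ∈ [15, 47],
    chkG 8 5 (rc ([0, 0, 3, 3, 1, 4] ++ [s] ++ [t])) rH [[0], [1], [6], [7], [4]] = true := by
  decide

end qA3Aux

open qA3Aux in
theorem qA3 : S_A3 := by
  intro V G X S x y u u₀ hH h hu hfu hu₀ hfu₀ hux hu₀x
  by_contra huu
  have ne1 : ∀ v, Ful G S v → v ≠ x ∧ v ≠ y := by
    intro v hv
    constructor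
    · rintro rfl
      have := ((h.xS 1 (by omega)).2).1 (hv 1 (by omega)).2
      omega
    · rintro rfl
      have := ((h.yS 1 (by omega)).2).1 (hv 1 (by omega)).2
      omega
  have hns : ∀ v, Ful G S v → ∀ j < 6, v ∉ Sxy S x y j := by
    intro v hv j hj
    unfold Sxy
    split_ifs with h1 h2
    · exact (hv j h1).1
    · exact fun h3 => (ne1 v hv).1 h3
    · exact fun h3 => (ne1 v hv).2 h3
  have hne : u₀ ≠ u := fun e => hu₀x (e ▸ hux)
  obtain ⟨s, hs, hsb, hsp⟩ := snocV h.sp rfl hu (hns u hfu)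
  obtain ⟨t, ht, htb, htp⟩ := snocV hsp rfl hu₀ (fun j hj => by
    by_cases h1 : j < 6
    · simp only [h1, if_true]
      exact hns u₀ hfu₀ j h1
    · simp only [h1, if_false]
      exact fun h3 => hne h3)
  have e1 : ∀ j < 4, Sxy S x y j = S j := fun j hj => by simp [Sxy, hj]
  have e4 : Sxy S x y 4 = {x} := rfl
  have hs' : s = 31 ∨ s = 63 := by
    refine dec1 s hs ?_ ?_ ?_ ?_ ?_
    · exact (hsb 0 (by omega)).1 (by rw [e1 0 (by omega)]; exact (hfu 0 (by omega)).2)
    · exact (hsb 1 (by omega)).1 (by rw [e1 1 (by omega)]; exact (hfu 1 (by omega)).2)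
    · exact (hsb 2 (by omega)).1 (by rw [e1 2 (by omega)]; exact (hfu 2 (by omega)).2)
    · exact (hsb 3 (by omega)).1 (by rw [e1 3 (by omega)]; exact (hfu 3 (by omega)).2)
    · exact (hsb 4 (by omega)).1 (by rw [e4]; exact tch_single.2 hux)
  have hb : ∀ j < 4, t.testBit j = true := fun j hj => by
    refine (htb j (by omega)).1 ?_
    simp only [show j < 6 by omega, if_true]
    rw [e1 j hj]
    exact (hfu₀ j hj).2
  have ht' : t = 15 ∨ t = 47 := by
    refine dec2 t ht (hb 0 (by omega)) (hb 1 (by omega)) (hb 2 (by omega)) (hb 3 (by omega)) ?_ ?_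
    · have h1 := htb 4 (by omega)
      simp only [show 4 < 6 by omega, if_true] at h1
      rw [e4, tch_single] at h1
      by_contra h2
      exact hu₀x (h1.2 (by simpa using h2))
    · have h1 := htb 6 (by omega)
      simp only [show ¬ 6 < 6 by omega, if_false] at h1
      rw [tch_single] at h1
      by_contra h2
      exact huu (h1.2 (by simpa using h2)).symm
  refine hH _ (chkG_sp htp (dec3 s ?_ t ?_))
  · simpa using hs'
  · simpa using ht'

end Pool.Agent.MPd439b2.HC
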