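import Pool.Agent.Lib.MP_d439b2_co.HC.SpecC

set_option autoImplicit false

namespace Pool.Agent.MPd439b2.HC

open Pool.Agent.MPd439b2
open Pool.Agent.MPd439b2.BU

namespace qA4Aux

theorem kl1 : killC r7 cs4 [0, 0, 3, 3, 1, 4, 15] = true := by decide +kernel

theorem kl2 : killC r7 cs4 [0, 0, 3, 3, 1, 4, 47, 31] = true := by decide +kernel

theorem kl3 : killC r7 cs4 [0, 0, 3, 3, 1, 4, 47, 95] = true := by decide +kernel

theorem codes1 : ∀ t < 64, (∀ j < 4, t.testBit j = true) → t.testBit 4 = false →
    t.testBit 5 = false → t = 15 := by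
  decide +kernel

theorem codes2 : ∀ t < 64, (∀ j < 4, t.testBit j = true) → t.testBit 4 = false →
    t.testBit 5 = true → t = 47 := by
  decide +kernel

theorem codes3 : ∀ t < 128, (∀ j < 4, t.testBit j = true) → t.testBit 4 = true →
    t.testBit 5 = false → t = 31 ∨ t = 95 := by
  decide +kernel

variable {V : Type} {G : SimpleGraph V} {X : Set V} {S : ℕ → Set V} {x y u : V}

theorem ne_xy (hB : Bas G X S x y) (hful : Ful G S u) : u ≠ x ∧ u ≠ y := by
  constructor
  · rintro rfl
    exact absurd ((hB.xS 1 (by norm_num)).2.1 (hful 1 (by norm_num)).2) (by norm_num)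
  · rintro rfl
    exact absurd ((hB.yS 1 (by norm_num)).2.1 (hful 1 (by norm_num)).2) (by norm_num)

theorem notMem (hB : Bas G X S x y) (hful : Ful G S u) : ∀ j < 6, u ∉ Sxy S x y j := by
  intro j hj
  unfold Sxy
  split_ifs with h1 h2
  · exact (hful j h1).1
  · exact (ne_xy hB hful).1
  · exact (ne_xy hB hful).2

end qA4Aux

open qA4Aux in
theorem qA4 : S_A4 := by
  intro V G X S x y hH hf hB
  have key : ∀ u ∈ X, Ful G S u → G.Adj u x ∨ G.Adj u y := by
    intro u hu hful
    by_contra hne
    rw [not_or] at hne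
    obtain ⟨t, ht, h1, h2⟩ := snocV hB.sp rfl hu (notMem hB hful)
    have hb : ∀ j < 4, t.testBit j = true := by
      intro j hj
      have h3 := (h1 j (by omega)).1
      unfold Sxy at h3
      rw [if_pos hj] at h3
      exact h3 (hful j hj).2
    have h4 : t.testBit 4 = false := by
      by_contra h
      exact hne.1 (tch_single.1 ((h1 4 (by norm_num)).2 (Bool.not_eq_false _ ▸ h)))
    have h5 : t.testBit 5 = false := by
      by_contra h
      exact hne.2 (tch_single.1 ((h1 5 (by norm_num)).2 (Bool.not_eq_false _ ▸ h)))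
    have h6 := codes1 t ht hb h4 h5
    subst h6
    exact kill hH hf h2 rfl cs4 kl1
  refine ⟨key, ?_⟩
  intro u hu hful u' hu' hful'
  by_contra hne
  rw [not_or] at hne
  have huy : G.Adj u y := (key u hu hful).resolve_left hne.1
  have hux' : G.Adj u' x := (key u' hu' hful').resolve_right hne.2
  have huu : u' ≠ u := by
    rintro rfl
    exact hne.2 huy
  obtain ⟨t, ht, h1, h2⟩ := snocV hB.sp rfl hu (notMem hB hful)
  have hb : ∀ j < 4, t.testBit j = true := by
    intro j hj
    have h3 := (h1 j (by omega)).1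
    unfold Sxy at h3
    rw [if_pos hj] at h3
    exact h3 (hful j hj).2
  have h4 : t.testBit 4 = false := by
    by_contra h
    exact hne.1 (tch_single.1 ((h1 4 (by norm_num)).2 (Bool.not_eq_false _ ▸ h)))
  have h5 : t.testBit 5 = true := (h1 5 (by norm_num)).1 (tch_single.2 huy)
  have h6 := codes2 t ht hb h4 h5
  subst h6
  obtain ⟨t, ht, h1, h3⟩ := snocV h2 rfl hu' (fun j hj => by
    show u' ∉ (if j < 6 then Sxy S x y j else {u})
    split_ifs with h7
    · exact notMem hB hful' j h7
    · exact huu)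
  have hT : ∀ j < 6, (Tch G {u'} (Sxy S x y j) ↔ t.testBit j = true) := by
    intro j hj
    have h7 := h1 j (by omega)
    simp only [hj, if_true] at h7
    exact h7
  have hb : ∀ j < 4, t.testBit j = true := by
    intro j hj
    have h7 := (hT j (by omega)).1
    unfold Sxy at h7
    rw [if_pos hj] at h7
    exact h7 (hful' j hj).2
  have h4 : t.testBit 4 = true := (hT 4 (by norm_num)).1 (tch_single.2 hux')
  have h5 : t.testBit 5 = false := by
    by_contra h
    exact hne.2 (tch_single.1 ((hT 5 (by norm_num)).2 (Bool.not_eq_false _ ▸ h)))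
  rcases codes3 t ht hb h4 h5 with h6 | h6
  · subst h6
    exact kill hH hf h3 rfl cs4 kl2
  · subst h6
    exact kill hH hf h3 rfl cs4 kl3

end Pool.Agent.MPd439b2.HC
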