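import Pool.Agent.Lib.MP_d439b2_co.HC.SpecC

/-!
# MP_d439b2_co, HC, A5: the table of the one-vertex extensions
-/

set_option autoImplicit false

namespace Pool.Agent.MPd439b2.HC

open Pool.Agent.MPd439b2
open Pool.Agent.MPd439b2.BU

namespace qA5Aux

theorem dec47 : ∀ t < 64, (t.testBit 0 = true ∧ t.testBit 1 = true ∧ t.testBit 2 = true ∧
    t.testBit 3 = true ∧ ¬ t.testBit 4 = true ∧ t.testBit 5 = true) → t = 47 := by
  decide +kernel

/-- the table -/
def tb (t : ℕ) : Bool :=
  killC r7 cs5 [0, 0, 3, 3, 1, 4, 47, t] ||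
  ((!(t.testBit 2 && t.testBit 3 && t.testBit 6 && !t.testBit 5) ||
      (!t.testBit 1 && (!t.testBit 0 || t.testBit 4))) &&
    (!(t.testBit 0 && t.testBit 1 && t.testBit 2 && t.testBit 3 && t.testBit 6 && !t.testBit 4) ||
      t.testBit 5) &&
    (!(t.testBit 0 && t.testBit 1 && t.testBit 6 && !t.testBit 4) ||
      (t.testBit 5 && (!t.testBit 3 || t.testBit 2))) &&
    (!(!t.testBit 0 && !t.testBit 1 && t.testBit 6 && !t.testBit 4) ||
      ((t.testBit 2 || t.testBit 3) && (!t.testBit 3 || !t.testBit 5))) &&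
    (!(!t.testBit 2 && !t.testBit 3 && !t.testBit 5) ||
      ((!t.testBit 1 || (!t.testBit 0 && t.testBit 6 && !t.testBit 4)) &&
        (!t.testBit 6 || (t.testBit 0 || t.testBit 1)))))

theorem tb_all : (List.range 128).all tb = true := by
  decide +kernel

theorem dec5 (t : ℕ) (ht : t < 128) (hk : ¬ killC r7 cs5 [0, 0, 3, 3, 1, 4, 47, t] = true) :
    (t.testBit 2 = true → t.testBit 3 = true → t.testBit 6 = true → ¬ t.testBit 5 = true →
      ¬ t.testBit 1 = true ∧ (t.testBit 0 = true → t.testBit 4 = true)) ∧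
    (t.testBit 0 = true → t.testBit 1 = true → t.testBit 2 = true → t.testBit 3 = true →
      t.testBit 6 = true → ¬ t.testBit 4 = true → t.testBit 5 = true) ∧
    (t.testBit 0 = true → t.testBit 1 = true → t.testBit 6 = true → ¬ t.testBit 4 = true →
      t.testBit 5 = true ∧ (t.testBit 3 = true → t.testBit 2 = true)) ∧
    (¬ t.testBit 0 = true → ¬ t.testBit 1 = true → t.testBit 6 = true → ¬ t.testBit 4 = true →
      (t.testBit 2 = true ∨ t.testBit 3 = true) ∧ (t.testBit 3 = true → ¬ t.testBit 5 = true)) ∧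
    (¬ t.testBit 2 = true → ¬ t.testBit 3 = true → ¬ t.testBit 5 = true →
      (t.testBit 1 = true → ¬ t.testBit 0 = true ∧ t.testBit 6 = true ∧ ¬ t.testBit 4 = true) ∧
      (t.testBit 6 = true → t.testBit 0 = true ∨ t.testBit 1 = true)) := by
  have h := List.all_eq_true.1 tb_all t (List.mem_range.2 ht)
  unfold tb at h
  rw [Bool.or_eq_true] at h
  replace h := h.resolve_left hk
  revert h
  cases t.testBit 0 <;> cases t.testBit 1 <;> cases t.testBit 2 <;> cases t.testBit 3 <;>
    cases t.testBit 4 <;> cases t.testBit 5 <;> cases t.testBit 6 <;> simp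

/-- the pattern with `u` -/
theorem seven {V : Type} {G : SimpleGraph V} {X : Set V} {S : ℕ → Set V} {x y u : V}
    (h : B7 G X S x y u) :
    SP G X 7 (fun i => if i < 6 then Sxy S x y i else {u}) (rc [0, 0, 3, 3, 1, 4, 47]) := by
  have hux : u ≠ x := by
    rintro rfl
    have h1 := ((h.bas.xS 1 (by omega)).2).1 (h.ful 1 (by omega)).2
    omega
  have huy : u ≠ y := by
    rintro rfl
    have h1 := ((h.bas.yS 1 (by omega)).2).1 (h.ful 1 (by omega)).2
    omega
  have hd : ∀ j < 6, u ∉ Sxy S x y j := by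
    intro j hj
    unfold Sxy
    split_ifs with h1 h2
    · exact (h.ful j h1).1
    · exact hux
    · exact huy
  obtain ⟨t, ht, hb, hsp⟩ := snocV h.bas.sp rfl h.uX hd
  have hS : ∀ j < 4, Sxy S x y j = S j := fun j hj => by simp [Sxy, hj]
  have b : ∀ j < 4, t.testBit j = true := fun j hj => by
    have := (hb j (by omega)).1 (by rw [hS j hj]; exact (h.ful j hj).2)
    exact this
  have b4 : ¬ t.testBit 4 = true := fun hc => by
    have h1 := (hb 4 (by omega)).2 hc
    rw [show Sxy S x y 4 = {x} from rfl, tch_single] at h1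
    exact h.ux h1
  have b5 : t.testBit 5 = true := by
    refine (hb 5 (by omega)).1 ?_
    rw [show Sxy S x y 5 = {y} from rfl, tch_single]
    exact h.uy
  have h47 := dec47 t (by simpa using ht) ⟨b 0 (by omega), b 1 (by omega), b 2 (by omega),
    b 3 (by omega), b4, b5⟩
  subst h47
  exact hsp

end qA5Aux

/-- **A5** -/
theorem qA5 : S_A5 := by
  intro V G X S x y u z h ho
  obtain ⟨hzX, hzS, hzx, hzy, hzu⟩ := ho
  have hd : ∀ j < 7, z ∉ (fun i => if i < 6 then Sxy S x y i else {u}) j := by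
    intro j hj
    simp only
    split_ifs with h1
    · unfold Sxy
      split_ifs with h2 h3
      · exact hzS j h2
      · exact hzx
      · exact hzy
    · exact hzu
  obtain ⟨t, ht, hb, hsp⟩ := snocV (qA5Aux.seven h) rfl hzX hd
  have e : ∀ j < 4, (Tch G {z} (S j) ↔ t.testBit j = true) := fun j hj => by
    rw [← hb j (by omega)]
    simp only [show j < 6 by omega, if_true]
    simp only [Sxy, hj, if_true]
  have e0 := e 0 (by omega)
  have e1 := e 1 (by omega)
  have e2 := e 2 (by omega)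
  have e3 := e 3 (by omega)
  have e4 : G.Adj z x ↔ t.testBit 4 = true := by
    rw [← hb 4 (by omega), ← tch_single]
    rfl
  have e5 : G.Adj z y ↔ t.testBit 5 = true := by
    rw [← hb 5 (by omega), ← tch_single]
    rfl
  have e6 : G.Adj z u ↔ t.testBit 6 = true := by
    rw [← hb 6 (by omega), ← tch_single]
    rfl
  have hk : ¬ killC r7 cs5 [0, 0, 3, 3, 1, 4, 47, t] = true := fun hc =>
    kill h.hH h.h7 hsp rfl cs5 hc
  have hdec := qA5Aux.dec5 t (by simpa using ht) hk
  rw [← e0, ← e1, ← e2, ← e3, ← e4, ← e5, ← e6] at hdec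
  obtain ⟨d1, d2, d3, d4, d5⟩ := hdec
  exact ⟨d1, fun hF => d2 (hF 0 (by omega)).2 (hF 1 (by omega)).2 (hF 2 (by omega)).2
    (hF 3 (by omega)).2, d3, d4, d5⟩

end Pool.Agent.MPd439b2.HC
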