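import Pool.Agent.Lib.MP_d439b2_co.HC.SpecC

/-!
# MP_d439b2_co, HC, QA6: two-vertex extensions of the base pattern (decided certificates)
-/

set_option autoImplicit false

namespace Pool.Agent.MPd439b2.HC

open Pool.Agent.MPd439b2 Pool.Agent.MPd439b2.BU

namespace qA6Aux

theorem bt {P : Prop} {b : Bool} (h : P ↔ b = true) (hp : P) : b = true := h.1 hp

theorem bf {P : Prop} {b : Bool} (h : P ↔ b = true) (hp : ¬ P) : b = false := by
  cases b
  · rfl
  · exact absurd (h.2 rfl) hp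

set_option maxRecDepth 20000 in
theorem d47 : ∀ s < 64,
    (s.testBit 0 = true ∧ s.testBit 1 = true ∧ s.testBit 2 = true ∧ s.testBit 3 = true ∧
    s.testBit 4 = false ∧ s.testBit 5 = true) → s = 47 := by decide

set_option maxRecDepth 20000 in
theorem dw1 : ∀ s < 128,
    (s.testBit 1 = false ∧ s.testBit 2 = true ∧ s.testBit 3 = true ∧ s.testBit 4 = true ∧
    s.testBit 5 = false ∧ s.testBit 6 = true) → s = 92 ∨ s = 93 := by decide

set_option maxRecDepth 20000 in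
theorem dw2 : ∀ s < 128,
    (s.testBit 0 = false ∧ s.testBit 1 = false ∧ s.testBit 2 = true ∧ s.testBit 3 = true ∧
    s.testBit 4 = false ∧ s.testBit 5 = false ∧ s.testBit 6 = true) → s = 76 := by decide

set_option maxRecDepth 20000 in
theorem dw3 : ∀ s < 128,
    (s.testBit 0 = true ∧ s.testBit 1 = true ∧ s.testBit 3 = false ∧ s.testBit 4 = false ∧
    s.testBit 5 = true ∧ s.testBit 6 = true) → s = 99 ∨ s = 103 := by decide

set_option maxRecDepth 20000 in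
theorem dw4 : ∀ s < 128,
    (s.testBit 0 = false ∧ s.testBit 1 = true ∧ s.testBit 2 = false ∧ s.testBit 3 = false ∧
    s.testBit 4 = false ∧ s.testBit 5 = false ∧ s.testBit 6 = true) → s = 66 := by decide

set_option maxRecDepth 20000 in
theorem dz1 : ∀ t < 256,
    (t.testBit 0 = true ∧ t.testBit 1 = false ∧ t.testBit 2 = false ∧ t.testBit 3 = false ∧
    t.testBit 5 = false ∧ t.testBit 7 = false) → t = 1 ∨ t = 65 ∨ t = 17 ∨ t = 81 := by decide

set_option maxRecDepth 20000 in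
theorem dz2 : ∀ t < 256,
    (t.testBit 0 = false ∧ t.testBit 1 = true ∧ t.testBit 2 = false ∧ t.testBit 3 = false ∧
    t.testBit 4 = false ∧ t.testBit 5 = false ∧ t.testBit 6 = true) → t = 66 ∨ t = 194 := by decide

set_option maxRecDepth 20000 in
theorem dz3 : ∀ t < 256,
    (t.testBit 0 = false ∧ t.testBit 1 = false ∧ t.testBit 2 = false ∧ t.testBit 3 = true ∧
    t.testBit 4 = false ∧ t.testBit 5 = false ∧ t.testBit 6 = true) → t = 72 ∨ t = 200 := by decide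

set_option maxRecDepth 20000 in
theorem dz4 : ∀ t < 256,
    (t.testBit 1 = false ∧ t.testBit 2 = false ∧ t.testBit 3 = false ∧ t.testBit 5 = false ∧
    t.testBit 7 = true ∧ (t.testBit 6 = true → t.testBit 0 = true)) → t = 128 ∨ t = 129 ∨ t =
    193 ∨ t = 144 ∨ t = 145 ∨ t = 209 := by decide

set_option maxRecDepth 20000 in
theorem dz5 : ∀ t < 256,
    (t.testBit 0 = true ∧ t.testBit 1 = true ∧ t.testBit 2 = true ∧ t.testBit 3 = true ∧
    t.testBit 5 = true ∧ t.testBit 7 = false) → t = 111 ∨ t = 127 ∨ t = 47 ∨ t = 63 := by decide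

variable {V : Type} {G : SimpleGraph V} {X : Set V} {S : ℕ → Set V} {x y u w z : V}

/-- the pattern with `u` -/
theorem ext0 (h : B7 G X S x y u) :
    SP G X 7 (fun i => if i < 6 then Sxy S x y i else {u}) (rc [0, 0, 3, 3, 1, 4, 47]) := by
  have hux : u ≠ x := by
    rintro rfl
    exact h.bas.nxy h.uy
  have huy : u ≠ y := h.uy.ne
  obtain ⟨t, ht, hb, hsp⟩ := snocV (z := u) h.bas.sp rfl h.uX (by
    intro j hj
    unfold Sxy
    split_ifs with h1 h2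
    · exact (h.ful j h1).1
    · exact hux
    · exact huy)
  have b0 : Tch G {u} (S 0) ↔ t.testBit 0 = true := hb 0 (by norm_num)
  have b1 : Tch G {u} (S 1) ↔ t.testBit 1 = true := hb 1 (by norm_num)
  have b2 : Tch G {u} (S 2) ↔ t.testBit 2 = true := hb 2 (by norm_num)
  have b3 : Tch G {u} (S 3) ↔ t.testBit 3 = true := hb 3 (by norm_num)
  have b4 : Tch G {u} {x} ↔ t.testBit 4 = true := hb 4 (by norm_num)
  have b5 : Tch G {u} {y} ↔ t.testBit 5 = true := hb 5 (by norm_num)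
  have e : t = 47 := d47 t ht ⟨bt b0 (h.ful 0 (by norm_num)).2, bt b1 (h.ful 1 (by norm_num)).2,
    bt b2 (h.ful 2 (by norm_num)).2, bt b3 (h.ful 3 (by norm_num)).2,
    bf b4 (fun h' => h.ux (tch_single.1 h')), bt b5 (tch_single.2 h.uy)⟩
  subst e
  exact hsp

/-- the pattern with `u`, `w` and `z` -/
theorem ext2 (h : B7 G X S x y u) (hw : Ob X S x y u w) (hz : Ob X S x y u z) (hne : w ≠ z) :
    ∃ s t : ℕ, s < 128 ∧ t < 256 ∧
      ((Tch G {w} (S 0) ↔ s.testBit 0 = true) ∧ (Tch G {w} (S 1) ↔ s.testBit 1 = true) ∧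
        (Tch G {w} (S 2) ↔ s.testBit 2 = true) ∧ (Tch G {w} (S 3) ↔ s.testBit 3 = true) ∧
        (G.Adj w x ↔ s.testBit 4 = true) ∧ (G.Adj w y ↔ s.testBit 5 = true) ∧
        (G.Adj w u ↔ s.testBit 6 = true)) ∧
      ((Tch G {z} (S 0) ↔ t.testBit 0 = true) ∧ (Tch G {z} (S 1) ↔ t.testBit 1 = true) ∧
        (Tch G {z} (S 2) ↔ t.testBit 2 = true) ∧ (Tch G {z} (S 3) ↔ t.testBit 3 = true) ∧
        (G.Adj z x ↔ t.testBit 4 = true) ∧ (G.Adj z y ↔ t.testBit 5 = true) ∧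
        (G.Adj z u ↔ t.testBit 6 = true) ∧ (G.Adj z w ↔ t.testBit 7 = true)) ∧
      (killC r7 cs6 [0, 0, 3, 3, 1, 4, 47, s, t] = true → False) := by
  have key : ∀ v : V, Ob X S x y u v → ∀ j < 7,
      v ∉ (fun i => if i < 6 then Sxy S x y i else {u}) j := by
    intro v hv j hj
    show v ∉ (if j < 6 then Sxy S x y j else {u})
    split_ifs with h1
    · unfold Sxy
      split_ifs with h2 h3
      · exact hv.2.1 j h2
      · exact hv.2.2.1
      · exact hv.2.2.2.1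
    · exact hv.2.2.2.2
  obtain ⟨s, hs, hbs, hsps⟩ := snocV (z := w) (ext0 h) rfl hw.1 (key w hw)
  obtain ⟨t, ht, hbt, hspt⟩ := snocV (z := z) hsps rfl hz.1 (by
    intro j hj
    show z ∉ (if j < 7 then (if j < 6 then Sxy S x y j else {u}) else {w})
    split_ifs with h1 h2
    · have := key z hz j h1
      simp only [h2, if_true] at this
      exact this
    · exact hz.2.2.2.2
    · exact hne.symm)
  refine ⟨s, t, hs, ht, ⟨hbs 0 (by norm_num), hbs 1 (by norm_num), hbs 2 (by norm_num),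
    hbs 3 (by norm_num), tch_single.symm.trans (hbs 4 (by norm_num)),
    tch_single.symm.trans (hbs 5 (by norm_num)), tch_single.symm.trans (hbs 6 (by norm_num))⟩,
    ⟨hbt 0 (by norm_num), hbt 1 (by norm_num), hbt 2 (by norm_num),
    hbt 3 (by norm_num), tch_single.symm.trans (hbt 4 (by norm_num)),
    tch_single.symm.trans (hbt 5 (by norm_num)), tch_single.symm.trans (hbt 6 (by norm_num)),
    tch_single.symm.trans (hbt 7 (by norm_num))⟩, ?_⟩
  intro hk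
  exact kill h.hH h.h7 hspt rfl cs6 hk

end qA6Aux

open qA6Aux in
set_option maxRecDepth 20000 in
theorem qA6 (h1 : S_A5) : S_A6 := by
  intro V G X S x y u w z h hw hz hne
  obtain ⟨s, t, hs, ht, ⟨w0, w1, w2, w3, w4, w5, w6⟩, ⟨z0, z1, z2, z3, z4, z5, z6, z7⟩, hk⟩ :=
    ext2 h hw hz hne
  obtain ⟨aw1, -, -, aw4, aw5⟩ := h1 V G X S x y u w h hw
  obtain ⟨az1, -, -, az4, az5⟩ := h1 V G X S x y u z h hz
  refine ⟨?_, ?_, ?_, ?_, ?_⟩
  · rintro ⟨c2, c3, cu, cx, cy⟩ ⟨e0, e2, e3, ey⟩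
    by_contra hzw
    have f1 := (aw1 c2 c3 cu cy).1
    have g1 : ¬ Tch G {z} (S 1) := fun h' => ((az5 e2 e3 ey).1 h').1 e0
    rcases dw1 s hs ⟨bf w1 f1, bt w2 c2, bt w3 c3, bt w4 cx, bf w5 cy, bt w6 cu⟩ with
      rfl | rfl <;>
    rcases dz1 t ht ⟨bt z0 e0, bf z1 g1, bf z2 e2, bf z3 e3, bf z5 ey, bf z7 hzw⟩ with
      rfl | rfl | rfl | rfl <;>
    exact hk (by decide)
  · rintro ⟨c2, c3, cu, c0, c1, cx, cy⟩ ⟨e1, e2, e3, ey⟩
    obtain ⟨g0, gu, gx⟩ := (az5 e2 e3 ey).1 e1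
    obtain rfl := dw2 s hs ⟨bf w0 c0, bf w1 c1, bt w2 c2, bt w3 c3, bf w4 cx, bf w5 cy, bt w6 cu⟩
    rcases dz2 t ht ⟨bf z0 g0, bt z1 e1, bf z2 e2, bf z3 e3, bf z4 gx, bf z5 ey,
      bt z6 gu⟩ with rfl | rfl <;>
    exact hk (by decide)
  · rintro ⟨c0, c1, c3, cu, cx, cy⟩ ⟨e3, e0, e1, e2, eu, ex⟩
    have gy := (az4 e0 e1 eu ex).2 e3
    rcases dw3 s hs ⟨bt w0 c0, bt w1 c1, bf w3 c3, bf w4 cx, bt w5 cy, bt w6 cu⟩ with
      rfl | rfl <;>
    rcases dz3 t ht ⟨bf z0 e0, bf z1 e1, bf z2 e2, bt z3 e3, bf z4 ex, bf z5 gy,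
      bt z6 eu⟩ with rfl | rfl <;>
    exact hk (by decide)
  · rintro ⟨c1, c2, c3, cy⟩ ⟨e2, e3, ey⟩ hwz
    obtain ⟨f0, fu, fx⟩ := (aw5 c2 c3 cy).1 c1
    obtain rfl := dw4 s hs ⟨bf w0 f0, bt w1 c1, bf w2 c2, bf w3 c3, bf w4 fx, bf w5 cy, bt w6 fu⟩
    by_cases e1 : Tch G {z} (S 1)
    · obtain ⟨g0, gu, gx⟩ := (az5 e2 e3 ey).1 e1
      have ht' : t = 194 := by
        rcases dz2 t ht ⟨bf z0 g0, bt z1 e1, bf z2 e2, bf z3 e3, bf z4 gx, bf z5 ey,
      bt z6 gu⟩ with rfl | rfl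
        · exact absurd (bt z7 hwz.symm) (by decide)
        · rfl
      subst ht'
      exact hk (by decide)
    · rcases dz4 t ht ⟨bf z1 e1, bf z2 e2, bf z3 e3, bf z5 ey, bt z7 hwz.symm,
        fun h6 => bt z0 (((az5 e2 e3 ey).2 (z6.2 h6)).resolve_right e1)⟩ with
        rfl | rfl | rfl | rfl | rfl | rfl <;>
      exact hk (by decide)
  · rintro ⟨c1, c2, c3, cy⟩ ⟨ef, ey⟩
    by_contra hzw
    obtain ⟨f0, fu, fx⟩ := (aw5 c2 c3 cy).1 c1
    obtain rfl := dw4 s hs ⟨bf w0 f0, bt w1 c1, bf w2 c2, bf w3 c3, bf w4 fx, bf w5 cy, bt w6 fu⟩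
    rcases dz5 t ht ⟨bt z0 (ef 0 (by norm_num)).2, bt z1 (ef 1 (by norm_num)).2,
      bt z2 (ef 2 (by norm_num)).2, bt z3 (ef 3 (by norm_num)).2, bt z5 ey, bf z7 hzw⟩ with
      rfl | rfl | rfl | rfl <;>
    exact hk (by decide)

end Pool.Agent.MPd439b2.HC
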