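import Pool.Agent.Lib.MP_d439b2_co.HC.SpecC

/-!
# MP_d439b2_co, HC: blocks (`S_B1`)
-/

set_option autoImplicit false

namespace Pool.Agent.MPd439b2.HC

open Pool.Agent.MPd439b2
open Pool.Agent.MPd439b2.BU

theorem qB1 : S_B1 := by
  intro V G W
  -- (4)
  have h4 : ∀ a ∈ W, ∀ b ∈ W, a ≠ b → ¬ G.Adj a b → ∃ K, Blk G W K ∧ a ∈ K ∧ b ∈ K := by
    intro a ha b hb hab hn
    obtain ⟨C, hCW, haC, hC, hnb⟩ := exists_comp Gᶜ ha
    have hbC : b ∈ C := by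
      by_contra hbC
      exact hnb b hb ⟨hbC, a, haC, hab, hn⟩
    exact ⟨C, ⟨⟨hCW, hC, hnb⟩, fun hs => hab (hs haC hbC)⟩, haC, hbC⟩
  -- (1)
  have h1 : ∀ K, Blk G W K → K ⊆ W ∧ ∀ a ∈ K, ∀ b ∈ W, b ∉ K → G.Adj a b := by
    intro K hK
    refine ⟨hK.1.1, fun a ha b hb hbK => ?_⟩
    by_contra hn
    exact hK.1.2.2 b hb ⟨hbK, a, ha, fun h => hbK (h ▸ ha), hn⟩
  -- (3)
  have h3 : ∀ K, Blk G W K → ∀ a ∈ K, ∃ b ∈ K, b ≠ a ∧ ¬ G.Adj a b := by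
    intro K hK a ha
    obtain ⟨b, hb, c, hc, hbc⟩ := hK.1.2.1.2 {a} (Set.singleton_subset_iff.2 ha) ⟨a, rfl⟩
      (fun h => hK.2 (by rw [← h]; exact Set.subsingleton_singleton))
    rw [Set.mem_singleton_iff] at hb
    subst hb
    exact ⟨c, hc.1, hbc.1.symm, hbc.2⟩
  -- (2)
  have h2 : ∀ K L, Blk G W K → Blk G W L → K ≠ L → Disjoint K L := by
    intro K L hK hL hKL
    rw [Set.disjoint_left]
    intro x hxK hxL
    apply hKL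
    have e1 : K ∩ L = K := hK.1.2.1.eq_of_nb Set.inter_subset_left ⟨x, hxK, hxL⟩ (by
      rintro v hv ⟨hv1, b, hb, hbv⟩
      have hvL : v ∉ L := fun h => hv1 ⟨hv, h⟩
      exact hL.1.2.2 v (hK.1.1 hv) ⟨hvL, b, hb.2, hbv⟩)
    have e2 : K ∩ L = L := hL.1.2.1.eq_of_nb Set.inter_subset_right ⟨x, hxK, hxL⟩ (by
      rintro v hv ⟨hv1, b, hb, hbv⟩
      have hvK : v ∉ K := fun h => hv1 ⟨h, hv⟩
      exact hK.1.2.2 v (hL.1.1 hv) ⟨hvK, b, hb.1, hbv⟩)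
    exact e1.symm.trans e2
  refine ⟨h1, h2, h3, h4, ?_, ?_, ?_⟩
  · intro w hw
    by_cases hu : w ∈ UW G W
    · exact Or.inl hu
    · right
      have : ∃ b ∈ W, b ≠ w ∧ ¬ G.Adj w b := by
        by_contra hcon
        push Not at hcon
        exact hu ⟨hw, hcon⟩
      obtain ⟨b, hb, hbw, hn⟩ := this
      obtain ⟨K, hK, hwK, _⟩ := h4 w hw b hb hbw.symm hn
      exact ⟨K, hK, hwK⟩
  · intro K hK w hw hu
    obtain ⟨b, hb, hbw, hn⟩ := h3 K hK w hw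
    exact hn (hu.2 b (hK.1.1 hb) hbw)
  · intro K hK y ha hb
    exact mixed_co hK.1.2.1 ha hb

end Pool.Agent.MPd439b2.HC
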