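import Pool.Agent.Lib.MP_d439b2_co.HC.SpecC

/-!
# MP_d439b2_co, HC: the rich structure of `W`
-/

set_option autoImplicit false

namespace Pool.Agent.MPd439b2.HC

open Pool.Agent.MPd439b2
open Pool.Agent.MPd439b2.BU

/-- the four-cycle `w c w' d` -/
private theorem qB10_four {V : Type} {G : SimpleGraph V} {X : Set V} {w c w' d : V} (hw : w ∈ X)
    (hc : c ∈ X) (hw' : w' ∈ X) (hd : d ∈ X) (n1 : w ≠ w') (n2 : c ≠ d) (a1 : ¬ G.Adj w w')
    (a2 : ¬ G.Adj c d) (e1 : G.Adj w c) (e2 : G.Adj w d) (e3 : G.Adj w' c) (e4 : G.Adj w' d) :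
    IC G X 4 (fun i => if i = 0 then w else if i = 1 then c else if i = 2 then w' else d) := by
  have m1 := e1.ne
  have m2 := e2.ne
  have m3 := e3.ne
  have m4 := e4.ne
  have a1' : ¬ G.Adj w' w := fun h => a1 h.symm
  have a2' : ¬ G.Adj d c := fun h => a2 h.symm
  refine ⟨?_, ?_, ?_⟩
  · intro i hi
    interval_cases i <;> simp [hw, hc, hw', hd]
  · intro i hi j hj
    interval_cases i <;> interval_cases j <;>
      simp [n1, n1.symm, n2, n2.symm, m1, m1.symm, m2, m2.symm, m3, m3.symm, m4, m4.symm]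
  · intro i hi j hj
    interval_cases i <;> interval_cases j <;>
      simp [a1, a2, e1, e2, e3, e4, e1.symm, e2.symm, e3.symm, e4.symm, a1', a2']

theorem qB10 (h1 : S_B1) (h2 : S_B4) (h3 : S_FB) (h4 : S_B6) (h5 : S_B9) : S_B10 := by
  intro V _ G X W hH hP hM
  obtain ⟨b1, b2, b3, _, b5, b6, _⟩ := h1 V G W
  have sep : ∀ K L, Blk G W K → Blk G W L → K ≠ L →
      (∀ x ∈ FB G X W K, ∀ y ∈ FB G X W L, x ≠ y ∧ ¬ G.Adj x y) ∧
      (∀ x ∈ FB G X W K, ∀ w ∈ L, ¬ G.Adj x w) ∧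
      (∀ x ∈ FB G X W K, x ∈ X ∧ x ∉ W) ∧
      (∀ x ∈ FB G X W K, ∀ x' ∈ X, x' ∉ W → G.Adj x x' → x' ∈ FB G X W K) ∧
      ∀ x ∈ X, x ∉ W → ∀ w ∈ K, G.Adj x w → x ∈ FB G X W K := by
    intro K L hK hL hKL
    exact h3 V G X W K L (fun D hD hc ht => h2 V G X W K L D hH hM hK hL hKL hD hc ht)
  have other : ∀ K, Blk G W K → ∃ L, Blk G W L ∧ K ≠ L := by
    intro K hK
    obtain ⟨K1, K2, h7, h8, h9⟩ := hM.two
    by_cases h : K = K1
    · exact ⟨K2, h8, by rw [h]; exact h9⟩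
    · exact ⟨K1, h7, h⟩
  set F : Set V := {x | ∃ K, Blk G W K ∧ x ∈ FB G X W K} with hF
  have hFXW : ∀ x ∈ F, x ∈ X ∧ x ∉ W := by
    rintro x ⟨K, hK, hx⟩
    obtain ⟨L, hL, hKL⟩ := other K hK
    exact (sep K L hK hL hKL).2.2.1 x hx
  set B : Set V := (W \ UW G W) ∪ F with hB
  have hBX : B ⊆ X := by
    rintro x (hx | hx)
    · exact hM.sub hx.1
    · exact (hFXW x hx).1
  have hUW : UW G W ⊆ W := fun x hx => hx.1
  obtain ⟨bas, pen⟩ := h5 V G X W B F hH hP hM rfl rfl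
  -- elements of `M`
  have hMm : ∀ m ∈ X \ (B ∪ UW G W), m ∈ X ∧ m ∉ W ∧ m ∉ F := by
    rintro m ⟨hmX, hm⟩
    refine ⟨hmX, fun hmW => hm ?_, fun hmF => hm (Or.inl (Or.inr hmF))⟩
    by_cases hu : m ∈ UW G W
    · exact Or.inr hu
    · exact Or.inl (Or.inl ⟨hmW, hu⟩)
  obtain ⟨K, L, hK, hL, hKL⟩ := hM.two
  have blkB : ∀ K', Blk G W K' → K' ⊆ W \ UW G W := fun K' hK' x hx => ⟨(b1 K' hK').1 hx, b6 K' hK' x hx⟩
  refine ⟨B, X \ (B ∪ UW G W), ?_, ?_, ?_, ?_, ?_, ?_, ?_, ?_, ?_, bas, pen, ?_⟩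
  · ext x
    constructor
    · intro hx
      by_cases hxB : x ∈ B
      · exact Or.inl hxB
      · by_cases hxU : x ∈ UW G W
        · exact Or.inr (Or.inl hxU)
        · exact Or.inr (Or.inr ⟨hx, fun h => h.elim hxB hxU⟩)
    · rintro (hx | hx | hx)
      · exact hBX hx
      · exact hM.sub (hUW hx)
      · exact hx.1
  · rw [Set.disjoint_left]
    rintro x (hx | hx) hxU
    · exact hx.2 hxU
    · exact (hFXW x hx).2 (hUW hxU)
  · rw [Set.disjoint_left]
    intro x hx hxM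
    exact hxM.2 (Or.inl hx)
  · rw [Set.disjoint_left]
    intro x hx hxM
    exact hxM.2 (Or.inr hx)
  · exact Set.subset_union_right
  · obtain ⟨_, y, hy, _⟩ := h4 V G X W K hP hM hK
    exact ⟨y, K, hK, hy⟩
  · intro u hu b hb hbF
    rcases hb with hb | hb
    · exact hu.2 b hb.1 (fun h => hb.2 (h ▸ hu))
    · exact (hbF hb).elim
  · intro m hm b hb hadj
    obtain ⟨hmX, hmW, hmF⟩ := hMm m hm
    rcases hb with hb | ⟨K', hK', hb⟩
    · rcases b5 b hb.1 with h | ⟨K', hK', hbK⟩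
      · exact hb.2 h
      · obtain ⟨L', hL', hKL'⟩ := other K' hK'
        exact hmF ⟨K', hK', (sep K' L' hK' hL' hKL').2.2.2.2 m hmX hmW b hbK hadj⟩
    · obtain ⟨L', hL', hKL'⟩ := other K' hK'
      exact hmF ⟨K', hK', (sep K' L' hK' hL' hKL').2.2.2.1 b hb m hmX hmW hadj.symm⟩
  · -- the split
    obtain ⟨f1, f2, f3, _, _⟩ := sep K L hK hL hKL
    refine ⟨K ∪ FB G X W K, ?_, ?_, ?_, (W \ UW G W) \ K, ?_, ?_⟩
    · rintro x (hx | hx)
      · exact Or.inl (blkB K hK hx)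
      · exact Or.inr ⟨K, hK, hx⟩
    · exact fun h => hK.2 (h.anti Set.subset_union_left)
    · intro h
      refine hL.2 (h.anti fun x hx => ⟨Or.inl (blkB L hL hx), ?_⟩)
      rintro (h' | h')
      · exact Set.disjoint_left.1 (b2 K L hK hL hKL) h' hx
      · exact (f3 x h').2 ((b1 L hL).1 hx)
    · rintro x ⟨hx, hxK⟩
      refine ⟨Or.inl hx, ?_⟩
      rintro (h' | h')
      · exact hxK h'
      · exact (f3 x h').2 hx.1
    · rintro a ha b ⟨hbB, hbA⟩
      have hbK : b ∉ K := fun h => hbA (Or.inl h)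
      rcases ha with ha | ha
      · have haW := (b1 K hK).1 ha
        have haF : a ∉ F := fun h => (hFXW a h).2 haW
        rcases hbB with hb | hb
        · exact ⟨fun _ => ⟨haF, hb, hbK⟩, fun _ => (b1 K hK).2 a ha b hb.1 hbK⟩
        · have hbW := (hFXW b hb).2
          obtain ⟨K', hK', hbK'⟩ := hb
          have hne : K' ≠ K := fun h => hbA (Or.inr (h ▸ hbK'))
          have := (sep K' K hK' hK hne).2.1 b hbK' a ha
          exact ⟨fun h => (this h.symm).elim, fun h => (hbW h.2.1.1).elim⟩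
      · have haF : a ∈ F := ⟨K, hK, ha⟩
        refine ⟨fun h => ?_, fun h => (h.1 haF).elim⟩
        exfalso
        rcases hbB with hb | hb
        · rcases b5 b hb.1 with h' | ⟨K', hK', hbK'⟩
          · exact hb.2 h'
          · have hne : K ≠ K' := fun h' => hbK (h' ▸ hbK')
            exact (sep K K' hK hK' hne).2.1 a ha b hbK' h
        · obtain ⟨K', hK', hbK'⟩ := hb
          have hne : K ≠ K' := fun h' => hbA (Or.inr (h' ▸ hbK'))
          exact ((sep K K' hK hK' hne).1 a ha b hbK').2 h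
  · -- long cycles
    have pair : ∀ K', Blk G W K' → ∃ c ∈ K', ∃ d ∈ K', c ≠ d ∧ ¬ G.Adj c d := by
      intro K' hK'
      have hne : K'.Nonempty := by
        by_contra h
        rw [Set.not_nonempty_iff_eq_empty] at h
        exact hK'.2 (h ▸ Set.subsingleton_empty)
      obtain ⟨c, hc⟩ := hne
      obtain ⟨d, hd, hdc, hcd⟩ := b3 K' hK' c hc
      exact ⟨c, hc, d, hd, hdc.symm, hcd⟩
    have inX : ∀ K', Blk G W K' → ∀ x ∈ K', x ∈ X := fun K' hK' x hx => hM.sub ((b1 K' hK').1 hx)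
    have adj2 : ∀ K' L', Blk G W K' → Blk G W L' → K' ≠ L' → ∀ a ∈ K', ∀ b ∈ L', G.Adj a b := by
      intro K' L' hK' hL' hne a ha b hb
      exact (b1 K' hK').2 a ha b ((b1 L' hL').1 hb)
        (fun h => Set.disjoint_left.1 (b2 K' L' hK' hL' hne) h hb)
    rintro b (hb | ⟨K', hK', hb⟩)
    · rcases b5 b hb.1 with h' | ⟨K', hK', hbK⟩
      · exact (hb.2 h').elim
      · obtain ⟨L', hL', hne⟩ := other K' hK'
        obtain ⟨w, hw, hwb, hbw⟩ := b3 K' hK' b hbK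
        obtain ⟨c, hc, d, hd, hcd, hcd'⟩ := pair L' hL'
        refine ⟨w, Or.inl (blkB K' hK' hw), hwb, hbw, 4, _, le_rfl,
          qB10_four (inX K' hK' w hw) (inX L' hL' c hc) (inX K' hK' b hbK) (inX L' hL' d hd) hwb hcd
            (fun h => hbw h.symm) hcd' (adj2 K' L' hK' hL' hne w hw c hc)
            (adj2 K' L' hK' hL' hne w hw d hd) (adj2 K' L' hK' hL' hne b hbK c hc)
            (adj2 K' L' hK' hL' hne b hbK d hd), 0, by norm_num, rfl⟩
    · obtain ⟨L', hL', hne⟩ := other K' hK'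
      obtain ⟨w, hw, w', hw', hww, hww'⟩ := pair L' hL'
      obtain ⟨c, hc, d, hd, hcd, hcd'⟩ := pair K' hK'
      obtain ⟨_, f2, f3, _, _⟩ := sep K' L' hK' hL' hne
      refine ⟨w, Or.inl (blkB L' hL' hw), ?_, f2 b hb w hw, 4, _, le_rfl,
        qB10_four (inX L' hL' w hw) (inX K' hK' c hc) (inX L' hL' w' hw') (inX K' hK' d hd) hww hcd
          hww' hcd' (adj2 L' K' hL' hK' hne.symm w hw c hc) (adj2 L' K' hL' hK' hne.symm w hw d hd)
          (adj2 L' K' hL' hK' hne.symm w' hw' c hc) (adj2 L' K' hL' hK' hne.symm w' hw' d hd), 0,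
          by norm_num, rfl⟩
      intro h
      exact (f3 b hb).2 (h ▸ (b1 L' hL').1 hw)

end Pool.Agent.MPd439b2.HC
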