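import Pool.Agent.Lib.MP_d439b2_co.HC.SpecC

/-!
# MP_d439b2_co, HC/QB2: existence of a maximal set with two blocks
-/

set_option autoImplicit false

namespace Pool.Agent.MPd439b2.HC

open Pool.Agent.MPd439b2
open Pool.Agent.MPd439b2.BU

namespace qB2Aux

theorem blk {V : Type} (G : SimpleGraph V) {P Q : Set V} (hPQ : ∀ p ∈ P, ∀ q ∈ Q, G.Adj p q)
    {a b : V} (ha : a ∈ P) (hb : b ∈ P) (hab : a ≠ b) (hn : ¬ G.Adj a b) :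
    ∃ K, Blk G (P ∪ Q) K ∧ K ⊆ P ∧ a ∈ K := by
  obtain ⟨K, hK, haK, hc, hnb⟩ := exists_comp Gᶜ (A := P ∪ Q) (v := a) (Or.inl ha)
  have hbK : b ∈ K := by
    by_contra h
    exact hnb b (Or.inl hb) ⟨h, a, haK, hab, hn⟩
  refine ⟨K, ⟨⟨hK, hc, hnb⟩, fun h => hab (h haK hbK)⟩, ?_, haK⟩
  by_contra hKP
  obtain ⟨p, hp, q, hq, hpq⟩ := hc.2 (K ∩ P) Set.inter_subset_left ⟨a, haK, ha⟩ (by
    intro h
    exact hKP (Set.inter_eq_left.mp h))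
  have hqQ : q ∈ Q := (hK hq.1).resolve_left fun h => hq.2 ⟨hq.1, h⟩
  exact hpq.2 (hPQ p hp.2 q hqQ)

end qB2Aux

/-- **B2.** Existence of the structure. -/
theorem qB2 : S_B2 := by
  intro V _ G X P Q a b c d hP hQ hPQ ha hb hab hnab hc hd hcd hncd
  have hfin : {W : Set V | P ∪ Q ⊆ W ∧ W ⊆ X ∧ ∃ K L, Blk G W K ∧ Blk G W L ∧ K ≠ L}.Finite :=
    Set.toFinite _
  obtain ⟨K, hK, hKP, haK⟩ := qB2Aux.blk G hPQ ha hb hab hnab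
  obtain ⟨L, hL, hLQ, hcL⟩ := qB2Aux.blk G (P := Q) (Q := P) (fun q hq p hp => (hPQ p hp q hq).symm)
    hc hd hcd hncd
  rw [Set.union_comm] at hL
  obtain ⟨W, hW⟩ := hfin.exists_maximal ⟨P ∪ Q, subset_rfl, Set.union_subset hP hQ, K, L, hK, hL, by
    rintro rfl
    exact (hPQ a ha a (hLQ haK)).ne rfl⟩
  obtain ⟨h1, h2, h3⟩ := hW.1
  refine ⟨W, h1, h2, h3, fun W' hWW' hW'X h4 => ?_⟩
  exact Set.Subset.antisymm (hW.2 ⟨h1.trans hWW', hW'X, h4⟩ hWW') hWW'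

end Pool.Agent.MPd439b2.HC
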