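import Pool.Agent.Lib.MP_d439b2_co.HC.SpecC

/-!
# MP_d439b2_co, HC: B3, outside vertices have non-neighbours in all blocks (helper51)
-/

set_option autoImplicit false

namespace Pool.Agent.MPd439b2.HC

open Pool.Agent.MPd439b2
open Pool.Agent.MPd439b2.BU

theorem qB3 (h1 : S_B1) : S_B3 := by
  intro V G X W K x hW hK hx hxW
  by_contra hcon
  push Not at hcon
  obtain ⟨a1, a2, a3, a4, a5, a6, a7⟩ := h1 V G W
  obtain ⟨b1, b2, b3, b4, b5, b6, b7⟩ := h1 V G (insert x W)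
  have hKW := hK.1.1
  -- `K` is a block of `insert x W`
  have hK' : Blk G (insert x W) K := by
    refine ⟨⟨fun v hv => Or.inr (hK.1.1 hv), hK.1.2.1, ?_⟩, hK.2⟩
    intro v hv hvn
    rcases hv with hv | hv
    · subst hv
      obtain ⟨_, a, ha, hav⟩ := hvn
      exact hav.2 (hcon a ha).symm
    · exact hK.1.2.2 v hv hvn
  -- another block of `W`
  obtain ⟨L, hL, hLK⟩ : ∃ L, Blk G W L ∧ L ≠ K := by
    obtain ⟨P, Q, hP, hQ, hPQ⟩ := hW.two
    by_cases h : P = K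
    · exact ⟨Q, hQ, fun h' => hPQ (h.trans h'.symm)⟩
    · exact ⟨P, hP, h⟩
  have hd := a2 L K hL hK hLK
  obtain ⟨c, hc⟩ := hL.1.2.1.1
  obtain ⟨d, hdL, hdc, hcd⟩ := a3 L hL c hc
  have hcW : c ∈ W := (a1 L hL).1 hc
  have hdW : d ∈ W := (a1 L hL).1 hdL
  obtain ⟨L', hL', hc', -⟩ := b4 c (Or.inr hcW) d (Or.inr hdW) (fun h => hdc h.symm) hcd
  have hne : K ≠ L' := fun h => Set.disjoint_left.1 hd hc (h ▸ hc')
  have := hW.max (insert x W) (Set.subset_insert x W) (Set.insert_subset hx hW.sub)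
    ⟨K, L', hK', hL', hne⟩
  exact hxW (this ▸ Set.mem_insert x W)

end Pool.Agent.MPd439b2.HC
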