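import Pool.Agent.Lib.MP_d439b2_co.HC.SpecC

/-!
# MP_d439b2_co, HC: a connected set outside `W` touches at most one block (`S_B4`)
-/

set_option autoImplicit false

namespace Pool.Agent.MPd439b2.HC

open Pool.Agent.MPd439b2
open Pool.Agent.MPd439b2.BU

/-- prefixes of a path are connected -/
theorem qB4_conn {V : Type} {G : SimpleGraph V} {p : ℕ → V} (l : ℕ)
    (h : ∀ i < l, G.Adj (p i) (p (i + 1))) : Conn G {v | ∃ i ≤ l, v = p i} := by
  induction l with
  | zero =>
    have : {v | ∃ i ≤ 0, v = p i} = {p 0} := by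
      ext v
      simp
    rw [this]
    exact Conn.singleton G _
  | succ l ih =>
    have : {v | ∃ i ≤ l + 1, v = p i} = insert (p (l + 1)) {v | ∃ i ≤ l, v = p i} := by
      ext v
      simp only [Set.mem_ofPred_eq, Set.mem_insert_iff]
      constructor
      · rintro ⟨i, hi, rfl⟩
        rcases Nat.lt_or_ge l i with h1 | h1
        · left
          rw [show i = l + 1 by omega]
        · exact Or.inr ⟨i, h1, rfl⟩
      · rintro (rfl | ⟨i, hi, rfl⟩)
        · exact ⟨l + 1, le_rfl, rfl⟩
        · exact ⟨i, by omega, rfl⟩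
    rw [this]
    exact (ih fun i hi => h i (by omega)).insert ⟨p l, ⟨l, le_rfl, rfl⟩, h l (by omega)⟩

theorem qB4 (hB1 : S_B1) (hB3 : S_B3) : S_B4 := by
  intro V G X W K L D hH hW hK hL hKL hD hDc hTK hTL
  obtain ⟨h1, h2, h3, h4, h5, h6, h7⟩ := hB1 V G W
  have hdis := h2 K L hK hL hKL
  have hpath := path V G D {v | ∃ w ∈ K, G.Adj v w} {v | ∃ w ∈ L, G.Adj v w} hDc
    (by obtain ⟨x, hx, w, hw, hxw⟩ := hTK; exact ⟨x, hx, w, hw, hxw⟩)
    (by obtain ⟨x, hx, w, hw, hxw⟩ := hTL; exact ⟨x, hx, w, hw, hxw⟩)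
  obtain ⟨l, p, hp0, hpl, hpD, hpi, hpa, hpK, hpL⟩ := hpath
  have hX : ∀ i ≤ l, p i ∈ X ∧ p i ∉ W := fun i hi => hD (hpD i hi)
  obtain ⟨a, ha, b, hb, h0a, h0b, hab, nab⟩ := h7 K hK (p 0) hp0
    (hB3 V G X W K (p 0) hW hK (hX 0 (by omega)).1 (hX 0 (by omega)).2)
  obtain ⟨c, hc, d, hd, hlc, hld, hcd, ncd⟩ := h7 L hL (p l) hpl
    (hB3 V G X W L (p l) hW hL (hX l le_rfl).1 (hX l le_rfl).2)
  -- the path
  set P : Set V := {v | ∃ i ≤ l, v = p i} with hP
  have hPc : Conn G P := qB4_conn l fun i hi => (hpa i (by omega) (i + 1) (by omega)).2 (Or.inr rfl)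
  have hPX : P ⊆ X := by
    rintro v ⟨i, hi, rfl⟩
    exact (hX i hi).1
  have hPW : ∀ w ∈ W, w ∉ P := by
    rintro w hw ⟨i, hi, rfl⟩
    exact (hX i hi).2 hw
  have hKW := (h1 K hK).1
  have hLW := (h1 L hL).1
  have hKLa : ∀ x ∈ K, ∀ y ∈ L, G.Adj x y := fun x hx y hy =>
    (h1 K hK).2 x hx y (hLW hy) (fun h => Set.disjoint_left.1 hdis h hy)
  have hWX := hW.sub
  -- adjacencies of the path
  have hPa : Tch G P {a} := ⟨p 0, ⟨0, by omega, rfl⟩, a, rfl, h0a⟩
  have hPc' : Tch G P {c} := ⟨p l, ⟨l, le_rfl, rfl⟩, c, rfl, hlc⟩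
  have hPb : ¬ Tch G P {b} := by
    rintro ⟨v, ⟨i, hi, rfl⟩, w, hw, hvw⟩
    rw [Set.mem_singleton_iff] at hw
    subst hw
    have : i = 0 := hpK i hi ⟨w, hb, hvw⟩
    subst this
    exact h0b hvw
  have hPd : ¬ Tch G P {d} := by
    rintro ⟨v, ⟨i, hi, rfl⟩, w, hw, hvw⟩
    rw [Set.mem_singleton_iff] at hw
    subst hw
    have : i = l := hpL i hi ⟨w, hd, hvw⟩
    subst this
    exact hld hvw
  have nac : a ≠ c := fun h => Set.disjoint_left.1 hdis ha (h ▸ hc)
  have nad : a ≠ d := fun h => Set.disjoint_left.1 hdis ha (h ▸ hd)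
  have nbc : b ≠ c := fun h => Set.disjoint_left.1 hdis hb (h ▸ hc)
  have nbd : b ≠ d := fun h => Set.disjoint_left.1 hdis hb (h ▸ hd)
  refine hH (fun i => if i = 0 then {a} else if i = 1 then {b} else if i = 2 then {c} else
    if i = 3 then {d} else P) ⟨?_, ?_, ?_, ?_⟩
  · intro i hi
    interval_cases i
    · exact Set.singleton_subset_iff.2 (hWX (hKW ha))
    · exact Set.singleton_subset_iff.2 (hWX (hKW hb))
    · exact Set.singleton_subset_iff.2 (hWX (hLW hc))
    · exact Set.singleton_subset_iff.2 (hWX (hLW hd))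
    · exact hPX
  · intro i hi
    interval_cases i
    · exact Conn.singleton G _
    · exact Conn.singleton G _
    · exact Conn.singleton G _
    · exact Conn.singleton G _
    · exact hPc
  · intro i hi j hj
    interval_cases i <;> interval_cases j
    · exact Set.disjoint_singleton.2 hab.symm
    · exact Set.disjoint_singleton.2 nac.symm
    · exact Set.disjoint_singleton.2 nbc.symm
    · exact Set.disjoint_singleton.2 nad.symm
    · exact Set.disjoint_singleton.2 nbd.symm
    · exact Set.disjoint_singleton.2 hcd.symm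
    · exact Set.disjoint_singleton_right.2 (hPW a (hKW ha))
    · exact Set.disjoint_singleton_right.2 (hPW b (hKW hb))
    · exact Set.disjoint_singleton_right.2 (hPW c (hLW hc))
    · exact Set.disjoint_singleton_right.2 (hPW d (hLW hd))
  · intro i hi j hj
    interval_cases i <;> interval_cases j
    · exact iff_of_false (fun h => nab (tch_single.1 h).symm) (by decide)
    · exact iff_of_true (tch_single.2 (hKLa a ha c hc).symm) (by decide)
    · exact iff_of_true (tch_single.2 (hKLa b hb c hc).symm) (by decide)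
    · exact iff_of_true (tch_single.2 (hKLa a ha d hd).symm) (by decide)
    · exact iff_of_true (tch_single.2 (hKLa b hb d hd).symm) (by decide)
    · exact iff_of_false (fun h => ncd (tch_single.1 h).symm) (by decide)
    · exact iff_of_true hPa (by decide)
    · exact iff_of_false hPb (by decide)
    · exact iff_of_true hPc' (by decide)
    · exact iff_of_false hPd (by decide)

end Pool.Agent.MPd439b2.HC
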