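import Pool.Agent.Lib.MP_d439b2_co.HC.SpecC

set_option autoImplicit false

namespace Pool.Agent.MPd439b2.HC

open Pool.Agent.MPd439b2
open Pool.Agent.MPd439b2.BU

theorem qB6 (h1 : S_B1) (h2 : S_SPb) (_h3 : S_FB) : S_B6 := by
  intro V _ G X W K hX hW hK
  obtain ⟨b1, b2, b3, -, -, -, -⟩ := h1 V G W
  -- another block
  obtain ⟨L, hL, hKL⟩ : ∃ L, Blk G W L ∧ K ≠ L := by
    obtain ⟨K', L', hK', hL', hne⟩ := hW.two
    by_cases h : K = K'
    · exact ⟨L', hL', h ▸ hne⟩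
    · exact ⟨K', hK', h⟩
  have hdis := b2 K L hK hL hKL
  have hKW := (b1 K hK).1
  have hLW := (b1 L hL).1
  obtain ⟨a, ha, b, hb, hab⟩ := Set.not_subsingleton_iff.1 hK.2
  obtain ⟨c, hc, d, hd, hcd⟩ := Set.not_subsingleton_iff.1 hL.2
  have hca : c ≠ a := fun h => Set.disjoint_left.1 hdis (h ▸ ha) hc
  have hcb : c ≠ b := fun h => Set.disjoint_left.1 hdis (h ▸ hb) hc
  have hda : d ≠ a := fun h => Set.disjoint_left.1 hdis (h ▸ ha) hd
  have hdb : d ≠ b := fun h => Set.disjoint_left.1 hdis (h ▸ hb) hd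
  have hcard : 4 ≤ X.ncard := by
    classical
    have h5 : ({a, b, c, d} : Set V) ⊆ X := by
      rintro v (rfl | rfl | rfl | rfl)
      · exact hW.sub (hKW ha)
      · exact hW.sub (hKW hb)
      · exact hW.sub (hLW hc)
      · exact hW.sub (hLW hd)
    have h6 : ({a, b, c, d} : Set V).ncard = 4 := by
      rw [Set.ncard_insert_of_notMem, Set.ncard_insert_of_notMem, Set.ncard_pair hcd]
      · simp only [Set.mem_insert_iff, Set.mem_singleton_iff, not_or]
        exact ⟨hcb.symm, hdb.symm⟩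
      · simp only [Set.mem_insert_iff, Set.mem_singleton_iff, not_or]
        exact ⟨hab, hca.symm, hda.symm⟩
    rw [← h6]
    exact Set.ncard_le_ncard h5 (Set.toFinite X)
  refine ⟨hcard, ?_⟩
  by_contra hcon
  push Not at hcon
  have hno : ∀ y ∈ X, y ∉ W → ∀ w ∈ K, ¬ G.Adj y w := by
    intro y hy hyW w hw hyw
    exact hcon y ⟨{y}, Set.singleton_subset_iff.2 ⟨hy, hyW⟩, Conn.singleton G y, rfl,
      y, rfl, w, hw, hyw⟩ w hw hyw
  have hmod : Mod G X K := by
    refine ⟨hKW.trans hW.sub, fun y hy hyK a' ha' b' hb' hya => ?_⟩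
    by_cases hyW : y ∈ W
    · exact ((b1 K hK).2 b' hb' y hyW hyK).symm
    · exact absurd hya (hno y hy hyW a' ha')
  rcases (h2 V G X hX hcard).2.1 K hmod with h5 | h5
  · exact hK.2 h5
  · exact hcd (h5 ⟨hW.sub (hLW hc), Set.disjoint_right.1 hdis hc⟩
      ⟨hW.sub (hLW hd), Set.disjoint_right.1 hdis hd⟩)

end Pool.Agent.MPd439b2.HC
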