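import Pool.Agent.Lib.MP_d439b2_co.HC.SpecC

/-!
# MP_d439b2_co, HC: BASE from two arms (`S_B8`)
-/

set_option autoImplicit false

namespace Pool.Agent.MPd439b2.HC

open Pool.Agent.MPd439b2
open Pool.Agent.MPd439b2.BU

namespace qB8Aux

variable {V : Type}

theorem sq0 (T T' : Set V) (o o' : V) : Sq T o T' o' 0 = T := rfl

theorem sq1 (T T' : Set V) (o o' : V) : Sq T o T' o' 1 = {o} := rfl

theorem sq2 (T T' : Set V) (o o' : V) : Sq T o T' o' 2 = T' := rfl

theorem sq3 (T T' : Set V) (o o' : V) : Sq T o T' o' 3 = {o'} := rfl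

end qB8Aux

open qB8Aux in
theorem qB8 (h1 : S_B1) (h2 : S_B4) (h3 : S_FB) : S_B8 := by
  intro V G X W K L T T' Z o o' x y hH hM hK hL hKL hA hA' hXZ hxZ hyZ hxy hnxy hx1 hx2 hy1 hy2
  obtain ⟨b1, b2, b3, b4, b5, b6, b7⟩ := h1 V G W
  have hKW : K ⊆ W := (b1 K hK).1
  have hLW : L ⊆ W := (b1 L hL).1
  have hdKL : Disjoint K L := b2 K L hK hL hKL
  obtain ⟨f1, f2, f3, -, -⟩ := h3 V G X W K L
    fun D hD hDc hDt => h2 V G X W K L D hH hM hK hL hKL hD hDc hDt
  obtain ⟨-, -, g3, -, -⟩ := h3 V G X W L K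
    fun D hD hDc hDt => h2 V G X W L K D hH hM hL hK hKL.symm hD hDc hDt
  have hdis : ∀ v, v ∈ K ∪ FB G X W K → v ∈ L ∪ FB G X W L → False := by
    rintro v (hv | hv) (hv' | hv')
    · exact Set.disjoint_left.1 hdKL hv hv'
    · exact (g3 v hv').2 (hKW hv)
    · exact (f3 v hv).2 (hLW hv')
    · exact (f1 v hv v hv').1 rfl
  have hKX : K ∪ FB G X W K ⊆ X := by
    rintro v (hv | hv)
    · exact hM.sub (hKW hv)
    · exact (f3 v hv).1
  have hLX : L ∪ FB G X W L ⊆ X := by
    rintro v (hv | hv)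
    · exact hM.sub (hLW hv)
    · exact (g3 v hv).1
  have hcom : ∀ a ∈ K, ∀ b ∈ L, G.Adj a b := fun a ha b hb =>
    (b1 K hK).2 a ha b (hLW hb) fun h => Set.disjoint_left.1 hdKL h hb
  obtain ⟨t, htT, htK⟩ := hA.mt
  obtain ⟨t', htT', htL'⟩ := hA'.mt
  have ho : o ∈ K ∪ FB G X W K := Or.inl hA.oK
  have ho' : o' ∈ L ∪ FB G X W L := Or.inl hA'.oK
  have hsubs : ∀ i < 4, Sq T o T' o' i ⊆ (K ∪ FB G X W K) ∪ (L ∪ FB G X W L) := by
    intro i hi
    interval_cases i
    · exact fun v hv => Or.inl (hA.sub hv)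
    · rintro v rfl
      exact Or.inl ho
    · exact fun v hv => Or.inr (hA'.sub hv)
    · rintro v rfl
      exact Or.inr ho'
  refine ⟨⟨hxZ, hyZ, hxy, hnxy, ?_, ?_, ?_, ?_, ?_, ?_⟩, hsubs, ?_⟩
  · intro i hi v hv
    rcases hsubs i hi hv with h | h
    · exact hXZ (hKX h)
    · exact hXZ (hLX h)
  · intro i hi
    interval_cases i
    · exact hA.con
    · exact Conn.singleton G o
    · exact hA'.con
    · exact Conn.singleton G o'
  · intro i hi j hj
    have d10 : Disjoint ({o} : Set V) T := Set.disjoint_singleton_left.2 hA.oT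
    have d20 : Disjoint T' T := Set.disjoint_left.2 fun v hv hv' => hdis v (hA.sub hv') (hA'.sub hv)
    have d21 : Disjoint T' ({o} : Set V) := Set.disjoint_singleton_right.2 fun hv =>
      hdis o ho (hA'.sub hv)
    have d30 : Disjoint ({o'} : Set V) T := Set.disjoint_singleton_left.2 fun hv =>
      hdis o' (hA.sub hv) ho'
    have d31 : Disjoint ({o'} : Set V) ({o} : Set V) := Set.disjoint_singleton_left.2 fun hv => by
      rw [Set.mem_singleton_iff] at hv
      exact hdis o' (hv ▸ ho) ho'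
    have d32 : Disjoint ({o'} : Set V) T' := Set.disjoint_singleton_left.2 hA'.oT
    interval_cases i
    · omega
    · interval_cases j
      exact d10
    · interval_cases j
      · exact d20
      · exact d21
    · interval_cases j
      · exact d30
      · exact d31
      · exact d32
  · intro i hi j hj
    have t10 : ¬ Tch G ({o} : Set V) T := fun h => hA.no h.symm
    have t20 : Tch G T' T := ⟨t', htT', t, htT, (hcom t htK t' htL').symm⟩
    have t21 : Tch G T' ({o} : Set V) := ⟨t', htT', o, rfl, (hcom o hA.oK t' htL').symm⟩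
    have t30 : Tch G ({o'} : Set V) T := ⟨o', rfl, t, htT, (hcom t htK o' hA'.oK).symm⟩
    have t31 : Tch G ({o'} : Set V) ({o} : Set V) := ⟨o', rfl, o, rfl, (hcom o hA.oK o' hA'.oK).symm⟩
    have t32 : ¬ Tch G ({o'} : Set V) T' := fun h => hA'.no h.symm
    interval_cases i
    · omega
    · interval_cases j
      exact iff_of_false t10 (by omega)
    · interval_cases j
      · exact iff_of_true t20 (by omega)
      · exact iff_of_true t21 (by omega)
    · interval_cases j
      · exact iff_of_true t30 (by omega)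
      · exact iff_of_true t31 (by omega)
      · exact iff_of_false t32 (by omega)
  · intro i hi
    interval_cases i
    · exact ⟨hx1.1, iff_of_true hx2.1 rfl⟩
    · exact ⟨hx1.2.1, iff_of_false (fun h => hx2.2.1 (tch_single.1 h)) (by omega)⟩
    · exact ⟨hx1.2.2.1, iff_of_false hx2.2.2.1 (by omega)⟩
    · exact ⟨hx1.2.2.2, iff_of_false (fun h => hx2.2.2.2 (tch_single.1 h)) (by omega)⟩
  · intro i hi
    interval_cases i
    · exact ⟨hy1.1, iff_of_false hy2.1 (by omega)⟩
    · exact ⟨hy1.2.1, iff_of_false (fun h => hy2.2.1 (tch_single.1 h)) (by omega)⟩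
    · exact ⟨hy1.2.2.1, iff_of_true hy2.2.2.1 rfl⟩
    · exact ⟨hy1.2.2.2, iff_of_false (fun h => hy2.2.2.2 (tch_single.1 h)) (by omega)⟩
  · intro u hu
    have huK : u ∉ K := fun h => b6 K hK u h hu
    have huL : u ∉ L := fun h => b6 L hL u h hu
    have huF : u ∉ FB G X W K := fun h => (f3 u h).2 hu.1
    have huF' : u ∉ FB G X W L := fun h => (g3 u h).2 hu.1
    have huT : u ∉ T := fun h => by
      rcases hA.sub h with h | h
      · exact huK h
      · exact huF h
    have huT' : u ∉ T' := fun h => by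
      rcases hA'.sub h with h | h
      · exact huL h
      · exact huF' h
    have hne : ∀ v ∈ K, v ≠ u := fun v hv h => huK (h ▸ hv)
    have hne' : ∀ v ∈ L, v ≠ u := fun v hv h => huL (h ▸ hv)
    intro i hi
    interval_cases i
    · exact ⟨huT, u, rfl, t, htT, hu.2 t (hKW htK) (hne t htK)⟩
    · exact ⟨fun h => hne o hA.oK (Set.mem_singleton_iff.1 h).symm, u, rfl, o, rfl,
        hu.2 o (hKW hA.oK) (hne o hA.oK)⟩
    · exact ⟨huT', u, rfl, t', htT', hu.2 t' (hLW htL') (hne' t' htL')⟩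
    · exact ⟨fun h => hne' o' hA'.oK (Set.mem_singleton_iff.1 h).symm, u, rfl, o', rfl,
        hu.2 o' (hLW hA'.oK) (hne' o' hA'.oK)⟩

end Pool.Agent.MPd439b2.HC
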