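import Pool.Agent.Lib.MP_d439b2_co.HC.SpecC

/-!
# MP_d439b2_co, HC: fields `bas` and `pen` of the rich structure of `W`
-/

set_option autoImplicit false

namespace Pool.Agent.MPd439b2.HC

open Pool.Agent.MPd439b2
open Pool.Agent.MPd439b2.BU

theorem qB9 (h1 : S_B1) (h2 : S_B4) (h3 : S_FB) (h4 : S_B6) (h5 : S_B7) (h6 : S_B8) : S_B9 := by
  intro V _ G X W B F hH hP hM hF hB
  obtain ⟨b1, b2, _, _, b5, b6, _⟩ := h1 V G W
  -- facts for two blocks
  have sep : ∀ K L, Blk G W K → Blk G W L → K ≠ L →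
      (∀ x ∈ FB G X W K, ∀ y ∈ FB G X W L, x ≠ y ∧ ¬ G.Adj x y) ∧
      (∀ x ∈ FB G X W K, ∀ w ∈ L, ¬ G.Adj x w) ∧
      (∀ x ∈ FB G X W K, x ∈ X ∧ x ∉ W) := by
    intro K L hK hL hKL
    obtain ⟨f1, f2, f3, _, _⟩ := h3 V G X W K L
      (fun D hD hc ht => h2 V G X W K L D hH hM hK hL hKL hD hc ht)
    exact ⟨f1, f2, f3⟩
  have other : ∀ K, Blk G W K → ∃ L, Blk G W L ∧ K ≠ L := by
    intro K hK
    obtain ⟨K1, K2, h7, h8, h9⟩ := hM.two
    by_cases h : K = K1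
    · exact ⟨K2, h8, by rw [h]; exact h9⟩
    · exact ⟨K1, h7, h⟩
  have subB : ∀ K, Blk G W K → K ∪ FB G X W K ⊆ B := by
    intro K hK x hx
    rw [hB, hF]
    rcases hx with hx | hx
    · exact Or.inl ⟨(b1 K hK).1 hx, b6 K hK x hx⟩
    · exact Or.inr ⟨K, hK, hx⟩
  have subX : ∀ K, Blk G W K → K ∪ FB G X W K ⊆ X := by
    intro K hK x hx
    rcases hx with hx | hx
    · exact hM.sub ((b1 K hK).1 hx)
    · obtain ⟨L, hL, hKL⟩ := other K hK
      exact ((sep K L hK hL hKL).2.2 x hx).1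
  have disj : ∀ K L, Blk G W K → Blk G W L → K ≠ L → ∀ x, x ∈ K ∪ FB G X W K →
      x ∉ L ∪ FB G X W L := by
    intro K L hK hL hKL x hx hx'
    rcases hx with hx | hx <;> rcases hx' with hx' | hx'
    · exact Set.disjoint_left.1 (b2 K L hK hL hKL) hx hx'
    · exact ((sep L K hL hK hKL.symm).2.2 x hx').2 ((b1 K hK).1 hx)
    · exact ((sep K L hK hL hKL).2.2 x hx).2 ((b1 L hL).1 hx')
    · exact ((sep K L hK hL hKL).1 x hx x hx').1 rfl
  -- the main construction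
  have core : ∀ (Z : Set V) (x y : V) (K L T : Set V) (o : V), X ⊆ Z → Blk G W K → Blk G W L →
      K ≠ L → y ∈ FB G X W L → Arm G X W K T o → x ∈ Z → ¬ G.Adj x y → x ∉ T → x ≠ o →
      Tch G {x} T → ¬ G.Adj x o → x ∉ L ∪ FB G X W L → (∀ w ∈ L ∪ FB G X W L, ¬ G.Adj x w) →
      BasB G Z B (UW G W) x y := by
    intro Z x y K L T o hXZ hK hL hKL hy hT hxZ hxy hxT hxo hxT' hxo' hxL hxL'
    obtain ⟨T', p', o', hT', _, hyT', hyT'', hyo', _⟩ := (h5 V G X W L hM hL).1 y hy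
    obtain ⟨f1, f2, f3⟩ := sep L K hL hK hKL.symm
    have hyW := (f3 y hy).2
    have hne : x ≠ y := fun h => hxL (by rw [h]; exact Or.inr hy)
    have hyK : y ∉ K ∪ FB G X W K := fun h => disj K L hK hL hKL y h (Or.inr hy)
    have hyK' : ∀ w ∈ K ∪ FB G X W K, ¬ G.Adj y w := by
      intro w hw
      rcases hw with hw | hw
      · exact f2 y hy w hw
      · exact (f1 y hy w hw).2
    have hoK : o ∈ K ∪ FB G X W K := Or.inl hT.oK
    have hoL : o' ∈ L ∪ FB G X W L := Or.inl hT'.oK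
    obtain ⟨c1, c2, c3⟩ := h6 V G X W K L T T' Z o o' x y hH hM hK hL hKL hT hT' hXZ hxZ
      (hXZ (f3 y hy).1) hne hxy
      ⟨hxT, hxo, fun h => hxL (hT'.sub h), fun h => hxL (h ▸ hoL)⟩
      ⟨hxT', hxo', fun h => by
        obtain ⟨w, hw, hxw⟩ := tch_single_left.1 h
        exact hxL' w (hT'.sub hw) hxw, hxL' o' hoL⟩
      ⟨fun h => hyK (hT.sub h), fun h => hyK (h ▸ hoK), hyT', fun h => hyW (h ▸ (b1 L hL).1 hT'.oK)⟩
      ⟨fun h => by
        obtain ⟨w, hw, hyw⟩ := tch_single_left.1 h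
        exact hyK' w (hT.sub hw) hyw, hyK' o hoK, hyT'', hyo'⟩
    refine ⟨Sq T o T' o', c1, fun i hi => (c2 i hi).trans ?_, c3⟩
    exact Set.union_subset (subB K hK) (subB L hL)
  have partA : ∀ K L, Blk G W K → Blk G W L → K ≠ L → ∀ x ∈ FB G X W K, ∀ y ∈ FB G X W L,
      BasB G X B (UW G W) x y := by
    intro K L hK hL hKL x hx y hy
    obtain ⟨T, p, o, hT, _, hxT, hxT', hxo, _⟩ := (h5 V G X W K hM hK).1 x hx
    obtain ⟨f1, f2, f3⟩ := sep K L hK hL hKL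
    refine core X x y K L T o le_rfl hK hL hKL hy hT (f3 x hx).1 (f1 x hx y hy).2 hxT
      (fun h => (f3 x hx).2 (h ▸ (b1 K hK).1 hT.oK)) hxT' hxo
      (disj K L hK hL hKL x (Or.inr hx)) ?_
    intro w hw
    rcases hw with hw | hw
    · exact f2 x hx w hw
    · exact (f1 x hx w hw).2
  constructor
  · intro x hx x' hx'
    rw [hF] at hx hx'
    obtain ⟨K, hK, hx⟩ := hx
    obtain ⟨L, hL, hx'⟩ := hx'
    by_cases hKL : K = L
    · subst hKL
      obtain ⟨L', hL', hKL'⟩ := other K hK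
      obtain ⟨_, y, hy, _⟩ := h4 V G X W L' hP hM hL'
      refine Or.inr ⟨y, ?_, partA K L' hK hL' hKL' x hx y hy, partA K L' hK hL' hKL' x' hx' y hy⟩
      rw [hF]
      exact ⟨L', hL', hy⟩
    · exact Or.inl (partA K L hK hL hKL x hx x' hx')
  · intro c hc d hd hdc
    have hcK : ∃ K, Blk G W K ∧ (c ∈ K ∨ c ∈ FB G X W K) := by
      rw [hB, hF] at hc
      rcases hc with ⟨hcW, hcU⟩ | ⟨K, hK, hcK⟩
      · rcases b5 c hcW with h | ⟨K, hK, hcK⟩
        · exact (hcU h).elim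
        · exact ⟨K, hK, Or.inl hcK⟩
      · exact ⟨K, hK, Or.inr hcK⟩
    obtain ⟨K, hK, hcK⟩ := hcK
    obtain ⟨T, o, hT, hcT⟩ := (h5 V G X W K hM hK).2 c hcK
    obtain ⟨L, hL, hKL⟩ := other K hK
    obtain ⟨_, y, hy, _⟩ := h4 V G X W L hP hM hL
    have hyX : y ∈ X := subX L hL (Or.inr hy)
    have hcX : c ∈ X := subX K hK hcK
    have hcL : c ∉ L ∪ FB G X W L := disj K L hK hL hKL c hcK
    have hdL : ∀ w ∈ L ∪ FB G X W L, ¬ G.Adj d w := by
      intro w hw hdw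
      have := (hdc w (subX L hL hw)).1 hdw
      rw [this] at hw
      exact hcL hw
    refine ⟨y, ?_, ?_⟩
    · rw [hF]
      exact ⟨L, hL, hy⟩
    · refine core (insert d X) d y K L T o (Set.subset_insert d X) hK hL hKL hy hT
        (Set.mem_insert d X) (hdL y (Or.inr hy)) (fun h => hd (subX K hK (hT.sub h)))
        (fun h => hd (h ▸ subX K hK (Or.inl hT.oK))) (tch_single_left.2 ⟨c, hcT, (hdc c hcX).2 rfl⟩) ?_
        (fun h => hd (subX L hL h)) hdL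
      intro h
      have := (hdc o (subX K hK (Or.inl hT.oK))).1 h
      rw [← this] at hcT
      exact hT.oT hcT

end Pool.Agent.MPd439b2.HC
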