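import Pool.Agent.Lib.MP_d439b2_co.HC.SpecC

set_option autoImplicit false

namespace Pool.Agent.MPd439b2.HC

open Pool.Agent.MPd439b2
open Pool.Agent.MPd439b2.BU

theorem qDel : S_Del := by
  intro V G D a x hD ha hx hax
  obtain ⟨Q, hQ, haQ, hconn, hnb⟩ := exists_comp G (A := D \ {x}) (v := a) ⟨ha, hax⟩
  refine ⟨Q, hQ, hconn, haQ, ?_⟩
  by_contra hcon
  have h1 : Q = D := by
    refine hD.eq_of_nb (hQ.trans Set.sdiff_subset) ⟨a, haQ⟩ fun v hv hvn => ?_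
    by_cases hvx : v = x
    · subst hvx
      obtain ⟨b, hb, hab⟩ := hvn.2
      exact hcon (Tch.of_adj hab.symm rfl hb)
    · exact hnb v ⟨hv, hvx⟩ hvn
  rw [← h1] at hx
  exact (hQ hx).2 rfl

end Pool.Agent.MPd439b2.HC
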