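import Pool.Agent.Lib.MP_d439b2_co.HC.QFa

/-!
# MP_d439b2_co, HC/QF1: `UW` is complete to `FB L`
-/

set_option autoImplicit false

namespace Pool.Agent.MPd439b2.HC

open Pool.Agent.MPd439b2
open Pool.Agent.MPd439b2.BU

/-- **F1.** -/
theorem qF1 (h1 : S_B1) (h2 : S_B4) (h3 : S_FB) (h4 : S_B7) (h5 : S_B8) (h6 : S_A4) : S_F1 := by
  intro V _ G X W K L u x hH hf mw bK bL KL hu hx hux u' hu' y hy
  have h := qFAux.two h1 h2 h3 hH mw bK bL KL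
  obtain ⟨T, p, o, hT, _, hxT, htx, hxo, _⟩ := (h4 V G X W K mw bK).1 x hx
  obtain ⟨T', p', o', hT', _, hyT', hty, hyo', _⟩ := (h4 V G X W L mw bL).1 y hy
  obtain ⟨a1, a2⟩ := h.cond hx hT hT' hxT htx hxo
  obtain ⟨b1, b2⟩ := h.symm.cond hy hT' hT hyT' hty hyo'
  obtain ⟨hB, _, hful⟩ := h5 V G X W K L T T' X o o' x y hH mw bK bL KL hT hT' subset_rfl
    (h.FKX x hx).1 (h.FLX y hy).1 (h.FKL x hx y hy).1 (h.FKL x hx y hy).2 a1 a2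
    ⟨b1.2.2.1, b1.2.2.2, b1.1, b1.2.1⟩ ⟨b2.2.2.1, b2.2.2.2, b2.1, b2.2.1⟩
  exact ((h6 V G X (Sq T o T' o') x y hH hf hB).2 u (h.WX hu.1) (hful u hu) u' (h.WX hu'.1)
    (hful u' hu')).resolve_left hux

end Pool.Agent.MPd439b2.HC
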