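import Pool.Agent.Lib.MP_d439b2_co.HC.SpecC

/-!
# MP_d439b2_co, HC: task QF10, two blocks for `K4:0,1` (helper62)
-/

set_option autoImplicit false

namespace Pool.Agent.MPd439b2.HC

open Pool.Agent.MPd439b2 Pool.Agent.MPd439b2.BU

theorem qF10 (h1 : S_B10) (h2 : S_Rst2) (h3 : S_F5) (h4 : S_F6) (h5 : S_F7) (h6 : S_F9) : S_F10 := by
  intro V _ G X W hH h7 hsp hW
  obtain ⟨B, M, hR⟩ := h1 V G X W hH hsp hW
  by_cases hc : ∀ u ∈ UW G W, ∀ b ∈ {x | ∃ K, Blk G W K ∧ x ∈ FB G X W K}, G.Adj u b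
  · exact Or.inl (h2 V G X B _ _ M hsp hR hc)
  · right
    push Not at hc
    obtain ⟨u, hu, x, ⟨K, hK, hx⟩, hux⟩ := hc
    obtain ⟨L, hL, hKL⟩ : ∃ L, Blk G W L ∧ K ≠ L := by
      obtain ⟨K', L', hK', hL', hne⟩ := hW.two
      by_cases e : K = K'
      · exact ⟨L', hL', fun e' => hne (e.symm.trans e')⟩
      · exact ⟨K', hK', e⟩
    obtain ⟨T, p, o, a, b, y, hD, hw⟩ := h3 V G X W K L u x hH h7 hsp hW hK hL hKL hu hx hux
    exact h6 V G X W K L u x T p o a b y hD (h4 V G X W K L u x T p o a b y hD hw)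
      (h5 V G X W K L u x T p o a b y hD)

end Pool.Agent.MPd439b2.HC
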