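import Pool.Agent.Lib.MP_d439b2_co.HC.QFa

/-!
# MP_d439b2_co, HC/QF2: the pattern B7
-/

set_option autoImplicit false

namespace Pool.Agent.MPd439b2.HC

open Pool.Agent.MPd439b2
open Pool.Agent.MPd439b2.BU

/-- **F2.** -/
theorem qF2 (h1 : S_B1) (h2 : S_B4) (h3 : S_FB) (h5 : S_B8) (h6 : S_F1) : S_F2 := by
  intro V _ G X W K L u x T p o a b y hD
  have h := qFAux.two h1 h2 h3 hD.hH hD.mw hD.bK hD.bL hD.KL
  have hA : Arm G X W L {a} b := by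
    refine ⟨fun z hz => ?_, Conn.singleton G a, ⟨a, rfl, hD.aL⟩, hD.bL', hD.ab.symm, ?_⟩
    · rw [Set.mem_singleton_iff.mp hz]
      exact Or.inl hD.aL
    · rw [tch_single]
      exact hD.nab
  obtain ⟨a1, a2⟩ := h.cond hD.xF hD.arm hA hD.xT hD.tx hD.xo
  obtain ⟨b1, b2⟩ := h.symm.cond hD.yF hA hD.arm
    (fun e => (h.FLX y hD.yF).2 (h.LW ((Set.mem_singleton_iff.mp e) ▸ hD.aL)))
    (tch_single.mpr hD.ya) hD.yb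
  obtain ⟨hB, _, hful⟩ := h5 V G X W K L T {a} X o b x y hD.hH hD.mw hD.bK hD.bL hD.KL hD.arm hA
    subset_rfl (h.FKX x hD.xF).1 (h.FLX y hD.yF).1 (h.FKL x hD.xF y hD.yF).1
    (h.FKL x hD.xF y hD.yF).2 a1 a2
    ⟨b1.2.2.1, b1.2.2.2, b1.1, b1.2.1⟩ ⟨b2.2.2.1, b2.2.2.2, b2.1, b2.2.1⟩
  exact ⟨hD.hH, hD.h7, hB, h.WX hD.uU.1, hful u hD.uU, hD.ux,
    h6 V G X W K L u x hD.hH hD.h7 hD.mw hD.bK hD.bL hD.KL hD.uU hD.xF hD.ux u hD.uU y hD.yF⟩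

end Pool.Agent.MPd439b2.HC
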