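import Pool.Agent.Lib.MP_d439b2_co.HC.QFa

/-!
# MP_d439b2_co, HC/QF3: the one-vertex facts in the graph
-/

set_option autoImplicit false

namespace Pool.Agent.MPd439b2.HC

open Pool.Agent.MPd439b2
open Pool.Agent.MPd439b2.BU

/-- **F3.** -/
theorem qF3 (h1 : S_B1) (h2 : S_B4) (h3 : S_FB) (h6 : S_F1) (h7 : S_F2) (h8 : S_A5) : S_F3 := by
  intro V _ G X W K L u x T p o a b y hD
  have h := qFAux.two h1 h2 h3 hD.hH hD.mw hD.bK hD.bL hD.KL
  have hB := h7 V G X W K L u x T p o a b y hD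
  have hpT : p ∈ T ∩ K := by
    rw [hD.TK]
    exact rfl
  have hTW : ∀ z ∈ W, z ∉ K → z ∉ T := fun z hz hzK hzT =>
    (hD.arm.sub hzT).elim hzK fun e => (h.FKX z e).2 hz
  have huW : ∀ w ∈ W, w ≠ u → G.Adj w u := fun w hw hwu => (hD.uU.2 w hw hwu).symm
  have hxW : x ∉ W := (h.FKX x hD.xF).2
  have hyW : y ∉ W := (h.FLX y hD.yF).2
  have hoW : o ∈ W := h.KW hD.arm.oK
  have haW : a ∈ W := h.LW hD.aL
  have hbW : b ∈ W := h.LW hD.bL'
  have huK : u ∉ K := fun e => h.KU u e hD.uU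
  have huL : u ∉ L := fun e => h.LU u e hD.uU
  have haK : a ∉ K := fun e => h.dKL a e hD.aL
  have hbK : b ∉ K := fun e => h.dKL b e hD.bL'
  refine ⟨?_, ?_, ?_, ?_, ?_⟩
  · intro w hw hwp hwo
    have hwW := h.KW hw
    have hwT : w ∉ T := by
      intro e
      have h9 : w ∈ T ∩ K := ⟨e, hw⟩
      rw [hD.TK] at h9
      exact hwp h9
    have hwu : w ≠ u := fun e => huK (e ▸ hw)
    have hO := qFAux.ob (X := X) (T := T) (o := o) (a := a) (b := b) (x := x) (y := y) (u := u)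
      (h.WX hwW) hwT hwo (fun e => haK (e ▸ hw)) (fun e => hbK (e ▸ hw)) (fun e => hxW (e ▸ hwW))
      (fun e => hyW (e ▸ hwW)) hwu
    exact (qFAux.a5 h8 hB hO).1 (h.Kc w hw a haW haK) (h.Kc w hw b hbW hbK) (huW w hwW hwu)
      (h.ne' hw hD.yF).2
  · intro K' bK'
    by_contra hcon
    rw [not_or] at hcon
    have hK := qFAux.two h1 h2 h3 hD.hH hD.mw hD.bK bK' (fun e => hcon.1 e.symm)
    have hL := qFAux.two h1 h2 h3 hD.hH hD.mw hD.bL bK' (fun e => hcon.2 e.symm)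
    obtain ⟨z, hz⟩ := bK'.1.2.1.1
    have hzW := hK.LW hz
    have hzK : z ∉ K := fun e => hK.dKL z e hz
    have hzL : z ∉ L := fun e => hL.dKL z e hz
    have hzu : z ≠ u := fun e => hK.LU z hz (e ▸ hD.uU)
    have hO := qFAux.ob (X := X) (T := T) (o := o) (a := a) (b := b) (x := x) (y := y) (u := u)
      (h.WX hzW) (hTW z hzW hzK) (fun e => hzK (e ▸ hD.arm.oK)) (fun e => hzL (e ▸ hD.aL))
      (fun e => hzL (e ▸ hD.bL')) (fun e => hxW (e ▸ hzW)) (fun e => hyW (e ▸ hzW)) hzu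
    have h9 := (qFAux.a5 h8 hB hO).2.1
      (tch_single_left.mpr ⟨p, hpT.1, (h.Kc p hpT.2 z hzW hzK).symm⟩)
      (h.Kc o hD.arm.oK z hzW hzK).symm (h.Lc a hD.aL z hzW hzL).symm
      (h.Lc b hD.bL' z hzW hzL).symm (huW z hzW hzu) (fun e => hK.FKn x hD.xF z hz e.symm)
    exact hL.FKn y hD.yF z hz h9.symm
  · intro z hz hza hzb
    have hzW := h.LW hz
    have hzK : z ∉ K := fun e => h.dKL z e hz
    have hzu : z ≠ u := fun e => huL (e ▸ hz)
    have hO := qFAux.ob (X := X) (T := T) (o := o) (a := a) (b := b) (x := x) (y := y) (u := u)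
      (h.WX hzW) (hTW z hzW hzK) (fun e => hzK (e ▸ hD.arm.oK)) hza hzb (fun e => hxW (e ▸ hzW))
      (fun e => hyW (e ▸ hzW)) hzu
    exact (qFAux.a5 h8 hB hO).2.2.1
      (tch_single_left.mpr ⟨p, hpT.1, (h.Kc p hpT.2 z hzW hzK).symm⟩)
      (h.Kc o hD.arm.oK z hzW hzK).symm (huW z hzW hzu) (fun e => h.FKn x hD.xF z hz e.symm)
  · intro f hf hfy
    have hfW := (h.FLX f hf).2
    have hfT : ∀ t ∈ T, f ≠ t ∧ ¬ G.Adj f t := fun t ht => h.symm.ne hf (hD.arm.sub ht)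
    have hO := qFAux.ob (X := X) (T := T) (o := o) (a := a) (b := b) (x := x) (y := y) (u := u)
      (h.FLX f hf).1 (fun e => (hfT f e).1 rfl) (fun e => hfW (e ▸ hoW)) (fun e => hfW (e ▸ haW))
      (fun e => hfW (e ▸ hbW)) (h.FKL x hD.xF f hf).1.symm hfy (fun e => hfW (e ▸ hD.uU.1))
    refine (qFAux.a5 h8 hB hO).2.2.2.1 ?_ (h.FLn f hf o hD.arm.oK) ?_
      (fun e => (h.FKL x hD.xF f hf).2 e.symm)
    · intro e
      obtain ⟨t, ht, hft⟩ := tch_single_left.mp e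
      exact (hfT t ht).2 hft
    · exact (h6 V G X W K L u x hD.hH hD.h7 hD.mw hD.bK hD.bL hD.KL hD.uU hD.xF hD.ux u hD.uU f
        hf).symm
  · intro f hf hfT hfx hfo
    have hfW := (h.FKX f hf).2
    have hO := qFAux.ob (X := X) (T := T) (o := o) (a := a) (b := b) (x := x) (y := y) (u := u)
      (h.FKX f hf).1 hfT (fun e => hfW (e ▸ hoW)) (fun e => hfW (e ▸ haW))
      (fun e => hfW (e ▸ hbW)) hfx (h.FKL f hf y hD.yF).1 (fun e => hfW (e ▸ hD.uU.1))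
    exact ((qFAux.a5 h8 hB hO).2.2.2.2 (h.FKn f hf a hD.aL) (h.FKn f hf b hD.bL')
      (h.FKL f hf y hD.yF).2).1 hfo

end Pool.Agent.MPd439b2.HC
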