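import Pool.Agent.Lib.MP_d439b2_co.HC.SpecC

/-!
# MP_d439b2_co, HC: the two-vertex facts in the graph (`S_F4`)
-/

set_option autoImplicit false

namespace Pool.Agent.MPd439b2.HC

open Pool.Agent.MPd439b2
open Pool.Agent.MPd439b2.BU

theorem qF4 (h1 : S_B1) (h2 : S_B4) (h3 : S_FB) (h4 : S_F1) (h5 : S_F2) (h6 : S_F3) (h7 : S_A6) :
    S_F4 := by
  intro V _ G X W K L u x T p o a b y hD
  have hB := h5 V G X W K L u x T p o a b y hD
  obtain ⟨e1, -, e3, -, e5⟩ := h6 V G X W K L u x T p o a b y hD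
  obtain ⟨b1, b2, -, -, -, b6, -⟩ := h1 V G W
  have hKW : K ⊆ W := (b1 K hD.bK).1
  have hLW : L ⊆ W := (b1 L hD.bL).1
  have hWX : W ⊆ X := hD.mw.sub
  have hdKL : Disjoint K L := b2 K L hD.bK hD.bL hD.KL
  have hp : p ∈ T ∩ K := by
    rw [hD.TK]
    rfl
  obtain ⟨f1, f2, f3, -, -⟩ := h3 V G X W K L fun D hD' hDc hDt =>
    h2 V G X W K L D hD.hH hD.mw hD.bK hD.bL hD.KL hD' hDc hDt
  obtain ⟨-, g2, g3, -, -⟩ := h3 V G X W L K fun D hD' hDc hDt =>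
    h2 V G X W L K D hD.hH hD.mw hD.bL hD.bK hD.KL.symm hD' hDc hDt
  have huU := hD.uU
  have huK : u ∉ K := fun h => b6 K hD.bK u h huU
  have huL : u ∉ L := fun h => b6 L hD.bL u h huU
  have hxW : x ∉ W := (f3 x hD.xF).2
  have hyW : y ∉ W := (g3 y hD.yF).2
  have hoK : o ∈ K := hD.arm.oK
  have hne : ∀ v w : V, v ∈ W → w ∉ W → v ≠ w := fun v w hv hw h => hw (h ▸ hv)
  have hneKL : ∀ v ∈ K, ∀ w ∈ L, v ≠ w := fun v hv w hw h =>
    Set.disjoint_left.1 hdKL hv (h ▸ hw)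
  have hcom : ∀ v ∈ K, ∀ w ∈ L, G.Adj v w := fun v hv w hw =>
    (b1 K hD.bK).2 v hv w (hLW hw) fun h => Set.disjoint_left.1 hdKL h hw
  have ob : ∀ z ∈ X, z ∉ T → z ≠ o → z ≠ a → z ≠ b → z ≠ x → z ≠ y → z ≠ u →
      Ob X (Sq T o {a} b) x y u z := by
    intro z hz hzT hzo hza hzb hzx hzy hzu
    refine ⟨hz, fun i hi => ?_, hzx, hzy, hzu⟩
    interval_cases i
    · exact hzT
    · exact hzo
    · exact hza
    · exact hzb
  -- vertices of `K`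
  have obK : ∀ q ∈ K, q ≠ p → q ≠ o → Ob X (Sq T o {a} b) x y u q := by
    intro q hq hqp hqo
    refine ob q (hWX (hKW hq)) (fun h => hqp ?_) hqo (hneKL q hq a hD.aL) (hneKL q hq b hD.bL')
      (hne q x (hKW hq) hxW) (hne q y (hKW hq) hyW) fun h => huK (h ▸ hq)
    have h' : q ∈ T ∩ K := ⟨h, hq⟩
    rw [hD.TK] at h'
    exact h'
  -- vertices of `FB K`
  have obF : ∀ f ∈ FB G X W K, f ∉ T → f ≠ x → Ob X (Sq T o {a} b) x y u f := by
    intro f hf hfT hfx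
    exact ob f (f3 f hf).1 hfT (hne o f (hKW hoK) (f3 f hf).2).symm
      (hne a f (hLW hD.aL) (f3 f hf).2).symm (hne b f (hLW hD.bL') (f3 f hf).2).symm hfx
      (f1 f hf y hD.yF).1 (hne u f huU.1 (f3 f hf).2).symm
  -- vertices of `FB L`
  have hTL : ∀ f ∈ FB G X W L, f ∉ T ∧ ¬ Tch G {f} T := by
    intro f hf
    constructor
    · intro h
      rcases hD.arm.sub h with h' | h'
      · exact (g3 f hf).2 (hKW h')
      · exact (f1 f h' f hf).1 rfl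
    · rw [tch_single_left]
      rintro ⟨t, ht, hft⟩
      rcases hD.arm.sub ht with h' | h'
      · exact g2 f hf t h' hft
      · exact (f1 t h' f hf).2 hft.symm
  have obL : ∀ f ∈ FB G X W L, f ≠ y → Ob X (Sq T o {a} b) x y u f := by
    intro f hf hfy
    exact ob f (g3 f hf).1 (hTL f hf).1 (hne o f (hKW hoK) (g3 f hf).2).symm
      (hne a f (hLW hD.aL) (g3 f hf).2).symm (hne b f (hLW hD.bL') (g3 f hf).2).symm
      (fun h => (f1 x hD.xF f hf).1 h.symm) hfy (hne u f huU.1 (g3 f hf).2).symm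
  have hfo : ∀ f ∈ FB G X W K, G.Adj f o → f ∉ T ∧ f ≠ x := by
    intro f hf hfo
    refine ⟨fun h => hD.arm.no ⟨f, h, o, rfl, hfo⟩, ?_⟩
    rintro rfl
    exact hD.xo hfo
  -- `f` in `FB K`: not adjacent to `a, b, y`
  have nF : ∀ f ∈ FB G X W K, ¬ Tch G {f} {a} ∧ ¬ Tch G {f} {b} ∧ ¬ G.Adj f y := by
    intro f hf
    refine ⟨fun h => f2 f hf a hD.aL (tch_single.1 h), fun h => f2 f hf b hD.bL' (tch_single.1 h),
      (f1 f hf y hD.yF).2⟩
  -- `q` in `K`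
  have pK : ∀ q ∈ K, q ≠ p → q ≠ o → Tch G {q} {a} ∧ Tch G {q} {b} ∧ G.Adj q u ∧ ¬ G.Adj q y := by
    intro q hq _ _
    exact ⟨tch_single.2 (hcom q hq a hD.aL), tch_single.2 (hcom q hq b hD.bL'),
      (huU.2 q (hKW hq) fun h => huK (h ▸ hq)).symm, fun h => g2 y hD.yF q hq h.symm⟩
  refine ⟨?_, ?_, ?_, ?_, ?_⟩
  · intro q hq hqp hqo hqx f hf hfT hfx htf
    obtain ⟨k1, k2, k3, k4⟩ := pK q hq hqp hqo
    obtain ⟨n1, n2, n3⟩ := nF f hf
    exact (h7 V G X (Sq T o {a} b) x y u q f hB (obK q hq hqp hqo) (obF f hf hfT hfx)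
      (hne q f (hKW hq) (f3 f hf).2)).1 ⟨k1, k2, k3, hqx, k4⟩ ⟨htf, n1, n2, n3⟩
  · intro q hq hqp hqo hqT hqx f hf hf1
    obtain ⟨k1, k2, k3, k4⟩ := pK q hq hqp hqo
    obtain ⟨n1, n2, n3⟩ := nF f hf
    obtain ⟨hfT, hfx⟩ := hfo f hf hf1
    exact (h7 V G X (Sq T o {a} b) x y u q f hB (obK q hq hqp hqo) (obF f hf hfT hfx)
      (hne q f (hKW hq) (f3 f hf).2)).2.1 ⟨k1, k2, k3, hqT,
        fun h => (e1 q hq hqp hqo).1 (tch_single.1 h), hqx, k4⟩ ⟨tch_single.2 hf1, n1, n2, n3⟩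
  · intro z hz hza hzb hnzb f hf hfb
    by_contra hfa
    have hzT : z ∉ T := by
      intro h
      rcases hD.arm.sub h with h' | h'
      · exact hneKL z h' z hz rfl
      · exact (f3 z h').2 (hLW hz)
    have obz : Ob X (Sq T o {a} b) x y u z :=
      ob z (hWX (hLW hz)) hzT (hneKL o hoK z hz).symm hza hzb (hne z x (hLW hz) hxW)
        (hne z y (hLW hz) hyW) fun h => huL (h ▸ hz)
    have hfy : f ≠ y := by
      rintro rfl
      exact hD.yb hfb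
    exact (h7 V G X (Sq T o {a} b) x y u z f hB obz (obL f hf hfy)
      (hne z f (hLW hz) (g3 f hf).2)).2.2.1
      ⟨⟨z, rfl, p, hp.1, (hcom p hp.2 z hz).symm⟩, tch_single.2 (hcom o hoK z hz).symm,
        fun h => hnzb (tch_single.1 h), (huU.2 z (hLW hz) fun h => huL (h ▸ hz)).symm,
        fun h => f2 x hD.xF z hz h.symm, (e3 z hz hza hzb).1⟩
      ⟨tch_single.2 hfb, (hTL f hf).2, fun h => g2 f hf o hoK (tch_single.1 h),
        fun h => hfa (tch_single.1 h), (h4 V G X W K L u x hD.hH hD.h7 hD.mw hD.bK hD.bL hD.KL huU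
          hD.xF hD.ux u huU f hf).symm, fun h => (f1 x hD.xF f hf).2 h.symm⟩
  · intro f hf hf1 f' hf' hff'
    obtain ⟨hfT, hfx⟩ := hfo f hf hf1
    obtain ⟨c1, c2, c3⟩ := e5 f hf hfT hfx hf1
    by_cases hf'T : f' ∈ T
    · exact c1 ⟨f, rfl, f', hf'T, hff'⟩
    · by_cases hf'x : f' = x
      · rw [hf'x] at hff'
        exact c3 hff'
      · obtain ⟨n1, n2, n3⟩ := nF f hf
        obtain ⟨m1, m2, m3⟩ := nF f' hf'
        exact (h7 V G X (Sq T o {a} b) x y u f f' hB (obF f hf hfT hfx) (obF f' hf' hf'T hf'x)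
          hff'.ne).2.2.2.1 ⟨tch_single.2 hf1, n1, n2, n3⟩ ⟨m1, m2, m3⟩ hff'
  · intro f hf hf1 u' hu'
    obtain ⟨hfT, hfx⟩ := hfo f hf hf1
    obtain ⟨c1, c2, c3⟩ := e5 f hf hfT hfx hf1
    by_cases huu : u' = u
    · rw [huu]
      exact c2.symm
    · have hu'K : u' ∉ K := fun h => b6 K hD.bK u' h hu'
      have hu'L : u' ∉ L := fun h => b6 L hD.bL u' h hu'
      have hu'T : u' ∉ T := by
        intro h
        rcases hD.arm.sub h with h' | h'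
        · exact hu'K h'
        · exact (f3 u' h').2 hu'.1
      obtain ⟨n1, n2, n3⟩ := nF f hf
      have hne1 : ∀ v ∈ K, v ≠ u' := fun v hv h => hu'K (h ▸ hv)
      have hne2 : ∀ v ∈ L, v ≠ u' := fun v hv h => hu'L (h ▸ hv)
      refine (h7 V G X (Sq T o {a} b) x y u f u' hB (obF f hf hfT hfx)
        (ob u' (hWX hu'.1) hu'T (hne1 o hoK).symm (hne2 a hD.aL).symm (hne2 b hD.bL').symm
          (hne u' x hu'.1 hxW) (hne u' y hu'.1 hyW) huu)
        (hne u' f hu'.1 (f3 f hf).2).symm).2.2.2.2 ⟨tch_single.2 hf1, n1, n2, n3⟩ ⟨?_, ?_⟩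
      · intro i hi
        interval_cases i
        · exact ⟨hu'T, u', rfl, p, hp.1, hu'.2 p (hKW hp.2) (hne1 p hp.2)⟩
        · exact ⟨(hne1 o hoK).symm, u', rfl, o, rfl, hu'.2 o (hKW hoK) (hne1 o hoK)⟩
        · exact ⟨(hne2 a hD.aL).symm, u', rfl, a, rfl, hu'.2 a (hLW hD.aL) (hne2 a hD.aL)⟩
        · exact ⟨(hne2 b hD.bL').symm, u', rfl, b, rfl, hu'.2 b (hLW hD.bL') (hne2 b hD.bL')⟩
      · exact h4 V G X W K L u x hD.hH hD.h7 hD.mw hD.bK hD.bL hD.KL huU hD.xF hD.ux u' hu' y hD.yF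

end Pool.Agent.MPd439b2.HC
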