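import Pool.Agent.Lib.MP_d439b2_co.HC.SpecC

/-!
# MP_d439b2_co, HC, Part C, F5: existence of the setting `D7`, the set of the neighbours is `{p}`
-/

set_option autoImplicit false

namespace Pool.Agent.MPd439b2.HC

open Pool.Agent.MPd439b2 Pool.Agent.MPd439b2.BU

theorem qF5 (h1 : S_B1) (h2 : S_B3) (h3 : S_B4) (h4 : S_FB) (h5 : S_B6) (h6 : S_B7) (h7 : S_SPb)
    (h8 : S_F3) (h9 : S_F4) : S_F5 := by
  intro V _ G X W K L u x hH hr7 sp mw bK bL KL uU xF ux
  obtain ⟨b1, b2, b3, b4, b5, b6, b7⟩ := h1 V G W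
  obtain ⟨n4, y, yF, w₀, hw₀, hyw₀⟩ := h5 V G X W L sp mw bL
  have fbL := h4 V G X W L K (fun D hD hc ht => h3 V G X W L K D hH mw bL bK (Ne.symm KL) hD hc ht)
  have fbK := h4 V G X W K L (fun D hD hc ht => h3 V G X W K L D hH mw bK bL KL hD hc ht)
  obtain ⟨yX, yW⟩ := fbL.2.2.1 y yF
  obtain ⟨w₁, hw₁, hyw₁⟩ := h2 V G X W L y mw bL yX yW
  obtain ⟨a, aL, b, bL', ya, yb, ab, nab⟩ := b7 L bL y ⟨w₀, hw₀, hyw₀⟩ ⟨w₁, hw₁, hyw₁⟩
  obtain ⟨T, p, o, arm, TK, xT, tx, xo, hT⟩ := (h6 V G X W K mw bK).1 x xF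
  have d : D7 G X W K L u x T p o a b y :=
    ⟨hH, hr7, sp, mw, bK, bL, KL, uU, xF, ux, arm, TK, xT, tx, xo, aL, bL', ab, nab, yF, ya, yb⟩
  refine ⟨T, p, o, a, b, y, d, ?_⟩
  by_cases hx : ∃ w ∈ K, G.Adj x w
  · -- `x` has a neighbour in `K`
    have hTp := hT hx
    subst hTp
    have xp : G.Adj x p := tch_single.1 tx
    have pK : p ∈ K := by
      have : p ∈ ({p} : Set V) ∩ K := by rw [TK]; exact rfl
      exact this.2
    have f3 := (h8 V G X W K L u x {p} p o a b y d).1
    -- vertices `q ∈ K` adjacent to `x` are not adjacent to `o`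
    have qo : ∀ q ∈ K, G.Adj x q → ¬ G.Adj q o := by
      intro q hq hxq
      by_cases hqp : q = p
      · rw [hqp]
        exact fun h => arm.no (tch_single.2 h)
      · have hqo : q ≠ o := fun h => xo (h ▸ hxq)
        exact (f3 q hq hqp hqo).1
    have dq : ∀ q ∈ K, G.Adj x q → D7 G X W K L u x {q} q o a b y := by
      intro q hq hxq
      have armq : Arm G X W K {q} o := by
        refine ⟨Set.singleton_subset_iff.2 (Or.inl hq), Conn.singleton G q, ⟨q, rfl, hq⟩, arm.oK, ?_, ?_⟩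
        · intro h
          rw [Set.mem_singleton_iff] at h
          exact xo (by rw [h]; exact hxq)
        · exact fun h => qo q hq hxq (tch_single.1 h)
      refine ⟨hH, hr7, sp, mw, bK, bL, KL, uU, xF, ux, armq, ?_, ?_, tch_single.2 hxq, xo, aL, bL', ab,
        nab, yF, ya, yb⟩
      · ext z
        constructor
        · exact fun h => h.1
        · intro h
          refine ⟨h, ?_⟩
          rw [Set.mem_singleton_iff] at h
          rw [h]
          exact hq
      · intro h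
        rw [Set.mem_singleton_iff] at h
        exact hxq.ne h
    -- (i)
    have hi : ∀ w ∈ K, ¬ G.Adj x w → ∀ q ∈ K, G.Adj x q → ¬ G.Adj w q := by
      intro w hw hxw q hq hxq hwq
      by_cases hwo : w = o
      · exact qo q hq hxq (by rw [← hwo]; exact hwq.symm)
      · have hwq' : w ≠ q := hwq.ne
        have := ((h8 V G X W K L u x {q} q o a b y (dq q hq hxq)).1 w hw hwq' hwo).2 (tch_single.2 hwq)
        exact hxw this.symm
    -- (ii)
    have hii : ∀ f ∈ FB G X W K, f ≠ x → ∀ q ∈ K, G.Adj x q → ∀ q' ∈ K, G.Adj x q' → G.Adj f q →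
        G.Adj f q' := by
      intro f hf hfx q hq hxq q' hq' hxq' hfq
      by_cases hqq : q' = q
      · rw [hqq]
        exact hfq
      · have hq'o : q' ≠ o := fun h => xo (h ▸ hxq')
        refine (h9 V G X W K L u x {q} q o a b y (dq q hq hxq)).1 q' hq' hqq hq'o hxq'.symm f hf ?_ hfx
          (tch_single.2 hfq)
        intro h
        rw [Set.mem_singleton_iff] at h
        exact hfq.ne h
    -- the module
    have hmod : Mod G X {w | w ∈ K ∧ G.Adj x w} := by
      refine ⟨fun z hz => mw.sub ((b1 K bK).1 hz.1), ?_⟩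
      intro v vX vP α hα β hβ hvα
      by_cases hvx : v = x
      · rw [hvx]
        exact hβ.2
      by_cases hvW : v ∈ W
      · by_cases hvK : v ∈ K
        · exact absurd hvα (hi v hvK (fun h => vP ⟨hvK, h⟩) α hα.1 hα.2)
        · exact ((b1 K bK).2 β hβ.1 v hvW hvK).symm
      · have hvF : v ∈ FB G X W K := fbK.2.2.2.2 v vX hvW α hα.1 hvα
        exact hii v hvF hvx α hα.1 hα.2 β hβ.1 hβ.2 hvα
    have hdis := b2 K L bK bL KL
    have hsub : ({w | w ∈ K ∧ G.Adj x w} : Set V).Subsingleton := by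
      rcases (h7 V G X sp n4).2.1 _ hmod with h | h
      · exact h
      · exfalso
        apply ab
        apply h
        · exact ⟨mw.sub ((b1 L bL).1 aL), fun h' => Set.disjoint_left.1 hdis h'.1 aL⟩
        · exact ⟨mw.sub ((b1 L bL).1 bL'), fun h' => Set.disjoint_left.1 hdis h'.1 bL'⟩
    intro w hw hwp
    have hxw : ¬ G.Adj x w := fun h => hwp (hsub ⟨hw, h⟩ ⟨pK, xp⟩)
    exact ⟨fun h => hi w hw hxw p pK xp (tch_single.1 h), fun h => hxw h.symm⟩
  · -- `x` has no neighbour in `K`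
    intro w hw hwp
    have hwx : ¬ G.Adj w x := fun h => hx ⟨w, hw, h.symm⟩
    refine ⟨?_, hwx⟩
    by_cases hwo : w = o
    · rw [hwo]
      exact fun h => arm.no h.symm
    · exact fun h => hwx (((h8 V G X W K L u x T p o a b y d).1 w hw hwp hwo).2 h)

end Pool.Agent.MPd439b2.HC
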