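import Pool.Agent.Lib.MP_d439b2_co.HC.SpecC

/-!
# MP_d439b2_co, HC: the block `K` has two elements (`S_F6`)
-/

set_option autoImplicit false

namespace Pool.Agent.MPd439b2.HC

open Pool.Agent.MPd439b2
open Pool.Agent.MPd439b2.BU

theorem qF6 (h1 : S_B1) (h2 : S_FB) (h3 : S_B4) (h4 : S_B6) (h5 : S_SPb) (h6 : S_F3) (h7 : S_F4) :
    S_F6 := by
  intro V _ G X W K L u x T p o a b y hD hP
  obtain ⟨b1, b2, -, -, -, -, -⟩ := h1 V G W
  have hKW : K ⊆ W := (b1 K hD.bK).1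
  have hLW : L ⊆ W := (b1 L hD.bL).1
  have hdKL : Disjoint K L := b2 K L hD.bK hD.bL hD.KL
  have hp : p ∈ T ∩ K := by
    rw [hD.TK]
    rfl
  obtain ⟨-, -, -, -, f5⟩ := h2 V G X W K L fun D hD' hDc hDt =>
    h3 V G X W K L D hD.hH hD.mw hD.bK hD.bL hD.KL hD' hDc hDt
  have hw' : ∀ w ∈ K, w ≠ p → D7 G X W K L u x T p w a b y := by
    intro w hw hwp
    refine { hD with arm := ?_, xo := ?_ }
    · refine ⟨hD.arm.sub, hD.arm.con, hD.arm.mt, hw, fun h => hwp ?_, fun h =>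
        (hP w hw hwp).1 h.symm⟩
      have h' : w ∈ T ∩ K := ⟨h, hw⟩
      rw [hD.TK] at h'
      exact h'
    · exact fun h => (hP w hw hwp).2 h.symm
  have hK0 : ∀ w ∈ K, ∀ w' ∈ K, ¬ G.Adj w w' := by
    intro w hw w' hw1 hadj
    by_cases hw'p : w' = p
    · subst hw'p
      exact (hP w hw hadj.ne).1 ⟨w, rfl, w', hp.1, hadj⟩
    · by_cases hwp : w = p
      · subst hwp
        exact (hP w' hw1 hadj.ne.symm).1 ⟨w', rfl, w, hp.1, hadj.symm⟩
      · exact ((h6 V G X W K L u x T p w' a b y (hw' w' hw1 hw'p)).1 w hw hwp hadj.ne).1 hadj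
  have hsub : (K \ {p}).Subsingleton := by
    by_contra hns
    obtain ⟨w1, hw1, w2, hw2, hne⟩ := Set.not_subsingleton_iff.1 hns
    have hnF : ∀ f ∈ FB G X W K, ∀ w ∈ K, w ≠ p → ¬ G.Adj f w := by
      intro f hf w hw hwp hfw
      obtain ⟨q, hq, hqp, hqw⟩ : ∃ q ∈ K, q ≠ p ∧ q ≠ w := by
        by_cases h : w1 = w
        · exact ⟨w2, hw2.1, hw2.2, fun h' => hne (h.trans h'.symm)⟩
        · exact ⟨w1, hw1.1, hw1.2, h⟩
      exact (h7 V G X W K L u x T p w a b y (hw' w hw hwp)).2.1 q hq hqp hqw (hP q hq hqp).1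
        (hP q hq hqp).2 f hf hfw
    have hmod : Mod G X (K \ {p}) := by
      refine ⟨fun v hv => hD.mw.sub (hKW hv.1), ?_⟩
      intro z hzX hzM v hv v' hv' hzv
      by_cases hzW : z ∈ W
      · by_cases hzK : z ∈ K
        · exact absurd hzv (hK0 z hzK v hv.1)
        · exact ((b1 K hD.bK).2 v' hv'.1 z hzW hzK).symm
      · exact absurd hzv (hnF z (f5 z hzX hzW v hv.1 hzv) v hv.1 hv.2)
    have h4' := (h4 V G X W K hD.sp hD.mw hD.bK).1
    rcases (h5 V G X hD.sp h4').2.1 _ hmod with h | h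
    · exact hns h
    · refine hD.ab (h ⟨hD.mw.sub (hLW hD.aL), fun h' => ?_⟩ ⟨hD.mw.sub (hLW hD.bL'), fun h' => ?_⟩)
      · exact Set.disjoint_left.1 hdKL h'.1 hD.aL
      · exact Set.disjoint_left.1 hdKL h'.1 hD.bL'
  ext v
  constructor
  · intro hv
    by_cases hvp : v = p
    · exact Or.inl hvp
    · right
      exact hsub ⟨hv, hvp⟩ ⟨hD.arm.oK, fun h => hD.arm.oT (by rw [Set.mem_singleton_iff] at h; rw [h]; exact hp.1)⟩
  · rintro (h | h)
    · rw [h]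
      exact hp.2
    · rw [h]
      exact hD.arm.oK

end Pool.Agent.MPd439b2.HC
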