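import Pool.Agent.Lib.MP_d439b2_co.HC.SpecC

/-!
# MP_d439b2_co, HC: F8, the pendant vertices for `K4:0,1` (helper25)
-/

set_option autoImplicit false

namespace Pool.Agent.MPd439b2.HC

open Pool.Agent.MPd439b2
open Pool.Agent.MPd439b2.BU

namespace qF8Aux

variable {V : Type} {G : SimpleGraph V} {X W K L T : Set V} {u x p o a b y : V}

theorem sub_of_mod [Finite V] (h6 : S_SPb) {A B : Set V} (hsp : SPr G X) (h4 : 4 ≤ X.ncard)
    (hmod : Mod G X A) (hB : B ⊆ X \ A) (hBn : ¬ B.Subsingleton) : A.Subsingleton := by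
  rcases (h6 V G X hsp h4).2.1 A hmod with h | h
  · exact h
  · exact absurd (h.anti hB) hBn

/-- changing `y` -/
theorem D7.cy (D : D7 G X W K L u x T p o a b y) {f : V} (hf : f ∈ FB G X W L) (hfa : G.Adj f a)
    (hfb : ¬ G.Adj f b) : D7 G X W K L u x T p o a b f :=
  ⟨D.hH, D.h7, D.sp, D.mw, D.bK, D.bL, D.KL, D.uU, D.xF, D.ux, D.arm, D.TK, D.xT, D.tx, D.xo, D.aL,
    D.bL', D.ab, D.nab, hf, hfa, hfb⟩

end qF8Aux

open qF8Aux

theorem qF8 (h1 : S_B1) (h2 : S_B3) (h3 : S_B4) (h4 : S_FB) (h5 : S_B6) (h6 : S_SPb) (h7 : S_F1)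
    (h8 : S_F3) (h9 : S_F4) : S_F8 := by
  intro V _ G X W K L u x T p o a b y D hKe hLe
  obtain ⟨b11, b12, b13, b14, b15, b16, b17⟩ := h1 V G W
  have hn : 4 ≤ X.ncard := (h5 V G X W K D.sp D.mw D.bK).1
  obtain ⟨kl1, kl2, kl3, kl4, kl5⟩ := h4 V G X W K L
    (fun D' hD hc ht => h3 V G X W K L D' D.hH D.mw D.bK D.bL D.KL hD hc ht)
  obtain ⟨lk1, lk2, lk3, lk4, lk5⟩ := h4 V G X W L K
    (fun D' hD hc ht => h3 V G X W L K D' D.hH D.mw D.bL D.bK D.KL.symm hD hc ht)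
  obtain ⟨f31, f32, f33, f34, f35⟩ := h8 V G X W K L u x T p o a b y D
  obtain ⟨f41, f42, f43, f44, f45⟩ := h9 V G X W K L u x T p o a b y D
  have hF1 := h7 V G X W K L u x D.hH D.h7 D.mw D.bK D.bL D.KL D.uU D.xF D.ux
  -- the elements of `W`
  have hW : ∀ w ∈ W, w ∈ UW G W ∨ w ∈ K ∨ w ∈ L := by
    intro w hw
    rcases b15 w hw with h | ⟨K', hK', hwK'⟩
    · exact Or.inl h
    · rcases f32 K' hK' with rfl | rfl
      · exact Or.inr (Or.inl hwK')
      · exact Or.inr (Or.inr hwK')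
  have hKX : K ⊆ X := (b11 K D.bK).1.trans D.mw.sub
  have hLX : L ⊆ X := (b11 L D.bL).1.trans D.mw.sub
  -- (1)
  have c1 : ∀ f ∈ FB G X W L, (G.Adj f a ∧ ¬ G.Adj f b) ∨ (G.Adj f b ∧ ¬ G.Adj f a) := by
    intro f hf
    obtain ⟨w, hw, hfw⟩ := h2 V G X W L f D.mw D.bL (lk3 f hf).1 (lk3 f hf).2
    have hnb : G.Adj f a ∨ G.Adj f b := by
      by_cases hfy : f = y
      · rw [hfy]
        exact Or.inl D.ya
      · exact (f34 f hf hfy).1
    rw [hLe] at hw
    rcases hw with rfl | rfl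
    · exact Or.inr ⟨hnb.resolve_left hfw, hfw⟩
    · exact Or.inl ⟨hnb.resolve_right hfw, hfw⟩
  -- vertices adjacent to `a` and to `b`
  have c2 : ∀ f ∈ FB G X W L, ∀ f' ∈ FB G X W L, G.Adj f a → G.Adj f' b → ¬ G.Adj f f' := by
    intro f hf f' hf' hfa hfb
    have hfb' : ¬ G.Adj f b := by
      rcases c1 f hf with h | h
      · exact h.2
      · exact absurd hfa h.2
    have hne : f' ≠ f := by
      rintro rfl
      exact hfb' hfb
    have h := (h8 V G X W K L u x T p o a b f (D7.cy D hf hfa hfb')).2.2.2.1 f' hf' hne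
    exact fun h' => h.2 hfb h'.symm
  have hKnot : ∀ w ∈ K, w ∉ FB G X W L := fun w hw h => (lk3 w h).2 ((b11 K D.bK).1 hw)
  have hLnot : ∀ w ∈ L, w ∉ FB G X W K := fun w hw h => (kl3 w h).2 ((b11 L D.bL).1 hw)
  -- the vertices adjacent to `a`
  have m1 : Mod G X {f | f ∈ FB G X W L ∧ G.Adj f a} := by
    refine ⟨fun f hf => (lk3 f hf.1).1, ?_⟩
    rintro z hz hzA m ⟨hm, hma⟩ m' ⟨hm', hma'⟩ hzm
    by_cases hzW : z ∈ W
    · rcases hW z hzW with h | h | h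
      · exact hF1 z h m' hm'
      · exact absurd hzm.symm (lk2 m hm z h)
      · rw [hLe] at h
        rcases h with rfl | rfl
        · exact hma'.symm
        · exfalso
          rcases c1 m hm with h' | h'
          · exact h'.2 hzm.symm
          · exact h'.2 hma
    · exfalso
      have hzF := lk4 m hm z hz hzW hzm.symm
      rcases c1 z hzF with h | h
      · exact hzA ⟨hzF, h.1⟩
      · exact c2 m hm z hzF hma h.1 hzm.symm
  have m2 : Mod G X {f | f ∈ FB G X W L ∧ G.Adj f b} := by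
    refine ⟨fun f hf => (lk3 f hf.1).1, ?_⟩
    rintro z hz hzA m ⟨hm, hmb⟩ m' ⟨hm', hmb'⟩ hzm
    by_cases hzW : z ∈ W
    · rcases hW z hzW with h | h | h
      · exact hF1 z h m' hm'
      · exact absurd hzm.symm (lk2 m hm z h)
      · rw [hLe] at h
        rcases h with rfl | rfl
        · exfalso
          rcases c1 m hm with h' | h'
          · exact h'.2 hmb
          · exact h'.2 hzm.symm
        · exact hmb'.symm
    · exfalso
      have hzF := lk4 m hm z hz hzW hzm.symm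
      rcases c1 z hzF with h | h
      · exact c2 z hzF m hm h.1 hmb hzm
      · exact hzA ⟨hzF, h.1⟩
  have s1 := sub_of_mod h6 D.sp hn m1 (fun w hw => ⟨hKX hw, fun h => hKnot w hw h.1⟩) D.bK.2
  have s2 := sub_of_mod h6 D.sp hn m2 (fun w hw => ⟨hKX hw, fun h => hKnot w hw h.1⟩) D.bK.2
  -- the vertices adjacent to `o`
  have hpT : p ∈ T := by
    have h : p ∈ T ∩ K := by
      rw [D.TK]
      rfl
    exact h.1
  have c3 : ∀ f ∈ FB G X W K, G.Adj f o → ¬ G.Adj f p := by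
    intro f hf hfo hfp
    have hfT : f ∉ T := fun h => D.arm.no ⟨f, h, o, rfl, hfo⟩
    have hfx : f ≠ x := by
      rintro rfl
      exact D.xo hfo
    exact (f35 f hf hfT hfx hfo).1 ⟨f, rfl, p, hpT, hfp⟩
  have m3 : Mod G X {f | f ∈ FB G X W K ∧ G.Adj f o} := by
    refine ⟨fun f hf => (kl3 f hf.1).1, ?_⟩
    rintro z hz hzA m ⟨hm, hmo⟩ m' ⟨hm', hmo'⟩ hzm
    by_cases hzW : z ∈ W
    · rcases hW z hzW with h | h | h
      · exact f45 m' hm' hmo' z h
      · rw [hKe] at h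
        rcases h with rfl | rfl
        · exact absurd hzm.symm (c3 m hm hmo)
        · exact hmo'.symm
      · exact absurd hzm.symm (kl2 m hm z h)
    · exfalso
      have hzF := kl4 m hm z hz hzW hzm.symm
      exact f44 m hm hmo z hzF hzm.symm
  have s3 := sub_of_mod h6 D.sp hn m3 (fun w hw => ⟨hLX hw, fun h => hLnot w hw h.1⟩) D.bL.2
  refine ⟨c1, ?_, ?_⟩
  · intro f hf f' hf'
    refine ⟨?_, fun h h' => s1 ⟨hf, h⟩ ⟨hf', h'⟩, fun h h' => s2 ⟨hf, h⟩ ⟨hf', h'⟩⟩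
    intro hff
    rcases c1 f hf with h | h <;> rcases c1 f' hf' with h' | h'
    · exact hff.ne (s1 ⟨hf, h.1⟩ ⟨hf', h'.1⟩)
    · exact c2 f hf f' hf' h.1 h'.1 hff
    · exact c2 f' hf' f hf h'.1 h.1 hff.symm
    · exact hff.ne (s2 ⟨hf, h.1⟩ ⟨hf', h'.1⟩)
  · intro f hf hfo
    exact ⟨c3 f hf hfo, fun f' hf' hfo' => s3 ⟨hf, hfo⟩ ⟨hf', hfo'⟩⟩

end Pool.Agent.MPd439b2.HC
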