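import Pool.Agent.Lib.MP_d439b2_co.HC.SpecC

/-!
# MP_d439b2_co, HC: F9, the ear (helper18)
-/

set_option autoImplicit false

namespace Pool.Agent.MPd439b2.HC

open Pool.Agent.MPd439b2
open Pool.Agent.MPd439b2.BU

namespace qF9Aux

variable {V : Type}

/-- the four-cycle -/
def cc (p o a b : V) (i : ℕ) : V := if i = 0 then p else if i = 1 then a else if i = 2 then o else b

theorem cc0 (p o a b : V) : cc p o a b 0 = p := rfl
theorem cc1 (p o a b : V) : cc p o a b 1 = a := rfl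
theorem cc2 (p o a b : V) : cc p o a b 2 = o := rfl
theorem cc3 (p o a b : V) : cc p o a b 3 = b := rfl

theorem cc_cases (p o a b : V) {i : ℕ} (hi : i < 4) :
    (i = 0 ∧ cc p o a b i = p) ∨ (i = 1 ∧ cc p o a b i = a) ∨ (i = 2 ∧ cc p o a b i = o) ∨
      (i = 3 ∧ cc p o a b i = b) := by
  interval_cases i
  · exact Or.inl ⟨rfl, rfl⟩
  · exact Or.inr (Or.inl ⟨rfl, rfl⟩)
  · exact Or.inr (Or.inr (Or.inl ⟨rfl, rfl⟩))
  · exact Or.inr (Or.inr (Or.inr ⟨rfl, rfl⟩))

end qF9Aux

open qF9Aux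

theorem qF9 (h1 : S_B1) (h2 : S_B3) (h3 : S_B4) (h4 : S_FB) (h5 : S_F1) (h6 : S_F3) (h7 : S_F4)
    (h8 : S_F8) : S_F9 := by
  intro V _ G X W K L u x T p o a b y d hK hL
  obtain ⟨b1, b2, b3, b4, b5, b6, b7⟩ := h1 V G W
  obtain ⟨_, f3, _, _, _⟩ := h6 V G X W K L u x T p o a b y d
  obtain ⟨_, _, _, f44, f45⟩ := h7 V G X W K L u x T p o a b y d
  obtain ⟨f81, f82, f83⟩ := h8 V G X W K L u x T p o a b y d hK hL
  have f1 := h5 V G X W K L u x d.hH d.h7 d.mw d.bK d.bL d.KL d.uU d.xF d.ux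
  obtain ⟨-, k2, k3, k4, k5⟩ := h4 V G X W K L
    (fun D hD hc ht => h3 V G X W K L D d.hH d.mw d.bK d.bL d.KL hD hc ht)
  obtain ⟨-, l2, l3, l4, l5⟩ := h4 V G X W L K
    (fun D hD hc ht => h3 V G X W L K D d.hH d.mw d.bL d.bK d.KL.symm hD hc ht)
  have hWX : W ⊆ X := d.mw.sub
  have hKW : K ⊆ W := (b1 K d.bK).1
  have hLW : L ⊆ W := (b1 L d.bL).1
  have hdis := b2 K L d.bK d.bL d.KL
  have pK : p ∈ K := by rw [hK]; simp
  have oK : o ∈ K := by rw [hK]; simp
  have pT : p ∈ T := by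
    have h : p ∈ T ∩ K := by rw [d.TK]; rfl
    exact h.1
  have po : p ≠ o := by
    rintro rfl
    exact d.arm.oT pT
  have npo : ¬ G.Adj p o := fun h => d.arm.no (Tch.of_adj h pT rfl)
  have aKL : ∀ k ∈ K, ∀ l ∈ L, G.Adj k l := fun k hk l hl =>
    (b1 K d.bK).2 k hk l (hLW hl) (fun h => Set.disjoint_left.1 hdis h hl)
  have nKL : ∀ k ∈ K, ∀ l ∈ L, k ≠ l := fun k hk l hl h =>
    Set.disjoint_left.1 hdis hk (h ▸ hl)
  have pa := aKL p pK a d.aL
  have pb := aKL p pK b d.bL'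
  have oa := aKL o oK a d.aL
  have ob := aKL o oK b d.bL'
  have hW : ∀ w ∈ W, w ∈ K ∨ w ∈ L ∨ w ∈ UW G W := by
    intro w hw
    rcases b5 w hw with h | ⟨K', hK', h⟩
    · exact Or.inr (Or.inr h)
    · rcases f3 K' hK' with rfl | rfl
      · exact Or.inl h
      · exact Or.inr (Or.inl h)
  have hKc : ∀ w ∈ K, w = p ∨ w = o := by
    intro w hw
    rw [hK] at hw
    exact hw
  have hLc : ∀ w ∈ L, w = a ∨ w = b := by
    intro w hw
    rw [hL] at hw
    exact hw
  have hu : ∀ w ∈ UW G W, ∀ v ∈ W, v ∉ UW G W → G.Adj w v := by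
    intro w hw v hv hv'
    refine hw.2 v hv ?_
    rintro rfl
    exact hv' hw
  have hUC : ∀ w, w ∈ UC G X 4 (cc p o a b) ↔ w ∈ UW G W := by
    intro w
    constructor
    · rintro ⟨hwX, hw⟩
      have e0 : G.Adj w p := hw 0 (by norm_num)
      have e1 : G.Adj w a := hw 1 (by norm_num)
      have e2 : G.Adj w o := hw 2 (by norm_num)
      have e3 : G.Adj w b := hw 3 (by norm_num)
      have hwW : w ∈ W := by
        by_contra hc
        obtain ⟨v, hv, hwv⟩ := h2 V G X W K w d.mw d.bK hwX hc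
        rcases hKc v hv with rfl | rfl
        · exact hwv e0
        · exact hwv e2
      rcases hW w hwW with h | h | h
      · rcases hKc w h with rfl | rfl
        · exact absurd e0 (G.irrefl)
        · exact absurd e2 (G.irrefl)
      · rcases hLc w h with rfl | rfl
        · exact absurd e1 (G.irrefl)
        · exact absurd e3 (G.irrefl)
      · exact h
    · intro hw
      refine ⟨hWX hw.1, fun i hi => ?_⟩
      have hbl : cc p o a b i ∈ W ∧ cc p o a b i ∉ UW G W := by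
        rcases cc_cases p o a b hi with ⟨_, h⟩ | ⟨_, h⟩ | ⟨_, h⟩ | ⟨_, h⟩ <;> rw [h]
        · exact ⟨hKW pK, b6 K d.bK p pK⟩
        · exact ⟨hLW d.aL, b6 L d.bL a d.aL⟩
        · exact ⟨hKW oK, b6 K d.bK o oK⟩
        · exact ⟨hLW d.bL', b6 L d.bL b d.bL'⟩
      exact hu w hw _ hbl.1 hbl.2
  have hOff : ∀ z, Off G X 4 (cc p o a b) z → z ∈ X ∧ z ∉ W := by
    rintro z ⟨hzX, hz, hzU⟩
    refine ⟨hzX, fun hzW => ?_⟩
    rcases hW z hzW with h | h | h
    · rcases hKc z h with rfl | rfl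
      · exact hz 0 (by norm_num) rfl
      · exact hz 2 (by norm_num) rfl
    · rcases hLc z h with rfl | rfl
      · exact hz 1 (by norm_num) rfl
      · exact hz 3 (by norm_num) rfl
    · exact hzU ((hUC z).2 h)
  -- the neighbours of the pendant vertices
  have na : ∀ z ∈ X, z ∉ W → G.Adj z a → ∀ v ∈ X, (G.Adj z v ↔ v = a ∨ v ∈ UW G W) := by
    intro z hz hzW hza v hv
    have hzL := l5 z hz hzW a d.aL hza
    have hzb : ¬ G.Adj z b := by
      rcases f81 z hzL with h | h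
      · exact h.2
      · exact absurd hza h.2
    constructor
    · intro hzv
      by_cases hvW : v ∈ W
      · rcases hW v hvW with h | h | h
        · exact absurd hzv (l2 z hzL v h)
        · rcases hLc v h with rfl | rfl
          · exact Or.inl rfl
          · exact absurd hzv hzb
        · exact Or.inr h
      · exact absurd hzv (f82 z hzL v (l4 z hzL v hv hvW hzv)).1
    · rintro (rfl | h)
      · exact hza
      · exact (f1 v h z hzL).symm
  have nb' : ∀ z ∈ X, z ∉ W → G.Adj z b → ∀ v ∈ X, (G.Adj z v ↔ v = b ∨ v ∈ UW G W) := by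
    intro z hz hzW hzb v hv
    have hzL := l5 z hz hzW b d.bL' hzb
    have hza : ¬ G.Adj z a := by
      rcases f81 z hzL with h | h
      · exact absurd hzb h.2
      · exact h.2
    constructor
    · intro hzv
      by_cases hvW : v ∈ W
      · rcases hW v hvW with h | h | h
        · exact absurd hzv (l2 z hzL v h)
        · rcases hLc v h with rfl | rfl
          · exact absurd hzv hza
          · exact Or.inl rfl
        · exact Or.inr h
      · exact absurd hzv (f82 z hzL v (l4 z hzL v hv hvW hzv)).1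
    · rintro (rfl | h)
      · exact hzb
      · exact (f1 v h z hzL).symm
  have no' : ∀ z ∈ X, z ∉ W → G.Adj z o → ∀ v ∈ X, (G.Adj z v ↔ v = o ∨ v ∈ UW G W) := by
    intro z hz hzW hzo v hv
    have hzK := k5 z hz hzW o oK hzo
    constructor
    · intro hzv
      by_cases hvW : v ∈ W
      · rcases hW v hvW with h | h | h
        · rcases hKc v h with rfl | rfl
          · exact absurd hzv (f83 z hzK hzo).1
          · exact Or.inl rfl
        · exact absurd hzv (k2 z hzK v h)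
        · exact Or.inr h
      · exact absurd hzv (f44 z hzK hzo v (k4 z hzK v hv hvW hzv))
    · rintro (rfl | h)
      · exact hzo
      · exact (f45 z hzK hzo v h).symm
  refine ⟨⟨cc p o a b, ⟨by norm_num, ⟨?_, ?_, ?_⟩, ?_, ?_, ?_⟩, ?_⟩, ?_⟩
  · intro i hi
    rcases cc_cases p o a b hi with ⟨_, h⟩ | ⟨_, h⟩ | ⟨_, h⟩ | ⟨_, h⟩ <;> rw [h]
    · exact hWX (hKW pK)
    · exact hWX (hLW d.aL)
    · exact hWX (hKW oK)
    · exact hWX (hLW d.bL')
  · intro i hi j hj hij
    have n1 := nKL p pK a d.aL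
    have n2 := nKL p pK b d.bL'
    have n3 := nKL o oK a d.aL
    have n4 := nKL o oK b d.bL'
    have n5 := d.ab
    rcases cc_cases p o a b hi with ⟨e, h⟩ | ⟨e, h⟩ | ⟨e, h⟩ | ⟨e, h⟩ <;>
    rcases cc_cases p o a b hj with ⟨e', h'⟩ | ⟨e', h'⟩ | ⟨e', h'⟩ | ⟨e', h'⟩ <;>
    rw [h, h'] at hij <;> first | omega | exact absurd hij ‹_› | exact absurd hij.symm ‹_›
  · intro i hi j hj
    have m1 := pa.symm
    have m2 := pb.symm
    have m3 := oa.symm
    have m4 := ob.symm
    have q1 : ¬ G.Adj o p := fun h => npo h.symm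
    have q2 : ¬ G.Adj b a := fun h => d.nab h.symm
    have q3 := d.nab
    have q4 : ∀ v : V, ¬ G.Adj v v := fun v => G.irrefl
    rcases cc_cases p o a b hi with ⟨e, h⟩ | ⟨e, h⟩ | ⟨e, h⟩ | ⟨e, h⟩ <;>
    rcases cc_cases p o a b hj with ⟨e', h'⟩ | ⟨e', h'⟩ | ⟨e', h'⟩ | ⟨e', h'⟩ <;>
    rw [h, h'] <;> subst e <;> subst e' <;>
    first
    | exact iff_of_true ‹_› (by omega)
    | exact iff_of_false ‹_› (by omega)
    | exact iff_of_false (q4 _) (by omega)
  · intro v hv w hw hvw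
    rw [hUC] at hv hw
    exact hv.2 w hw.1 hvw.symm
  · intro z hz i hi1 hi4 hzi v hv
    obtain ⟨hzX, hzW⟩ := hOff z hz
    rw [hUC]
    rcases cc_cases p o a b hi4 with ⟨e, h⟩ | ⟨e, h⟩ | ⟨e, h⟩ | ⟨e, h⟩
    · omega
    · rw [h] at hzi ⊢
      exact na z hzX hzW hzi v hv
    · rw [h] at hzi ⊢
      exact no' z hzX hzW hzi v hv
    · rw [h] at hzi ⊢
      exact nb' z hzX hzW hzi v hv
  · intro z hz z' hz' i hi1 hi4 hzi hzi'
    obtain ⟨hzX, hzW⟩ := hOff z hz
    obtain ⟨hzX', hzW'⟩ := hOff z' hz'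
    rcases cc_cases p o a b hi4 with ⟨e, h⟩ | ⟨e, h⟩ | ⟨e, h⟩ | ⟨e, h⟩
    · omega
    · rw [h] at hzi hzi'
      exact (f82 z (l5 z hzX hzW a d.aL hzi) z' (l5 z' hzX' hzW' a d.aL hzi')).2.1 hzi hzi'
    · rw [h] at hzi hzi'
      exact (f83 z (k5 z hzX hzW o oK hzi) hzi).2 z' (k5 z' hzX' hzW' o oK hzi') hzi'
    · rw [h] at hzi hzi'
      exact (f82 z (l5 z hzX hzW b d.bL' hzi) z' (l5 z' hzX' hzW' b d.bL' hzi')).2.2 hzi hzi'
  · apply Set.Subset.antisymm
    · intro w hw
      rcases hW w hw with h | h | h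
      · rcases hKc w h with rfl | rfl
        · exact Or.inl ⟨0, by norm_num, rfl⟩
        · exact Or.inl ⟨2, by norm_num, rfl⟩
      · rcases hLc w h with rfl | rfl
        · exact Or.inl ⟨1, by norm_num, rfl⟩
        · exact Or.inl ⟨3, by norm_num, rfl⟩
      · exact Or.inr h
    · rintro w (⟨i, hi, rfl⟩ | hw)
      · rcases cc_cases p o a b hi with ⟨e, h⟩ | ⟨e, h⟩ | ⟨e, h⟩ | ⟨e, h⟩ <;> rw [h]
        · exact hKW pK
        · exact hLW d.aL
        · exact hKW oK
        · exact hLW d.bL'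
      · exact hw.1
  · intro w hw s hs t ht hsw htw hws hwt
    rcases hW w hw with h | h | h
    · have hsK : s ∈ K := by
        by_contra hc
        exact hws ((b1 K d.bK).2 w h s hs hc)
      have htK : t ∈ K := by
        by_contra hc
        exact hwt ((b1 K d.bK).2 w h t ht hc)
      rcases hKc w h with rfl | rfl <;> rcases hKc s hsK with rfl | rfl <;>
      rcases hKc t htK with rfl | rfl <;> first | rfl | exact absurd rfl hsw | exact absurd rfl htw
    · have hsK : s ∈ L := by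
        by_contra hc
        exact hws ((b1 L d.bL).2 w h s hs hc)
      have htK : t ∈ L := by
        by_contra hc
        exact hwt ((b1 L d.bL).2 w h t ht hc)
      rcases hLc w h with rfl | rfl <;> rcases hLc s hsK with rfl | rfl <;>
      rcases hLc t htK with rfl | rfl <;> first | rfl | exact absurd rfl hsw | exact absurd rfl htw
    · exact absurd (h.2 s hs hsw) hws

end Pool.Agent.MPd439b2.HC
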