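import Pool.Agent.Lib.MP_d439b2_co.HC.SpecC

/-!
# MP_d439b2_co, HC: `S_FB`
-/

set_option autoImplicit false

namespace Pool.Agent.MPd439b2.HC

open Pool.Agent.MPd439b2
open Pool.Agent.MPd439b2.BU

theorem qFB : S_FB := by
  intro V G X W K L h
  refine ⟨?_, ?_, ?_, ?_, ?_⟩
  · rintro x ⟨D, hDX, hD, hxD, hDK⟩ y ⟨D', hDX', hD', hyD', hDL⟩
    have key : ¬ ((D ∩ D').Nonempty ∨ Tch G D D') := fun h1 =>
      h (D ∪ D') (Set.union_subset hDX hDX') (hD.union hD' h1)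
        (hDK.mono Set.subset_union_left subset_rfl) (hDL.mono Set.subset_union_right subset_rfl)
    refine ⟨?_, fun hxy => key (Or.inr (Tch.of_adj hxy hxD hyD'))⟩
    rintro rfl
    exact key (Or.inl ⟨x, hxD, hyD'⟩)
  · rintro x ⟨D, hDX, hD, hxD, hDK⟩ w hw hxw
    exact h D hDX hD hDK (Tch.of_adj hxw hxD hw)
  · rintro x ⟨D, hDX, hD, hxD, hDK⟩
    exact hDX hxD
  · rintro x ⟨D, hDX, hD, hxD, hDK⟩ x' hx'X hx'W hxx'
    exact ⟨insert x' D, Set.insert_subset ⟨hx'X, hx'W⟩ hDX, hD.insert ⟨x, hxD, hxx'⟩,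
      Set.mem_insert _ _, hDK.mono (Set.subset_insert _ _) subset_rfl⟩
  · intro x hxX hxW w hw hxw
    exact ⟨{x}, Set.singleton_subset_iff.2 ⟨hxX, hxW⟩, Conn.singleton G x, rfl,
      Tch.of_adj hxw rfl hw⟩

end Pool.Agent.MPd439b2.HC
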