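import Pool.Agent.Lib.MP_d439b2_co.HC.SpecC

/-!
# MP_d439b2_co, HC/QFa: auxiliary facts on two blocks (helper46)
-/

set_option autoImplicit false

namespace Pool.Agent.MPd439b2.HC

open Pool.Agent.MPd439b2
open Pool.Agent.MPd439b2.BU

namespace qFAux

variable {V : Type} {G : SimpleGraph V} {X W K L : Set V}

/-- the facts on two different blocks of `W` -/
structure Two (G : SimpleGraph V) (X W K L : Set V) : Prop where
  WX : W ⊆ X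
  KW : K ⊆ W
  LW : L ⊆ W
  Kc : ∀ a ∈ K, ∀ b ∈ W, b ∉ K → G.Adj a b
  Lc : ∀ a ∈ L, ∀ b ∈ W, b ∉ L → G.Adj a b
  dKL : ∀ a ∈ K, a ∉ L
  KU : ∀ w ∈ K, w ∉ UW G W
  LU : ∀ w ∈ L, w ∉ UW G W
  FKX : ∀ x ∈ FB G X W K, x ∈ X ∧ x ∉ W
  FLX : ∀ x ∈ FB G X W L, x ∈ X ∧ x ∉ W
  FKL : ∀ x ∈ FB G X W K, ∀ y ∈ FB G X W L, x ≠ y ∧ ¬ G.Adj x y
  FKn : ∀ x ∈ FB G X W K, ∀ w ∈ L, ¬ G.Adj x w
  FLn : ∀ x ∈ FB G X W L, ∀ w ∈ K, ¬ G.Adj x w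

theorem two (b1 : S_B1) (b4 : S_B4) (fb : S_FB) (hH : SPF G X 5 rH) (mw : MaxW G X W)
    (bK : Blk G W K) (bL : Blk G W L) (KL : K ≠ L) : Two G X W K L := by
  obtain ⟨c1, c2, _, _, _, c6, _⟩ := b1 V G W
  obtain ⟨f1, f2, f3, _, _⟩ := fb V G X W K L (fun D hD hc ht =>
    b4 V G X W K L D hH mw bK bL KL hD hc ht)
  obtain ⟨_, g2, g3, _, _⟩ := fb V G X W L K (fun D hD hc ht =>
    b4 V G X W L K D hH mw bL bK KL.symm hD hc ht)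
  exact ⟨mw.sub, (c1 K bK).1, (c1 L bL).1, (c1 K bK).2, (c1 L bL).2,
    fun a ha haL => Set.disjoint_left.mp (c2 K L bK bL KL) ha haL, c6 K bK, c6 L bL, f3, g3, f1, f2,
    g2⟩

theorem Two.symm (h : Two G X W K L) : Two G X W L K :=
  ⟨h.WX, h.LW, h.KW, h.Lc, h.Kc, fun a ha haK => h.dKL a haK ha, h.LU, h.KU, h.FLX, h.FKX,
    fun x hx y hy => ⟨(h.FKL y hy x hx).1.symm, fun e => (h.FKL y hy x hx).2 e.symm⟩, h.FLn, h.FKn⟩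

/-- an element of `FB K` and an element of `L ∪ FB L` -/
theorem Two.ne (h : Two G X W K L) {x t : V} (hx : x ∈ FB G X W K) (ht : t ∈ L ∪ FB G X W L) :
    x ≠ t ∧ ¬ G.Adj x t := by
  rcases ht with ht | ht
  · exact ⟨fun e => (h.FKX x hx).2 (h.LW (e ▸ ht)), h.FKn x hx t ht⟩
  · exact h.FKL x hx t ht

/-- an element of `K` and an element of `FB L` -/
theorem Two.ne' (h : Two G X W K L) {w t : V} (hw : w ∈ K) (ht : t ∈ FB G X W L) :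
    w ≠ t ∧ ¬ G.Adj w t :=
  ⟨fun e => (h.FLX t ht).2 (e ▸ h.KW hw), fun e => h.FLn t ht w hw e.symm⟩

/-- the conditions of `S_B8` for an element of `FB K` and two arms -/
theorem Two.cond (h : Two G X W K L) {x o o' : V} {T T' : Set V} (hx : x ∈ FB G X W K)
    (hT : Arm G X W K T o) (hT' : Arm G X W L T' o') (h1 : x ∉ T) (h2 : Tch G {x} T)
    (h3 : ¬ G.Adj x o) : (x ∉ T ∧ x ≠ o ∧ x ∉ T' ∧ x ≠ o') ∧
      (Tch G {x} T ∧ ¬ G.Adj x o ∧ ¬ Tch G {x} T' ∧ ¬ G.Adj x o') := by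
  have ho : x ≠ o := fun e => (h.FKX x hx).2 (h.KW (e ▸ hT.oK))
  have ho' := h.ne hx (Or.inl hT'.oK)
  refine ⟨⟨h1, ho, fun hx' => (h.ne hx (hT'.sub hx')).1 rfl, ho'.1⟩, h2, h3, ?_, ho'.2⟩
  intro ht
  obtain ⟨t, ht, hxt⟩ := tch_single_left.mp ht
  exact (h.ne hx (hT'.sub ht)).2 hxt

theorem sq0 (T T' : Set V) (o o' : V) : Sq T o T' o' 0 = T := by simp [Sq]

theorem sq1 (T T' : Set V) (o o' : V) : Sq T o T' o' 1 = {o} := by simp [Sq]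

theorem sq2 (T T' : Set V) (o o' : V) : Sq T o T' o' 2 = T' := by simp [Sq]

theorem sq3 (T T' : Set V) (o o' : V) : Sq T o T' o' 3 = {o'} := by simp [Sq]

/-- `Ob` for the pattern `Sq T o {a} b` -/
theorem ob {T : Set V} {o a b x y u z : V} (hz : z ∈ X) (hT : z ∉ T) (ho : z ≠ o) (ha : z ≠ a)
    (hb : z ≠ b) (hx : z ≠ x) (hy : z ≠ y) (hu : z ≠ u) : Ob X (Sq T o {a} b) x y u z := by
  refine ⟨hz, fun i hi => ?_, hx, hy, hu⟩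
  interval_cases i
  · rw [sq0]; exact hT
  · rw [sq1]; exact ho
  · rw [sq2]; exact ha
  · rw [sq3]; exact hb

/-- `S_A5` for the pattern `Sq T o {a} b` -/
theorem a5 (h5 : S_A5) {T : Set V} {o a b x y u z : V} (hB : B7 G X (Sq T o {a} b) x y u)
    (hO : Ob X (Sq T o {a} b) x y u z) :
    (G.Adj z a → G.Adj z b → G.Adj z u → ¬ G.Adj z y →
      ¬ G.Adj z o ∧ (Tch G {z} T → G.Adj z x)) ∧
    (Tch G {z} T → G.Adj z o → G.Adj z a → G.Adj z b → G.Adj z u → ¬ G.Adj z x → G.Adj z y) ∧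
    (Tch G {z} T → G.Adj z o → G.Adj z u → ¬ G.Adj z x →
      G.Adj z y ∧ (G.Adj z b → G.Adj z a)) ∧
    (¬ Tch G {z} T → ¬ G.Adj z o → G.Adj z u → ¬ G.Adj z x →
      (G.Adj z a ∨ G.Adj z b) ∧ (G.Adj z b → ¬ G.Adj z y)) ∧
    (¬ G.Adj z a → ¬ G.Adj z b → ¬ G.Adj z y →
      (G.Adj z o → ¬ Tch G {z} T ∧ G.Adj z u ∧ ¬ G.Adj z x) ∧
      (G.Adj z u → Tch G {z} T ∨ G.Adj z o)) := by
  obtain ⟨p1, p2, p3, p4, p5⟩ := h5 V G X (Sq T o {a} b) x y u z hB hO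
  rw [sq0, sq1, sq2, sq3, tch_single, tch_single, tch_single] at p1 p3 p4 p5
  refine ⟨p1, fun q0 q1 q2 q3 q4 q5 => p2 ?_ q4 q5, p3, p4, p5⟩
  intro i hi
  refine ⟨hO.2.1 i hi, ?_⟩
  interval_cases i
  · rw [sq0]; exact q0
  · rw [sq1]; exact tch_single.mpr q1
  · rw [sq2]; exact tch_single.mpr q2
  · rw [sq3]; exact tch_single.mpr q3

end qFAux

end Pool.Agent.MPd439b2.HC
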