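import Pool.Agent.Lib.MP_d439b2_co.HC.SpecC

/-!
# MP_d439b2_co, HC: H3, four arcs of a cycle
-/

set_option autoImplicit false

namespace Pool.Agent.MPd439b2.HC

open Pool.Agent.MPd439b2
open Pool.Agent.MPd439b2.BU

namespace QH3

variable {V : Type} {G : SimpleGraph V} {X : Set V} {n : ℕ} {p : ℕ → V}

/-- the arc of the vertices with indices from `a` to `b` -/
def arc (p : ℕ → V) (a b : ℕ) : Set V := {x | ∃ s, a ≤ s ∧ s ≤ b ∧ p s = x}

theorem mem_arc {a b s : ℕ} (h1 : a ≤ s) (h2 : s ≤ b) : p s ∈ arc p a b := ⟨s, h1, h2, rfl⟩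

theorem arc_conn (hp : IC G X n p) {a b : ℕ} (hab : a ≤ b) (hb : b < n) : Conn G (arc p a b) := by
  obtain ⟨d, rfl⟩ := Nat.exists_eq_add_of_le hab
  clear hab
  induction d with
  | zero =>
    have h : arc p a (a + 0) = {p a} := by
      ext x
      constructor
      · rintro ⟨s, h1, h2, rfl⟩
        have h3 : s = a := by omega
        rw [h3]
        rfl
      · intro hx
        rw [Set.mem_singleton_iff] at hx
        rw [hx]
        exact mem_arc le_rfl le_rfl
    rw [h]
    exact Conn.singleton G _
  | succ d ih =>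
    have h : arc p a (a + (d + 1)) = insert (p (a + (d + 1))) (arc p a (a + d)) := by
      ext x
      constructor
      · rintro ⟨s, h1, h2, rfl⟩
        rcases Nat.lt_or_ge s (a + (d + 1)) with h3 | h3
        · exact Or.inr (mem_arc h1 (by omega))
        · have h4 : s = a + (d + 1) := by omega
          rw [h4]
          exact Or.inl rfl
      · rintro (hx | ⟨s, h1, h2, rfl⟩)
        · rw [hx]
          exact mem_arc (by omega) le_rfl
        · exact mem_arc h1 (by omega)
    rw [h]
    refine Conn.insert (ih (by omega)) ⟨p (a + d), mem_arc (by omega) le_rfl, ?_⟩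
    rw [hp.2.2 _ (by omega) _ hb]
    exact Or.inl rfl

theorem arc_disj (hp : IC G X n p) {a b c d : ℕ} (hb : b < n) (hd : d < n) (h : b < c ∨ d < a) :
    Disjoint (arc p a b) (arc p c d) := by
  rw [Set.disjoint_left]
  rintro x ⟨s, h1, h2, rfl⟩ ⟨t, h3, h4, h5⟩
  have := hp.2.1 t (by omega) s (by omega) h5
  omega

theorem arc_tch (hp : IC G X n p) {a b c d : ℕ} (hab : a ≤ b) (hbc : b < c) (hcd : c ≤ d)
    (hd : d < n) : Tch G (arc p a b) (arc p c d) ↔ b + 1 = c ∨ (a = 0 ∧ d + 1 = n) := by
  constructor
  · rintro ⟨x, ⟨s, h1, h2, rfl⟩, y, ⟨t, h3, h4, rfl⟩, hxy⟩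
    rw [hp.2.2 s (by omega) t (by omega)] at hxy
    omega
  · rintro (h | ⟨h1, h2⟩)
    · refine ⟨p b, mem_arc hab le_rfl, p c, mem_arc le_rfl hcd, ?_⟩
      rw [hp.2.2 b (by omega) c (by omega)]
      exact Or.inl h
    · refine ⟨p a, mem_arc le_rfl hab, p d, mem_arc hcd le_rfl, ?_⟩
      rw [hp.2.2 a (by omega) d hd]
      exact Or.inr (Or.inr (Or.inl ⟨h1, h2⟩))

theorem arc_tch' (hp : IC G X n p) {a b c d : ℕ} (hab : a ≤ b) (hbc : b < c) (hcd : c ≤ d)
    (hd : d < n) : Tch G (arc p c d) (arc p a b) ↔ b + 1 = c ∨ (a = 0 ∧ d + 1 = n) := by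
  rw [tch_comm]
  exact arc_tch hp hab hbc hcd hd

theorem arc_sub {a b : ℕ} (hb : b < n) : arc p a b ⊆ Vs n p := by
  rintro x ⟨s, h1, h2, rfl⟩
  exact ⟨s, by omega, rfl⟩

/-- the statement for the vertices `p 0` and `p j` -/
theorem main (hn : 5 ≤ n) (hp : IC G X n p) {j : ℕ} (h0 : 0 < j) (hj : j < n) :
    ∃ A : ℕ → Set V, p 0 ∈ A 0 ∧ p j ∈ A 2 ∧
    (∀ k < 4, A k ⊆ Vs n p ∧ Conn G (A k)) ∧ (∀ k < 4, ∀ l < k, Disjoint (A k) (A l)) ∧
    ∀ k < 4, ∀ l < k, (Tch G (A k) (A l) ↔ 2 ≤ k ∧ l < 2) := by
  rcases Nat.lt_or_ge j (n - 2) with h | h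
  · refine ⟨fun k => if k = 0 then arc p 0 0 else if k = 1 then arc p (j + 1) (n - 2) else
      if k = 2 then arc p 1 j else arc p (n - 1) (n - 1), mem_arc le_rfl le_rfl,
      mem_arc h0 le_rfl, ?_, ?_, ?_⟩
    · intro k hk
      interval_cases k
      · exact ⟨arc_sub (by omega), arc_conn hp le_rfl (by omega)⟩
      · exact ⟨arc_sub (by omega), arc_conn hp (by omega) (by omega)⟩
      · exact ⟨arc_sub (by omega), arc_conn hp (by omega) (by omega)⟩
      · exact ⟨arc_sub (by omega), arc_conn hp (by omega) (by omega)⟩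
    · intro k hk l hl
      interval_cases k <;> interval_cases l <;>
        exact arc_disj hp (by omega) (by omega) (by omega)
    · intro k hk l hl
      interval_cases k
      · omega
      · interval_cases l
        refine (arc_tch' hp (by omega) (by omega) (by omega) (by omega)).trans ?_
        omega
      · interval_cases l
        · refine (arc_tch' hp (by omega) (by omega) (by omega) (by omega)).trans ?_
          omega
        · refine (arc_tch hp (by omega) (by omega) (by omega) (by omega)).trans ?_
          omega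
      · interval_cases l
        · refine (arc_tch' hp (by omega) (by omega) (by omega) (by omega)).trans ?_
          omega
        · refine (arc_tch' hp (by omega) (by omega) (by omega) (by omega)).trans ?_
          omega
        · refine (arc_tch' hp (by omega) (by omega) (by omega) (by omega)).trans ?_
          omega
  · refine ⟨fun k => if k = 0 then arc p 0 0 else if k = 1 then arc p 2 (j - 1) else
      if k = 2 then arc p j (n - 1) else arc p 1 1, mem_arc le_rfl le_rfl,
      mem_arc le_rfl (by omega), ?_, ?_, ?_⟩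
    · intro k hk
      interval_cases k
      · exact ⟨arc_sub (by omega), arc_conn hp le_rfl (by omega)⟩
      · exact ⟨arc_sub (by omega), arc_conn hp (by omega) (by omega)⟩
      · exact ⟨arc_sub (by omega), arc_conn hp (by omega) (by omega)⟩
      · exact ⟨arc_sub (by omega), arc_conn hp (by omega) (by omega)⟩
    · intro k hk l hl
      interval_cases k <;> interval_cases l <;>
        exact arc_disj hp (by omega) (by omega) (by omega)
    · intro k hk l hl
      interval_cases k
      · omega
      · interval_cases l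
        refine (arc_tch' hp (by omega) (by omega) (by omega) (by omega)).trans ?_
        omega
      · interval_cases l
        · refine (arc_tch' hp (by omega) (by omega) (by omega) (by omega)).trans ?_
          omega
        · refine (arc_tch' hp (by omega) (by omega) (by omega) (by omega)).trans ?_
          omega
      · interval_cases l
        · refine (arc_tch' hp (by omega) (by omega) (by omega) (by omega)).trans ?_
          omega
        · refine (arc_tch hp (by omega) (by omega) (by omega) (by omega)).trans ?_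
          omega
        · refine (arc_tch hp (by omega) (by omega) (by omega) (by omega)).trans ?_
          omega

end QH3

theorem qH3 (h5 : S_B5) : S_H3 := by
  intro V G X n i j c hn hc hi hj hij
  have hq := h5.1 V G X n i c hc hi
  have h0 : c ((0 + i) % n) = c i := by
    rw [Nat.zero_add, Nat.mod_eq_of_lt hi]
  have hlt : (j + n - i) % n < n := Nat.mod_lt _ (by omega)
  have hj' : c (((j + n - i) % n + i) % n) = c j := by
    rw [Nat.mod_add_mod, show j + n - i + i = j + n by omega, Nat.add_mod_right, Nat.mod_eq_of_lt hj]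
  have hpos : 0 < (j + n - i) % n := by
    rcases Nat.lt_or_ge j i with h | h
    · rw [Nat.mod_eq_of_lt (by omega)]
      omega
    · rw [Nat.mod_eq_sub_mod (by omega), Nat.mod_eq_of_lt (by omega)]
      omega
  obtain ⟨A, a1, a2, a3, a4, a5⟩ := QH3.main hn hq hpos hlt
  rw [h0] at a1
  rw [hj'] at a2
  refine ⟨A, a1, a2, fun k hk => ⟨(a3 k hk).1.trans ?_, (a3 k hk).2⟩, a4, a5⟩
  rintro x ⟨s, hs, rfl⟩
  exact ⟨_, Nat.mod_lt _ (by omega), rfl⟩

end Pool.Agent.MPd439b2.HC
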