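import Pool.Agent.Lib.MP_d439b2_co.HC.SpecC
import Pool.Agent.Lib.MP_d439b2_co.HC.QH3

/-!
# MP_d439b2_co, HC: H1, the trace of a connected set on a hole
-/

set_option autoImplicit false

namespace Pool.Agent.MPd439b2.HC

open Pool.Agent.MPd439b2
open Pool.Agent.MPd439b2.BU

namespace QH1

open QH3

variable {V : Type} {G : SimpleGraph V} {X D : Set V} {n : ℕ} {p : ℕ → V}

/-- the house from five sets -/
theorem house (hH : SPF G X 5 rH) {A B C E F : Set V} (sA : A ⊆ X) (sB : B ⊆ X) (sC : C ⊆ X)
    (sE : E ⊆ X) (sF : F ⊆ X) (cA : Conn G A) (cB : Conn G B) (cC : Conn G C) (cE : Conn G E)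
    (cF : Conn G F) (dBA : Disjoint B A) (dCA : Disjoint C A) (dCB : Disjoint C B)
    (dEA : Disjoint E A) (dEB : Disjoint E B) (dEC : Disjoint E C) (dFA : Disjoint F A)
    (dFB : Disjoint F B) (dFC : Disjoint F C) (dFE : Disjoint F E)
    (nBA : ¬ Tch G B A) (tCA : Tch G C A) (tCB : Tch G C B) (tEA : Tch G E A) (tEB : Tch G E B)
    (nEC : ¬ Tch G E C) (tFA : Tch G F A) (nFB : ¬ Tch G F B) (tFC : Tch G F C)
    (nFE : ¬ Tch G F E) : False := by
  refine hH (fun i => if i = 0 then A else if i = 1 then B else if i = 2 then C else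
    if i = 3 then E else F) ⟨?_, ?_, ?_, ?_⟩
  · intro i hi
    interval_cases i
    · exact sA
    · exact sB
    · exact sC
    · exact sE
    · exact sF
  · intro i hi
    interval_cases i
    · exact cA
    · exact cB
    · exact cC
    · exact cE
    · exact cF
  · intro i hi j hj
    interval_cases i
    · omega
    · interval_cases j
      exact dBA
    · interval_cases j
      · exact dCA
      · exact dCB
    · interval_cases j
      · exact dEA
      · exact dEB
      · exact dEC
    · interval_cases j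
      · exact dFA
      · exact dFB
      · exact dFC
      · exact dFE
  · intro i hi j hj
    interval_cases i
    · omega
    · interval_cases j
      exact iff_of_false nBA (by decide)
    · interval_cases j
      · exact iff_of_true tCA (by decide)
      · exact iff_of_true tCB (by decide)
    · interval_cases j
      · exact iff_of_true tEA (by decide)
      · exact iff_of_true tEB (by decide)
      · exact iff_of_false nEC (by decide)
    · interval_cases j
      · exact iff_of_true tFA (by decide)
      · exact iff_of_false nFB (by decide)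
      · exact iff_of_true tFC (by decide)
      · exact iff_of_false nFE (by decide)

/-- rotated cycles -/
theorem rot (h5 : S_B5) (hp : IC G X n p) {s : ℕ} (hs : s < n) (hD : D ⊆ X \ Vs n p)
    (h2 : ∃ a < n, ∃ b < n, a ≠ b ∧ Tch G D {p a} ∧ Tch G D {p b}) :
    ∃ q : ℕ → V, IC G X n q ∧ D ⊆ X \ Vs n q ∧
      (∃ a < n, ∃ b < n, a ≠ b ∧ Tch G D {q a} ∧ Tch G D {q b}) ∧
      ∀ t < n, (t + s < n → q t = p (t + s)) ∧ (n ≤ t + s → q t = p (t + s - n)) := by
  have hq := h5.1 V G X n s p hp hs
  have hv : ∀ t < n, (t + s < n → p ((t + s) % n) = p (t + s)) ∧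
      (n ≤ t + s → p ((t + s) % n) = p (t + s - n)) := by
    intro t ht
    constructor
    · intro h
      rw [Nat.mod_eq_of_lt h]
    · intro h
      rw [Nat.mod_eq_sub_mod h, Nat.mod_eq_of_lt (by omega)]
  have hinv : ∀ a < n, ∃ a' < n, p ((a' + s) % n) = p a := by
    intro a ha
    rcases Nat.lt_or_ge a s with h | h
    · refine ⟨a + n - s, by omega, ?_⟩
      rw [(hv (a + n - s) (by omega)).2 (by omega)]
      congr 1
      omega
    · refine ⟨a - s, by omega, ?_⟩
      rw [(hv (a - s) (by omega)).1 (by omega)]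
      congr 1
      omega
  refine ⟨fun i => p ((i + s) % n), hq, ?_, ?_, hv⟩
  · intro x hx
    refine ⟨(hD hx).1, ?_⟩
    rintro ⟨t, ht, he⟩
    exact (hD hx).2 ⟨_, Nat.mod_lt _ (by omega), he⟩
  · obtain ⟨a, ha, b, hb, hab, ta, tb⟩ := h2
    obtain ⟨a', ha', ea⟩ := hinv a ha
    obtain ⟨b', hb', eb⟩ := hinv b hb
    refine ⟨a', ha', b', hb', ?_, ?_, ?_⟩
    · intro h
      apply hab
      apply hp.2.1 a ha b hb
      rw [← ea, ← eb, h]
    · change Tch G D {p ((a' + s) % n)}
      rw [ea]
      exact ta
    · change Tch G D {p ((b' + s) % n)}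
      rw [eb]
      exact tb

/-- arcs are disjoint from `D` -/
theorem arc_disjD (hD : D ⊆ X \ Vs n p) {a b : ℕ} (hb : b < n) : Disjoint D (arc p a b) := by
  rw [Set.disjoint_left]
  intro x hx hx'
  exact (hD hx).2 (arc_sub hb hx')

theorem arc_subX (hp : IC G X n p) {a b : ℕ} (hb : b < n) : arc p a b ⊆ X := by
  rintro x ⟨s, h1, h2, rfl⟩
  exact hp.1 s (by omega)

theorem tD {a b s : ℕ} (h : Tch G D {p s}) (h1 : a ≤ s) (h2 : s ≤ b) : Tch G D (arc p a b) := by
  refine h.mono subset_rfl ?_
  rw [Set.singleton_subset_iff]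
  exact mem_arc h1 h2

theorem nD {a b : ℕ} (h : ∀ s, a ≤ s → s ≤ b → ¬ Tch G D {p s}) : ¬ Tch G D (arc p a b) := by
  rintro ⟨x, hx, y, ⟨s, h1, h2, rfl⟩, hxy⟩
  exact h s h1 h2 ⟨x, hx, p s, rfl, hxy⟩

/-- two consecutive untouched vertices -/
theorem lemA (hH : SPF G X 5 rH) (hp : IC G X n p) (hD : D ⊆ X \ Vs n p)
    (cD : Conn G D) (t0 : Tch G D {p 0}) (n1 : ¬ Tch G D {p 1}) (n2 : ¬ Tch G D {p 2})
    (ht : ∃ j < n, 3 ≤ j ∧ Tch G D {p j}) : False := by
  classical
  have hex : ∃ j, 3 ≤ j ∧ Tch G D {p j} := by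
    obtain ⟨j, _, h1, h2⟩ := ht
    exact ⟨j, h1, h2⟩
  obtain ⟨m, hm, hmt, hmin⟩ : ∃ m, 3 ≤ m ∧ Tch G D {p m} ∧ ∀ s, 3 ≤ s → s < m → ¬ Tch G D {p s} := by
    refine ⟨Nat.find hex, (Nat.find_spec hex).1, (Nat.find_spec hex).2, fun s h1 h2 h3 => ?_⟩
    exact Nat.find_min hex h2 ⟨h1, h3⟩
  have hmn : m < n := by
    obtain ⟨j, hj, h1, h2⟩ := ht
    by_contra h
    exact hmin j h1 (by omega) h2
  have hun : ∀ s, 1 ≤ s → s < m → ¬ Tch G D {p s} := by
    intro s h1 h2
    rcases Nat.lt_or_ge s 3 with h | h
    · interval_cases s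
      · exact n1
      · exact n2
    · exact hmin s h h2
  refine house hH (A := arc p 0 0) (B := arc p (m - 1) (m - 1)) (C := arc p m (n - 1))
    (E := arc p 1 (m - 2)) (F := D) (arc_subX hp (by omega)) (arc_subX hp (by omega))
    (arc_subX hp (by omega)) (arc_subX hp (by omega)) (fun x hx => (hD hx).1)
    (arc_conn hp (by omega) (by omega)) (arc_conn hp (by omega) (by omega))
    (arc_conn hp (by omega) (by omega)) (arc_conn hp (by omega) (by omega)) cD
    (arc_disj hp (by omega) (by omega) (by omega)) (arc_disj hp (by omega) (by omega) (by omega))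
    (arc_disj hp (by omega) (by omega) (by omega)) (arc_disj hp (by omega) (by omega) (by omega))
    (arc_disj hp (by omega) (by omega) (by omega)) (arc_disj hp (by omega) (by omega) (by omega))
    (arc_disjD hD (by omega)) (arc_disjD hD (by omega)) (arc_disjD hD (by omega))
    (arc_disjD hD (by omega)) ?_ ?_ ?_ ?_ ?_ ?_ ?_ ?_ ?_ ?_
  · rw [arc_tch' hp (by omega) (by omega) (by omega) (by omega)]
    omega
  · rw [arc_tch' hp (by omega) (by omega) (by omega) (by omega)]
    omega
  · rw [arc_tch' hp (by omega) (by omega) (by omega) (by omega)]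
    omega
  · rw [arc_tch' hp (by omega) (by omega) (by omega) (by omega)]
    omega
  · rw [arc_tch hp (by omega) (by omega) (by omega) (by omega)]
    omega
  · rw [arc_tch hp (by omega) (by omega) (by omega) (by omega)]
    omega
  · exact tD t0 le_rfl le_rfl
  · exact nD fun s h1 h2 => hun s (by omega) (by omega)
  · exact tD hmt le_rfl (by omega)
  · exact nD fun s h1 h2 => hun s (by omega) (by omega)

/-- the vertex `p 1` is untouched between the touched vertices `p 0`, `p 2` -/
theorem lemB (hH : SPF G X 5 rH) (hn : 5 ≤ n) (hp : IC G X n p) (hD : D ⊆ X \ Vs n p)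
    (cD : Conn G D) (t0 : Tch G D {p 0}) (n1 : ¬ Tch G D {p 1}) (t2 : Tch G D {p 2}) :
    ¬ Tch G D {p 3} ∧ ¬ Tch G D {p (n - 1)} ∧ (4 < n - 1 → ¬ Tch G D {p 4}) := by
  refine ⟨fun t3 => ?_, fun tn => ?_, fun h4 t4 => ?_⟩
  · refine house hH (A := arc p 2 2) (B := arc p 0 0) (C := D)
      (E := arc p 1 1) (F := arc p 3 3) (arc_subX hp (by omega)) (arc_subX hp (by omega))
      (fun x hx => (hD hx).1) (arc_subX hp (by omega)) (arc_subX hp (by omega))
      (arc_conn hp (by omega) (by omega)) (arc_conn hp (by omega) (by omega)) cD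
      (arc_conn hp (by omega) (by omega)) (arc_conn hp (by omega) (by omega))
      (arc_disj hp (by omega) (by omega) (by omega)) (arc_disjD hD (by omega))
      (arc_disjD hD (by omega)) (arc_disj hp (by omega) (by omega) (by omega))
      (arc_disj hp (by omega) (by omega) (by omega)) (arc_disjD hD (by omega)).symm
      (arc_disj hp (by omega) (by omega) (by omega)) (arc_disj hp (by omega) (by omega) (by omega))
      (arc_disjD hD (by omega)).symm (arc_disj hp (by omega) (by omega) (by omega))
      ?_ ?_ ?_ ?_ ?_ ?_ ?_ ?_ ?_ ?_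
    · rw [arc_tch hp (by omega) (by omega) (by omega) (by omega)]
      omega
    · exact tD t2 le_rfl le_rfl
    · exact tD t0 le_rfl le_rfl
    · rw [arc_tch hp (by omega) (by omega) (by omega) (by omega)]
      omega
    · rw [arc_tch' hp (by omega) (by omega) (by omega) (by omega)]
      omega
    · rw [tch_comm]
      refine nD fun s h1 h2 => ?_
      have : s = 1 := by omega
      rw [this]
      exact n1
    · rw [arc_tch' hp (by omega) (by omega) (by omega) (by omega)]
      omega
    · rw [arc_tch' hp (by omega) (by omega) (by omega) (by omega)]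
      omega
    · exact (tD t3 le_rfl le_rfl).symm
    · rw [arc_tch' hp (by omega) (by omega) (by omega) (by omega)]
      omega
  · refine house hH (A := arc p 0 0) (B := arc p 2 2) (C := D)
      (E := arc p 1 1) (F := arc p (n - 1) (n - 1)) (arc_subX hp (by omega)) (arc_subX hp (by omega))
      (fun x hx => (hD hx).1) (arc_subX hp (by omega)) (arc_subX hp (by omega))
      (arc_conn hp (by omega) (by omega)) (arc_conn hp (by omega) (by omega)) cD
      (arc_conn hp (by omega) (by omega)) (arc_conn hp (by omega) (by omega))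
      (arc_disj hp (by omega) (by omega) (by omega)) (arc_disjD hD (by omega))
      (arc_disjD hD (by omega)) (arc_disj hp (by omega) (by omega) (by omega))
      (arc_disj hp (by omega) (by omega) (by omega)) (arc_disjD hD (by omega)).symm
      (arc_disj hp (by omega) (by omega) (by omega)) (arc_disj hp (by omega) (by omega) (by omega))
      (arc_disjD hD (by omega)).symm (arc_disj hp (by omega) (by omega) (by omega))
      ?_ ?_ ?_ ?_ ?_ ?_ ?_ ?_ ?_ ?_
    · rw [arc_tch' hp (by omega) (by omega) (by omega) (by omega)]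
      omega
    · exact tD t0 le_rfl le_rfl
    · exact tD t2 le_rfl le_rfl
    · rw [arc_tch' hp (by omega) (by omega) (by omega) (by omega)]
      omega
    · rw [arc_tch hp (by omega) (by omega) (by omega) (by omega)]
      omega
    · rw [tch_comm]
      refine nD fun s h1 h2 => ?_
      have : s = 1 := by omega
      rw [this]
      exact n1
    · rw [arc_tch' hp (by omega) (by omega) (by omega) (by omega)]
      omega
    · rw [arc_tch' hp (by omega) (by omega) (by omega) (by omega)]
      omega
    · exact (tD tn le_rfl le_rfl).symm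
    · rw [arc_tch' hp (by omega) (by omega) (by omega) (by omega)]
      omega
  · refine house hH (A := arc p 2 2) (B := arc p 0 0) (C := D)
      (E := arc p 1 1) (F := arc p 3 4) (arc_subX hp (by omega)) (arc_subX hp (by omega))
      (fun x hx => (hD hx).1) (arc_subX hp (by omega)) (arc_subX hp (by omega))
      (arc_conn hp (by omega) (by omega)) (arc_conn hp (by omega) (by omega)) cD
      (arc_conn hp (by omega) (by omega)) (arc_conn hp (by omega) (by omega))
      (arc_disj hp (by omega) (by omega) (by omega)) (arc_disjD hD (by omega))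
      (arc_disjD hD (by omega)) (arc_disj hp (by omega) (by omega) (by omega))
      (arc_disj hp (by omega) (by omega) (by omega)) (arc_disjD hD (by omega)).symm
      (arc_disj hp (by omega) (by omega) (by omega)) (arc_disj hp (by omega) (by omega) (by omega))
      (arc_disjD hD (by omega)).symm (arc_disj hp (by omega) (by omega) (by omega))
      ?_ ?_ ?_ ?_ ?_ ?_ ?_ ?_ ?_ ?_
    · rw [arc_tch hp (by omega) (by omega) (by omega) (by omega)]
      omega
    · exact tD t2 le_rfl le_rfl
    · exact tD t0 le_rfl le_rfl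
    · rw [arc_tch hp (by omega) (by omega) (by omega) (by omega)]
      omega
    · rw [arc_tch' hp (by omega) (by omega) (by omega) (by omega)]
      omega
    · rw [tch_comm]
      refine nD fun s h1 h2 => ?_
      have : s = 1 := by omega
      rw [this]
      exact n1
    · rw [arc_tch' hp (by omega) (by omega) (by omega) (by omega)]
      omega
    · rw [arc_tch' hp (by omega) (by omega) (by omega) (by omega)]
      omega
    · exact (tD t4 (by omega) le_rfl).symm
    · rw [arc_tch' hp (by omega) (by omega) (by omega) (by omega)]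
      omega

/-- the statement for a cycle with `p 0` touched, `p 1` not touched -/
theorem main (h5 : S_B5) (hH : SPF G X 5 rH) (hn : 5 ≤ n) (hp : IC G X n p) (hD : D ⊆ X \ Vs n p)
    (cD : Conn G D) (t0 : Tch G D {p 0}) (n1 : ¬ Tch G D {p 1})
    (h2 : ∃ a < n, ∃ b < n, a ≠ b ∧ Tch G D {p a} ∧ Tch G D {p b}) : False := by
  by_cases t2 : Tch G D {p 2}
  · obtain ⟨n3, nn, n4⟩ := lemB hH hn hp hD cD t0 n1 t2
    have n4' : ¬ Tch G D {p 4} := by
      rcases Nat.lt_or_ge 4 (n - 1) with h | h
      · exact n4 h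
      · have : n - 1 = 4 := by omega
        rw [← this]
        exact nn
    obtain ⟨q, q1, q2, _, q4⟩ := rot h5 hp (s := 2) (by omega) hD h2
    have e0 : q 0 = p 2 := (q4 0 (by omega)).1 (by omega)
    have e1 : q 1 = p 3 := (q4 1 (by omega)).1 (by omega)
    have e2 : q 2 = p 4 := (q4 2 (by omega)).1 (by omega)
    have e3 : q (n - 2) = p 0 := by
      rw [(q4 (n - 2) (by omega)).2 (by omega)]
      congr 1
      omega
    refine lemA hH q1 q2 cD ?_ ?_ ?_ ⟨n - 2, by omega, by omega, ?_⟩
    · rw [e0]; exact t2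
    · rw [e1]; exact n3
    · rw [e2]; exact n4'
    · rw [e3]; exact t0
  · refine lemA hH hp hD cD t0 n1 t2 ?_
    have key : ∀ a < n, Tch G D {p a} → a ≠ 0 → 3 ≤ a := by
      intro a _ ta ha0
      by_contra h
      have : a = 1 ∨ a = 2 := by omega
      rcases this with rfl | rfl
      · exact n1 ta
      · exact t2 ta
    obtain ⟨a, ha, b, hb, hab, ta, tb⟩ := h2
    rcases Nat.eq_zero_or_pos a with h | h
    · exact ⟨b, hb, key b hb tb (by omega), tb⟩
    · exact ⟨a, ha, key a ha ta (by omega), ta⟩

end QH1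

theorem qH1 (h5 : S_B5) : S_H1 := by
  classical
  intro V G X D n c hH hn hc hD cD
  by_contra hcon
  push Not at hcon
  obtain ⟨⟨k, hk, nk⟩, i, hi, j, hj, ti, tj, hij⟩ := hcon
  have h2 : ∃ a < n, ∃ b < n, a ≠ b ∧ Tch G D {c a} ∧ Tch G D {c b} := ⟨i, hi, j, hj, hij, ti, tj⟩
  obtain ⟨p, p1, p2, p3, p4⟩ := QH1.rot h5 hc hi hD h2
  have e0 : p 0 = c i := by
    rw [(p4 0 (by omega)).1 (by omega), Nat.zero_add]
  -- an untouched vertex of `p`
  obtain ⟨k', hk', ek⟩ : ∃ k' < n, p k' = c k := by
    rcases Nat.lt_or_ge k i with h | h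
    · refine ⟨k + n - i, by omega, ?_⟩
      rw [(p4 (k + n - i) (by omega)).2 (by omega)]
      congr 1
      omega
    · refine ⟨k - i, by omega, ?_⟩
      rw [(p4 (k - i) (by omega)).1 (by omega)]
      congr 1
      omega
  have hex : ∃ t, ¬ Tch G D {p t} := ⟨k', by rw [ek]; exact nk⟩
  obtain ⟨t, ht1, ht2⟩ : ∃ t, ¬ Tch G D {p t} ∧ ∀ s < t, Tch G D {p s} :=
    ⟨Nat.find hex, Nat.find_spec hex, fun s hs => by
      by_contra h
      exact Nat.find_min hex hs h⟩
  have htn : t < n := by
    by_contra h
    exact nk (by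
      have := ht2 k' (by omega)
      rwa [ek] at this)
  have ht0 : 0 < t := by
    rcases Nat.eq_zero_or_pos t with h | h
    · exfalso
      rw [h, e0] at ht1
      exact ht1 ti
    · exact h
  obtain ⟨q, q1, q2, q3, q4⟩ := QH1.rot h5 p1 (s := t - 1) (by omega) p2 p3
  have f0 : q 0 = p (t - 1) := by
    rw [(q4 0 (by omega)).1 (by omega), Nat.zero_add]
  have f1 : q 1 = p t := by
    rw [(q4 1 (by omega)).1 (by omega)]
    congr 1
    omega
  refine QH1.main h5 hH hn q1 q2 cD ?_ ?_ q3
  · rw [f0]
    exact ht2 _ (by omega)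
  · rw [f1]
    exact ht1

end Pool.Agent.MPd439b2.HC
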