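import Pool.Agent.Lib.MP_d439b2_co.HC.SpecC
import Pool.Agent.Lib.MP_d439b2_co.B.Grow

/-!
# MP_d439b2_co, HC, Part C, H2: connected sets outside `C` and `U(C)` touch at most one vertex of the hole
-/

set_option autoImplicit false

namespace Pool.Agent.MPd439b2.HC

open Pool.Agent.MPd439b2 Pool.Agent.MPd439b2.BU

namespace qH2Aux

/-- strong induction on the number of elements -/
theorem main (h1 : S_H1) {V : Type} [Finite V] (G : SimpleGraph V) (X : Set V) (n : ℕ) (c : ℕ → V)
    (hH : SPF G X 5 rH) (hn : 5 ≤ n) (hc : IC G X n c) (m : ℕ) :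
    ∀ D : Set V, D ⊆ X \ (Vs n c ∪ UC G X n c) → Conn G D → D.ncard = m →
      ∀ i < n, ∀ j < n, Tch G D {c i} → Tch G D {c j} → i = j := by
  induction m using Nat.strong_induction_on with
  | _ m ih =>
    intro D hD hcon hm i hi j hj hti htj
    by_contra hij
    have hD' : D ⊆ X \ Vs n c := fun z hz => ⟨(hD hz).1, fun h => (hD hz).2 (Or.inl h)⟩
    have hall : ∀ i < n, Tch G D {c i} := by
      rcases h1 V G X D n c hH hn hc hD' hcon with h | h
      · exact h
      · exact absurd (h i hi j hj hti htj) hij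
    obtain ⟨x, hx⟩ := hcon.1
    by_cases hDx : D = {x}
    · apply (hD hx).2
      refine Or.inr ⟨(hD hx).1, fun k hk => ?_⟩
      have := hall k hk
      rw [hDx] at this
      exact tch_single.1 this
    · obtain ⟨v, hv, _, hconv⟩ := growAux.shrink G D x hcon hx hDx
      have hfin : D.Finite := Set.toFinite D
      have hlt : (D \ {v}).ncard < m := by
        rw [← hm]
        exact Set.ncard_sdiff_singleton_lt_of_mem hv hfin
      have hlt1 : ({v} : Set V).ncard < m := by
        rw [← hm]
        apply Set.ncard_lt_ncard _ hfin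
        refine ⟨Set.singleton_subset_iff.2 hv, fun h => ?_⟩
        obtain ⟨z, hz⟩ := hconv.1
        exact hz.2 (h hz.1)
      have a1 := ih _ hlt (D \ {v}) (fun z hz => hD hz.1) hconv rfl
      have a2 := ih _ hlt1 {v} (fun z hz => hD (by rw [Set.mem_singleton_iff] at hz; rw [hz]; exact hv))
        (Conn.singleton G v) rfl
      have spl : ∀ k < n, Tch G (D \ {v}) {c k} ∨ Tch G {v} {c k} := by
        intro k hk
        obtain ⟨d, hd, e, he, hde⟩ := hall k hk
        by_cases hdv : d = v
        · exact Or.inr ⟨d, hdv, e, he, hde⟩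
        · exact Or.inl ⟨d, ⟨hd, hdv⟩, e, he, hde⟩
      have n0 : 0 < n := by omega
      have n1 : 1 < n := by omega
      have n2 : 2 < n := by omega
      rcases spl 0 n0 with b0 | b0 <;> rcases spl 1 n1 with b1 | b1 <;> rcases spl 2 n2 with b2 | b2
      · exact absurd (a1 0 n0 1 n1 b0 b1) (by omega)
      · exact absurd (a1 0 n0 1 n1 b0 b1) (by omega)
      · exact absurd (a1 0 n0 2 n2 b0 b2) (by omega)
      · exact absurd (a2 1 n1 2 n2 b1 b2) (by omega)
      · exact absurd (a1 1 n1 2 n2 b1 b2) (by omega)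
      · exact absurd (a2 0 n0 2 n2 b0 b2) (by omega)
      · exact absurd (a2 0 n0 1 n1 b0 b1) (by omega)
      · exact absurd (a2 0 n0 1 n1 b0 b1) (by omega)

end qH2Aux

theorem qH2 (h1 : S_H1) : S_H2 := by
  intro V _ G X D n c hH hn hc hD hcon
  exact qH2Aux.main h1 G X n c hH hn hc D.ncard D hD hcon rfl

end Pool.Agent.MPd439b2.HC
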