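import Pool.Agent.Lib.MP_d439b2_co.HC.SpecC

/-!
# MP_d439b2_co, HC: QH4, the base pattern at two vertices of a hole (helper53)
-/

set_option autoImplicit false

namespace Pool.Agent.MPd439b2.HC

open Pool.Agent.MPd439b2
open Pool.Agent.MPd439b2.BU

/-- the facts on `FB` for two vertices of a hole -/
theorem q4fb (hH2 : S_H2) (hFB : S_FB) {V : Type} [Finite V] {G : SimpleGraph V} {X : Set V} {n : ℕ}
    {c : ℕ → V} (hH : SPF G X 5 rH) (hn : 5 ≤ n) (hic : IC G X n c) {i k : ℕ} (hi : i < n)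
    (hk : k < n) (hik : i ≠ k) :
    (∀ x ∈ FB G X (Vs n c ∪ UC G X n c) {c i}, ∀ y ∈ FB G X (Vs n c ∪ UC G X n c) {c k},
      x ≠ y ∧ ¬ G.Adj x y) ∧
    (∀ x ∈ FB G X (Vs n c ∪ UC G X n c) {c i}, ¬ G.Adj x (c k)) ∧
    (∀ x ∈ FB G X (Vs n c ∪ UC G X n c) {c i}, x ∈ X ∧ x ∉ Vs n c ∪ UC G X n c) ∧
    (∀ x ∈ FB G X (Vs n c ∪ UC G X n c) {c i}, ∀ x' ∈ X, x' ∉ Vs n c ∪ UC G X n c → G.Adj x x' →
      x' ∈ FB G X (Vs n c ∪ UC G X n c) {c i}) ∧
    ∀ x ∈ X, x ∉ Vs n c ∪ UC G X n c → G.Adj x (c i) →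
      x ∈ FB G X (Vs n c ∪ UC G X n c) {c i} := by
  obtain ⟨h1, h2, h3, h4, h5⟩ := hFB V G X (Vs n c ∪ UC G X n c) {c i} {c k}
    (fun D hD hDc h1 h2 => hik (hH2 V G X D n c hH hn hic hD hDc i hi k hk h1 h2))
  exact ⟨h1, fun x hx => h2 x hx _ rfl, h3, h4, fun x hx hxW h => h5 x hx hxW _ rfl h⟩

/-- an arm which avoids `x` -/
theorem q4arm (hDel : S_Del) {V : Type} {G : SimpleGraph V} {X W : Set V} {a x : V}
    (hx : x ∈ FB G X W {a}) (ha : a ∈ W) :
    ∃ T ⊆ {a} ∪ FB G X W {a}, Conn G T ∧ a ∈ T ∧ x ∉ T ∧ Tch G {x} T := by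
  obtain ⟨D, hD, hDc, hxD, hDa⟩ := hx
  have h1 : Conn G (insert a D) := by
    obtain ⟨b, hb, b', hb', hbb⟩ := hDa
    rw [Set.mem_singleton_iff] at hb'
    subst hb'
    exact hDc.insert ⟨b, hb, hbb⟩
  have hax : a ≠ x := fun h => (hD (h ▸ hxD : a ∈ D)).2 ha
  obtain ⟨Q, hQ, hQc, haQ, hxQ⟩ := hDel V G (insert a D) a x h1 (Set.mem_insert _ _)
    (Or.inr hxD) hax
  refine ⟨Q, ?_, hQc, haQ, fun h => (hQ h).2 rfl, hxQ⟩
  intro z hz
  rcases (hQ hz).1 with h | h
  · exact Or.inl h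
  · exact Or.inr ⟨D, hD, hDc, h, hDa⟩

/-- an arm which contains `x` -/
theorem q4arm2 {V : Type} {G : SimpleGraph V} {X W : Set V} {a x : V}
    (hx : x ∈ {a} ∪ FB G X W {a}) :
    ∃ T ⊆ {a} ∪ FB G X W {a}, Conn G T ∧ a ∈ T ∧ x ∈ T := by
  rcases hx with hx | ⟨D, hD, hDc, hxD, hDa⟩
  · refine ⟨{a}, fun z hz => Or.inl hz, Conn.singleton G a, rfl, hx⟩
  · have h1 : Conn G (insert a D) := by
      obtain ⟨b, hb, b', hb', hbb⟩ := hDa
      rw [Set.mem_singleton_iff] at hb'
      subst hb'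
      exact hDc.insert ⟨b, hb, hbb⟩
    refine ⟨insert a D, ?_, h1, Set.mem_insert _ _, Or.inr hxD⟩
    rintro z (hz | hz)
    · exact Or.inl hz
    · exact Or.inr ⟨D, hD, hDc, hz, hDa⟩

theorem qH4 (hH2 : S_H2) (hH3 : S_H3) (hFB : S_FB) : S_H4 := by
  intro V _ G X T T' Z n i j c x y hH hn hic hi hj hij hT hTc hciT hT' hTc' hcjT' hXZ hxZ hyZ hxy
    hnxy hx hy
  obtain ⟨hxT, hxT', hxC, htxT, hntxT', hxc⟩ := hx
  obtain ⟨hyT, hyT', hyC, hntyT, htyT', hyc⟩ := hy
  have hfb : ∀ i < n, ∀ k < n, i ≠ k → _ := fun i hi k hk hik =>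
    hFB V G X (Vs n c ∪ UC G X n c) {c i} {c k} (fun D hD hDc h1 h2 =>
      hik (hH2 V G X D n c hH hn hic hD hDc i hi k hk h1 h2))
  obtain ⟨A, hA0, hA2, hA, hAd, hAt⟩ := hH3 V G X n i j c hn hic hi hj hij
  obtain ⟨ij1, ij2, ij3, ij4, ij5⟩ := hfb i hi j hj hij
  obtain ⟨ji1, ji2, ji3, ji4, ji5⟩ := hfb j hj i hi hij.symm
  set W := Vs n c ∪ UC G X n c with hW
  set S : ℕ → Set V := fun k => if k = 0 then A 0 ∪ T else if k = 2 then A 2 ∪ T' else A k with hS
  have hS0 : S 0 = A 0 ∪ T := rfl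
  have hS1 : S 1 = A 1 := rfl
  have hS2 : S 2 = A 2 ∪ T' := rfl
  have hS3 : S 3 = A 3 := rfl
  have hAS : ∀ k < 4, A k ⊆ S k := by
    intro k hk
    interval_cases k
    · exact Set.subset_union_left
    · exact subset_rfl
    · exact Set.subset_union_left
    · exact subset_rfl
  have hCX : Vs n c ⊆ X := by
    rintro z ⟨k, hk, rfl⟩
    exact hic.1 k hk
  have hAne : ∀ k < 4, ∀ l < 4, k ≠ l → ∀ z ∈ A k, z ∉ A l := by
    intro k hk l hl hkl z hz hz'
    rcases lt_or_gt_of_ne hkl with h | h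
    · exact Set.disjoint_left.1 (hAd l hl k h) hz' hz
    · exact Set.disjoint_left.1 (hAd k hk l h) hz hz'
  have key1 : ∀ k < 4, ∀ z ∈ S k, z ∈ A k ∨ (k = 0 ∧ z ∈ FB G X W {c i}) ∨
      (k = 2 ∧ z ∈ FB G X W {c j}) := by
    intro k hk z hz
    interval_cases k
    · rcases hz with hz | hz
      · exact Or.inl hz
      · rcases hT hz with h | h
        · rw [Set.mem_singleton_iff] at h
          rw [h]
          exact Or.inl hA0
        · exact Or.inr (Or.inl ⟨rfl, h⟩)
    · exact Or.inl hz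
    · rcases hz with hz | hz
      · exact Or.inl hz
      · rcases hT' hz with h | h
        · rw [Set.mem_singleton_iff] at h
          rw [h]
          exact Or.inl hA2
        · exact Or.inr (Or.inr ⟨rfl, h⟩)
    · exact Or.inl hz
  have key2 : ∀ l < 4, l ≠ 0 → ∀ z ∈ FB G X W {c i}, ∀ w ∈ S l, ¬ G.Adj z w := by
    intro l hl hl0 z hz w hw
    rcases key1 l hl w hw with h | ⟨h, _⟩ | ⟨_, h⟩
    · obtain ⟨m, hm, rfl⟩ := (hA l hl).1 h
      have hmi : i ≠ m := by
        rintro rfl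
        exact hAne l hl 0 (by norm_num) hl0 _ h hA0
      exact (hfb i hi m hm hmi).2.1 z hz _ rfl
    · exact absurd h hl0
    · exact (ij1 z hz w h).2
  have key3 : ∀ l < 4, l ≠ 2 → ∀ z ∈ FB G X W {c j}, ∀ w ∈ S l, ¬ G.Adj z w := by
    intro l hl hl0 z hz w hw
    rcases key1 l hl w hw with h | ⟨_, h⟩ | ⟨h, _⟩
    · obtain ⟨m, hm, rfl⟩ := (hA l hl).1 h
      have hmi : j ≠ m := by
        rintro rfl
        exact hAne l hl 2 (by norm_num) hl0 _ h hA2
      exact (hfb j hj m hm hmi).2.1 z hz _ rfl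
    · exact (ji1 z hz w h).2
    · exact absurd h hl0
  have hFBW : ∀ z, z ∈ FB G X W {c i} ∨ z ∈ FB G X W {c j} → z ∉ W := by
    rintro z (h | h)
    · exact (ij3 z h).2
    · exact (ji3 z h).2
  have hSsub : ∀ k < 4, S k ⊆ Vs n c ∪ (T ∪ T') := by
    intro k hk
    interval_cases k
    · rintro z (h | h)
      · exact Or.inl ((hA 0 (by norm_num)).1 h)
      · exact Or.inr (Or.inl h)
    · exact fun z h => Or.inl ((hA 1 (by norm_num)).1 h)
    · rintro z (h | h)
      · exact Or.inl ((hA 2 (by norm_num)).1 h)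
      · exact Or.inr (Or.inr h)
    · exact fun z h => Or.inl ((hA 3 (by norm_num)).1 h)
  have hTX : T ⊆ X := by
    intro z hz
    rcases hT hz with h | h
    · rw [Set.mem_singleton_iff] at h
      rw [h]
      exact hic.1 i hi
    · exact (ij3 z h).1
  have hTX' : T' ⊆ X := by
    intro z hz
    rcases hT' hz with h | h
    · rw [Set.mem_singleton_iff] at h
      rw [h]
      exact hic.1 j hj
    · exact (ji3 z h).1
  refine ⟨S, ⟨hxZ, hyZ, hxy, hnxy, ?_, ?_, ?_, ?_, ?_, ?_⟩, Set.subset_union_right,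
    Set.subset_union_right, hSsub, ?_⟩
  · intro k hk z hz
    rcases hSsub k hk hz with h | h | h
    · exact hXZ (hCX h)
    · exact hXZ (hTX h)
    · exact hXZ (hTX' h)
  · intro k hk
    interval_cases k
    · exact Conn.union (hA 0 (by norm_num)).2 hTc (Or.inl ⟨c i, hA0, hciT⟩)
    · exact (hA 1 (by norm_num)).2
    · exact Conn.union (hA 2 (by norm_num)).2 hTc' (Or.inl ⟨c j, hA2, hcjT'⟩)
    · exact (hA 3 (by norm_num)).2
  · intro k hk l hl
    have hl4 : l < 4 := hl.trans hk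
    rw [Set.disjoint_left]
    intro z hz hz'
    rcases key1 k hk z hz with h | ⟨h0, h⟩ | ⟨h0, h⟩
    · rcases key1 l hl4 z hz' with h' | ⟨_, h'⟩ | ⟨_, h'⟩
      · exact Set.disjoint_left.1 (hAd k hk l hl) h h'
      · exact hFBW z (Or.inl h') (Or.inl ((hA k hk).1 h))
      · exact hFBW z (Or.inr h') (Or.inl ((hA k hk).1 h))
    · omega
    · rcases key1 l hl4 z hz' with h' | ⟨_, h'⟩ | ⟨h1, _⟩
      · exact hFBW z (Or.inr h) (Or.inl ((hA l hl4).1 h'))
      · exact (ij1 z h' z h).1 rfl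
      · omega
  · intro k hk l hl
    have hl4 : l < 4 := hl.trans hk
    rw [← hAt k hk l hl]
    constructor
    · rintro ⟨z, hz, w, hw, hzw⟩
      rcases key1 k hk z hz with h | ⟨h0, h⟩ | ⟨h0, h⟩
      · rcases key1 l hl4 w hw with h' | ⟨h1, h'⟩ | ⟨h1, h'⟩
        · exact ⟨z, h, w, h', hzw⟩
        · exact absurd hzw.symm (key2 k hk (by omega) w h' z hz)
        · exact absurd hzw.symm (key3 k hk (by omega) w h' z hz)
      · omega
      · exact absurd hzw (key3 l hl4 (by omega) z h w hw)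
    · intro h
      exact h.mono (hAS k hk) (hAS l hl4)
  · intro k hk
    constructor
    · intro h
      rcases hSsub k hk h with h | h | h
      · exact hxC h
      · exact hxT h
      · exact hxT' h
    · constructor
      · rintro ⟨x', hx', w, hw, hxw⟩
        rw [Set.mem_singleton_iff] at hx'
        subst hx'
        by_contra hk0
        have hwA : w ∉ A k := by
          intro h
          obtain ⟨m, hm, rfl⟩ := (hA k hk).1 h
          refine hxc m hm ?_ hxw
          rintro rfl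
          exact hAne k hk 0 (by norm_num) hk0 _ h hA0
        interval_cases k
        · exact hk0 rfl
        · exact hwA hw
        · rcases hw with h | h
          · exact hwA h
          · exact hntxT' ⟨x', rfl, w, h, hxw⟩
        · exact hwA hw
      · rintro rfl
        exact htxT.mono subset_rfl Set.subset_union_right
  · intro k hk
    constructor
    · intro h
      rcases hSsub k hk h with h | h | h
      · exact hyC h
      · exact hyT h
      · exact hyT' h
    · constructor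
      · rintro ⟨x', hx', w, hw, hxw⟩
        rw [Set.mem_singleton_iff] at hx'
        subst hx'
        by_contra hk0
        have hwA : w ∉ A k := by
          intro h
          obtain ⟨m, hm, rfl⟩ := (hA k hk).1 h
          refine hyc m hm ?_ hxw
          rintro rfl
          exact hAne k hk 2 (by norm_num) hk0 _ h hA2
        interval_cases k
        · rcases hw with h | h
          · exact hwA h
          · exact hntyT ⟨x', rfl, w, h, hxw⟩
        · exact hwA hw
        · exact hk0 rfl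
        · exact hwA hw
      · rintro rfl
        exact htyT'.mono subset_rfl Set.subset_union_right
  · intro u hu k hk
    have huW : u ∈ W := Or.inr hu
    have huC : u ∉ Vs n c := by
      rintro ⟨m, hm, rfl⟩
      exact G.loopless.irrefl _ (hu.2 m hm)
    constructor
    · intro h
      rcases key1 k hk u h with h | ⟨_, h⟩ | ⟨_, h⟩
      · exact huC ((hA k hk).1 h)
      · exact hFBW u (Or.inl h) huW
      · exact hFBW u (Or.inr h) huW
    · obtain ⟨a, ha⟩ := (hA k hk).2.1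
      obtain ⟨m, hm, rfl⟩ := (hA k hk).1 ha
      exact ⟨u, rfl, _, hAS k hk ha, hu.2 m hm⟩

end Pool.Agent.MPd439b2.HC
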