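import Pool.Agent.Lib.MP_d439b2_co.HC.QH4

/-!
# MP_d439b2_co, HC: QH5, the rich structure of a hole (helper53)
-/

set_option autoImplicit false

namespace Pool.Agent.MPd439b2.HC

open Pool.Agent.MPd439b2
open Pool.Agent.MPd439b2.BU

theorem qH5 (hH2 : S_H2) (hH4 : S_H4) (hFB : S_FB) (hDel : S_Del) : S_H5 := by
  intro V _ G X n i₀ j₀ c hH hn hic hi₀ hj₀ hij₀ hFi₀ hFj₀
  have hfb := fun {i k : ℕ} (hi : i < n) (hk : k < n) (hik : i ≠ k) =>
    q4fb hH2 hFB hH hn hic hi hk hik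
  set W := Vs n c ∪ UC G X n c with hW
  set F : Set V := {x | ∃ i < n, x ∈ FB G X W {c i}} with hF
  have hoth : ∀ i < n, ∃ k < n, i ≠ k := by
    intro i hi
    by_cases h : i = 0
    · exact ⟨1, by omega, by omega⟩
    · exact ⟨0, by omega, h⟩
  have hCX : Vs n c ⊆ X := by
    rintro z ⟨k, hk, rfl⟩
    exact hic.1 k hk
  have hcW : ∀ k < n, c k ∈ W := fun k hk => Or.inl ⟨k, hk, rfl⟩
  have hFX : ∀ z ∈ F, z ∈ X ∧ z ∉ W := by
    rintro z ⟨i, hi, hz⟩
    obtain ⟨k, hk, hik⟩ := hoth i hi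
    exact (hfb hi hk hik).2.2.1 z hz
  have hUX : UC G X n c ⊆ X := fun z hz => hz.1
  have hUC : ∀ u ∈ UC G X n c, u ∉ Vs n c := by
    rintro u hu ⟨m, hm, rfl⟩
    exact G.loopless.irrefl _ (hu.2 m hm)
  -- the base patterns
  have hbase : ∀ i < n, ∀ j < n, i ≠ j → ∀ y ∈ FB G X W {c j}, ∀ (T Z : Set V) (x : V), X ⊆ Z →
      x ∈ Z → T ⊆ {c i} ∪ FB G X W {c i} → Conn G T → c i ∈ T → x ∉ T → x ∉ Vs n c →
      x ∉ FB G X W {c j} → Tch G {x} T → (∀ z ∈ FB G X W {c j}, ¬ G.Adj x z) →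
      (∀ k < n, k ≠ i → ¬ G.Adj x (c k)) → BasB G Z (Vs n c ∪ F) (UC G X n c) x y := by
    intro i hi j hj hij y hy T Z x hXZ hxZ hT hTc hciT hxT hxC hxFj htx hxz hxc
    obtain ⟨T', hT', hTc', hcjT', hyT', hty⟩ := q4arm hDel hy (hcW j hj)
    obtain ⟨ji1, ji2, ji3, ji4, ji5⟩ := hfb hj hi hij.symm
    have hyX := ji3 y hy
    have hxy : x ≠ y := fun h => hxFj (h ▸ hy)
    have hx1 : x ∉ T' := by
      intro h
      rcases hT' h with h' | h'
      · rw [Set.mem_singleton_iff] at h'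
        exact hxC ⟨j, hj, h'.symm⟩
      · exact hxFj h'
    have hx2 : ¬ Tch G {x} T' := by
      rintro ⟨x', hx', w, hw, hxw⟩
      rw [Set.mem_singleton_iff] at hx'
      subst hx'
      rcases hT' hw with h' | h'
      · rw [Set.mem_singleton_iff] at h'
        rw [h'] at hxw
        exact hxc j hj hij.symm hxw
      · exact hxz w h' hxw
    have hy1 : y ∉ T := by
      intro h
      rcases hT h with h' | h'
      · rw [Set.mem_singleton_iff] at h'
        exact hyX.2 (h' ▸ hcW i hi)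
      · exact (ji1 y hy y h').1 rfl
    have hy2 : ¬ Tch G {y} T := by
      rintro ⟨x', hx', w, hw, hxw⟩
      rw [Set.mem_singleton_iff] at hx'
      subst hx'
      rcases hT hw with h' | h'
      · rw [Set.mem_singleton_iff] at h'
        rw [h'] at hxw
        exact ji2 x' hy hxw
      · exact (ji1 x' hy w h').2 hxw
    have hy3 : ∀ k < n, k ≠ j → ¬ G.Adj y (c k) := by
      intro k hk hkj
      exact (hfb hj hk hkj.symm).2.1 y hy
    obtain ⟨S, hS, hTS, hTS', hSs, hSu⟩ := hH4 V G X T T' Z n i j c x y hH hn hic hi hj hij hT hTc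
      hciT hT' hTc' hcjT' hXZ hxZ (hXZ hyX.1) hxy (hxz y hy)
      ⟨hxT, hx1, hxC, htx, hx2, hxc⟩ ⟨hy1, hyT', fun h => hyX.2 (Or.inl h), hy2, hty, hy3⟩
    refine ⟨S, hS, ?_, hSu⟩
    intro k hk z hz
    rcases hSs k hk hz with h | h | h
    · exact Or.inl h
    · rcases hT h with h' | h'
      · rw [Set.mem_singleton_iff] at h'
        rw [h']
        exact Or.inl ⟨i, hi, rfl⟩
      · exact Or.inr ⟨i, hi, h'⟩
    · rcases hT' h with h' | h'
      · rw [Set.mem_singleton_iff] at h'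
        rw [h']
        exact Or.inl ⟨j, hj, rfl⟩
      · exact Or.inr ⟨j, hj, h'⟩
  have hpair : ∀ i < n, ∀ j < n, i ≠ j → ∀ x ∈ FB G X W {c i}, ∀ y ∈ FB G X W {c j},
      BasB G X (Vs n c ∪ F) (UC G X n c) x y := by
    intro i hi j hj hij x hx y hy
    obtain ⟨T, hT, hTc, hciT, hxT, htx⟩ := q4arm hDel hx (hcW i hi)
    obtain ⟨ij1, ij2, ij3, ij4, ij5⟩ := hfb hi hj hij
    have hxX := ij3 x hx
    exact hbase i hi j hj hij y hy T X x subset_rfl hxX.1 hT hTc hciT hxT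
      (fun h => hxX.2 (Or.inl h)) (fun h => (ij1 x hx x h).1 rfl) htx
      (fun z hz => (ij1 x hx z hz).2) (fun k hk hki => (hfb hi hk hki.symm).2.1 x hx)
  obtain ⟨f₀, hf₀⟩ := hFi₀
  obtain ⟨g₀, hg₀⟩ := hFj₀
  refine ⟨Vs n c ∪ F, X \ ((Vs n c ∪ F) ∪ UC G X n c), ?_, ?_, ?_, ?_, Set.subset_union_right,
    ⟨f₀, i₀, hi₀, hf₀⟩, ?_, ?_, ?_, ?_, ?_, ?_⟩
  · ext z
    constructor
    · intro hz
      by_cases h1 : z ∈ Vs n c ∪ F
      · exact Or.inl h1
      · by_cases h2 : z ∈ UC G X n c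
        · exact Or.inr (Or.inl h2)
        · exact Or.inr (Or.inr ⟨hz, fun h => h.elim h1 h2⟩)
    · rintro ((h | h) | h | h)
      · exact hCX h
      · exact (hFX z h).1
      · exact hUX h
      · exact h.1
  · rw [Set.disjoint_left]
    rintro z (h | h) hz
    · exact hUC z hz h
    · exact (hFX z h).2 (Or.inr hz)
  · rw [Set.disjoint_left]
    intro z h hz
    exact hz.2 (Or.inl h)
  · rw [Set.disjoint_left]
    intro z h hz
    exact hz.2 (Or.inr h)
  · rintro u hu b (⟨m, hm, rfl⟩ | hb) hbF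
    · exact hu.2 m hm
    · exact absurd hb hbF
  · rintro m ⟨hmX, hm⟩ b hb hmb
    have hmW : m ∉ W := fun h => hm (h.elim (fun h => Or.inl (Or.inl h)) Or.inr)
    rcases hb with ⟨i, hi, rfl⟩ | ⟨i, hi, hb⟩
    · obtain ⟨k, hk, hik⟩ := hoth i hi
      exact hm (Or.inl (Or.inr ⟨i, hi, (hfb hi hk hik).2.2.2.2 m hmX hmW hmb⟩))
    · obtain ⟨k, hk, hik⟩ := hoth i hi
      exact hm (Or.inl (Or.inr ⟨i, hi, (hfb hi hk hik).2.2.2.1 b hb m hmX hmW hmb.symm⟩))
  · -- the cut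
    refine ⟨{c i₀} ∪ FB G X W {c i₀}, ?_, ?_, ?_, {b | b ∈ Vs n c ∧ G.Adj (c i₀) b}, ?_, ?_⟩
    · rintro z (h | h)
      · rw [Set.mem_singleton_iff] at h
        rw [h]
        exact Or.inl ⟨i₀, hi₀, rfl⟩
      · exact Or.inr ⟨i₀, hi₀, h⟩
    · intro h
      have := h (Or.inl rfl : c i₀ ∈ _) (Or.inr hf₀ : f₀ ∈ _)
      exact (hFX f₀ ⟨i₀, hi₀, hf₀⟩).2 (this ▸ hcW i₀ hi₀)
    · intro h
      have hmem : ∀ k < n, k ≠ i₀ → c k ∈ (Vs n c ∪ F) \ ({c i₀} ∪ FB G X W {c i₀}) := by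
        intro k hk hki
        refine ⟨Or.inl ⟨k, hk, rfl⟩, ?_⟩
        rintro (h | h)
        · exact hki (hic.2.1 k hk i₀ hi₀ h)
        · exact (hFX _ ⟨i₀, hi₀, h⟩).2 (hcW k hk)
      obtain ⟨k, l, hk, hl, hkl, hki, hli⟩ : ∃ k l, k < n ∧ l < n ∧ k ≠ l ∧ k ≠ i₀ ∧ l ≠ i₀ := by
        by_cases h0 : i₀ = 0
        · exact ⟨1, 2, by omega, by omega, by omega, by omega, by omega⟩
        · by_cases h1 : i₀ = 1
          · exact ⟨0, 2, by omega, by omega, by omega, by omega, by omega⟩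
          · exact ⟨0, 1, by omega, by omega, by omega, by omega, by omega⟩
      exact hkl (hic.2.1 k hk l hl (h (hmem k hk hki) (hmem l hl hli)))
    · rintro b ⟨hb, hb'⟩
      refine ⟨Or.inl hb, ?_⟩
      rintro (h | h)
      · rw [Set.mem_singleton_iff] at h
        rw [h] at hb'
        exact G.loopless.irrefl _ hb'
      · exact (hFX _ ⟨i₀, hi₀, h⟩).2 (Or.inl hb)
    · rintro a ha b ⟨hb, hbA⟩
      rcases ha with ha | ha
      · rw [Set.mem_singleton_iff] at ha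
        subst ha
        constructor
        · intro hab
          refine ⟨fun h => (hFX _ h).2 (hcW i₀ hi₀), ?_⟩
          rcases hb with hb | ⟨k, hk, hb⟩
          · exact ⟨hb, hab⟩
          · exfalso
            by_cases hki : k = i₀
            · subst hki
              exact hbA (Or.inr hb)
            · exact (hfb hk hi₀ hki).2.1 b hb hab.symm
        · rintro ⟨_, _, h⟩
          exact h
      · constructor
        · intro hab
          exfalso
          rcases hb with ⟨k, hk, rfl⟩ | ⟨k, hk, hb⟩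
          · have hki : i₀ ≠ k := by
              rintro rfl
              exact hbA (Or.inl rfl)
            exact (hfb hi₀ hk hki).2.1 a ha hab
          · have hki : i₀ ≠ k := by
              rintro rfl
              exact hbA (Or.inr hb)
            exact ((hfb hi₀ hk hki).1 a ha b hb).2 hab
        · rintro ⟨h, _⟩
          exact absurd ⟨i₀, hi₀, ha⟩ h
  · -- the base patterns
    rintro x ⟨i, hi, hx⟩ x' ⟨j, hj, hx'⟩
    by_cases hij : i = j
    · subst hij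
      right
      by_cases h : i = i₀
      · subst h
        exact ⟨g₀, ⟨j₀, hj₀, hg₀⟩, hpair i hi j₀ hj₀ hij₀ x hx g₀ hg₀,
          hpair i hi j₀ hj₀ hij₀ x' hx' g₀ hg₀⟩
      · exact ⟨f₀, ⟨i₀, hi₀, hf₀⟩, hpair i hi i₀ hi₀ h x hx f₀ hf₀,
          hpair i hi i₀ hi₀ h x' hx' f₀ hf₀⟩
    · exact Or.inl (hpair i hi j hj hij x hx x' hx')
  · -- pendant vertices
    intro c₀ hc₀ d hdX hd
    have hdz : ∀ z ∈ X, z ≠ c₀ → ¬ G.Adj d z := fun z hz h h' => h ((hd z hz).1 h')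
    obtain ⟨i, hi, hci⟩ : ∃ i < n, c₀ ∈ {c i} ∪ FB G X W {c i} := by
      rcases hc₀ with ⟨i, hi, rfl⟩ | ⟨i, hi, h⟩
      · exact ⟨i, hi, Or.inl rfl⟩
      · exact ⟨i, hi, Or.inr h⟩
    obtain ⟨k, hk, hik, y, hy⟩ : ∃ k < n, i ≠ k ∧ ∃ y, y ∈ FB G X W {c k} := by
      by_cases h : i = i₀
      · exact ⟨j₀, hj₀, h ▸ hij₀, g₀, hg₀⟩
      · exact ⟨i₀, hi₀, h, f₀, hf₀⟩
    obtain ⟨T, hT, hTc, hciT, hcT⟩ := q4arm2 hci
    obtain ⟨ik1, ik2, ik3, ik4, ik5⟩ := hfb hi hk hik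
    have hTX : T ⊆ X := by
      intro z hz
      rcases hT hz with h | h
      · rw [Set.mem_singleton_iff] at h
        rw [h]
        exact hic.1 i hi
      · exact (ik3 z h).1
    have hc₀X : c₀ ∈ X := hTX hcT
    refine ⟨y, ⟨k, hk, hy⟩, hbase i hi k hk hik y hy T (insert d X) d (Set.subset_insert _ _)
      (Set.mem_insert _ _) hT hTc hciT (fun h => hdX (hTX h)) (fun h => hdX (hCX h))
      (fun h => hdX (hFX d ⟨k, hk, h⟩).1)
      ⟨d, rfl, c₀, hcT, (hd c₀ hc₀X).2 rfl⟩ ?_ ?_⟩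
    · intro z hz
      have hzX := (hFX z ⟨k, hk, hz⟩)
      refine hdz z hzX.1 ?_
      rintro rfl
      rcases hci with h | h
      · rw [Set.mem_singleton_iff] at h
        exact hzX.2 (h ▸ hcW i hi)
      · exact (ik1 z h z hz).1 rfl
    · intro m hm hmi
      refine hdz _ (hic.1 m hm) ?_
      rintro rfl
      rcases hci with h | h
      · exact hmi (hic.2.1 m hm i hi h)
      · exact (hFX _ ⟨i, hi, h⟩).2 (hcW m hm)
  · -- cycles
    rintro b (⟨i, hi, rfl⟩ | ⟨i, hi, hb⟩)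
    · obtain ⟨k, hk, hki, hnadj⟩ : ∃ k < n, k ≠ i ∧ ¬ G.Adj (c i) (c k) := by
        by_cases h : i < 2
        · refine ⟨i + 2, by omega, by omega, ?_⟩
          rw [hic.2.2 i hi (i + 2) (by omega)]
          omega
        · refine ⟨i - 2, by omega, by omega, ?_⟩
          rw [hic.2.2 i hi (i - 2) (by omega)]
          omega
      exact ⟨c k, Or.inl ⟨k, hk, rfl⟩, fun h => hki (hic.2.1 k hk i hi h), hnadj, n, c, by omega,
        hic, k, hk, rfl⟩
    · obtain ⟨k, hk, hik⟩ := hoth i hi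
      refine ⟨c k, Or.inl ⟨k, hk, rfl⟩, ?_, (hfb hi hk hik).2.1 b hb, n, c, by omega,
        hic, k, hk, rfl⟩
      rintro rfl
      exact (hFX _ ⟨i, hi, hb⟩).2 (hcW k hk)

end Pool.Agent.MPd439b2.HC
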