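import Pool.Agent.Lib.MP_d439b2_co.HC.SpecC

/-!
# MP_d439b2_co, HC: H6, holes with at most one nonempty set `FB` are ears (helper18)
-/

set_option autoImplicit false

namespace Pool.Agent.MPd439b2.HC

open Pool.Agent.MPd439b2
open Pool.Agent.MPd439b2.BU

namespace qH6Aux

variable {V : Type}

theorem vs_rot {n i : ℕ} (c : ℕ → V) (hi : i < n) : Vs n (fun k => c ((k + i) % n)) = Vs n c := by
  have hn : 0 < n := by omega
  ext x
  constructor
  · rintro ⟨k, _, rfl⟩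
    exact ⟨(k + i) % n, Nat.mod_lt _ hn, rfl⟩
  · rintro ⟨j, hj, rfl⟩
    refine ⟨(j + n - i) % n, Nat.mod_lt _ hn, ?_⟩
    show c (((j + n - i) % n + i) % n) = c j
    congr 1
    rw [Nat.mod_add_mod, show j + n - i + i = j + n by omega, Nat.add_mod_right,
      Nat.mod_eq_of_lt hj]

theorem uc_of_vs {G : SimpleGraph V} {X : Set V} {n : ℕ} {c c' : ℕ → V}
    (h : Vs n c' = Vs n c) : UC G X n c' = UC G X n c := by
  ext x
  constructor
  · rintro ⟨hx, h1⟩
    refine ⟨hx, fun i hi => ?_⟩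
    have h2 : c i ∈ Vs n c' := h ▸ ⟨i, hi, rfl⟩
    obtain ⟨j, hj, h3⟩ := h2
    exact h3 ▸ h1 j hj
  · rintro ⟨hx, h1⟩
    refine ⟨hx, fun i hi => ?_⟩
    have h2 : c' i ∈ Vs n c := h ▸ ⟨i, hi, rfl⟩
    obtain ⟨j, hj, h3⟩ := h2
    exact h3 ▸ h1 j hj

end qH6Aux

open qH6Aux

theorem qH6 (h1 : BU.S_B5) : S_H6 := by
  intro V _ G X n i c hn hc hi hU hF
  have hvs := vs_rot c hi
  have huc : UC G X n (fun k => c ((k + i) % n)) = UC G X n c := uc_of_vs hvs
  have hno : ∀ x, Off G X n (fun k => c ((k + i) % n)) x → ∀ k, 1 ≤ k → k < n →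
      ¬ G.Adj x (c ((k + i) % n)) := by
    rintro x ⟨hx, hx1, hx2⟩ k hk1 hk hadj
    have hj : (k + i) % n < n := Nat.mod_lt _ (by omega)
    have hji : (k + i) % n ≠ i := by
      by_cases h : k + i < n
      · rw [Nat.mod_eq_of_lt h]; omega
      · rw [Nat.mod_eq_sub_mod (by omega), Nat.mod_eq_of_lt (by omega)]; omega
    have h2 : x ∈ FB G X (Vs n c ∪ UC G X n c) {c ((k + i) % n)} := by
      refine ⟨{x}, Set.singleton_subset_iff.2 ⟨hx, ?_⟩, Conn.singleton G x, rfl, x, rfl, _, rfl, hadj⟩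
      rintro (h | h)
      · rw [← hvs] at h
        obtain ⟨j, hj', h3⟩ := h
        exact hx1 j hj' h3.symm
      · rw [← huc] at h
        exact hx2 h
    rw [hF _ hj hji] at h2
    exact h2
  refine ⟨fun k => c ((k + i) % n), hvs, ⟨by omega, h1.1 V G X n i c hc hi, ?_, ?_, ?_⟩⟩
  · rw [huc]
    exact hU
  · intro x hx k hk1 hk hadj
    exact absurd hadj (hno x hx k hk1 hk)
  · intro x hx x' _ k hk1 hk hadj
    exact absurd hadj (hno x hx k hk1 hk)

end Pool.Agent.MPd439b2.HC
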