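import Pool.Agent.Lib.MP_d439b2_co.HC.SpecC

/-!
# MP_d439b2_co, HC, Part R, R1: if `U` is complete to `F` then `U + M` is one vertex
-/

set_option autoImplicit false

namespace Pool.Agent.MPd439b2.HC

open Pool.Agent.MPd439b2
open Pool.Agent.MPd439b2.BU

theorem qRst1 (h1 : S_SPb) : S_Rst1 := by
  intro V _ G X B F U M hS hR hUF
  obtain ⟨A, hAB, hA, hBA, B₁, hB₁, hcut⟩ := hR.cut
  have hBX : B ⊆ X := by
    rw [hR.cov]
    exact Set.subset_union_left
  have hUB : ∀ u ∈ U, ∀ b ∈ B, G.Adj u b := by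
    intro u hu b hb
    by_cases hbF : b ∈ F
    · exact hUF u hu b hbF
    · exact hR.UB u hu b hb hbF
  have h4 : 4 ≤ X.ncard := by
    have e1 : 1 < A.ncard :=
      Set.one_lt_ncard_iff_nontrivial.mpr (Set.not_subsingleton_iff.mp hA)
    have e2 : 1 < (B \ A).ncard :=
      Set.one_lt_ncard_iff_nontrivial.mpr (Set.not_subsingleton_iff.mp hBA)
    have e3 : (B \ A).ncard + A.ncard = B.ncard := Set.ncard_sdiff_add_ncard_of_subset hAB
    have e4 : B.ncard ≤ X.ncard := Set.ncard_le_ncard hBX (Set.toFinite X)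
    omega
  refine ⟨h4, ?_⟩
  have hout : ∀ x ∈ X, x ∉ B → x ∈ U ∨ x ∈ M := by
    intro x hx hxB
    rw [hR.cov] at hx
    rcases hx with hx | hx
    · exact absurd hx hxB
    · exact hx
  have hmod : Mod G X B := by
    refine ⟨hBX, fun y hy hyB a ha b hb hya => ?_⟩
    rcases hout y hy hyB with hyU | hyM
    · exact hUB y hyU b hb
    · exact absurd hya (hR.MB y hyM a ha)
  have hsub : (X \ B).Subsingleton := by
    rcases (h1 V G X hS h4).2.1 B hmod with h | h
    · exact absurd (h.anti hAB) hA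
    · exact h
  by_cases hU : U.Nonempty
  · obtain ⟨u, hu⟩ := hU
    have huB : u ∉ B := fun h => Set.disjoint_left.1 hR.dBU h hu
    have huX : u ∈ X := by
      rw [hR.cov]
      exact Or.inr (Or.inl hu)
    have hX : ∀ x ∈ X, x ≠ u → x ∈ B := by
      intro x hx hxu
      by_contra hxB
      exact hxu (hsub ⟨hx, hxB⟩ ⟨huX, huB⟩)
    refine ⟨u, hu, ?_, huX, fun x hx hxu => hUB u hu x (hX x hx hxu)⟩
    ext x
    constructor
    · intro hx
      by_cases hxu : x = u
      · exact Or.inl hxu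
      · exact Or.inr (hX x hx hxu)
    · rintro (rfl | hx)
      · exact huX
      · exact hBX hx
  · exfalso
    rw [Set.not_nonempty_iff_eq_empty] at hU
    refine hS A (X \ A) ⟨Set.union_sdiff_cancel (hAB.trans hBX), Set.disjoint_sdiff_right, hA,
      fun h => hBA (h.anti (Set.sdiff_subset_sdiff_left hBX)), A \ F, Set.sdiff_subset, B₁,
      hB₁.trans (Set.sdiff_subset_sdiff_left hBX), fun a ha b hb => ?_⟩
    by_cases hbB : b ∈ B
    · rw [hcut a ha b ⟨hbB, hb.2⟩]
      exact ⟨fun h => ⟨⟨ha, h.1⟩, h.2⟩, fun h => ⟨h.1.2, h.2⟩⟩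
    · constructor
      · intro hab
        rcases hout b hb.1 hbB with hbU | hbM
        · rw [hU] at hbU
          exact absurd hbU (Set.notMem_empty b)
        · exact absurd hab.symm (hR.MB b hbM a (hAB ha))
      · rintro ⟨_, hb₁⟩
        exact absurd (hB₁ hb₁).1 hbB

end Pool.Agent.MPd439b2.HC
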