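import Pool.Agent.Lib.MP_d439b2_co.HC.SpecC

/-!
# MP_d439b2_co, HC, R2: the rich graphs for `K4:0,1`
-/

set_option autoImplicit false

namespace Pool.Agent.MPd439b2.HC

open Pool.Agent.MPd439b2
open Pool.Agent.MPd439b2.BU

/-- **R2.** The rich graphs for `K4:0,1`. -/
theorem qRst2 (h1 : S_Rst1) : S_Rst2 := by
  intro V _ G X B F U M hP hR hU
  obtain ⟨h4, u, _, hX, hu⟩ := h1 V G X B F U M hP hR hU
  refine ⟨h4, u, hu, fun v hv hvu => ?_⟩
  have hvB : v ∈ B := by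
    rw [hX] at hv
    exact hv.resolve_left hvu
  obtain ⟨w, hw, hwv, hvw, hc⟩ := hR.cyc v hvB
  exact ⟨w, by rw [hX]; exact Or.inr hw, hwv, hvw, hc⟩

end Pool.Agent.MPd439b2.HC
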