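import Pool.Agent.Lib.MP_d439b2_co.HC.SpecC

/-!
# MP_d439b2_co, HC/QRst3: rich structures: U complete or anticomplete to F
-/

set_option autoImplicit false

namespace Pool.Agent.MPd439b2.HC

open Pool.Agent.MPd439b2
open Pool.Agent.MPd439b2.BU

namespace qRst3Aux

variable {V : Type} {G : SimpleGraph V} {X B F U M : Set V}

/-- a base pattern for a given `x ∈ F` -/
theorem bas (h : Rst G X B F U M) {x : V} (hx : x ∈ F) : ∃ y ∈ F, BasB G X B U x y := by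
  rcases h.bas x hx x hx with h1 | ⟨y, hy, h1, _⟩
  · obtain ⟨S, hS, _⟩ := h1
    exact (hS.ne rfl).elim
  · exact ⟨y, hy, h1⟩

theorem UX (h : Rst G X B F U M) {u : V} (hu : u ∈ U) : u ∈ X := by
  rw [h.cov]
  exact Or.inr (Or.inl hu)

theorem MX (h : Rst G X B F U M) {m : V} (hm : m ∈ M) : m ∈ X := by
  rw [h.cov]
  exact Or.inr (Or.inr hm)

end qRst3Aux

open qRst3Aux in
/-- **R3.** -/
theorem qRst3 (h1 : S_A1) (h2 : S_A2) (h3 : S_A3) : S_Rst3 := by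
  intro V _ G X B F U M r hr hH hf h
  -- `u ~ x ↔ u ~ x'`
  have key : ∀ u ∈ U, ∀ x ∈ F, ∀ x' ∈ F, (G.Adj u x ↔ G.Adj u x') := by
    intro u hu x hx x' hx'
    have e : ∀ a b, BasB G X B U a b → (G.Adj u a ↔ G.Adj u b) := by
      rintro a b ⟨S, hS, _, hful⟩
      exact h1 V G X S a b u r hr hH hf hS (UX h hu) (hful u hu)
    rcases h.bas x hx x' hx' with hb | ⟨y, _, hb, hb'⟩
    · exact e _ _ hb
    · exact (e _ _ hb).trans (e _ _ hb').symm
  have p1 : ∀ u ∈ U, u ∉ Ua G F U → ∀ x ∈ F, G.Adj u x := by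
    intro u hu hua x hx
    by_contra hux
    apply hua
    refine ⟨hu, fun x' hx' hux' => hux ((key u hu x hx x' hx').mpr hux')⟩
  have p2 : ∀ u ∈ U, u ∉ Ua G F U → ∀ u₀ ∈ Ua G F U, G.Adj u u₀ := by
    intro u hu hua u₀ hu₀
    obtain ⟨x, hx⟩ := h.ne
    obtain ⟨y, _, S, hS, _, hful⟩ := bas h hx
    exact h3 V G X S x y u u₀ hH hS (UX h hu) (hful u hu) (UX h hu₀.1) (hful u₀ hu₀.1)
      (p1 u hu hua x hx) (hu₀.2 x hx)
  refine ⟨p1, p2, ?_⟩
  intro u hu hua z hz Q hQ hQc hzQ htz hne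
  obtain ⟨u₀, hu₀Q, hu₀⟩ := hne
  obtain ⟨x, hx⟩ := h.ne
  obtain ⟨y, hy, S, hS, hSB, hful⟩ := bas h hx
  have hBQ : ∀ v ∈ B, v ∉ Q := by
    intro v hv hvQ
    rcases hQ hvQ with h4 | h4
    · exact Set.disjoint_left.mp h.dBU hv h4.1
    · exact Set.disjoint_left.mp h.dBM hv h4
  -- elements of `F` do not touch `Q`
  have hFQ : ∀ v ∈ F, ¬ Tch G {v} Q := by
    intro v hv ht
    obtain ⟨q, hq, hvq⟩ := tch_single_left.mp ht
    rcases hQ hq with h4 | h4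
    · exact h4.2 v hv hvq.symm
    · exact h.MB q h4 v (h.FB hv) hvq.symm
  have hzB : ∀ v ∈ B, z ≠ v := fun v hv hzv =>
    Set.disjoint_left.mp h.dBM hv (hzv ▸ hz)
  refine h2 V G X S x y u z Q r hr hH hf hS hQc ?_ ?_ (hBQ x (h.FB hx)) (hBQ y (h.FB hy))
    (hFQ x hx) (hFQ y hy) (UX h hu) (hful u hu) (p1 u hu hua x hx) (p1 u hu hua y hy) ?_ ?_
    (MX h hz) ?_ (hzB x (h.FB hx)) (hzB y (h.FB hy)) (h.MB z hz x (h.FB hx))
    (h.MB z hz y (h.FB hy)) hzQ htz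
  · intro q hq
    rcases hQ hq with h4 | h4
    · exact UX h h4.1
    · exact MX h h4
  · intro i hi
    constructor
    · rw [Set.disjoint_left]
      intro q hq hqS
      exact hBQ q (hSB i hi hqS) hq
    · exact (hful u₀ hu₀.1 i hi).2.mono (Set.singleton_subset_iff.mpr hu₀Q) subset_rfl
  · intro huQ
    rcases hQ huQ with h4 | h4
    · exact hua h4
    · exact Set.disjoint_left.mp h.dUM hu h4
  · exact tch_single_left.mpr ⟨u₀, hu₀Q, p2 u hu hua u₀ hu₀⟩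
  · intro i hi
    refine ⟨fun hzS => hzB z (hSB i hi hzS) rfl, fun ht => ?_⟩
    obtain ⟨b, hb, hzb⟩ := tch_single_left.mp ht
    exact h.MB z hz b (hSB i hi hb) hzb

end Pool.Agent.MPd439b2.HC
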