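import Pool.Agent.Lib.MP_d439b2_co.HC.SpecC

/-!
# MP_d439b2_co, HC: R5, the universal vertex of a rich structure (helper18)
-/

set_option autoImplicit false

namespace Pool.Agent.MPd439b2.HC

open Pool.Agent.MPd439b2
open Pool.Agent.MPd439b2.BU

namespace qRst4Aux

variable {V : Type} {G : SimpleGraph V} {X B F U M : Set V}

theorem ma_sub : Ma G F U M ⊆ M := by
  rintro z ⟨D, hD, _, hz, _⟩
  exact hD hz

theorem ua_sub : Ua G F U ⊆ U := fun _ h => h.1

theorem BX (R : Rst G X B F U M) : B ⊆ X := by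
  rw [R.cov]
  exact Set.subset_union_left

theorem UX (R : Rst G X B F U M) : U ⊆ X := by
  rw [R.cov]
  exact fun x hx => Or.inr (Or.inl hx)

theorem MX (R : Rst G X B F U M) : M ⊆ X := by
  rw [R.cov]
  exact fun x hx => Or.inr (Or.inr hx)

theorem four [Finite V] (R : Rst G X B F U M) : 4 ≤ X.ncard := by
  obtain ⟨A, hA, h1, h2, _⟩ := R.cut
  rw [Set.not_subsingleton_iff] at h1 h2
  have h3 : 1 < A.ncard := by
    rw [Set.one_lt_ncard (Set.toFinite _)]
    obtain ⟨a, ha, b, hb, hab⟩ := h1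
    exact ⟨a, ha, b, hb, hab⟩
  have h4 : 1 < (B \ A).ncard := by
    rw [Set.one_lt_ncard (Set.toFinite _)]
    obtain ⟨a, ha, b, hb, hab⟩ := h2
    exact ⟨a, ha, b, hb, hab⟩
  have h5 := Set.ncard_sdiff_add_ncard_of_subset hA (Set.toFinite _)
  have h6 := Set.ncard_le_ncard (BX R) (Set.toFinite _)
  omega

/-- some element of `U` is not anticomplete to `F` -/
theorem exU (hP : SPr G X) (R : Rst G X B F U M) : ∃ u ∈ U, u ∉ Ua G F U := by
  by_contra hc
  push Not at hc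
  obtain ⟨A, hA, h1, h2, B₁, hB₁, hadj⟩ := R.cut
  refine hP A (X \ A) ⟨?_, ?_, h1, ?_, A \ F, Set.sdiff_subset, B₁ ∪ U, ?_, ?_⟩
  · exact Set.union_sdiff_cancel (hA.trans (BX R))
  · exact Set.disjoint_sdiff_right
  · intro h
    exact h2 (h.anti (Set.sdiff_subset_sdiff_left (BX R)))
  · rintro x (hx | hx)
    · exact ⟨BX R (hB₁ hx).1, (hB₁ hx).2⟩
    · exact ⟨UX R hx, fun h => Set.disjoint_left.1 R.dBU (hA h) hx⟩
  · rintro a ha b ⟨hb, hbA⟩
    have hb' : b ∈ B ∨ b ∈ U ∨ b ∈ M := by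
      rw [R.cov] at hb
      exact hb
    rcases hb' with hb' | hb' | hb'
    · rw [hadj a ha b ⟨hb', hbA⟩]
      constructor
      · rintro ⟨h3, h4⟩
        exact ⟨⟨ha, h3⟩, Or.inl h4⟩
      · rintro ⟨h3, h4 | h4⟩
        · exact ⟨h3.2, h4⟩
        · exact absurd h4 (Set.disjoint_left.1 R.dBU hb')
    · constructor
      · intro h3
        refine ⟨⟨ha, fun h4 => ?_⟩, Or.inr hb'⟩
        exact (hc b hb').2 a h4 h3.symm
      · rintro ⟨h3, _⟩
        exact (R.UB b hb' a (hA ha) h3.2).symm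
    · constructor
      · intro h3
        exact absurd h3.symm (R.MB b hb' a (hA ha))
      · rintro ⟨_, h4 | h4⟩
        · exact absurd hb' (Set.disjoint_left.1 R.dBM (hB₁ h4).1)
        · exact absurd hb' (Set.disjoint_left.1 R.dUM h4)

end qRst4Aux

open qRst4Aux

theorem qRst4 (h1 : S_SPb) (h2 : S_Rst3) (h3 : S_Del) : S_Rst4 := by
  intro V _ G X B F U M r hr hH hrr hP R
  obtain ⟨r1', r2', r3'⟩ := h2 V G X B F U M r hr hH hrr R
  have h4 := four R
  refine ⟨h4, ?_⟩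
  obtain ⟨u, hu, hua⟩ := exU hP R
  have hco : ∀ y ∈ U, y ∉ Ua G F U → ∀ x ∈ B ∪ (Ua G F U ∪ Ma G F U M), G.Adj y x := by
    intro y hy hya x hx
    rcases hx with hx | hx | hx
    · by_cases hxF : x ∈ F
      · exact r1' y hy hya x hxF
      · exact R.UB y hy x hx hxF
    · exact r2' y hy hya x hx
    · obtain ⟨D, hD, hDc, hxD, d, hd, u₀, hu₀, hdu⟩ := hx
      have hc : Conn G (insert u₀ D) := hDc.insert ⟨d, hd, hdu⟩
      have hxu : u₀ ≠ x := by
        rintro rfl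
        exact Set.disjoint_left.1 R.dUM hu₀.1 (hD hxD)
      obtain ⟨Q, hQ, hQc, hu₀Q, hQt⟩ := h3 V G (insert u₀ D) u₀ x hc (Set.mem_insert _ _)
        (Set.mem_insert_of_mem _ hxD) hxu
      refine r3' y hy hya x (hD hxD) Q ?_ hQc (fun h => (hQ h).2 rfl) hQt ⟨u₀, hu₀Q, hu₀⟩
      intro z hz
      rcases (hQ hz).1 with rfl | h
      · exact Or.inl hu₀
      · exact Or.inr (hD h)
  have hac : ∀ y ∈ M, y ∉ Ma G F U M → ∀ x ∈ B ∪ (Ua G F U ∪ Ma G F U M), ¬ G.Adj y x := by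
    intro y hy hya x hx hyx
    rcases hx with hx | hx | hx
    · exact R.MB y hy x hx hyx
    · exact hya ⟨{y}, Set.singleton_subset_iff.2 hy, Conn.singleton G y, rfl, y, rfl, x, hx, hyx⟩
    · obtain ⟨D, hD, hDc, hxD, hDt⟩ := hx
      exact hya ⟨insert y D, Set.insert_subset hy hD, hDc.insert ⟨x, hxD, hyx.symm⟩,
        Set.mem_insert _ _, hDt.mono (Set.subset_insert _ _) subset_rfl⟩
  have hmod : Mod G X (B ∪ (Ua G F U ∪ Ma G F U M)) := by
    refine ⟨?_, ?_⟩
    · rintro x (hx | hx | hx)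
      · exact BX R hx
      · exact UX R hx.1
      · exact MX R (ma_sub hx)
    · intro y hy hyN a ha b hb hya
      rw [R.cov] at hy
      rcases hy with hy | hy | hy
      · exact absurd (Or.inl hy) hyN
      · exact hco y hy (fun h => hyN (Or.inr (Or.inl h))) b hb
      · exact absurd hya (hac y hy (fun h => hyN (Or.inr (Or.inr h))) a ha)
  have hsub : (X \ (B ∪ (Ua G F U ∪ Ma G F U M))).Subsingleton := by
    rcases (h1 V G X hP h4).2.1 _ hmod with h5 | h5
    · exfalso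
      obtain ⟨A, hA, h6, _⟩ := R.cut
      exact h6 (h5.anti (hA.trans Set.subset_union_left))
    · exact h5
  have huN : u ∈ X \ (B ∪ (Ua G F U ∪ Ma G F U M)) := by
    refine ⟨UX R hu, ?_⟩
    rintro (h | h | h)
    · exact Set.disjoint_left.1 R.dBU h hu
    · exact hua h
    · exact Set.disjoint_left.1 R.dUM hu (ma_sub h)
  have hall : ∀ x ∈ X, x ≠ u → x ∈ B ∪ (Ua G F U ∪ Ma G F U M) := by
    intro x hx hxu
    by_contra hc
    exact hxu (hsub ⟨hx, hc⟩ huN)
  exact ⟨u, hu, hua, ⟨UX R hu, fun x hx hxu => hco u hu hua x (hall x hx hxu)⟩, hall⟩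

end Pool.Agent.MPd439b2.HC
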