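import Pool.Agent.Lib.MP_d439b2_co.HC.SpecC

/-!
# MP_d439b2_co, HC: the rich graphs for `r1`, `r3`, `r6` (`S_Rst5`)
-/

set_option autoImplicit false

namespace Pool.Agent.MPd439b2.HC

open Pool.Agent.MPd439b2
open Pool.Agent.MPd439b2.BU

theorem qRst5 (hR3 : S_Rst3) (hR4 : S_Rst4) (hA1 : S_A1) (hA2 : S_A2) : S_Rst5 := by
  intro V _ G X B F U M r hr hH hr6 hS hR
  obtain ⟨k1, k2, _⟩ := hR3 V G X B F U M r hr hH hr6 hR
  obtain ⟨h4, u, huU, hua, huni, hall⟩ := hR4 V G X B F U M r hr hH hr6 hS hR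
  have hUX : U ⊆ X := by
    rw [hR.cov]
    exact fun x hx => Or.inr (Or.inl hx)
  have hMX : M ⊆ X := by
    rw [hR.cov]
    exact fun x hx => Or.inr (Or.inr hx)
  have hBX : B ⊆ X := by
    rw [hR.cov]
    exact fun x hx => Or.inl hx
  refine ⟨h4, u, huni, fun d c hd hc hcu hadj hH' hr' => ?_⟩
  by_cases hcB : c ∈ B
  · -- CASE 1
    obtain ⟨y, hy, S, hb, hSB, hful⟩ := hR.pen c hcB d hd hadj
    have h1 := hA1 V G (insert d X) S d y u r hr hH' hr' hb (Or.inr huni.1) (hful u huU)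
    have h2 : G.Adj u d := h1.2 (k1 u huU hua y hy)
    exact hcu ((hadj u huni.1).1 h2.symm).symm
  · -- CASE 2
    have hQ : ∃ Q ⊆ Ua G F U ∪ M, Conn G Q ∧ c ∈ Q ∧ ∃ u₀ ∈ Ua G F U, u₀ ∈ Q := by
      rcases hall c hc hcu with h | h | h
      · exact absurd h hcB
      · exact ⟨{c}, Set.singleton_subset_iff.2 (Or.inl h), Conn.singleton G c, rfl, c, h, rfl⟩
      · obtain ⟨D, hDM, hDc, hcD, a, ha, u₀, hu₀, hau⟩ := h
        refine ⟨insert u₀ D, ?_, hDc.insert ⟨a, ha, hau⟩, Or.inr hcD, u₀, hu₀, Or.inl rfl⟩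
        rintro z (rfl | hz)
        · exact Or.inl hu₀
        · exact Or.inr (hDM hz)
    obtain ⟨Q, hQs, hQc, hcQ, u₀, hu₀, hu₀Q⟩ := hQ
    obtain ⟨x, hx⟩ := hR.ne
    obtain ⟨y, hy, hBy⟩ : ∃ y ∈ F, BasB G X B U x y := by
      rcases hR.bas x hx x hx with h | ⟨y, hy, h, _⟩
      · obtain ⟨S, hb, _⟩ := h
        exact absurd rfl hb.ne
      · exact ⟨y, hy, h⟩
    obtain ⟨S, hb, hSB, hful⟩ := hBy
    have hQB : ∀ z ∈ Q, z ∉ B := by
      intro z hz hzB
      rcases hQs hz with h | h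
      · exact Set.disjoint_left.1 hR.dBU hzB h.1
      · exact Set.disjoint_left.1 hR.dBM hzB h
    have hQX : Q ⊆ X := by
      intro z hz
      rcases hQs hz with h | h
      · exact hUX h.1
      · exact hMX h
    have hQF : ∀ v ∈ F, ¬ Tch G {v} Q := by
      rintro v hv ⟨v', hv', q, hq, hvq⟩
      rw [Set.mem_singleton_iff] at hv'
      subst hv'
      rcases hQs hq with h | h
      · exact h.2 v' hv hvq.symm
      · exact hR.MB q h v' (hR.FB hv) hvq.symm
    have hxB := hR.FB hx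
    have hyB := hR.FB hy
    have h2 : G.Adj u d := by
      refine hA2 V G (insert d X) S x y u d Q r hr hH' hr' (hb.mono (Set.subset_insert d X)) hQc
        (hQX.trans (Set.subset_insert d X)) (fun i hi => ⟨?_, ?_⟩) (fun h => hQB x h hxB)
        (fun h => hQB y h hyB) (hQF x hx) (hQF y hy) (Or.inr huni.1) (hful u huU)
        (k1 u huU hua x hx) (k1 u huU hua y hy) ?_ ?_ (Or.inl rfl) (fun i hi => ⟨?_, ?_⟩) ?_ ?_ ?_ ?_
        ?_ ?_
      · rw [Set.disjoint_left]
        exact fun z hz hzS => hQB z hz (hSB i hi hzS)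
      · exact ((hful u₀ hu₀.1) i hi).2.mono (Set.singleton_subset_iff.2 hu₀Q) subset_rfl
      · intro h
        rcases hQs h with h | h
        · exact hua h
        · exact Set.disjoint_left.1 hR.dUM huU h
      · exact ⟨u, rfl, u₀, hu₀Q, k2 u huU hua u₀ hu₀⟩
      · exact fun h => hd (hBX (hSB i hi h))
      · rintro ⟨d', hd', s, hs, hds⟩
        rw [Set.mem_singleton_iff] at hd'
        subst hd'
        have : s = c := (hadj s (hBX (hSB i hi hs))).1 hds
        subst this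
        exact hcB (hSB i hi hs)
      · rintro rfl
        exact hd (hBX hxB)
      · rintro rfl
        exact hd (hBX hyB)
      · intro h
        exact hcB ((hadj x (hBX hxB)).1 h ▸ hxB)
      · intro h
        exact hcB ((hadj y (hBX hyB)).1 h ▸ hyB)
      · exact fun h => hd (hQX h)
      · exact ⟨d, rfl, c, hcQ, (hadj c hc).2 rfl⟩
    exact hcu ((hadj u huni.1).1 h2.symm).symm

end Pool.Agent.MPd439b2.HC
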