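import Pool.Agent.Lib.MP_d439b2_co.HC.SpecC

set_option autoImplicit false

namespace Pool.Agent.MPd439b2.HC

open Pool.Agent.MPd439b2 Pool.Agent.MPd439b2.BU

/-- **Z1.** Induced four-cycles and nonadjacent pairs in `UC` give two blocks. -/
theorem qZ1 (h1 : S_B2) : S_Z1 := by
  intro V _ G X
  refine ⟨?_, ?_⟩
  · intro q hq
    obtain ⟨hX, hinj, hadj⟩ := hq
    have h02 : q 0 ≠ q 2 := fun h => by
      have := hinj 0 (by norm_num) 2 (by norm_num) h
      omega
    have h13 : q 1 ≠ q 3 := fun h => by
      have := hinj 1 (by norm_num) 3 (by norm_num) h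
      omega
    have n02 : ¬ G.Adj (q 0) (q 2) := by
      rw [hadj 0 (by norm_num) 2 (by norm_num)]
      omega
    have n13 : ¬ G.Adj (q 1) (q 3) := by
      rw [hadj 1 (by norm_num) 3 (by norm_num)]
      omega
    have a01 : G.Adj (q 0) (q 1) := (hadj 0 (by norm_num) 1 (by norm_num)).2 (by omega)
    have a03 : G.Adj (q 0) (q 3) := (hadj 0 (by norm_num) 3 (by norm_num)).2 (by omega)
    have a21 : G.Adj (q 2) (q 1) := (hadj 2 (by norm_num) 1 (by norm_num)).2 (by omega)
    have a23 : G.Adj (q 2) (q 3) := (hadj 2 (by norm_num) 3 (by norm_num)).2 (by omega)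
    obtain ⟨W, hW, hM⟩ := h1 V G X {q 0, q 2} {q 1, q 3} (q 0) (q 2) (q 1) (q 3)
      (by
        rintro x (rfl | rfl)
        · exact hX 0 (by norm_num)
        · exact hX 2 (by norm_num))
      (by
        rintro x (rfl | rfl)
        · exact hX 1 (by norm_num)
        · exact hX 3 (by norm_num))
      (by
        rintro x (rfl | rfl) y (rfl | rfl)
        · exact a01
        · exact a03
        · exact a21
        · exact a23)
      (by simp) (by simp) h02 n02 (by simp) (by simp) h13 n13
    refine ⟨W, ?_, hM⟩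
    rintro x ⟨i, hi, rfl⟩
    apply hW
    have : i = 0 ∨ i = 1 ∨ i = 2 ∨ i = 3 := by omega
    rcases this with rfl | rfl | rfl | rfl
    · exact Or.inl (by simp)
    · exact Or.inr (by simp)
    · exact Or.inl (by simp)
    · exact Or.inr (by simp)
  · intro n c hn hc u hu u' hu' huu hnad
    obtain ⟨hX, hinj, hadj⟩ := hc
    have h02 : c 0 ≠ c 2 := fun h => by
      have := hinj 0 (by omega) 2 (by omega) h
      omega
    have n02 : ¬ G.Adj (c 0) (c 2) := by
      rw [hadj 0 (by omega) 2 (by omega)]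
      omega
    obtain ⟨W, hW, hM⟩ := h1 V G X {u, u'} (Vs n c) u u' (c 0) (c 2)
      (by
        rintro x (rfl | rfl)
        · exact hu.1
        · exact hu'.1)
      (by
        rintro x ⟨i, hi, rfl⟩
        exact hX i hi)
      (by
        rintro x (rfl | rfl) y ⟨i, hi, rfl⟩
        · exact hu.2 i hi
        · exact hu'.2 i hi)
      (by simp) (by simp) huu hnad ⟨0, by omega, rfl⟩ ⟨2, by omega, rfl⟩ h02 n02
    exact ⟨W, fun x hx => hW (Or.inr hx), hM⟩

end Pool.Agent.MPd439b2.HC
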