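import Pool.Agent.Lib.MP_d439b2_co.HC.SpecC

/-!
# MP_d439b2_co, HC: task QZ2, the classification for `r1`, `r3`, `r6` (helper62)
-/

set_option autoImplicit false

namespace Pool.Agent.MPd439b2.HC

open Pool.Agent.MPd439b2 Pool.Agent.MPd439b2.BU

theorem qZ2 (h1 : S_Z1) (h2 : S_B10) (h3 : S_Rst5) (h4 : S_H5) (h5 : S_H6) (h6 : S_Ear) : S_Z2 := by
  intro r hr k V _ G X hC hsp
  by_contra hcon
  obtain ⟨hc1, hc2⟩ := not_or.1 hcon
  have rich : ∀ B F U M : Set V, Rst G X B F U M → False := fun B F U M hR =>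
    hc2 (h3 V G X B F U M r hr hC.house hC.free hsp hR)
  have noW : ∀ W, ¬ MaxW G X W := by
    intro W hW
    obtain ⟨B, M, hR⟩ := h2 V G X W hC.house hsp hW
    exact rich _ _ _ _ hR
  apply hc1
  refine h6 V G X k ?_ hC.chb
  intro m q hm hq
  have hm5 : 5 ≤ m := by
    rcases Nat.lt_or_ge m 5 with h | h
    · have h8 : m = 4 := by omega
      subst h8
      obtain ⟨W, -, hW⟩ := (h1 V G X).1 q hq
      exact absurd hW (noW W)
    · exact h
  have hcl : ∀ u ∈ UC G X m q, ∀ u' ∈ UC G X m q, u ≠ u' → G.Adj u u' := by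
    intro u hu u' hu' hne
    by_contra hn
    obtain ⟨W, -, hW⟩ := (h1 V G X).2 m q hm hq u hu u' hu' hne hn
    exact noW W hW
  -- at most one of the sets is nonempty
  have hone : ∃ i < m, ∀ j < m, j ≠ i → FB G X (Vs m q ∪ UC G X m q) {q j} = ∅ := by
    by_cases hex : ∃ i < m, (FB G X (Vs m q ∪ UC G X m q) {q i}).Nonempty
    · obtain ⟨i, hi, hne⟩ := hex
      refine ⟨i, hi, fun j hj hji => ?_⟩
      by_contra hje
      obtain ⟨B, M, hR⟩ := h4 V G X m i j q hC.house hm5 hq hi hj (Ne.symm hji) hne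
        (Set.nonempty_iff_ne_empty.2 hje)
      exact rich _ _ _ _ hR
    · exact ⟨0, by omega, fun j hj _ => Set.not_nonempty_iff_eq_empty.1 fun h => hex ⟨j, hj, h⟩⟩
  obtain ⟨i, hi, hemp⟩ := hone
  exact h5 V G X m i q hm5 hq hi hcl hemp

end Pool.Agent.MPd439b2.HC
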