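import Pool.Agent.Lib.MP_d439b2_co.HC.SpecC

/-!
# MP_d439b2_co, HC: task QZ3, the classification for `r7` (helper62)
-/

set_option autoImplicit false

namespace Pool.Agent.MPd439b2.HC

open Pool.Agent.MPd439b2 Pool.Agent.MPd439b2.BU

namespace qZ3Aux

theorem vs_ncard {V : Type} {n : ℕ} {p : ℕ → V} (h : ∀ i < n, ∀ j < n, p i = p j → i = j) :
    (Vs n p).ncard = n := by
  have e : Vs n p = p '' (↑(Finset.range n) : Set ℕ) := by
    ext x
    constructor
    · rintro ⟨i, hi, rfl⟩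
      exact ⟨i, Finset.mem_coe.2 (Finset.mem_range.2 hi), rfl⟩
    · rintro ⟨i, hi, rfl⟩
      exact ⟨i, Finset.mem_range.1 (Finset.mem_coe.1 hi), rfl⟩
  rw [e, Set.ncard_image_of_injOn, Set.ncard_coe_finset, Finset.card_range]
  intro i hi j hj hij
  exact h i (Finset.mem_range.1 (Finset.mem_coe.1 hi)) j (Finset.mem_range.1 (Finset.mem_coe.1 hj)) hij

theorem opp {V : Type} {G : SimpleGraph V} {X : Set V} {q : ℕ → V} (hq : IC G X 4 q) {i : ℕ} (hi : i < 4) :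
    ∃ j < 4, j ≠ i ∧ ¬ G.Adj (q i) (q j) := by
  have h : ∀ j, j < 4 → (j = i + 2 ∨ j + 2 = i) → ∃ j < 4, j ≠ i ∧ ¬ G.Adj (q i) (q j) := by
    intro j hj hij
    refine ⟨j, hj, by omega, fun hadj => ?_⟩
    have := (hq.2.2 i hi j hj).1 hadj
    omega
  rcases Nat.lt_or_ge i 2 with h2 | h2
  · exact h (i + 2) (by omega) (Or.inl rfl)
  · exact h (i - 2) (by omega) (Or.inr (by omega))

end qZ3Aux

theorem qZ3 (h1 : S_Z1) (h2 : S_F10) (h3 : S_Rst2) (h4 : S_H5) (h5 : S_H6) (h6 : S_H7) (h7 : S_Ear) :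
    S_Z3 := by
  intro k V _ G X hC hsp
  by_contra hcon
  obtain ⟨hc1, hc2⟩ := not_or.1 hcon
  have hW : ∀ W, MaxW G X W → (∃ c, EarS G X 4 c ∧ W = Vs 4 c ∪ UW G W) ∧
      ∀ w ∈ W, ∀ s ∈ W, ∀ t ∈ W, s ≠ w → t ≠ w → ¬ G.Adj w s → ¬ G.Adj w t → s = t := fun W hW =>
    (h2 V G X W hC.house hC.free hsp hW).resolve_left hc2
  apply hc1
  refine h7 V G X k ?_ hC.chb
  intro m q hm hq
  rcases Nat.lt_or_ge m 5 with hm4 | hm5
  · have hm4' : m = 4 := by omega
    subst hm4'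
    obtain ⟨W, hqW, hW'⟩ := (h1 V G X).1 q hq
    obtain ⟨⟨c, hc, hWc⟩, -⟩ := hW W hW'
    have hsub : Vs 4 q ⊆ Vs 4 c := by
      rintro _ ⟨i, hi, rfl⟩
      have h8 : q i ∈ Vs 4 c ∪ UW G W := by
        rw [← hWc]
        exact hqW ⟨i, hi, rfl⟩
      rcases h8 with h8 | h8
      · exact h8
      · exfalso
        obtain ⟨j, hj, hji, hn⟩ := qZ3Aux.opp hq hi
        exact hn (h8.2 (q j) (hqW ⟨j, hj, rfl⟩) fun e => hji (hq.2.1 j hj i hi e))
    refine ⟨c, (Set.eq_of_subset_of_ncard_le hsub ?_ (Set.toFinite _)).symm, hc⟩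
    rw [qZ3Aux.vs_ncard hq.2.1, qZ3Aux.vs_ncard hc.ic.2.1]
  · have hcl : ∀ u ∈ UC G X m q, ∀ u' ∈ UC G X m q, u ≠ u' → G.Adj u u' := by
      intro u hu u' hu' hne
      by_contra hn
      obtain ⟨W, hqW, hW'⟩ := (h1 V G X).2 m q hm hq u hu u' hu' hne hn
      obtain ⟨-, hone⟩ := hW W hW'
      have hin : ∀ i < m, q i ∈ W := fun i hi => hqW ⟨i, hi, rfl⟩
      have e : q 2 = q 3 := by
        refine hone (q 0) (hin 0 (by omega)) (q 2) (hin 2 (by omega)) (q 3) (hin 3 (by omega)) ?_ ?_ ?_ ?_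
        · intro e
          have := hq.2.1 2 (by omega) 0 (by omega) e
          omega
        · intro e
          have := hq.2.1 3 (by omega) 0 (by omega) e
          omega
        · intro e
          have := (hq.2.2 0 (by omega) 2 (by omega)).1 e
          omega
        · intro e
          have := (hq.2.2 0 (by omega) 3 (by omega)).1 e
          omega
      have := hq.2.1 2 (by omega) 3 (by omega) e
      omega
    by_cases htwo : ∃ i < m, ∃ j < m, i ≠ j ∧ (FB G X (Vs m q ∪ UC G X m q) {q i}).Nonempty ∧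
        (FB G X (Vs m q ∪ UC G X m q) {q j}).Nonempty
    · obtain ⟨i, hi, j, hj, hij, hFi, hFj⟩ := htwo
      obtain ⟨B, M, hR⟩ := h4 V G X m i j q hC.house hm5 hq hi hj hij hFi hFj
      by_cases hc : ∀ u ∈ UC G X m q,
          ∀ b ∈ {x | ∃ i < m, x ∈ FB G X (Vs m q ∪ UC G X m q) {q i}}, G.Adj u b
      · exact absurd (h3 V G X B _ _ M hsp hR hc) hc2
      · push Not at hc
        obtain ⟨u, hu, x, ⟨i', hi', hx⟩, hux⟩ := hc
        obtain ⟨j', hj', hji', hFj'⟩ : ∃ j' < m, j' ≠ i' ∧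
            (FB G X (Vs m q ∪ UC G X m q) {q j'}).Nonempty := by
          by_cases e : i' = i
          · exact ⟨j, hj, fun e' => hij (e.symm.trans e'.symm), hFj⟩
          · exact ⟨i, hi, Ne.symm e, hFi⟩
        exact h6 V G X m i' q u x hC.house hC.free hsp hm5 hq hi' hcl ⟨j', hj', hji', hFj'⟩ hu hx hux
    · have hone : ∃ i < m, ∀ j < m, j ≠ i → FB G X (Vs m q ∪ UC G X m q) {q j} = ∅ := by
        by_cases hex : ∃ i < m, (FB G X (Vs m q ∪ UC G X m q) {q i}).Nonempty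
        · obtain ⟨i, hi, hne⟩ := hex
          refine ⟨i, hi, fun j hj hji => Set.not_nonempty_iff_eq_empty.1 fun h => ?_⟩
          exact htwo ⟨i, hi, j, hj, Ne.symm hji, hne, h⟩
        · exact ⟨0, by omega, fun j hj _ => Set.not_nonempty_iff_eq_empty.1 fun h => hex ⟨j, hj, h⟩⟩
      obtain ⟨i, hi, hemp⟩ := hone
      exact h5 V G X m i q hm5 hq hi hcl hemp

end Pool.Agent.MPd439b2.HC
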