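import Pool.Agent.Lib.MP_d439b2_co.HC.SpecS

/-!
# MP_d439b2_co, HC: layouts along a split with edges (`S_Comp`)
-/

set_option autoImplicit false

namespace Pool.Agent.MPd439b2.HC

open Pool.Agent.MPd439b2
open Pool.Agent.MPd439b2.BU

namespace s1Aux

variable {V : Type} {G : SimpleGraph V}

/-- one side of the split is contracted to a vertex -/
theorem rows_le {A B A₁ B₁ S : Set V} {a : V} (hd : Disjoint A B) (hA : A₁ ⊆ A) (ha : a ∈ A₁)
    (hadj : ∀ x ∈ A, ∀ y ∈ B, (G.Adj x y ↔ x ∈ A₁ ∧ y ∈ B₁)) (hS : S ⊆ B) :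
    (insert ∅ (Rw G (B ∪ A) S)).encard ≤ (insert ∅ (Rw G (B ∪ {a}) S)).encard := by
  have haB : a ∉ B := fun h => Set.disjoint_left.1 hd (hA ha) h
  have hsub : insert ∅ (Rw G (B ∪ A) S) ⊆
      (fun T : Set V => (T \ {a}) ∪ {z | z ∈ A₁ ∧ a ∈ T}) '' insert ∅ (Rw G (B ∪ {a}) S) := by
    rintro T (rfl | ⟨s, hs, rfl⟩)
    · refine ⟨∅, Or.inl rfl, ?_⟩
      ext z
      constructor
      · rintro (h | h)
        · exact h.1
        · exact h.2
      · intro h
        exact absurd h (Set.notMem_empty z)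
    · refine ⟨(G.neighborSet s ∩ (B ∪ {a})) \ S, Or.inr ⟨s, hs, rfl⟩, ?_⟩
      have hsB := hS hs
      have hiff : a ∈ (G.neighborSet s ∩ (B ∪ {a})) \ S ↔ s ∈ B₁ := by
        constructor
        · intro h
          have h1 : G.Adj s a := h.1.1
          exact ((hadj a (hA ha) s hsB).1 h1.symm).2
        · intro h
          exact ⟨⟨((hadj a (hA ha) s hsB).2 ⟨ha, h⟩).symm, Or.inr rfl⟩, fun h' => haB (hS h')⟩
      ext z
      constructor
      · rintro (⟨⟨⟨h1, h2⟩, h3⟩, h4⟩ | ⟨h1, h2⟩)
        · rcases h2 with h2 | h2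
          · exact ⟨⟨h1, Or.inl h2⟩, h3⟩
          · exact absurd h2 h4
        · have h3 := hiff.1 h2
          exact ⟨⟨((hadj z (hA h1) s hsB).2 ⟨h1, h3⟩).symm, Or.inr (hA h1)⟩,
            fun h' => Set.disjoint_left.1 hd (hA h1) (hS h')⟩
      · rintro ⟨⟨h1, h2⟩, h3⟩
        rcases h2 with h2 | h2
        · left
          exact ⟨⟨⟨h1, Or.inl h2⟩, h3⟩, fun h' => haB (by rw [← Set.mem_singleton_iff.mp h']; exact h2)⟩
        · right
          have h4 := (hadj z h2 s hsB).1 h1.symm
          exact ⟨h4.1, hiff.2 h4.2⟩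
  exact (Set.encard_le_encard hsub).trans (Set.encard_image_le _ _)

end s1Aux

open s1Aux in
/-- **S1.** Layouts along a split with edges. -/
theorem s1 : S_Comp := by
  classical
  intro V G A B A₁ B₁ a b a₀ k hd hA₁ hB₁ ha hb hadj ha₀ h1 h2
  have haB : a ∉ B := fun h => Set.disjoint_left.1 hd (hA₁ ha) h
  have hbA : b ∉ A := fun h => Set.disjoint_left.1 hd h (hB₁ hb)
  have hbB : b ∈ B := hB₁ hb
  have hba₀ : b ≠ a₀ := fun h => hbA (by rw [h]; exact ha₀)
  have hadj' : ∀ x ∈ B, ∀ y ∈ A, (G.Adj x y ↔ x ∈ B₁ ∧ y ∈ A₁) := by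
    intro x hx y hy
    rw [G.adj_comm, hadj y hy x hx]
    exact and_comm
  have hLB : RL0 G (A ∪ B) k B := by
    have h3 : (B ∪ {a}) \ {a} = B := by
      ext z
      constructor
      · rintro ⟨h | h, h'⟩
        · exact h
        · exact absurd h h'
      · intro h
        exact ⟨Or.inl h, fun h' => haB (by rw [← Set.mem_singleton_iff.mp h']; exact h)⟩
    rw [h3] at h2
    refine LT.mono' h2 (fun S hS hR => ?_)
    have h4 := rows_le (G := G) hd hA₁ ha hadj hS
    rw [Set.union_comm B A] at h4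
    exact h4.trans hR
  let F : V → Set V := fun y => if y = b then B else {y}
  have hFb : F b = B := if_pos rfl
  have hFn : ∀ y, y ≠ b → F y = {y} := fun y hy => if_neg hy
  have hYA : ∀ y ∈ (A ∪ {b}) \ {a₀}, y ≠ b → y ∈ A := by
    rintro y ⟨h | h, _⟩ hy
    · exact h
    · exact absurd h hy
  have hUn : (⋃ y ∈ (A ∪ {b}) \ {a₀}, F y) = (A ∪ B) \ {a₀} := by
    ext x
    rw [Set.mem_iUnion₂]
    constructor
    · rintro ⟨y, hy, hx⟩
      by_cases hyb : y = b
      · rw [hyb, hFb] at hx
        exact ⟨Or.inr hx, fun h => Set.disjoint_left.1 hd ha₀ (by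
          rw [← Set.mem_singleton_iff.mp h]; exact hx)⟩
      · rw [hFn y hyb] at hx
        rw [Set.mem_singleton_iff.mp hx]
        exact ⟨Or.inl (hYA y hy hyb), hy.2⟩
    · rintro ⟨h | h, hx⟩
      · have hxb : x ≠ b := fun h' => hbA (by rw [← h']; exact h)
        refine ⟨x, ⟨Or.inl h, hx⟩, ?_⟩
        rw [hFn x hxb]
        rfl
      · refine ⟨b, ⟨Or.inr rfl, hba₀⟩, ?_⟩
        rw [hFb]
        exact h
  change RL0 G (A ∪ B) k ((A ∪ B) \ {a₀})
  rw [← hUn]
  refine LT.exp h1 F ?_ ?_ ?_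
  · intro y hy z hz hyz
    by_cases hyb : y = b
    · have hzb : z ≠ b := fun h => hyz (hyb.trans h.symm)
      rw [hyb, hFb, hFn z hzb]
      exact Set.disjoint_singleton_right.2 (fun h => Set.disjoint_left.1 hd (hYA z hz hzb) h)
    · by_cases hzb : z = b
      · rw [hzb, hFb, hFn y hyb]
        exact Set.disjoint_singleton_left.2 (fun h => Set.disjoint_left.1 hd (hYA y hy hyb) h)
      · rw [hFn y hyb, hFn z hzb]
        exact Set.disjoint_singleton.2 hyz
  · intro y hy
    by_cases hyb : y = b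
    · rw [hyb, hFb]
      exact hLB
    · rw [hFn y hyb]
      exact LT.single y
  · intro S hS hR
    by_cases hbS : b ∈ S
    · have hmem : ∀ x, x ∈ (⋃ y ∈ S, F y) ↔ (x ∈ S ∧ x ≠ b) ∨ x ∈ B := by
        intro x
        rw [Set.mem_iUnion₂]
        constructor
        · rintro ⟨y, hy, hx⟩
          by_cases hyb : y = b
          · rw [hyb, hFb] at hx
            exact Or.inr hx
          · rw [hFn y hyb] at hx
            rw [Set.mem_singleton_iff.mp hx]
            exact Or.inl ⟨hy, hyb⟩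
        · rintro (⟨h, h'⟩ | h)
          · refine ⟨x, h, ?_⟩
            rw [hFn x h']
            rfl
          · refine ⟨b, hbS, ?_⟩
            rw [hFb]
            exact h
      have hout : ∀ x, (x ∈ A ∪ B ∧ x ∉ ⋃ y ∈ S, F y) ↔ (x ∈ A ∪ {b} ∧ x ∉ S) := by
        intro x
        rw [hmem]
        constructor
        · rintro ⟨h | h, h'⟩
          · refine ⟨Or.inl h, fun hx => h' (Or.inl ⟨hx, fun hxb => hbA (by rw [← hxb]; exact h)⟩)⟩
          · exact absurd (Or.inr h) h'
        · rintro ⟨h | h, h'⟩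
          · refine ⟨Or.inl h, ?_⟩
            rintro (⟨h3, _⟩ | h3)
            · exact h' h3
            · exact Set.disjoint_left.1 hd h h3
          · exact absurd (by rw [Set.mem_singleton_iff.mp h]; exact hbS) h'
      refine (Set.encard_le_encard ?_).trans hR
      rintro T (rfl | ⟨s, hs, rfl⟩)
      · exact Or.inl rfl
      · have hrow : (G.neighborSet s ∩ (A ∪ B)) \ (⋃ y ∈ S, F y) =
            (G.neighborSet s ∩ (A ∪ {b})) \ S := by
          ext x
          constructor
          · rintro ⟨⟨h3, h4⟩, h5⟩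
            obtain ⟨h6, h7⟩ := (hout x).1 ⟨h4, h5⟩
            exact ⟨⟨h3, h6⟩, h7⟩
          · rintro ⟨⟨h3, h4⟩, h5⟩
            obtain ⟨h6, h7⟩ := (hout x).2 ⟨h4, h5⟩
            exact ⟨⟨h3, h6⟩, h7⟩
        rcases (hmem s).1 hs with ⟨h3, _⟩ | h3
        · right
          exact ⟨s, h3, hrow⟩
        · by_cases hsB : s ∈ B₁
          · right
            refine ⟨b, hbS, ?_⟩
            rw [hrow]
            ext x
            constructor
            · rintro ⟨⟨h4, h5⟩, h6⟩
              refine ⟨⟨?_, h5⟩, h6⟩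
              rcases h5 with h5 | h5
              · have h7 := (hadj x h5 s h3).1 (G.adj_symm h4)
                exact ((hadj x h5 b hbB).2 ⟨h7.1, hb⟩).symm
              · exact absurd (by rw [Set.mem_singleton_iff.mp h5]; exact hbS) h6
            · rintro ⟨⟨h4, h5⟩, h6⟩
              refine ⟨⟨?_, h5⟩, h6⟩
              rcases h5 with h5 | h5
              · have h7 := (hadj x h5 b hbB).1 (G.adj_symm h4)
                exact ((hadj x h5 s h3).2 ⟨h7.1, hsB⟩).symm
              · exact absurd (by rw [Set.mem_singleton_iff.mp h5]; exact hbS) h6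
          · left
            rw [hrow, Set.eq_empty_iff_forall_notMem]
            rintro x ⟨⟨h4, h5⟩, h6⟩
            rcases h5 with h5 | h5
            · exact hsB ((hadj x h5 s h3).1 (G.adj_symm h4)).2
            · exact h6 (by rw [Set.mem_singleton_iff.mp h5]; exact hbS)
    · have hUS : (⋃ y ∈ S, F y) = S := by
        ext x
        rw [Set.mem_iUnion₂]
        constructor
        · rintro ⟨y, hy, hx⟩
          have hyb : y ≠ b := fun h => hbS (by rw [← h]; exact hy)
          rw [hFn y hyb] at hx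
          rw [Set.mem_singleton_iff.mp hx]
          exact hy
        · intro hx
          have hxb : x ≠ b := fun h => hbS (by rw [← h]; exact hx)
          refine ⟨x, hx, ?_⟩
          rw [hFn x hxb]
          rfl
      have hSA : S ⊆ A := fun x hx => hYA x (hS hx) (fun h => hbS (by rw [← h]; exact hx))
      change (insert ∅ (Rw G (A ∪ B) (⋃ y ∈ S, F y))).encard ≤ k
      rw [hUS]
      exact (rows_le (G := G) hd.symm hB₁ hb hadj' hSA).trans hR

end Pool.Agent.MPd439b2.HC
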