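import Pool.Agent.Lib.MP_d439b2_co.HC.SpecS

/-!
# MP_d439b2_co, HC, S2: layouts of disjoint unions
-/

set_option autoImplicit false

namespace Pool.Agent.MPd439b2.HC

open Pool.Agent.MPd439b2
open Pool.Agent.MPd439b2.BU

private theorem rw_left {V : Type} {G : SimpleGraph V} {A B S : Set V}
    (hn : ∀ x ∈ A, ∀ y ∈ B, ¬ G.Adj x y) (hS : S ⊆ A) : Rw G (A ∪ B) S = Rw G A S := by
  have key : ∀ a ∈ S, (G.neighborSet a ∩ (A ∪ B)) \ S = (G.neighborSet a ∩ A) \ S := by
    intro a ha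
    ext z
    constructor
    · rintro ⟨⟨hz, hz' | hz'⟩, hzS⟩
      · exact ⟨⟨hz, hz'⟩, hzS⟩
      · exact absurd hz (hn a (hS ha) z hz')
    · rintro ⟨⟨hz, hz'⟩, hzS⟩
      exact ⟨⟨hz, Or.inl hz'⟩, hzS⟩
  ext T
  constructor
  · rintro ⟨a, ha, rfl⟩
    exact ⟨a, ha, key a ha⟩
  · rintro ⟨a, ha, rfl⟩
    exact ⟨a, ha, (key a ha).symm⟩

private theorem lay_left {V : Type} {G : SimpleGraph V} {A B Z : Set V} {k : ℕ}
    (hn : ∀ x ∈ A, ∀ y ∈ B, ¬ G.Adj x y) (hZ : Z ⊆ A) (h : RL0 G A k Z) :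
    RL0 G (A ∪ B) k Z := by
  refine LT.mono' h fun S hS hR => ?_
  rw [rw_left hn (hS.trans hZ)]
  exact hR

theorem s2 : S_CompD := by
  intro V G A B a₀ b₀ k hk hd hn ha hb hA hB
  have hn' : ∀ x ∈ B, ∀ y ∈ A, ¬ G.Adj x y := fun x hx y hy h => hn y hy x hx h.symm
  have h1 : RL0 G (A ∪ B) k (A \ {a₀}) := lay_left hn Set.sdiff_subset hA
  have h2 : RL0 G (A ∪ B) k (B \ {b₀}) := by
    rw [Set.union_comm]
    exact lay_left hn' Set.sdiff_subset hB
  have h3 : RL0 G (A ∪ B) k B := by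
    have e : insert b₀ (B \ {b₀}) = B := by
      rw [Set.insert_sdiff_singleton, Set.insert_eq_of_mem hb]
    have h4 : LT (fun S => (insert ∅ (Rw G (A ∪ B) S)).encard ≤ k) (insert b₀ (B \ {b₀})) := by
      refine LT.insert h2 (fun h => h.2 rfl) ?_
      rw [e]
      have hsub : insert ∅ (Rw G (A ∪ B) B) ⊆ {∅} := by
        rintro T (rfl | ⟨b, hb', rfl⟩)
        · rfl
        · rw [Set.mem_singleton_iff, Set.eq_empty_iff_forall_notMem]
          rintro z ⟨⟨hz, hz' | hz'⟩, hzB⟩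
          · exact hn' b hb' z hz' hz
          · exact hzB hz'
      refine (Set.encard_le_encard hsub).trans ?_
      rw [Set.encard_singleton]
      exact_mod_cast (by omega : 1 ≤ k)
    rwa [e] at h4
  have hane : a₀ ∉ B := fun h => Set.disjoint_left.1 hd ha h
  have e : (A \ {a₀}) ∪ B = (A ∪ B) \ {a₀} := by
    ext z
    constructor
    · rintro (⟨hz, hz'⟩ | hz)
      · exact ⟨Or.inl hz, hz'⟩
      · refine ⟨Or.inr hz, fun h => ?_⟩
        rw [Set.mem_singleton_iff] at h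
        exact hane (h ▸ hz)
    · rintro ⟨hz | hz, hz'⟩
      · exact Or.inl ⟨hz, hz'⟩
      · exact Or.inr hz
  have h5 : LT (fun S => (insert ∅ (Rw G (A ∪ B) S)).encard ≤ k) ((A \ {a₀}) ∪ B) := by
    refine LT.union h1 h3 (hd.mono_left Set.sdiff_subset) ?_
    rw [e]
    have hsub : insert ∅ (Rw G (A ∪ B) ((A ∪ B) \ {a₀})) ⊆ {∅, {a₀}} := by
      rintro T (rfl | ⟨s, hs, rfl⟩)
      · exact Or.inl rfl
      · by_cases hsa : G.Adj s a₀
        · right
          rw [Set.mem_singleton_iff]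
          ext z
          constructor
          · rintro ⟨⟨_, hz⟩, hz'⟩
            by_contra hne
            exact hz' ⟨hz, hne⟩
          · intro hz
            rw [Set.mem_singleton_iff] at hz
            subst hz
            exact ⟨⟨hsa, Or.inl ha⟩, fun h => h.2 rfl⟩
        · left
          rw [Set.eq_empty_iff_forall_notMem]
          rintro z ⟨⟨hza, hz⟩, hz'⟩
          by_cases hne : z = a₀
          · subst hne
            exact hsa hza
          · exact hz' ⟨hz, hne⟩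
    refine (Set.encard_le_encard hsub).trans ((Set.encard_insert_le _ _).trans ?_)
    rw [Set.encard_singleton]
    have : ((1 : ℕ∞) + 1) = ((2 : ℕ) : ℕ∞) := by norm_num
    rw [this]
    exact_mod_cast hk
  rwa [e] at h5

end Pool.Agent.MPd439b2.HC
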