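import Pool.Agent.Lib.MP_d439b2_co.HC.SpecS

/-!
# MP_d439b2_co, HC: pieces of pieces (S3)
-/

set_option autoImplicit false

namespace Pool.Agent.MPd439b2.HC

open Pool.Agent.MPd439b2 Pool.Agent.MPd439b2.BU

namespace S3x

variable {V : Type} {G : SimpleGraph V} {X C F A B A₁ B₁ : Set V} {φ : V → V}

open Classical in
theorem part1 {b : V} (h : SR G X C φ F) (hun : A ∪ B = C) (hd : Disjoint A B)
    (hB₁ : B₁ ⊆ B) (hadj : ∀ x ∈ A, ∀ y ∈ B, (G.Adj x y ↔ x ∈ A₁ ∧ y ∈ B₁)) (hb : b ∈ B₁) :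
    ∃ φ' F', SR G X (A ∪ {b}) φ' F' := by
  have hAC : A ⊆ C := hun ▸ Set.subset_union_left
  have hBC : B ⊆ C := hun ▸ Set.subset_union_right
  have hbA : b ∉ A := fun h1 => Set.disjoint_left.mp hd h1 (hB₁ hb)
  have hfb : φ b = b := h.fix b (hBC (hB₁ hb))
  have inB : ∀ x ∈ X, φ x ∉ A → φ x ∈ B := by
    intro x hx hn
    have h1 := h.map x hx
    rw [← hun] at h1
    exact h1.resolve_left hn
  let φ' : V → V := fun x => if φ x ∈ A then φ x else b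
  have hp : ∀ x, φ x ∈ A → φ' x = φ x := fun x hx => if_pos hx
  have hn : ∀ x, φ x ∉ A → φ' x = b := fun x hx => if_neg hx
  let F' : Set V := {x | x ∈ F ∧ (φ x ∈ A ∨ φ x ∈ B₁)}
  have aux : ∀ x ∈ X, ∀ y ∈ X, φ x ∈ A → φ y ∉ A →
      (G.Adj x y ↔ x ∈ F' ∧ y ∈ F' ∧ G.Adj (φ x) b) := by
    intro x hx y hy hxA hyA
    have hne : φ x ≠ φ y := fun e => hyA (e ▸ hxA)
    rw [h.adj x hx y hy hne, hadj _ hxA _ (inB y hy hyA), hadj _ hxA b (hB₁ hb)]
    constructor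
    · rintro ⟨h1, h2, h3, h4⟩
      exact ⟨⟨h1, Or.inl hxA⟩, ⟨h2, Or.inr h4⟩, h3, hb⟩
    · rintro ⟨⟨h1, -⟩, ⟨h2, h4⟩, h3, -⟩
      exact ⟨h1, h2, h3, h4.resolve_left hyA⟩
  refine ⟨φ', F', ?_, fun x hx => h.FX hx.1, ?_, ?_, ?_⟩
  · rintro c (hc | hc)
    · exact ⟨h.cF (hAC hc), Or.inl (by rw [h.fix c (hAC hc)]; exact hc)⟩
    · rw [Set.mem_singleton_iff] at hc
      subst hc
      exact ⟨h.cF (hBC (hB₁ hb)), Or.inr (by rw [hfb]; exact hb)⟩
  · intro x _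
    by_cases hxA : φ x ∈ A
    · rw [hp x hxA]
      exact Or.inl hxA
    · rw [hn x hxA]
      exact Or.inr rfl
  · rintro c (hc | hc)
    · have h1 := h.fix c (hAC hc)
      rw [hp c (by rw [h1]; exact hc), h1]
    · rw [Set.mem_singleton_iff] at hc
      subst hc
      rw [hn c (by rw [hfb]; exact hbA)]
  · intro x hx y hy hne
    by_cases hxA : φ x ∈ A
    · by_cases hyA : φ y ∈ A
      · rw [hp x hxA, hp y hyA] at hne ⊢
        rw [h.adj x hx y hy hne]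
        constructor
        · rintro ⟨h1, h2, h3⟩
          exact ⟨⟨h1, Or.inl hxA⟩, ⟨h2, Or.inl hyA⟩, h3⟩
        · rintro ⟨⟨h1, -⟩, ⟨h2, -⟩, h3⟩
          exact ⟨h1, h2, h3⟩
      · rw [hp x hxA, hn y hyA]
        exact aux x hx y hy hxA hyA
    · by_cases hyA : φ y ∈ A
      · rw [hn x hxA, hp y hyA, G.adj_comm, aux y hy x hx hyA hxA, G.adj_comm]
        tauto
      · exact absurd (by rw [hn x hxA, hn y hyA]) hne

open Classical in
theorem part2 {a : V} (h : SR G X C φ F) (hun : A ∪ B = C)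
    (hno : ∀ x ∈ A, ∀ y ∈ B, ¬ G.Adj x y) (ha : a ∈ A) : ∃ φ' F', SR G X A φ' F' := by
  have hAC : A ⊆ C := hun ▸ Set.subset_union_left
  have inB : ∀ x ∈ X, φ x ∉ A → φ x ∈ B := by
    intro x hx hn
    have h1 := h.map x hx
    rw [← hun] at h1
    exact h1.resolve_left hn
  let φ' : V → V := fun x => if φ x ∈ A then φ x else a
  have hp : ∀ x, φ x ∈ A → φ' x = φ x := fun x hx => if_pos hx
  have hn : ∀ x, φ x ∉ A → φ' x = a := fun x hx => if_neg hx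
  let F' : Set V := {x | x ∈ F ∧ φ x ∈ A}
  have aux : ∀ x ∈ X, ∀ y ∈ X, φ x ∈ A → φ y ∉ A → ¬ G.Adj x y := by
    intro x hx y hy hxA hyA
    have hne : φ x ≠ φ y := fun e => hyA (e ▸ hxA)
    rw [h.adj x hx y hy hne]
    exact fun h1 => hno _ hxA _ (inB y hy hyA) h1.2.2
  refine ⟨φ', F', ?_, fun x hx => h.FX hx.1, ?_, ?_, ?_⟩
  · intro c hc
    exact ⟨h.cF (hAC hc), by rw [h.fix c (hAC hc)]; exact hc⟩
  · intro x _
    by_cases hxA : φ x ∈ A
    · rw [hp x hxA]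
      exact hxA
    · rw [hn x hxA]
      exact ha
  · intro c hc
    have h1 := h.fix c (hAC hc)
    rw [hp c (by rw [h1]; exact hc), h1]
  · intro x hx y hy hne
    by_cases hxA : φ x ∈ A
    · by_cases hyA : φ y ∈ A
      · rw [hp x hxA, hp y hyA] at hne ⊢
        rw [h.adj x hx y hy hne]
        constructor
        · rintro ⟨h1, h2, h3⟩
          exact ⟨⟨h1, hxA⟩, ⟨h2, hyA⟩, h3⟩
        · rintro ⟨⟨h1, -⟩, ⟨h2, -⟩, h3⟩
          exact ⟨h1, h2, h3⟩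
      · exact iff_of_false (aux x hx y hy hxA hyA) fun h1 => hyA h1.2.1.2
    · by_cases hyA : φ y ∈ A
      · exact iff_of_false (fun h1 => aux y hy x hx hyA hxA h1.symm) fun h1 => hxA h1.1.2
      · exact absurd (by rw [hn x hxA, hn y hyA]) hne

end S3x

theorem s3 : S_SR :=
  ⟨fun _ _ _ _ _ _ _ _ _ _ _ h hun hd _ hB₁ hadj hb => S3x.part1 h hun hd hB₁ hadj hb,
    fun _ _ _ _ _ _ _ _ _ h hun _ hno ha => S3x.part2 h hun hno ha⟩

end Pool.Agent.MPd439b2.HC
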