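import Pool.Agent.Lib.MP_d439b2_co.HC.SpecS

/-!
# MP_d439b2_co, HC: the induction over splits (S4)
-/

set_option autoImplicit false

namespace Pool.Agent.MPd439b2.HC

open Pool.Agent.MPd439b2 Pool.Agent.MPd439b2.BU

namespace S4x

variable {V : Type} {G : SimpleGraph V} {C A B : Set V}

theorem symm (h : Spl G C A B) : Spl G C B A := by
  obtain ⟨A₁, hA₁, B₁, hB₁, hadj⟩ := h.ex
  refine ⟨by rw [Set.union_comm]; exact h.un, h.dis.symm, h.nB, h.nA, B₁, hB₁, A₁, hA₁, ?_⟩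
  intro b hb a ha
  rw [G.adj_comm, hadj a ha b hb, and_comm]

/-- `A ∪ {b}` is smaller than `C` -/
theorem lt [Finite V] (hun : A ∪ B = C) (hd : Disjoint A B) (hB : ¬ B.Subsingleton) {b : V}
    (hb : b ∈ B) : (A ∪ {b}).ncard < C.ncard := by
  apply Set.ncard_lt_ncard _ (Set.toFinite C)
  rw [Set.ssubset_iff_subset_ne]
  refine ⟨?_, fun he => ?_⟩
  · rw [← hun]
    rintro x (hx | hx)
    · exact Or.inl hx
    · rw [Set.mem_singleton_iff] at hx
      subst hx
      exact Or.inr hb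
  · apply hB
    intro x hx y hy
    have key : ∀ z ∈ B, z = b := by
      intro z hz
      have h1 : z ∈ A ∪ {b} := by
        rw [he, ← hun]
        exact Or.inr hz
      rcases h1 with h1 | h1
      · exact absurd hz (Set.disjoint_left.mp hd h1)
      · exact h1
    rw [key x hx, key y hy]

/-- `A` is smaller than `C` -/
theorem lt' [Finite V] (hun : A ∪ B = C) (hd : Disjoint A B) (hB : ¬ B.Subsingleton) :
    A.ncard < C.ncard := by
  obtain ⟨b, hb⟩ : B.Nonempty := by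
    by_contra h
    rw [Set.not_nonempty_iff_eq_empty] at h
    exact hB (h ▸ Set.subsingleton_empty)
  exact (Set.ncard_le_ncard Set.subset_union_left (Set.toFinite _)).trans_lt (lt hun hd hB hb)

end S4x

open S4x in
theorem s4 (h1 : S_Comp) (h2 : S_CompD) (h3 : S_SR) : S_Split := by
  intro V _ G X k hk hbase
  have key : ∀ (n : ℕ) (C F : Set V) (φ : V → V), C.ncard = n → SR G X C φ F →
      ∀ a ∈ C, RL0 G C k (C \ {a}) := by
    intro n
    induction n using Nat.strong_induction_on with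
    | _ n ih =>
      intro C F φ hn hSR a ha
      by_cases hp : SPr G C
      · exact hbase C F φ hSR hp a ha
      obtain ⟨A, B, hs, haA⟩ : ∃ A B, Spl G C A B ∧ a ∈ A := by
        unfold SPr at hp
        push Not at hp
        obtain ⟨A, B, hs⟩ := hp
        have h4 : a ∈ A ∪ B := by rw [hs.un]; exact ha
        rcases h4 with h4 | h4
        · exact ⟨A, B, hs, h4⟩
        · exact ⟨B, A, symm hs, h4⟩
      obtain ⟨A₁, hA₁, B₁, hB₁, hadj⟩ := hs.ex
      have hun' : B ∪ A = C := by rw [Set.union_comm]; exact hs.un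
      have hadj' : ∀ x ∈ B, ∀ y ∈ A, (G.Adj x y ↔ x ∈ B₁ ∧ y ∈ A₁) := by
        intro x hx y hy
        rw [G.adj_comm, hadj y hy x hx, and_comm]
      by_cases hc : A₁.Nonempty ∧ B₁.Nonempty
      · obtain ⟨⟨a', ha'⟩, b', hb'⟩ := hc
        obtain ⟨φ₁, F₁, hSR₁⟩ := h3.1 V G X C F A B A₁ B₁ φ b' hSR hs.un hs.dis hA₁ hB₁ hadj hb'
        obtain ⟨φ₂, F₂, hSR₂⟩ := h3.1 V G X C F B A B₁ A₁ φ a' hSR hun' hs.dis.symm hB₁ hA₁ hadj'
          ha'
        have h5 := h1 V G A B A₁ B₁ a' b' a k hs.dis hA₁ hB₁ ha' hb' hadj haA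
          (ih _ (hn ▸ lt hs.un hs.dis hs.nB (hB₁ hb')) _ F₁ φ₁ rfl hSR₁ a (Or.inl haA))
          (ih _ (hn ▸ lt hun' hs.dis.symm hs.nA (hA₁ ha')) _ F₂ φ₂ rfl hSR₂ a' (Or.inr rfl))
        rwa [hs.un] at h5
      · have hno : ∀ x ∈ A, ∀ y ∈ B, ¬ G.Adj x y := by
          intro x hx y hy h4
          rw [hadj x hx y hy] at h4
          exact hc ⟨⟨x, h4.1⟩, y, h4.2⟩
        obtain ⟨b₀, hb₀⟩ : B.Nonempty := by
          by_contra h
          rw [Set.not_nonempty_iff_eq_empty] at h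
          exact hs.nB (h ▸ Set.subsingleton_empty)
        obtain ⟨φ₁, F₁, hSR₁⟩ := h3.2 V G X C F A B φ a hSR hs.un hs.dis hno haA
        obtain ⟨φ₂, F₂, hSR₂⟩ := h3.2 V G X C F B A φ b₀ hSR hun' hs.dis.symm
          (fun x hx y hy h => hno y hy x hx h.symm) hb₀
        have h5 := h2 V G A B a b₀ k hk hs.dis hno haA hb₀
          (ih _ (hn ▸ lt' hs.un hs.dis hs.nB) _ F₁ φ₁ rfl hSR₁ a haA)
          (ih _ (hn ▸ lt' hun' hs.dis.symm hs.nA) _ F₂ φ₂ rfl hSR₂ b₀ hb₀)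
        rwa [hs.un] at h5
  exact fun C F φ hSR a ha => key _ C F φ rfl hSR a ha

end Pool.Agent.MPd439b2.HC
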