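import Pool.Agent.Lib.MP_d439b2_co.HC.SpecS

/-!
# MP_d439b2_co, HC: the statement `S_Reroot` (changing the root of a layout)
-/

set_option autoImplicit false

namespace Pool.Agent.MPd439b2.HC

open Pool.Agent.MPd439b2
open Pool.Agent.MPd439b2.BU

namespace S5x

variable {V : Type} {G : SimpleGraph V} {X : Set V} {k : ℕ}

/-- few rows of `A` or few elements of `A`: few rows of the complement -/
theorem compl_rows [Finite V] (hk : 1 ≤ k) {A : Set V} (hA : A ⊆ X)
    (h : (insert ∅ (Rw G X A)).encard ≤ k ∨ A.Subsingleton) :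
    (insert ∅ (Rw G X (X \ A))).encard ≤ ((2 ^ k : ℕ) : ℕ∞) := by
  classical
  rcases h with h | h
  · have hfin : (Rw G X A).Finite := Set.toFinite _
    have h1 : (Rw G X A).ncard ≤ k := by
      have h2 : (Rw G X A).encard ≤ k :=
        (Set.encard_le_encard (Set.subset_insert _ _)).trans h
      rw [← hfin.cast_ncard_eq] at h2
      exact_mod_cast h2
    have hsub : insert ∅ (Rw G X (X \ A)) ⊆
        (fun 𝒯 : Set (Set V) => {a | a ∈ A ∧ (G.neighborSet a ∩ X) \ A ∈ 𝒯}) ''
          (𝒫 (Rw G X A)) := by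
      rintro T (rfl | ⟨y, hy, rfl⟩)
      · refine ⟨∅, Set.empty_subset _, ?_⟩
        ext a
        simp
      · refine ⟨{T | T ∈ Rw G X A ∧ y ∈ T}, fun T hT => hT.1, ?_⟩
        ext a
        constructor
        · rintro ⟨ha, -, ⟨h3, -⟩, -⟩
          exact ⟨⟨G.adj_symm h3, hA ha⟩, fun h4 => h4.2 ha⟩
        · rintro ⟨⟨h3, haX⟩, h4⟩
          have ha : a ∈ A := by
            by_contra hcon
            exact h4 ⟨haX, hcon⟩
          exact ⟨ha, ⟨a, ha, rfl⟩, ⟨G.adj_symm h3, hy.1⟩, hy.2⟩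
    have hfin2 : (𝒫 (Rw G X A)).Finite := Set.toFinite _
    calc (insert ∅ (Rw G X (X \ A))).encard
        ≤ ((fun 𝒯 : Set (Set V) => {a | a ∈ A ∧ (G.neighborSet a ∩ X) \ A ∈ 𝒯}) ''
          (𝒫 (Rw G X A))).encard := Set.encard_le_encard hsub
      _ ≤ (𝒫 (Rw G X A)).encard := Set.encard_image_le _ _
      _ = ((𝒫 (Rw G X A)).ncard : ℕ∞) := hfin2.cast_ncard_eq.symm
      _ = ((2 ^ (Rw G X A).ncard : ℕ) : ℕ∞) := by rw [Set.ncard_powerset _ hfin]
      _ ≤ ((2 ^ k : ℕ) : ℕ∞) := by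
        exact_mod_cast Nat.pow_le_pow_right (by norm_num) h1
  · have hsub : insert ∅ (Rw G X (X \ A)) ⊆ {∅, A} := by
      rintro T (rfl | ⟨y, hy, rfl⟩)
      · exact Or.inl rfl
      · have h1 : (G.neighborSet y ∩ X) \ (X \ A) ⊆ A := by
          rintro a ⟨⟨-, haX⟩, h4⟩
          by_contra hcon
          exact h4 ⟨haX, hcon⟩
        rcases Set.eq_empty_or_nonempty ((G.neighborSet y ∩ X) \ (X \ A)) with h2 | ⟨a, ha⟩
        · exact Or.inl h2
        · right
          refine Set.Subset.antisymm h1 fun b hb => ?_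
          rw [h hb (h1 ha)]
          exact ha
    have h2 : (({∅, A} : Set (Set V))).encard ≤ 2 :=
      (Set.encard_insert_le _ _).trans (by rw [Set.encard_singleton]; norm_num)
    have h3 : (2 : ℕ∞) ≤ ((2 ^ k : ℕ) : ℕ∞) := by
      have : 2 ^ 1 ≤ 2 ^ k := Nat.pow_le_pow_right (by norm_num) hk
      exact_mod_cast this
    exact (Set.encard_le_encard hsub).trans (h2.trans h3)

theorem top_rows {R : Set V → Prop} {A : Set V} (h : LT R A) : R A ∨ A.Subsingleton := by
  cases h with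
  | empty => exact Or.inr Set.subsingleton_empty
  | single v => exact Or.inr Set.subsingleton_singleton
  | union _ _ _ hr => exact Or.inl hr

theorem reroot [Finite V] (hk : 1 ≤ k) {A : Set V} (hA : RL0 G X k A) :
    A ⊆ X → RL0 G X (2 ^ k) (X \ A) → ∀ a ∈ A, RL0 G X (2 ^ k) (X \ {a}) := by
  induction hA with
  | empty =>
    intro _ _ a ha
    exact ha.elim
  | single v =>
    intro _ h a ha
    rw [Set.mem_singleton_iff.1 ha]
    exact h
  | @union A₁ A₂ h₁ h₂ hd hr ih₁ ih₂ =>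
    intro hX h a ha
    have hX1 : A₁ ⊆ X := Set.subset_union_left.trans hX
    have hX2 : A₂ ⊆ X := Set.subset_union_right.trans hX
    have hmono : ∀ {B : Set V}, RL0 G X k B → RL0 G X (2 ^ k) B := fun {B} hB =>
      RL0.mono (Nat.lt_two_pow_self).le hB
    rcases ha with ha | ha
    · refine ih₁ hX1 ?_ a ha
      have e1 : X \ A₁ = (X \ (A₁ ∪ A₂)) ∪ A₂ := by
        ext z
        constructor
        · rintro ⟨hz, hz1⟩
          by_cases hz2 : z ∈ A₂
          · exact Or.inr hz2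
          · exact Or.inl ⟨hz, fun h => h.elim hz1 hz2⟩
        · rintro (⟨hz, hz1⟩ | hz)
          · exact ⟨hz, fun h => hz1 (Or.inl h)⟩
          · exact ⟨hX2 hz, fun h => Set.disjoint_left.1 hd h hz⟩
      have hR := compl_rows (G := G) hk hX1 (top_rows h₁)
      rw [e1] at hR ⊢
      exact LT.union h (hmono h₂) (Set.disjoint_left.2 fun z hz hz2 => hz.2 (Or.inr hz2)) hR
    · refine ih₂ hX2 ?_ a ha
      have e1 : X \ A₂ = (X \ (A₁ ∪ A₂)) ∪ A₁ := by
        ext z
        constructor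
        · rintro ⟨hz, hz1⟩
          by_cases hz2 : z ∈ A₁
          · exact Or.inr hz2
          · exact Or.inl ⟨hz, fun h => h.elim hz2 hz1⟩
        · rintro (⟨hz, hz1⟩ | hz)
          · exact ⟨hz, fun h => hz1 (Or.inr h)⟩
          · exact ⟨hX1 hz, fun h => Set.disjoint_left.1 hd hz h⟩
      have hR := compl_rows (G := G) hk hX2 (top_rows h₂)
      rw [e1] at hR ⊢
      exact LT.union h (hmono h₁) (Set.disjoint_left.2 fun z hz hz2 => hz.2 (Or.inl hz2)) hR

end S5x

theorem s5 : S_Reroot := by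
  intro V _ G X k hk h a ha
  refine S5x.reroot hk h subset_rfl ?_ a ha
  rw [Set.sdiff_self]
  exact LT.empty

end Pool.Agent.MPd439b2.HC
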