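import Pool.Agent.Lib.MP_d439b2_co.HC.SpecS

/-!
# Universal vertices and layouts
-/

namespace Pool.Agent.MPd439b2.HC

open Pool.Agent.MPd439b2 Pool.Agent.MPd439b2.BU

private theorem s6_row {V : Type} {G : SimpleGraph V} {X : Set V} {u : V} (hu : Uni G X u)
    {S : Set V} (hS : S ⊆ X \ {u}) :
    Rw G X S ⊆ (fun T => T ∪ {u}) '' Rw G (X \ {u}) S := by
  rintro T ⟨a, ha, rfl⟩
  refine ⟨(G.neighborSet a ∩ (X \ {u})) \ S, ⟨a, ha, rfl⟩, ?_⟩
  have haX := hS ha
  have hadj : G.Adj u a := hu.2 a haX.1 haX.2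
  ext x
  constructor
  · rintro (⟨⟨h1, h2⟩, h3⟩ | h)
    · exact ⟨⟨h1, h2.1⟩, h3⟩
    · rw [Set.mem_singleton_iff] at h
      subst h
      exact ⟨⟨hadj.symm, hu.1⟩, fun h => (hS h).2 rfl⟩
  · rintro ⟨⟨h1, h2⟩, h3⟩
    by_cases h : x = u
    · exact Or.inr h
    · exact Or.inl ⟨⟨h1, h2, h⟩, h3⟩

theorem s6 : S_UniL := by
  intro V G X u k hu hL
  have h1 : LT (fun B => (insert ∅ (Rw G X B)).encard ≤ ((k + 1 : ℕ) : ℕ∞)) (X \ {u}) := by
    refine LT.mono' hL fun B hB hR => ?_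
    calc (insert ∅ (Rw G X B)).encard ≤ (Rw G X B).encard + 1 := Set.encard_insert_le _ _
      _ ≤ (insert ∅ (Rw G (X \ {u}) B)).encard + 1 := by
          refine add_le_add_left ?_ 1
          calc (Rw G X B).encard ≤ ((fun T => T ∪ {u}) '' Rw G (X \ {u}) B).encard :=
                Set.encard_le_encard (s6_row hu hB)
            _ ≤ (Rw G (X \ {u}) B).encard := Set.encard_image_le _ _
            _ ≤ _ := Set.encard_le_encard (Set.subset_insert _ _)
      _ ≤ (k : ℕ∞) + 1 := add_le_add_left hR 1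
      _ = ((k + 1 : ℕ) : ℕ∞) := by push_cast; rfl
  have h2 : insert u (X \ {u}) = X := by
    rw [Set.insert_sdiff_singleton, Set.insert_eq_of_mem hu.1]
  have h3 := LT.insert h1 (v := u) (fun h => h.2 rfl) (by
    rw [h2]
    have h4 : insert ∅ (Rw G X X) ⊆ {(∅ : Set V)} := by
      rintro T (rfl | ⟨a, _, rfl⟩)
      · rfl
      · rw [Set.mem_singleton_iff, Set.sdiff_eq_empty]
        exact Set.inter_subset_right
    calc (insert ∅ (Rw G X X)).encard ≤ ({(∅ : Set V)} : Set (Set V)).encard :=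
          Set.encard_le_encard h4
      _ = ((1 : ℕ) : ℕ∞) := by rw [Set.encard_singleton]; rfl
      _ ≤ ((k + 1 : ℕ) : ℕ∞) := by exact_mod_cast (by omega : 1 ≤ k + 1))
  rw [h2] at h3
  exact h3

end Pool.Agent.MPd439b2.HC
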