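import Pool.Agent.Lib.MP_d439b2_co.HC.SpecS

/-!
# MP_d439b2_co, HC: only split-prime pieces matter (`S_SplitMain`)
-/

set_option autoImplicit false

namespace Pool.Agent.MPd439b2.HC

open Pool.Agent.MPd439b2
open Pool.Agent.MPd439b2.BU

/-- **S7.** Only split-prime pieces matter. -/
theorem s7 (h4 : S_Split) (h5 : S_Reroot) : S_SplitMain := by
  intro V _ G X k hk h
  rcases X.eq_empty_or_nonempty with rfl | ⟨a, ha⟩
  · exact LT.empty
  · have hSR : SR G X X id X :=
      ⟨subset_rfl, subset_rfl, fun x hx => hx, fun _ _ => rfl,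
        fun x hx y hy _ => ⟨fun h => ⟨hx, hy, h⟩, fun h => h.2.2⟩⟩
    have h2k : 2 ≤ 2 ^ k := by
      calc 2 = 2 ^ 1 := rfl
        _ ≤ 2 ^ k := Nat.pow_le_pow_right (by norm_num) hk
    have h6 : RL0 G X (2 ^ k) (X \ {a}) :=
      h4 V G X (2 ^ k) h2k (fun C F φ hC hP b hb => h5 V G C k hk (h C F φ hC hP) b hb) X X id hSR a ha
    have hins : insert a (X \ {a}) = X := by
      rw [Set.insert_sdiff_singleton, Set.insert_eq_of_mem ha]
    have hR : (insert ∅ (Rw G X X)).encard ≤ ((2 ^ k : ℕ) : ℕ∞) := by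
      have hsub : insert ∅ (Rw G X X) ⊆ {∅} := by
        rintro T (rfl | ⟨s, _, rfl⟩)
        · rfl
        · rw [Set.mem_singleton_iff, Set.eq_empty_iff_forall_notMem]
          rintro x ⟨⟨_, h1⟩, h2⟩
          exact h2 h1
      refine (Set.encard_le_encard hsub).trans ?_
      rw [Set.encard_singleton]
      exact_mod_cast Nat.one_le_two_pow
    have h7 := LT.insert (R := fun B => (insert ∅ (Rw G X B)).encard ≤ ((2 ^ k : ℕ) : ℕ∞)) (v := a) h6
      (fun h => h.2 rfl) (by
        rw [hins]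
        exact hR)
    rw [hins] at h7
    exact h7

end Pool.Agent.MPd439b2.HC
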