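import Pool.Agent.Lib.MP_d439b2_co.HC.SpecS

/-!
# MP_d439b2_co, HC: basic properties of split-prime sets (S8)
-/

set_option autoImplicit false

namespace Pool.Agent.MPd439b2.HC

open Pool.Agent.MPd439b2 Pool.Agent.MPd439b2.BU

namespace S8x

variable {V : Type} [Finite V] {G : SimpleGraph V} {X : Set V}

omit [Finite V] in
theorem modules (hX : SPr G X) {M : Set V} (hM : Mod G X M) :
    M.Subsingleton ∨ (X \ M).Subsingleton := by
  by_contra hc
  rw [not_or] at hc
  refine hX (X \ M) M ⟨?_, Set.disjoint_sdiff_left, hc.2, hc.1,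
    {y | y ∈ X \ M ∧ ∃ m ∈ M, G.Adj y m}, fun y hy => hy.1, M, subset_rfl, ?_⟩
  · exact Set.sdiff_union_of_subset hM.1
  · intro a ha b hb
    constructor
    · intro h
      exact ⟨⟨ha, b, hb, h⟩, hb⟩
    · rintro ⟨⟨-, m, hm, h⟩, -⟩
      exact hM.2 a ha.1 ha.2 m hm b hb h

theorem nsub (h4 : 4 ≤ X.ncard) (c b : V) : ¬ (X \ {c, b}).Subsingleton := by
  intro h
  have h1 : (X \ {c, b}).ncard ≤ 1 := Set.ncard_le_one_iff_subsingleton.2 h
  have h2 : X.ncard ≤ (X \ {c, b}).ncard + ({c, b} : Set V).ncard := by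
    refine (Set.ncard_le_ncard ?_ (Set.toFinite _)).trans (Set.ncard_union_le _ _)
    rw [Set.sdiff_union_self]
    exact Set.subset_union_left
  have h3 : ({c, b} : Set V).ncard ≤ 2 := by
    refine (Set.ncard_insert_le _ _).trans ?_
    rw [Set.ncard_singleton]
  omega

/-- there is no isolated vertex -/
theorem iso (hX : SPr G X) (h4 : 4 ≤ X.ncard) {c : V} (hc : c ∈ X)
    (h : ∀ y ∈ X, ¬ G.Adj c y) : False := by
  obtain ⟨b, hb, hbc⟩ : ∃ b ∈ X, b ≠ c := by
    by_contra hn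
    push Not at hn
    have h1 : X ⊆ {c} := fun x hx => hn x hx
    have h2 := Set.ncard_le_ncard h1 (Set.toFinite _)
    rw [Set.ncard_singleton] at h2
    omega
  refine hX {c, b} (X \ {c, b}) ⟨?_, Set.disjoint_sdiff_right, ?_, nsub h4 c b, {b}, ?_,
    {y | y ∈ X \ {c, b} ∧ G.Adj b y}, fun y hy => hy.1, ?_⟩
  · rw [Set.union_sdiff_self]
    refine Set.union_eq_self_of_subset_left ?_
    rintro x (hx | hx)
    · rw [hx]; exact hc
    · rw [Set.mem_singleton_iff] at hx
      rw [hx]; exact hb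
  · intro hs
    exact hbc (hs (Or.inr rfl) (Or.inl rfl))
  · intro x hx
    exact Or.inr hx
  · intro a ha y hy
    rcases ha with ha | ha
    · subst ha
      refine iff_of_false (h y hy.1) fun h1 => ?_
      exact hbc (Set.mem_singleton_iff.mp h1.1).symm
    · rw [Set.mem_singleton_iff] at ha
      subst ha
      exact ⟨fun h1 => ⟨rfl, hy, h1⟩, fun h1 => h1.2.2⟩

theorem conn (hX : SPr G X) (h4 : 4 ≤ X.ncard) : Conn G X := by
  by_contra hc
  have hne : X.Nonempty := by
    rw [← Set.ncard_pos]; omega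
  obtain ⟨C, hC, hcc, hCX, hnb⟩ := exists_comp_of_not_conn hne hc
  have hno : ∀ c ∈ C, ∀ y ∈ X \ C, ¬ G.Adj c y := fun c hc y hy h =>
    hnb y hy.1 ⟨hy.2, c, hc, h⟩
  by_cases h1 : C.Subsingleton
  · obtain ⟨c, hc⟩ := hcc.1
    refine iso hX h4 (hC hc) fun y hy h => ?_
    by_cases hyC : y ∈ C
    · exact h.ne (h1 hc hyC)
    · exact hno c hc y ⟨hy, hyC⟩ h
  · by_cases h2 : (X \ C).Subsingleton
    · obtain ⟨d, hd⟩ : (X \ C).Nonempty := by
        by_contra h3
        rw [Set.not_nonempty_iff_eq_empty, Set.sdiff_eq_empty] at h3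
        exact hCX (Set.Subset.antisymm hC h3)
      refine iso hX h4 hd.1 fun y hy h => ?_
      by_cases hyC : y ∈ C
      · exact hno y hyC d hd h.symm
      · exact h.ne (h2 hd ⟨hy, hyC⟩)
    · refine hX C (X \ C) ⟨?_, Set.disjoint_sdiff_right, h1, h2, ∅, Set.empty_subset _, ∅,
        Set.empty_subset _, ?_⟩
      · rw [Set.union_sdiff_self]
        exact Set.union_eq_self_of_subset_left hC
      · intro a ha b hb
        exact iff_of_false (hno a ha b hb) fun h => h.1

theorem uni (hX : SPr G X) (h4 : 4 ≤ X.ncard) {u : V} (hu : Uni G X u) : Conn G (X \ {u}) := by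
  by_contra hc
  have hne : (X \ {u}).Nonempty := by
    by_contra h
    rw [Set.not_nonempty_iff_eq_empty, Set.sdiff_eq_empty] at h
    have h2 := Set.ncard_le_ncard h (Set.toFinite _)
    rw [Set.ncard_singleton] at h2
    omega
  obtain ⟨C, hC, hcc, hCX, hnb⟩ := exists_comp_of_not_conn hne hc
  have hno : ∀ c ∈ C, ∀ y ∈ (X \ {u}) \ C, ¬ G.Adj c y := fun c hc y hy h =>
    hnb y hy.1 ⟨hy.2, c, hc, h⟩
  obtain ⟨d, hd⟩ : ((X \ {u}) \ C).Nonempty := by
    by_contra h3
    rw [Set.not_nonempty_iff_eq_empty, Set.sdiff_eq_empty] at h3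
    exact hCX (Set.Subset.antisymm hC h3)
  obtain ⟨c, hc⟩ := hcc.1
  have hmC : Mod G X C := by
    refine ⟨fun x hx => (hC hx).1, fun y hy hyC a ha b hb hya => ?_⟩
    by_cases hyu : y = u
    · subst hyu
      exact hu.2 b (hC hb).1 (hC hb).2
    · exact absurd hya.symm (hno a ha y ⟨⟨hy, hyu⟩, hyC⟩)
  have hmD : Mod G X ((X \ {u}) \ C) := by
    refine ⟨fun x hx => hx.1.1, fun y hy hyC a ha b hb hya => ?_⟩
    by_cases hyu : y = u
    · subst hyu
      exact hu.2 b hb.1.1 hb.1.2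
    · have hyC' : y ∈ C := by
        by_contra h
        exact hyC ⟨⟨hy, hyu⟩, h⟩
      exact absurd hya (hno y hyC' a ha)
  have huC : u ∉ C := fun h => (hC h).2 rfl
  have h1 : C.Subsingleton := by
    refine (modules hX hmC).resolve_right fun hs => ?_
    exact hd.1.2 (hs ⟨hd.1.1, hd.2⟩ ⟨hu.1, huC⟩)
  have h2 : ((X \ {u}) \ C).Subsingleton := by
    refine (modules hX hmD).resolve_right fun hs => ?_
    have h3 : c ∈ X \ ((X \ {u}) \ C) := ⟨(hC hc).1, fun h => h.2 hc⟩
    have h5 : u ∈ X \ ((X \ {u}) \ C) := ⟨hu.1, fun h => h.1.2 rfl⟩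
    exact (hC hc).2 (hs h3 h5)
  have h3 : X ⊆ ({u} ∪ C) ∪ ((X \ {u}) \ C) := by
    intro x hx
    by_cases hxu : x = u
    · exact Or.inl (Or.inl hxu)
    · by_cases hxC : x ∈ C
      · exact Or.inl (Or.inr hxC)
      · exact Or.inr ⟨⟨hx, hxu⟩, hxC⟩
  have h5 := Set.ncard_le_ncard h3 (Set.toFinite _)
  have h6 := Set.ncard_union_le ({u} ∪ C) ((X \ {u}) \ C)
  have h7 := Set.ncard_union_le {u} C
  rw [Set.ncard_singleton] at h7
  have h8 : C.ncard ≤ 1 := Set.ncard_le_one_iff_subsingleton.2 h1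
  have h9 : ((X \ {u}) \ C).ncard ≤ 1 := Set.ncard_le_one_iff_subsingleton.2 h2
  omega

end S8x

open S8x in
theorem s8 : S_SPb := by
  intro V _ G X hX h4
  refine ⟨conn hX h4, fun M hM => modules hX hM, fun u hu => uni hX h4 hu, fun u u' hu hu' => ?_⟩
  by_contra hne
  have hm : Mod G X {u, u'} := by
    refine ⟨?_, fun y hy hyC a ha b hb _ => ?_⟩
    · rintro x (hx | hx)
      · rw [hx]; exact hu.1
      · rw [Set.mem_singleton_iff] at hx
        rw [hx]; exact hu'.1
    · have h1 : y ≠ u := fun h => hyC (Or.inl h)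
      have h2 : y ≠ u' := fun h => hyC (Or.inr h)
      rcases hb with hb | hb
      · rw [hb]; exact (hu.2 y hy h1).symm
      · rw [Set.mem_singleton_iff] at hb
        rw [hb]; exact (hu'.2 y hy h2).symm
  rcases modules hX hm with h | h
  · exact hne (h (Or.inl rfl) (Or.inr rfl))
  · exact nsub h4 u u' h

end Pool.Agent.MPd439b2.HC
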