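import Pool.Agent.Lib.MP_d439b2_co.HC.SpecS

/-!
# MP_d439b2_co, HC: S9, isomorphisms (helper50)
-/

set_option autoImplicit false

namespace Pool.Agent.MPd439b2.HC

open Pool.Agent.MPd439b2
open Pool.Agent.MPd439b2.BU

private theorem s9_rows {V : Type} {G : SimpleGraph V} {C : Set V} {σ : V ≃ V}
    (h : ∀ x ∈ C, ∀ y ∈ C, (G.Adj (σ x) (σ y) ↔ G.Adj x y)) {A : Set V} (hA : A ⊆ σ '' C) :
    insert ∅ (Rw G C (σ ⁻¹' A)) ⊆ (fun T => σ ⁻¹' T) '' insert ∅ (Rw G (σ '' C) A) := by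
  intro T hT
  rcases hT with rfl | ⟨a, ha, rfl⟩
  · exact ⟨∅, Or.inl rfl, Set.preimage_empty⟩
  · refine ⟨(G.neighborSet (σ a) ∩ (σ '' C)) \ A, Or.inr ⟨σ a, ha, rfl⟩, ?_⟩
    have haC : a ∈ C := by
      obtain ⟨c, hc, hca⟩ := hA ha
      rw [← σ.injective hca]
      exact hc
    ext x
    constructor
    · rintro ⟨⟨hx1, y, hy, hyx⟩, hx2⟩
      have hyx' := σ.injective hyx
      rw [hyx'] at hy
      exact ⟨⟨(h a haC x hy).mp hx1, hy⟩, hx2⟩
    · rintro ⟨⟨hx1, hx3⟩, hx2⟩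
      exact ⟨⟨(h a haC x hx3).mpr hx1, x, hx3, rfl⟩, hx2⟩

private theorem s9_lt {V : Type} {G : SimpleGraph V} {C : Set V} {σ : V ≃ V} {k : ℕ}
    (h : ∀ x ∈ C, ∀ y ∈ C, (G.Adj (σ x) (σ y) ↔ G.Adj x y)) {A : Set V}
    (hL : LT (fun B => (insert ∅ (Rw G (σ '' C) B)).encard ≤ k) A) (hA : A ⊆ σ '' C) :
    LT (fun B => (insert ∅ (Rw G C B)).encard ≤ k) (σ ⁻¹' A) := by
  induction hL with
  | empty => exact LT.empty
  | single v =>
    have h1 : σ ⁻¹' {v} = {σ.symm v} := by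
      ext x
      exact ⟨fun hx => (σ.eq_symm_apply).mpr hx, fun hx => (σ.eq_symm_apply).mp hx⟩
    rw [h1]
    exact LT.single _
  | @union A B _ _ hd hR ihA ihB =>
    rw [Set.preimage_union]
    refine LT.union (ihA (Set.subset_union_left.trans hA)) (ihB (Set.subset_union_right.trans hA))
      (hd.preimage _) ?_
    rw [← Set.preimage_union]
    exact (Set.encard_le_encard (s9_rows h hA)).trans ((Set.encard_image_le _ _).trans hR)

/-- **S9.** Isomorphisms. -/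
theorem s9 : S_Iso := by
  intro V G C σ h
  have hpre : σ ⁻¹' (σ '' C) = C := Set.preimage_image_eq C σ.injective
  refine ⟨?_, ?_⟩
  · intro hC A B hAB
    have hAC : ∀ a, σ a ∈ A → a ∈ C := by
      intro a ha
      rw [← hpre]
      have : σ a ∈ A ∪ B := Or.inl ha
      rw [hAB.un] at this
      exact this
    have hBC : ∀ a, σ a ∈ B → a ∈ C := by
      intro a ha
      rw [← hpre]
      have : σ a ∈ A ∪ B := Or.inr ha
      rw [hAB.un] at this
      exact this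
    obtain ⟨A₁, hA₁, B₁, hB₁, hex⟩ := hAB.ex
    refine hC (σ ⁻¹' A) (σ ⁻¹' B) ⟨?_, hAB.dis.preimage _, ?_, ?_, σ ⁻¹' A₁,
      Set.preimage_mono hA₁, σ ⁻¹' B₁, Set.preimage_mono hB₁, ?_⟩
    · rw [← Set.preimage_union, hAB.un, hpre]
    · intro hs
      apply hAB.nA
      rw [← Set.image_preimage_eq A σ.surjective]
      exact hs.image _
    · intro hs
      apply hAB.nB
      rw [← Set.image_preimage_eq B σ.surjective]
      exact hs.image _
    · intro a ha b hb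
      rw [← h a (hAC a ha) b (hBC b hb)]
      exact hex (σ a) ha (σ b) hb
  · intro k hk
    have h1 := s9_lt h hk le_rfl
    rw [hpre] at h1
    exact h1

end Pool.Agent.MPd439b2.HC
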