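import Pool.Agent.Lib.MP_d439b2_co.HC.EMainN
import Pool.Agent.Lib.MP_d439b2_co.HC.E1
import Pool.Agent.Lib.MP_d439b2_co.HC.E2
import Pool.Agent.Lib.MP_d439b2_co.HC.E3
import Pool.Agent.Lib.MP_d439b2_co.HC.E4
import Pool.Agent.Lib.MP_d439b2_co.HC.E5
import Pool.Agent.Lib.MP_d439b2_co.HC.E6
import Pool.Agent.Lib.MP_d439b2_co.HC.E7
import Pool.Agent.Lib.MP_d439b2_co.HC.E8
import Pool.Agent.Lib.MP_d439b2_co.HC.E9
import Pool.Agent.Lib.MP_d439b2_co.HC.E10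
import Pool.Agent.Lib.MP_d439b2_co.HC.E11
import Pool.Agent.Lib.MP_d439b2_co.HC.S1
import Pool.Agent.Lib.MP_d439b2_co.HC.S2
import Pool.Agent.Lib.MP_d439b2_co.HC.S3
import Pool.Agent.Lib.MP_d439b2_co.HC.S4
import Pool.Agent.Lib.MP_d439b2_co.HC.S5
import Pool.Agent.Lib.MP_d439b2_co.HC.S6
import Pool.Agent.Lib.MP_d439b2_co.HC.S7
import Pool.Agent.Lib.MP_d439b2_co.HC.S8
import Pool.Agent.Lib.MP_d439b2_co.HC.S9
import Pool.Agent.Lib.MP_d439b2_co.HC.S10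
import Pool.Agent.Lib.MP_d439b2_co.HC.D1
import Pool.Agent.Lib.MP_d439b2_co.HC.D2
import Pool.Agent.Lib.MP_d439b2_co.HC.D3
import Pool.Agent.Lib.MP_d439b2_co.HC.D4
import Pool.Agent.Lib.MP_d439b2_co.HC.D5
import Pool.Agent.Lib.MP_d439b2_co.HC.D6
import Pool.Agent.Lib.MP_d439b2_co.HC.D7
import Pool.Agent.Lib.MP_d439b2_co.HC.D8
import Pool.Agent.Lib.MP_d439b2_co.HC.D9
import Pool.Agent.Lib.MP_d439b2_co.HC.D10
import Pool.Agent.Lib.MP_d439b2_co.HC.D11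
import Pool.Agent.Lib.MP_d439b2_co.HC.D12
import Pool.Agent.Lib.MP_d439b2_co.HC.D13
import Pool.Agent.Lib.MP_d439b2_co.HC.D14
import Pool.Agent.Lib.MP_d439b2_co.HC.D15
import Pool.Agent.Lib.MP_d439b2_co.HC.D16
import Pool.Agent.Lib.MP_d439b2_co.HC.D17
import Pool.Agent.Lib.MP_d439b2_co.HC.Main
import Pool.Agent.Lib.MP_d439b2_co.BU.B5
import Pool.Agent.Lib.MP_d439b2_co.BU.R3
import Pool.Agent.Lib.MP_d439b2_co.HC.QA1
import Pool.Agent.Lib.MP_d439b2_co.HC.QA2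
import Pool.Agent.Lib.MP_d439b2_co.HC.QA3
import Pool.Agent.Lib.MP_d439b2_co.HC.QA4
import Pool.Agent.Lib.MP_d439b2_co.HC.QA5
import Pool.Agent.Lib.MP_d439b2_co.HC.QA6
import Pool.Agent.Lib.MP_d439b2_co.HC.QB1
import Pool.Agent.Lib.MP_d439b2_co.HC.QB10
import Pool.Agent.Lib.MP_d439b2_co.HC.QB2
import Pool.Agent.Lib.MP_d439b2_co.HC.QB3
import Pool.Agent.Lib.MP_d439b2_co.HC.QB4
import Pool.Agent.Lib.MP_d439b2_co.HC.QB6
import Pool.Agent.Lib.MP_d439b2_co.HC.QB7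
import Pool.Agent.Lib.MP_d439b2_co.HC.QB8
import Pool.Agent.Lib.MP_d439b2_co.HC.QB9
import Pool.Agent.Lib.MP_d439b2_co.HC.QDel
import Pool.Agent.Lib.MP_d439b2_co.HC.QF1
import Pool.Agent.Lib.MP_d439b2_co.HC.QF10
import Pool.Agent.Lib.MP_d439b2_co.HC.QF2
import Pool.Agent.Lib.MP_d439b2_co.HC.QF3
import Pool.Agent.Lib.MP_d439b2_co.HC.QF4
import Pool.Agent.Lib.MP_d439b2_co.HC.QF5
import Pool.Agent.Lib.MP_d439b2_co.HC.QF6
import Pool.Agent.Lib.MP_d439b2_co.HC.QF7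
import Pool.Agent.Lib.MP_d439b2_co.HC.QF8
import Pool.Agent.Lib.MP_d439b2_co.HC.QF9
import Pool.Agent.Lib.MP_d439b2_co.HC.QFB
import Pool.Agent.Lib.MP_d439b2_co.HC.QFa
import Pool.Agent.Lib.MP_d439b2_co.HC.QH1
import Pool.Agent.Lib.MP_d439b2_co.HC.QH2
import Pool.Agent.Lib.MP_d439b2_co.HC.QH3
import Pool.Agent.Lib.MP_d439b2_co.HC.QH4
import Pool.Agent.Lib.MP_d439b2_co.HC.QH5
import Pool.Agent.Lib.MP_d439b2_co.HC.QH6
import Pool.Agent.Lib.MP_d439b2_co.HC.QH7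
import Pool.Agent.Lib.MP_d439b2_co.HC.QRst1
import Pool.Agent.Lib.MP_d439b2_co.HC.QRst2
import Pool.Agent.Lib.MP_d439b2_co.HC.QRst3
import Pool.Agent.Lib.MP_d439b2_co.HC.QRst4
import Pool.Agent.Lib.MP_d439b2_co.HC.QRst5
import Pool.Agent.Lib.MP_d439b2_co.HC.QZ1
import Pool.Agent.Lib.MP_d439b2_co.HC.QZ2
import Pool.Agent.Lib.MP_d439b2_co.HC.QZ3

/-!
# MP_d439b2_co, HC: the house column, without hypotheses
-/

set_option autoImplicit false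

namespace Pool.Agent.MPd439b2.HC

open Pool.Agent.MPd439b2

theorem ear' : S_Ear :=
  earN (e5' e1 (e4 e1 e2 (e3 e1 e2))) (e6 e1) (e7 e1)
    (e11 (e6 e1) (e8 e1 (e6 e1)) (e9 e1 (e6 e1)) (e10 e1 (e6 e1)))

theorem spm' : S_SplitMain := s7 (s4 s1 s2 s3) s5

theorem d6' : S_D6 := d6 s8 d1 (d2 s8 d1) d4

theorem d8' : S_D8 := d8 s8 d1 d3 d5 d6' (d7 s8 d1 d3 d5 d6' d4) d4

theorem d12' : S_D12 := d12 d6' (d9 s8 d8') (d10 s8 d6') (d11 s8 d1 d3 d4)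

theorem asmP' : S_AsmP := d13 spm' s8 (s10 s9) (d2 s8 d1) s6

theorem asm7' : S_Asm7 := d14 spm' s8 (s10 s9) (d2 s8 d1) s6 d12'

theorem rst2' : S_Rst2 := qRst2 (qRst1 s8)

theorem rst3' : S_Rst3 := qRst3 qA1 qA2 qA3

theorem rst5' : S_Rst5 := qRst5 rst3' (qRst4 s8 rst3' qDel) qA1 qA2

theorem b3' : S_B3 := qB3 qB1

theorem b4' : S_B4 := qB4 qB1 b3'

theorem b6' : S_B6 := qB6 qB1 s8 qFB

theorem b7' : S_B7 := qB7 qB1 b3' qFB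

theorem b8' : S_B8 := qB8 qB1 b4' qFB

theorem b9' : S_B9 := qB9 qB1 b4' qFB b6' b7' b8'

theorem b10' : S_B10 := qB10 qB1 b4' qFB b6' b9'

theorem a6' : S_A6 := qA6 qA5

theorem h1' : S_H1 := qH1 BU.b5

theorem h2' : S_H2 := qH2 h1'

theorem h3' : S_H3 := qH3 BU.b5

theorem h4' : S_H4 := qH4 h2' h3' qFB

theorem h5' : S_H5 := qH5 h2' h4' qFB qDel

theorem h6' : S_H6 := qH6 BU.b5

theorem h7' : S_H7 := qH7 h2' h4' qFB qDel s8 qA4 qA5 BU.b5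

theorem f1' : S_F1 := qF1 qB1 b4' qFB b7' b8' qA4

theorem f2' : S_F2 := qF2 qB1 b4' qFB b8' f1'

theorem f3' : S_F3 := qF3 qB1 b4' qFB f1' f2' qA5

theorem f4' : S_F4 := qF4 qB1 b4' qFB f1' f2' f3' a6'

theorem f5' : S_F5 := qF5 qB1 b3' b4' qFB b6' b7' s8 f3' f4'

theorem f6' : S_F6 := qF6 qB1 qFB b4' b6' s8 f3' f4'

theorem f7' : S_F7 := qF7 qB1 b4' qFB b6' s8 f3' f4'

theorem f8' : S_F8 := qF8 qB1 b3' b4' qFB b6' s8 f1' f3' f4'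

theorem f9' : S_F9 := qF9 qB1 b3' b4' qFB f1' f3' f4' f8'

theorem f10' : S_F10 := qF10 b10' rst2' f5' f6' f7' f9'

theorem z1' : S_Z1 := qZ1 qB2

theorem z2' : S_Z2 := qZ2 z1' b10' rst5' h5' h6' ear'

theorem z3' : S_Z3 := qZ3 z1' f10' rst2' h5' h6' h7' ear'

/-- **THEOREM (house column).** -/
theorem houseColumnF : S_HouseColumn :=
  houseColumn z2' z3' asmP' asm7' d15 d16 d17 BU.r3

end Pool.Agent.MPd439b2.HC
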