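import Pool.Agent.Lib.MP_d439b2_co.HC.SpecS
import Pool.Agent.Lib.MP_d439b2_co.B.SpecG

/-!
# MP_d439b2_co, HC: Part D, rich graphs, depth lemma, assembly (helper22, note 2654, section 4)

Every `S_...` is a statement to be proved in its own file; the docstring contains the complete proof.
-/

set_option autoImplicit false

namespace Pool.Agent.MPd439b2.HC

open Pool.Agent.MPd439b2
open Pool.Agent.MPd439b2.BU

/-- **D1.** Full vertices in the fibres.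

Proof. (1) `path` (B/Path.lean) in `X` from `{z}` to `F` (`F ∩ X` is nonempty since `∅ ≠ C ⊆ F`): `r 0 = z, ..., r l`,
`r i ∈ F` only for `i = l`.  For `i < l`: `r i ∉ F`, `r i ~ r (i+1)`, so `φ (r i) = φ (r (i+1))` by `SR.adj`.  So all
`φ (r i) = φ z`.  `P = {r i | i ≤ l}` is connected (induction on `l`, `Conn.insert`), `f = r l`.
(2) `z ∉ F`: `1 ≤ l`; `d = r (l-1)`, `f = r l`. -/
def S_Full : Prop := ∀ (V : Type) (G : SimpleGraph V) (X C F : Set V) (φ : V → V), SR G X C φ F →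
  Conn G X → ∀ z ∈ X,
    (∃ (P : Set V) (f : V), Conn G P ∧ z ∈ P ∧ P ⊆ {y | y ∈ X ∧ φ y = φ z} ∧ f ∈ P ∧ f ∈ F) ∧
    (z ∉ F → ∃ d f, d ∈ X ∧ d ∉ F ∧ φ d = φ z ∧ f ∈ F ∧ φ f = φ z ∧ G.Adj d f)

/-- **D2.** Pendant vertices.  (Uses `S_SPb`, `S_Full`.)

Proof. `M = {x ∈ X \ {u} | φ x ≠ u'}` contains `C \ {u'}` (at least two elements), `X \ M` contains `u` and `u'`
(`φ u' = u'`, `u' ≠ u`).  By `S_SPb` (b) `M` is not a module of `G[X]`: there are `y ∈ X \ M`, `a, b ∈ M`, `y ~ a`,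
`y` not `~ b`.  `y ≠ u` (`Uni`, `b ≠ u`), so `φ y = u'`.  `SR.adj` for `y, a`: `y ∈ F`.  For `y, b`:
`φ y = u' ≠ φ b`, `u' ~ φ b` (`Uni G C u'`), `y ∈ F`, so `b ∉ F`.  `Conn G (X \ {u})` by `S_SPb` (c).  `S_Full` (2)
for `z = b`. -/
def S_Pend : Prop := ∀ (V : Type) [Finite V] (G : SimpleGraph V) (X C F : Set V) (φ : V → V) (u u' : V),
  SPr G X → 4 ≤ X.ncard → Uni G X u → SR G (X \ {u}) C φ F → 3 ≤ C.ncard → Uni G C u' →
    ∃ d f, d ∈ X \ {u} ∧ d ∉ F ∧ f ∈ F ∧ φ f ≠ u' ∧ φ d = φ f ∧ G.Adj d f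

/-- three connected, pairwise disjoint, pairwise touching subsets of `Q`, the first one contains `q` -/
structure Tri {V : Type} (G : SimpleGraph V) (Q : Set V) (q : V) (A B C : Set V) : Prop where
  qA : q ∈ A
  sA : A ⊆ Q
  sB : B ⊆ Q
  sC : C ⊆ Q
  cA : Conn G A
  cB : Conn G B
  cC : Conn G C
  AB : Disjoint A B
  AC : Disjoint A C
  BC : Disjoint B C
  tAB : Tch G A B
  tAC : Tch G A C
  tBC : Tch G B C

/-- **D3.** Rooted triangles.

Proof. `path` in `Q` from `{q}` to `{p i | i < n}`: `r 0 = q, ..., r l = p j`, `r i` is not on the cycle for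
`i < l`.  By rotation (`BU.b5 : S_B5`, first part, in BU/B5.lean) we may assume `j = 0`.  `A = {r i | i ≤ l}`,
`B = {p 1}`, `C = {p i | 2 ≤ i < n}` (`2 < n`); connected by induction; `A` touches `B` (`p 0 ~ p 1`) and `C`
(`p 0 ~ p (n-1)`), `B` touches `C` (`p 1 ~ p 2`). -/
def S_Tri : Prop := ∀ (V : Type) (G : SimpleGraph V) (Q : Set V) (q : V) (n : ℕ) (p : ℕ → V),
  Conn G Q → q ∈ Q → 4 ≤ n → IC G Q n p → ∃ A B C, Tri G Q q A B C

/-- **D4.** Models of `K4:0,1`: the clique `A B C D`, `P` on `A`, `Q` on `B`.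

Proof. `S = fun i => if i = 0 then A else if i = 1 then B else if i = 2 then C else if i = 3 then D else
if i = 4 then P else Q`; `SP G Z 6 S r7`: `interval_cases i`, `interval_cases j`, the values of `r7` by
`decide` (as `bullS` in BU/Defs.lean). -/
def S_M7 : Prop := ∀ (V : Type) (G : SimpleGraph V) (Z A B C D P Q : Set V),
  (A ⊆ Z ∧ B ⊆ Z ∧ C ⊆ Z ∧ D ⊆ Z ∧ P ⊆ Z ∧ Q ⊆ Z) →
  (Conn G A ∧ Conn G B ∧ Conn G C ∧ Conn G D ∧ Conn G P ∧ Conn G Q) →
  (Disjoint A B ∧ Disjoint A C ∧ Disjoint A D ∧ Disjoint A P ∧ Disjoint A Q) →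
  (Disjoint B C ∧ Disjoint B D ∧ Disjoint B P ∧ Disjoint B Q) →
  (Disjoint C D ∧ Disjoint C P ∧ Disjoint C Q ∧ Disjoint D P ∧ Disjoint D Q ∧ Disjoint P Q) →
  (Tch G A B ∧ Tch G A C ∧ Tch G A D ∧ Tch G B C ∧ Tch G B D ∧ Tch G C D ∧ Tch G A P ∧ Tch G B Q) →
  (¬ Tch G A Q ∧ ¬ Tch G B P ∧ ¬ Tch G C P ∧ ¬ Tch G C Q ∧ ¬ Tch G D P ∧ ¬ Tch G D Q ∧ ¬ Tch G P Q) →
    ¬ SPF G Z 6 r7

/-- the set `A`, with `b` replaced by the set `P` -/
def Lf {V : Type} (b : V) (P A : Set V) : Set V := {y | (y ∈ A ∧ y ≠ b) ∨ (b ∈ A ∧ y ∈ P)}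

/-- **D5.** Replacing a vertex of a piece by a connected part of its fibre.

Proof. `g ∈ P`, `g ∈ F`, `φ g = b`: for `y ∈ C`, `y ≠ b`: `φ y = y ≠ φ g`, so `g ~ y ↔ b ~ y` (`SR.adj`).
`P ∩ C ⊆ {b}` (`y ∈ P ∩ C`: `y = φ y = b`).
(1) If `b ∉ A`, `Lf b P A = A`.  Let `b ∈ A`, `S ⊆ Lf b P A` nonempty, `≠ Lf b P A`; we need an edge from `S` to
`Lf b P A \ S`.  If `P ∩ S` is nonempty and `≠ P`: `Conn G P`.  Otherwise `P ⊆ S` or `P ∩ S = ∅`; put
`S' = {y ∈ S | y ∈ A, y ≠ b} ∪ {y | y = b ∧ P ⊆ S}`; it is a nonempty subset of `A`, `≠ A`; so there is an edge `v w`,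
`v ∈ S'`, `w ∈ A \ S'`.  If `v, w ≠ b`: done.  If `v = b`: `g w` is the edge (`g ∈ P ⊆ S`).  If `w = b`: `v g`
(`P ∩ S = ∅`, so `g ∉ S`).
(2) `P ∩ C ⊆ {b}`.  (3) an edge `v w` between `A` and `B` (`v ≠ w`); if `v = b` replace it by `g`, in the same
way `w`. -/
def S_Lift : Prop := ∀ (V : Type) (G : SimpleGraph V) (X C F : Set V) (φ : V → V) (b g : V) (P : Set V),
  SR G X C φ F → b ∈ C → Conn G P → P ⊆ {y | y ∈ X ∧ φ y = b} → g ∈ P → g ∈ F →
    (∀ A ⊆ C, Conn G A → Conn G (Lf b P A)) ∧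
    (∀ A ⊆ C, ∀ B ⊆ C, Disjoint A B → Disjoint (Lf b P A) (Lf b P B)) ∧
    ∀ A ⊆ C, ∀ B ⊆ C, Disjoint A B → Tch G A B → Tch G (Lf b P A) (Lf b P B)

/-- the hypotheses of the depth lemma: `u` is universal in the split-prime set `X`, `x` is a pendant
vertex at `c ≠ u`, `C` is a split-prime piece of `X \ {u}` with the universal vertex `u'`, and
`C \ {u'}` contains a long induced cycle -/
structure Dep {V : Type} (G : SimpleGraph V) (Z X : Set V) (u x c : V) (C F : Set V) (φ : V → V)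
    (u' : V) : Prop where
  XZ : X ⊆ Z
  xZ : x ∈ Z
  xX : x ∉ X
  cX : c ∈ X
  cu : c ≠ u
  pen : ∀ y ∈ X, (G.Adj x y ↔ y = c)
  free : SPF G Z 6 r7
  spX : SPr G X
  card : 4 ≤ X.ncard
  uni : Uni G X u
  sr : SR G (X \ {u}) C φ F
  spC : SPr G C
  card' : 4 ≤ C.ncard
  uni' : Uni G C u'
  cyc : ∃ n p, 4 ≤ n ∧ IC G (C \ {u'}) n p

/-- **D6.** The pendant vertex is not at the fibre of `u'`.  (Uses `S_SPb`, `S_Full`, `S_Pend`, `S_M7`.)

Proof. `Γ = X \ {u}` is connected (`S_SPb` (c)).  Suppose `φ c = u'`.  `S_Pend`: `z = d`, `f` with `φ z = φ f = c' ≠ u'`,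
`z ∉ F`, `f ∈ F`, `z ~ f`.  `S_Full` (1) for `c`: connected `P ∋ c` in the fibre of `u'` with a full `g`.  The
cycle of length at least `4` in `C \ {u'}` contains an edge `a b` with `a, b ≠ c'` (`c'` is at most one `p i`; take two
consecutive other ones).  `S_M7` with `A = P`, `B = {u}`, `C = {a}`, `D = {b}`, `P = {x}`, `Q = {z}`: `u` is
adjacent to all of `X`; `g ~ a, b` (`SR.adj`: `φ g = u' ~ a`, `a ∈ C ⊆ F`); `x ~ c`, `x` is not adjacent to
other elements of `X`; `z ~ u`; `z` not `~ a, b` and no element of `P` (different fibres, `z ∉ F`); `z ≠ c`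
since `φ z ≠ u'`. -/
def S_D6 : Prop := ∀ (V : Type) [Finite V] (G : SimpleGraph V) (Z X : Set V) (u x c : V) (C F : Set V)
  (φ : V → V) (u' : V), Dep G Z X u x c C F φ u' → φ c ≠ u'

/-- **D7.** The fibre of `u'` is full.  (Uses `S_SPb`, `S_Full`, `S_Tri`, `S_Lift`, `S_D6`, `S_M7`.)

Proof. `b = φ c ≠ u'` (`S_D6`).  Suppose that some vertex of the fibre of `u'` is not full; by `S_Full` (2) there are
`z ∉ F`, `w ∈ F` in the fibre of `u'`, `z ~ w`.  `P ∋ c`, `g` from `S_Full` (1) for `c`.  `C \ {u'}` is connected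
(`S_SPb` (c) for `C`); `S_Tri` with `Q = C \ {u'}`, `q = b`: `A₀ ∋ b`, `A₁`, `A₂`.  `S_M7` with `A = Lf b P A₀`,
`B = {w}`, `C = A₁`, `D = A₂` (`= Lf b P A₁`, `Lf b P A₂` since `b ∉ A₁, A₂`), `P = {x}`, `Q = {z}`.  `w` is
adjacent to `g` and to all elements of `C \ {u'}` (`w ∈ F`, `φ w = u'`, universal in `C`).  `x` touches only
`P ∋ c` (`c ∉ A₁, A₂`: if `c ∈ C` then `c = φ c = b`; `c ≠ w, z` since `φ c ≠ u'`).  `z ~ w`; `z ∉ F` has no
neighbours in other fibres. -/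
def S_D7 : Prop := ∀ (V : Type) [Finite V] (G : SimpleGraph V) (Z X : Set V) (u x c : V) (C F : Set V)
  (φ : V → V) (u' : V), Dep G Z X u x c C F φ u' → ∀ z ∈ X \ {u}, φ z = u' → z ∈ F

/-- **D8.** Only the fibre of `b = φ c` contains vertices which are not full.  (Uses `S_SPb`, `S_Full`, `S_Tri`,
`S_D6`, `S_D7`, `S_M7`.)

Proof. Suppose `z₀ ∉ F`, `φ z₀ = c' ≠ b`.  `c' ≠ u'` by `S_D7`.  `S_Full` (2): `z ∉ F`, `f ∈ F` in the fibre of `c'`,
`z ~ f`.  `P ∋ c`, `g` as before.  `b ∈ C \ {u'}` has a neighbour in `C \ {u'}` (connected by `S_SPb` (c) for `C`,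
at least three elements).
CASE 1: `b` has a neighbour `t ≠ c'` in `C \ {u'}`.  `S_M7`: `A = P`, `B = {u}`, `C = {u'}`, `D = {t}`, `P = {x}`,
`Q = {z}`: `g ~ u', t`; `z ~ u`, `z` not `~ u', t` and no element of `P` (`z ∉ F`, other fibres: `c' ≠ u', t, b`).
CASE 2: `c'` is the only neighbour of `b` in `C \ {u'}`.  `Γ'' = (C \ {u'}) \ {b}` is connected: `Conn.erase_leaf`
or directly (a nonempty proper closed subset of `Γ''` not containing `c'`, or its complement, would be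
closed in `C \ {u'}`).  The long cycle in `C \ {u'}` does not contain `b` (its vertices have two neighbours
on it).  `S_Tri` in `Γ''` with `q = c'`: `A₀ ∋ c'`, `A₁`, `A₂`.  `A₀' = Lf c' {f} A₀` is connected and
touches `A₁`, `A₂` (`S_Lift` with `b := c'`, `P := {f}`, `g := f`).  `S_M7`: `A = P ∪ {u'}` (`g ~ u'`), `B = A₀'`,
`C = A₁`, `D = A₂`, `P = {x}`, `Q = {z}`: `u'` is adjacent to `f` and all elements of `C`; `x` touches only `P`
(`c` is not in `A₀' ∪ A₁ ∪ A₂ ∪ {u'}`: fibres); `z ~ f`, `z` is not adjacent to elements of other fibres, and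
`(A₁ ∪ A₂ ∪ {u'}) ∩` fibre of `c'` is empty (`c' ∈ A₀`, `f`...: elements of `A₁, A₂ ⊆ C` are their own
fibre representatives, `≠ c'`). -/
def S_D8 : Prop := ∀ (V : Type) [Finite V] (G : SimpleGraph V) (Z X : Set V) (u x c : V) (C F : Set V)
  (φ : V → V) (u' : V), Dep G Z X u x c C F φ u' → ∀ z ∈ X \ {u}, z ∉ F → φ z = φ c

/-- **D9.** The other fibres are singletons.  (Uses `S_SPb`, `S_D8`.)

Proof. `c' = φ z ≠ φ c`, `M = {y ∈ X \ {u} | φ y = c'}`.  By `S_D8` `M ⊆ F`.  `M` is a module of `G[X]`: `u` is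
complete to `M`; `y ∈ X \ {u}`, `φ y ≠ c'`: `y ~ m ↔ y ∈ F ∧ φ y ~ c'` for all `m ∈ M`.  `X \ M` contains `u` and
`φ c`, so by `S_SPb` (b) `M` is subsingleton; `z, c' ∈ M`. -/
def S_D9 : Prop := ∀ (V : Type) [Finite V] (G : SimpleGraph V) (Z X : Set V) (u x c : V) (C F : Set V)
  (φ : V → V) (u' : V), Dep G Z X u x c C F φ u' → ∀ z ∈ X \ {u}, φ z ≠ φ c → φ z = z

/-- **D10.** Two vertices outside the fibre of `b = φ c`.  (Uses `S_SPb`, `S_D6`.)

Proof. `N = {t ∈ C | t ≠ b, t ~ b}`, `T = {t ∈ C | t ≠ b, ¬ t ~ b}`.  `u' ∈ N` (`b ≠ u'` by `S_D6`).  `N` has a second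
element: `C \ {u'}` is connected (`S_SPb` (c) for `C`) and has more than one element, so `b` has a neighbour
in it.  `T` is nonempty: otherwise `Uni G C b`, so `b = u'` (`S_SPb` (d)).  Suppose all `y' ∈ T`, `n' ∈ N` are
adjacent: then `Spl G C N (insert b T)` with `A₁ = N`, `B₁ = insert b T`: contradiction to `SPr G C`. -/
def S_D10 : Prop := ∀ (V : Type) [Finite V] (G : SimpleGraph V) (Z X : Set V) (u x c : V) (C F : Set V)
  (φ : V → V) (u' : V), Dep G Z X u x c C F φ u' → ∃ y ∈ C, ∃ n ∈ C, y ≠ φ c ∧ ¬ G.Adj y (φ c) ∧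
    n ≠ φ c ∧ G.Adj n (φ c) ∧ y ≠ n ∧ ¬ G.Adj y n

/-- **D11.** No long cycles in the fibre of `b`.  (Uses `S_SPb`, `S_Full`, `S_Tri`, `S_M7`.)

Proof. `S = {z ∈ X \ {u} | φ z = b}`, `b = φ c`.  `n` is adjacent to all full vertices of `S` (`φ n = n ∈ F`, `n ~ b`),
and every `z ∈ S` is in a connected subset of `S` containing a full vertex (`S_Full` (1), `X \ {u}` is connected
by `S_SPb` (c)); so `insert n S` is connected.  Suppose it contains a cycle as in `NoC`.  `S_Tri` with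
`q = c ∈ S`: `A₀ ∋ c`, `A₁`, `A₂ ⊆ insert n S`.  `S_M7`: `A = A₀`, `B = {u}`, `C = A₁`, `D = A₂`, `P = {x}`,
`Q = {y}`: `u` is adjacent to everything; `y ∈ C`, `y ≠ b`, so `y ∉ S`, and `y` is not adjacent to elements of
`S` (`SR.adj`, `y` not `~ b`) nor to `n`; `x` is adjacent only to `c` (`x ≠ y`, `y ≠ c`, `u ≠ c`). -/
def S_D11 : Prop := ∀ (V : Type) [Finite V] (G : SimpleGraph V) (Z X : Set V) (u x c : V) (C F : Set V)
  (φ : V → V) (u' : V), Dep G Z X u x c C F φ u' → ∀ y ∈ C, ∀ n ∈ C, y ≠ φ c → ¬ G.Adj y (φ c) →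
    n ≠ φ c → G.Adj n (φ c) → y ≠ n → ¬ G.Adj y n → NoC G (insert n {z | z ∈ X \ {u} ∧ φ z = φ c}) 4

/-- **D12.** The depth lemma.  (Uses `S_D6`, ..., `S_D11`, `S_B5`.)

Proof. Suppose `Rich7 G X u`.  `u' ∈ C ⊆ X \ {u}`: there are `w ∈ X`, `w ≠ u'`, `u'` not `~ w`, and an induced
cycle `q` in `X` of length `m ≥ 4` through `w`; by rotation (`BU.b5`) `q 0 = w`.  `w ≠ u`, and `u` is not on the
cycle (`u` is universal, no vertex of the cycle is adjacent to all others since `m ≥ 4`).  `b = φ c`,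
`S = {z ∈ X \ {u} | φ z = b}`; by `S_D9` the other vertices of `X \ {u}` are in `C`.  `w ∉ C` (`u'` is universal
in `C`), so `w ∈ S`.  `w ∉ F` (otherwise `w ~ u'` by `SR.adj`: `φ w = b ≠ u'` by `S_D6`, `b ~ u'`).  So the
neighbours `q 1`, `q (m-1)` of `w` are in `S` (`SR.adj`).  `y', n'` from `S_D10`; by `S_D11` there is no long cycle
in `insert n' S`.
`I = {i < m | q i ∉ S}`.  If `I = ∅` then `q` is a cycle in `S`: contradiction.  Otherwise let `i` be the smallest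
and `j` the largest element of `I`; `2 ≤ i ≤ j ≤ m - 2`.  `q i ∈ C`, `q (i-1) ∈ S`, adjacent: `q (i-1) ∈ F`,
`q i ~ b`.  `q (j+1) ∈ S`, `q j` adjacent: `q j ~ b`.  So `q (i-1) ~ q j` (`SR.adj`), hence `i - 1 + 1 = j` (the
other possibilities for adjacent cycle vertices: `j + 1 = i - 1`, `i - 1 = 0 ∧ j = m - 1`, impossible).  So
`i = j` and `I = {i}`.  Replace `q i` by `n'`: for `s ≠ i`, `q s ∈ S` and
`n' ~ q s ↔ q s ∈ F ↔ q i ~ q s` (`n' ~ b`, `q i ~ b`, `SR.adj`); so this is an induced cycle in `insert n' S`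
(`n' ∉ S`): contradiction. -/
def S_D12 : Prop := ∀ (V : Type) [Finite V] (G : SimpleGraph V) (Z X : Set V) (u x c : V) (C F : Set V)
  (φ : V → V) (u' : V), Dep G Z X u x c C F φ u' → ¬ Rich7 G X u

/-! ## Assembly -/

/-- **D13.** The first assembly, `r ∈ {r1, r3, r6}`.  (Uses `S_SplitMain`, `S_SPb`, `S_Rep`, `S_Pend`, `S_UniL`.)

Proof. `1 ≤ K` may be assumed: it is a hypothesis.  CLAIM: every `X` with `Cls r k G X`, `SPr G X` has
`RL0 G X (2 ^ K + 1) X`.  By `OutC` either `RL0 G X K X` (mono: `K ≤ 2 ^ K + 1`) or `4 ≤ X.ncard`, `RichP r G X u`.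
In the second case it is enough (`S_UniL`) that `RL0 G (X \ {u}) (2 ^ K) (X \ {u})`; by `S_SplitMain` it is
enough that `RL0 G C K C` for all `SR G (X \ {u}) C φ F`, `SPr G C`.  Suppose not; `Cls r k G C` (`C ⊆ X`), so by
`OutC` `4 ≤ C.ncard`, `RichP r G C u'`, in particular `Uni G C u'`.  `S_Pend`: `d, f`, `c₀ = φ f = φ d ≠ u'`,
`d ∉ F`, `f ∈ F`, `d ~ f`.  `C' = insert f (C \ {c₀})`; `S_Rep`: `SR G (X \ {u}) C' φ' F`, `SPr G C'`, and
`RL0 G C' K C'` is impossible; so `OutC` gives `RichP r G C' u''`.  `d ∉ C'` (`C' ⊆ F`).  For `y ∈ C'`: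
`d ~ y ↔ y = f`: for `y ∈ C \ {c₀}`: `φ y = y ≠ c₀ = φ d`, `d ∉ F`, so not adjacent.  If `u'' ≠ f`: `RichP` (second part)
with `d`, `c := f` contradicts `Cls` (`insert d C' ⊆ X`).  If `u'' = f`: then `c₀` is universal in `C`
(`S_Rep` (3): `f ~ y ↔ c₀ ~ y` for `y ∈ C`, `y ≠ c₀`), so `c₀ = u'` by `S_SPb` (d): contradiction.
Finally for `X` with `Cls r k G X`: `S_SplitMain` (`C ⊆ X` for all pieces). -/
def S_AsmP : Prop := ∀ (r : ℕ → ℕ → Bool) (k K : ℕ), 1 ≤ K → OutC r (fun _ => RichP r) k K →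
  ∀ (V : Type) [Finite V] (G : SimpleGraph V) (X : Set V), Cls r k G X →
    RL0 G X (2 ^ (2 ^ K + 1)) X

/-- **D14.** The second assembly, `r7`.  (Uses `S_SplitMain`, `S_SPb`, `S_Rep`, `S_Pend`, `S_UniL`, `S_D12`.)

Proof. `K₂ = 2 ^ K + 1`, `K₃ = 2 ^ K₂ + 1`.
STEP 1.  Let `Cls r7 k G X`, `SPr G X`, `4 ≤ X.ncard`, `Rich7 G X u`, and let `x ∉ X`, `c ∈ X`, `c ≠ u`,
`N(x) ∩ X = {c}`, `SPF G (insert x X) 6 r7`.  Then `RL0 G X K₂ X`.  By `S_UniL`, `S_SplitMain` it is enough that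
`RL0 G C K C` for all split-prime pieces `C` of `X \ {u}`.  Otherwise `OutC`: `4 ≤ C.ncard`, `Rich7 G C u'`; there is a
long induced cycle in `C` (take `v ≠ u'` in `C`), it does not contain the universal vertex `u'`, so it is in
`C \ {u'}`: `Dep G (insert x X) X u x c C F φ u'`; `S_D12`: contradiction.
STEP 2.  Let `Cls r7 k G X`, `SPr G X`.  Then `RL0 G X K₃ X`.  By `OutC` `RL0 G X K X`, or `4 ≤ X.ncard` and
`Uni G X u₀`; as before it is enough that `RL0 G C K₂ C` for all split-prime pieces `C` of `X \ {u₀}`.  `OutC`: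
`RL0 G C K C` (mono) or `4 ≤ C.ncard`, `Rich7 G C u'`.  `S_Pend`: `d, f`, `c₀ = φ f = φ d ≠ u'`; `S_Rep`: `C'`; it is
enough that `RL0 G C' K₂ C'` (`S_Rep` (4)).  `OutC` for `C'`: `RL0 G C' K C'` (mono), or `4 ≤ C'.ncard`,
`Rich7 G C' u''`; `u'' ≠ f` as in `S_AsmP`; STEP 1 with `X := C'`, `x := d`, `c := f`.
STEP 3.  `S_SplitMain`. -/
def S_Asm7 : Prop := ∀ (k K : ℕ), 1 ≤ K → OutC r7 (fun _ => Rich7) k K →
  ∀ (V : Type) [Finite V] (G : SimpleGraph V) (X : Set V), Cls r7 k G X →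
    RL0 G X (2 ^ (2 ^ (2 ^ K + 1) + 1)) X

/-- **D15.** The induced minor `C_4` and induced cycles.

Proof. Let `T 0, T 1, T 2, T 3` be the model (`cyc4.Adj i j ↔ (i + j) % 2 = 1`).  `path` in `T 0` from
`{s ∈ T 0 | s has a neighbour in T 1}` to `{s | s has a neighbour in T 3}`: `s 0, ..., s l`, only `s 0` has
neighbours in `T 1`, only `s l` in `T 3`; no `s i` has neighbours in `T 2`.  `path` in `T 1 ∪ T 2 ∪ T 3` (connected)
from `{t ∈ T 1 | t ~ s 0}` to `{t ∈ T 3 | t ~ s l}`: `t 0, ..., t m`; `2 ≤ m` since `T 1`, `T 3` do not touch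
(`t 0 ≠ t m`, not adjacent).  For `t j ~ s i`: `t j ∈ T 1` and then `i = 0`, so `j = 0`, or `t j ∈ T 3` and then `i = l`,
`j = m`.  So `s 0, ..., s l, t m, ..., t 0` is an induced cycle with `l + 1 + m + 1 ≥ 4` vertices:
`p i = if i ≤ l then s i else t (m - (i - l - 1))`, `n = l + m + 2`. -/
def S_C4 : Prop := ∀ (V : Type) (G : SimpleGraph V) (Y : Set V), NoC G Y 4 → ¬ IMS cyc4 G Y

/-- **D16.** Induced minors of `restr G Y`.

Proof. `restr G Y` has the edges of `G` inside `Y`.  Let `B` be the model of `H` in `restr G Y`.  Every `w` has a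
neighbour `w'` in `H`, so `B w` contains a vertex of `Y`, and if `B w` has more than one element, all its elements
have neighbours in `restr G Y` (`Conn`: a vertex alone is a proper nonempty subset), so they are in `Y`.
`Conn` and `Tch` for subsets of `Y` are the same in `G` and `restr G Y` (`Conn.congr`). -/
def S_Restr : Prop := ∀ (V W : Type) (G : SimpleGraph V) (H : SimpleGraph W) (Y : Set V),
  (∀ w, ∃ w', H.Adj w w') → IMS H (restr G Y) Set.univ → IMS H G Y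

/-- the house -/
def houseG : SimpleGraph (Fin 5) where
  Adj i j := rH i.val j.val = true ∧ i ≠ j
  symm := ⟨fun i j h => ⟨by have := h.1; unfold rH rel at this ⊢; rw [Bool.or_comm]; exact this, h.2.symm⟩⟩
  loopless := ⟨fun _ h => h.2 rfl⟩

/-- **D17.** The patterns are the graphs.

Proof. From `S` with `SP G X 6 S r` we get the model `B (Sum.inl i) = S i`, `B (Sum.inr i) = S (m + i)`
(`m = 3` or `4`).  All pairs by cases (`fin_cases`), `SP.tch`, `SP.dis` (for `i < j` use symmetry); the values of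
`r` and of `KA` by `decide` / `simp`.  For the house: `B i = S i`. -/
def S_Link : Prop :=
  (∀ (V : Type) (G : SimpleGraph V) (X : Set V), ¬ IMS houseG G X → SPF G X 5 rH) ∧
  (∀ (V : Type) (G : SimpleGraph V) (X : Set V), ¬ IMS (KA 3 3 ![{0}, {1}, {0, 2}]) G X → SPF G X 6 r1) ∧
  (∀ (V : Type) (G : SimpleGraph V) (X : Set V), ¬ IMS (KA 3 3 ![{0}, {0, 1}, {1, 2}]) G X → SPF G X 6 r3) ∧
  (∀ (V : Type) (G : SimpleGraph V) (X : Set V), ¬ IMS (KA 4 2 ![{0}, {1, 2}]) G X → SPF G X 6 r6) ∧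
  ∀ (V : Type) (G : SimpleGraph V) (X : Set V), ¬ IMS (KA 4 2 ![{0}, {1}]) G X → SPF G X 6 r7

/-- the layouts of the graphs without `H` and `J` have bounded width -/
def BL {W W' : Type} (H : SimpleGraph W) (J : SimpleGraph W') : Prop :=
  ∃ k : ℕ, ∀ (V : Type) [Finite V] (G : SimpleGraph V), ¬ IMS H G Set.univ → ¬ IMS J G Set.univ →
    Lay G k Set.univ

/-- **THEOREM (house column).**  (Uses `S_OutP`, `S_Out7`, `S_AsmP`, `S_Asm7`, `S_C4`, `S_Restr`, `S_Link`, and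
`BU.S_R3`, proved in BU.)

Proof. Let `k` be the bound for `(C_4, H)`.  Let `G` have no `H`, no house.  For `Y` with `NoC G Y 4`:
`restr G Y` has no `C_4` (`S_Restr`, `S_C4`) and no `H` (`S_Restr`, `IMS.mono`; every vertex of `H` has a neighbour),
so `Lay (restr G Y) k Set.univ`, restrict to `Y` (`Lay` of a subset: or use `S_R3`-like induction directly: from
`Lay (restr G Y) k Set.univ` we get `RL (restr G Y) Set.univ (k + 1) Set.univ`, then `RL.restrict`), so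
`RL G Y (k + 1) Y` (`Rw (restr G Y) Y B = Rw G Y B` for `B ⊆ Y`), and `RL0 G Y (k + 2) Y`.  So
`Cls r (k + 2) G Set.univ` (`S_Link`).  `S_AsmP` / `S_Asm7` with `K = 8 (k + 2) + 20`: `RL0 G univ K' univ`, hence
`RL G univ K' univ` and `BU.S_R3` (2): `Lay G K' Set.univ`. -/
def S_HouseColumn : Prop :=
  (BL (KA 3 3 ![{0}, {1}, {0, 2}]) cyc4 → BL (KA 3 3 ![{0}, {1}, {0, 2}]) houseG) ∧
  (BL (KA 3 3 ![{0}, {0, 1}, {1, 2}]) cyc4 → BL (KA 3 3 ![{0}, {0, 1}, {1, 2}]) houseG) ∧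
  (BL (KA 4 2 ![{0}, {1, 2}]) cyc4 → BL (KA 4 2 ![{0}, {1, 2}]) houseG) ∧
  (BL (KA 4 2 ![{0}, {1}]) cyc4 → BL (KA 4 2 ![{0}, {1}]) houseG)

end Pool.Agent.MPd439b2.HC
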