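import Pool.Agent.Lib.MP_d439b2_co.HC.Defs
import Pool.Agent.Lib.MP_d439b2_co.BU.Ext

/-!
# MP_d439b2_co, HC: certificates for finite patterns, the base pattern (helper29)
-/

set_option autoImplicit false

namespace Pool.Agent.MPd439b2.HC

open Pool.Agent.MPd439b2
open Pool.Agent.MPd439b2.BU

variable {V : Type}

/-! ### patterns given by codes -/

/-- the pattern given by the list `ts` of codes: for `j < i` the sets `i` and `j` touch iff the bit `j` of
`ts[i]` is `1` -/
def rc (ts : List ℕ) (i j : ℕ) : Bool := (ts.getD i 0).testBit j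

/-- certificate: the lists in `L` are the branch sets of a model of the pattern `q` with `m` vertices in
the pattern `r` with `n` vertices; every element of a branch set except the last one is related to a
later element -/
def chkG (n m : ℕ) (r q : ℕ → ℕ → Bool) (L : List (List ℕ)) : Bool :=
  Nat.beq L.length m && Eng.goodL n L.flatten && L.all (Eng.connL r) &&
    (List.range m).all fun i => (List.range i).all fun j =>
      Eng.tchL r (L.getD i []) (L.getD j []) == q i j

theorem getD_mem {L : List (List ℕ)} {i : ℕ} (hi : i < L.length) : L.getD i [] ∈ L := by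
  rw [List.getD_eq_getElem _ _ hi]
  exact List.getElem_mem hi

theorem flat_dis {L : List (List ℕ)} (h : L.flatten.Nodup) {i j : ℕ} (hi : i < L.length)
    (hj : j < L.length) (hij : i ≠ j) : ∀ x ∈ L.getD i [], x ∉ L.getD j [] := by
  rw [List.nodup_flatten] at h
  have h2 := h.2
  rw [List.pairwise_iff_getElem] at h2
  intro x hx hx'
  rw [List.getD_eq_getElem _ _ hi] at hx
  rw [List.getD_eq_getElem _ _ hj] at hx'
  rcases lt_or_gt_of_ne hij with h3 | h3
  · exact h2 i j hi hj h3 hx hx'
  · exact h2 j i hj hi h3 hx' hx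

/-- a certificate gives a smaller pattern -/
theorem chkG_sp {G : SimpleGraph V} {X : Set V} {n m : ℕ} {S : ℕ → Set V} {r q : ℕ → ℕ → Bool}
    {L : List (List ℕ)} (h : SP G X n S r) (hc : chkG n m r q L = true) :
    SP G X m (fun i => Eng.US S (L.getD i [])) q := by
  simp only [chkG, Bool.and_eq_true, List.all_eq_true, List.mem_range, beq_iff_eq] at hc
  obtain ⟨⟨⟨h1, h2⟩, h3⟩, h4⟩ := hc
  have h1' : L.length = m := Nat.eq_of_beq_eq_true h1
  obtain ⟨hn, hd⟩ := Eng.goodL_iff h2
  have hn' : ∀ i < m, ∀ x ∈ L.getD i [], x < n := fun i hi x hx =>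
    hn x (List.mem_flatten.2 ⟨_, getD_mem (by omega), hx⟩)
  have hd' : ∀ i < m, (L.getD i []).Nodup := fun i hi => by
    rw [List.nodup_flatten] at hd
    exact hd.1 _ (getD_mem (by omega))
  refine ⟨fun i hi => Eng.us_sub h (hn' i hi), fun i hi => Eng.us_conn h (hn' i hi) (hd' i hi)
    (h3 _ (getD_mem (by omega))), fun i hi j hj => ?_, fun i hi j hj => ?_⟩
  · exact Eng.us_dis h (hn' i hi) (hn' j (by omega))
      (flat_dis hd (by omega) (by omega) (by omega))
  · rw [← h4 i hi j hj]
    exact Eng.us_tch h (hn' i hi) (hn' j (by omega))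
      (flat_dis hd (by omega) (by omega) (by omega))

/-- the certificate `L` shows that the pattern `ts` contains the house or the graph `r` -/
def kill1 (r : ℕ → ℕ → Bool) (ts : List ℕ) (L : List (List ℕ)) : Bool :=
  chkG ts.length 5 (rc ts) rH L || chkG ts.length 6 (rc ts) r L

/-- one of the certificates in `cs` works -/
def killC (r : ℕ → ℕ → Bool) (cs : List (List (List ℕ))) (ts : List ℕ) : Bool := cs.any (kill1 r ts)

/-- **patterns with certificates do not occur** -/
theorem kill {G : SimpleGraph V} {X : Set V} {S : ℕ → Set V} {r : ℕ → ℕ → Bool} {ts : List ℕ}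
    {n : ℕ} (hH : SPF G X 5 rH) (hr : SPF G X 6 r) (hS : SP G X n S (rc ts)) (hn : ts.length = n)
    (cs : List (List (List ℕ))) (hc : killC r cs ts = true) : False := by
  subst hn
  simp only [killC, List.any_eq_true, kill1, Bool.or_eq_true] at hc
  obtain ⟨L, _, hL | hL⟩ := hc
  · exact hH _ (chkG_sp hS hL)
  · exact hr _ (chkG_sp hS hL)

/-- adding a connected set to a pattern -/
theorem snocS {G : SimpleGraph V} {X : Set V} {n : ℕ} {S : ℕ → Set V} {ts : List ℕ} {K : Set V}
    (h : SP G X n S (rc ts)) (hn : ts.length = n) (hK : Conn G K) (hKX : K ⊆ X)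
    (hd : ∀ j < n, Disjoint K (S j)) :
    ∃ t < 2 ^ n, (∀ j < n, (Tch G K (S j) ↔ t.testBit j = true)) ∧
      SP G X (n + 1) (fun i => if i < n then S i else K) (rc (ts ++ [t])) := by
  subst hn
  obtain ⟨t, ht⟩ := exists_tr G ts.length S K
  refine ⟨t, ht.1, ht.2, SP.snoc h (fun i hi j _ => ?_) (fun j _ => ?_) hK hKX hd ht⟩
  · simp only [rc]
    rw [List.getD_append _ _ _ _ hi]
  · simp only [rc]
    rw [List.getD_append_right _ _ _ _ le_rfl]
    simp

/-- adding a vertex to a pattern -/
theorem snocV {G : SimpleGraph V} {X : Set V} {n : ℕ} {S : ℕ → Set V} {ts : List ℕ} {z : V}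
    (h : SP G X n S (rc ts)) (hn : ts.length = n) (hz : z ∈ X) (hd : ∀ j < n, z ∉ S j) :
    ∃ t < 2 ^ n, (∀ j < n, (Tch G {z} (S j) ↔ t.testBit j = true)) ∧
      SP G X (n + 1) (fun i => if i < n then S i else {z}) (rc (ts ++ [t])) :=
  snocS h hn (Conn.singleton G z) (Set.singleton_subset_iff.2 hz)
    fun j hj => Set.disjoint_singleton_left.2 (hd j hj)

/-! ### the base pattern -/

/-- **BASE**: the four-cycle with the sides `S 0, S 1` and `S 2, S 3`; `x` touches only `S 0`, `y` touches
only `S 2` -/
structure Bas (G : SimpleGraph V) (X : Set V) (S : ℕ → Set V) (x y : V) : Prop where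
  xX : x ∈ X
  yX : y ∈ X
  ne : x ≠ y
  nxy : ¬ G.Adj x y
  sub : ∀ i < 4, S i ⊆ X
  conn : ∀ i < 4, Conn G (S i)
  dis : ∀ i < 4, ∀ j < i, Disjoint (S i) (S j)
  tch : ∀ i < 4, ∀ j < i, (Tch G (S i) (S j) ↔ 2 ≤ i ∧ j < 2)
  xS : ∀ i < 4, x ∉ S i ∧ (Tch G {x} (S i) ↔ i = 0)
  yS : ∀ i < 4, y ∉ S i ∧ (Tch G {y} (S i) ↔ i = 2)

/-- `u` touches the four sets of the base pattern -/
def Ful (G : SimpleGraph V) (S : ℕ → Set V) (u : V) : Prop := ∀ i < 4, u ∉ S i ∧ Tch G {u} (S i)

theorem Bas.mono {G : SimpleGraph V} {X Y : Set V} {S : ℕ → Set V} {x y : V} (h : Bas G X S x y)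
    (hY : X ⊆ Y) : Bas G Y S x y :=
  ⟨hY h.xX, hY h.yX, h.ne, h.nxy, fun i hi => (h.sub i hi).trans hY, h.conn, h.dis, h.tch, h.xS, h.yS⟩

/-- the sets of the pattern: `S 0, ..., S 3, {x}, {y}` -/
def Sxy (S : ℕ → Set V) (x y : V) (i : ℕ) : Set V := if i < 4 then S i else if i = 4 then {x} else {y}

theorem Bas.sp {G : SimpleGraph V} {X : Set V} {S : ℕ → Set V} {x y : V} (h : Bas G X S x y) :
    SP G X 6 (Sxy S x y) (rc [0, 0, 3, 3, 1, 4]) := by
  refine ⟨?_, ?_, ?_, ?_⟩
  · intro i hi
    unfold Sxy
    split_ifs with h1 h2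
    · exact h.sub i h1
    · exact Set.singleton_subset_iff.2 h.xX
    · exact Set.singleton_subset_iff.2 h.yX
  · intro i hi
    unfold Sxy
    split_ifs with h1 h2
    · exact h.conn i h1
    · exact Conn.singleton G _
    · exact Conn.singleton G _
  · intro i hi j hj
    by_cases h1 : i < 4
    · have h2 : j < 4 := by omega
      simp only [Sxy, h1, h2, if_true]
      exact h.dis i h1 j hj
    · by_cases h3 : i = 4
      · subst h3
        simp only [Sxy, lt_self_iff_false, if_false, if_true, hj]
        exact Set.disjoint_singleton_left.2 (h.xS j hj).1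
      · have h4 : i = 5 := by omega
        subst h4
        by_cases h5 : j < 4
        · simp only [Sxy, h5, if_true]
          exact Set.disjoint_singleton_left.2 (h.yS j h5).1
        · have h6 : j = 4 := by omega
          subst h6
          simp only [Sxy, lt_self_iff_false, if_false, if_true]
          exact Set.disjoint_singleton.2 h.ne.symm
  · intro i hi j hj
    by_cases h1 : i < 4
    · have h2 : j < 4 := by omega
      simp only [Sxy, h1, h2, if_true]
      rw [h.tch i h1 j hj]
      interval_cases i <;> interval_cases j <;> simp [rc] <;> decide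
    · by_cases h3 : i = 4
      · subst h3
        simp only [Sxy, lt_self_iff_false, if_false, if_true, hj]
        rw [(h.xS j hj).2]
        interval_cases j <;> simp [rc] <;> decide
      · have h4 : i = 5 := by omega
        subst h4
        by_cases h5 : j < 4
        · simp only [Sxy, h5, if_true]
          rw [show (if (5 : ℕ) < 4 then S 5 else if (5 : ℕ) = 4 then {x} else {y}) = {y} from rfl,
            (h.yS j h5).2]
          interval_cases j <;> simp [rc] <;> decide
        · have h6 : j = 4 := by omega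
          subst h6
          rw [show Sxy S x y 5 = {y} from rfl, show Sxy S x y 4 = {x} from rfl, tch_single]
          simp only [rc]
          constructor
          · intro h'; exact absurd h'.symm h.nxy
          · intro h'; exact absurd h' (by decide)

end Pool.Agent.MPd439b2.HC
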