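import Pool.Agent.Lib.MP_d439b2_co.HC.SpecD

/-!
# MP_d439b2_co, HC: D11, no long cycles in the fibre of `φ c` (helper53)
-/

set_option autoImplicit false

namespace Pool.Agent.MPd439b2.HC

open Pool.Agent.MPd439b2
open Pool.Agent.MPd439b2.BU

theorem d11 (hSPb : S_SPb) (hFull : S_Full) (hTri : S_Tri) (hM7 : S_M7) : S_D11 := by
  intro V _ G Z X u x c C F φ u' hD y hy n hn hyb hynb hnb hnadj hyn hynn m hm p hp
  have hΓ : Conn G (X \ {u}) := (hSPb V G X hD.spX hD.card).2.2.1 u hD.uni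
  have hsr := hD.sr
  set S : Set V := {z | z ∈ X \ {u} ∧ φ z = φ c} with hS
  have hCX : C ⊆ X \ {u} := hsr.cF.trans hsr.FX
  have hcX : c ∈ X \ {u} := ⟨hD.cX, fun h => hD.cu h⟩
  have hcS : c ∈ S := ⟨hcX, rfl⟩
  have hφn : φ n = n := hsr.fix n hn
  have hφy : φ y = y := hsr.fix y hy
  have hnS : n ∉ S := fun h => hnb (by rw [← hφn]; exact h.2)
  have hyS : y ∉ S := fun h => hyb (by rw [← hφy]; exact h.2)
  have hnX := hCX hn
  have hyX := hCX hy
  -- neighbours of `n` in `S`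
  have hfn : ∀ f ∈ S, f ∈ F → G.Adj f n := by
    intro f hf hfF
    refine (hsr.adj f hf.1 n hnX ?_).2 ⟨hfF, hsr.cF hn, ?_⟩
    · rw [hf.2, hφn]; exact fun h => hnb h.symm
    · rw [hf.2, hφn]; exact hnadj.symm
  have hyz : ∀ z ∈ S, ¬ G.Adj z y := by
    intro z hz hzy
    have := (hsr.adj z hz.1 y hyX (by rw [hz.2, hφy]; exact fun h => hyb h.symm)).1 hzy
    rw [hz.2, hφy] at this
    exact hynb this.2.2.symm
  have hIS : Conn G (insert n S) := by
    refine ⟨⟨n, Set.mem_insert _ _⟩, ?_⟩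
    intro B hB hBne hBe
    by_cases hnB : n ∈ B
    · obtain ⟨z, hz, hzB⟩ : ∃ z ∈ insert n S, z ∉ B := by
        by_contra hcon
        push Not at hcon
        exact hBe (Set.Subset.antisymm hB hcon)
      have hzS : z ∈ S := by
        rcases hz with rfl | h
        · exact absurd hnB hzB
        · exact h
      obtain ⟨⟨P, f, hP, hzP, hPs, hfP, hfF⟩, _⟩ := hFull V G (X \ {u}) C F φ hsr hΓ z hzS.1
      have hPS : P ⊆ S := fun w hw => ⟨(hPs hw).1, (hPs hw).2.trans hzS.2⟩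
      by_cases hPB : (P ∩ B).Nonempty
      · obtain ⟨b, hb, a, ha, hba⟩ := hP.2 (P ∩ B) Set.inter_subset_left hPB (by
          intro h
          rw [← h] at hzP
          exact hzB hzP.2)
        exact ⟨b, hb.2, a, ⟨Or.inr (hPS ha.1), fun h => ha.2 ⟨ha.1, h⟩⟩, hba⟩
      · have hfB : f ∉ B := fun h => hPB ⟨f, hfP, h⟩
        exact ⟨n, hnB, f, ⟨Or.inr (hPS hfP), hfB⟩, (hfn f (hPS hfP) hfF).symm⟩
    · obtain ⟨z, hzB⟩ := hBne
      have hzS : z ∈ S := by
        rcases hB hzB with rfl | h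
        · exact absurd hzB hnB
        · exact h
      obtain ⟨⟨P, f, hP, hzP, hPs, hfP, hfF⟩, _⟩ := hFull V G (X \ {u}) C F φ hsr hΓ z hzS.1
      have hPS : P ⊆ S := fun w hw => ⟨(hPs hw).1, (hPs hw).2.trans hzS.2⟩
      by_cases hPB : P ⊆ B
      · exact ⟨f, hPB hfP, n, ⟨Set.mem_insert _ _, hnB⟩, hfn f (hPS hfP) hfF⟩
      · obtain ⟨b, hb, a, ha, hba⟩ := hP.2 (P ∩ B) Set.inter_subset_left ⟨z, hzP, hzB⟩ (by
          intro h
          exact hPB (Set.inter_eq_left.1 h))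
        exact ⟨b, hb.2, a, ⟨Or.inr (hPS ha.1), fun h => ha.2 ⟨ha.1, h⟩⟩, hba⟩
  obtain ⟨A, B, D, hT⟩ := hTri V G (insert n S) c m p hIS (Or.inr hcS) hm hp
  have hISX : insert n S ⊆ X \ {u} := by
    rintro w (rfl | hw)
    · exact hnX
    · exact hw.1
  have hsub : ∀ {A : Set V}, A ⊆ insert n S → A ⊆ Z := fun h w hw => hD.XZ (hISX (h hw)).1
  have hdu : ∀ {A : Set V}, A ⊆ insert n S → u ∉ A := fun h hu => (hISX (h hu)).2 rfl
  have hdx : ∀ {A : Set V}, A ⊆ insert n S → x ∉ A := fun h hx => hD.xX (hISX (h hx)).1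
  have hyI : y ∉ insert n S := by
    rintro (h | h)
    · exact hyn h
    · exact hyS h
  have hdy : ∀ {A : Set V}, A ⊆ insert n S → y ∉ A := fun h hx => hyI (h hx)
  have hyc : y ≠ c := fun h => hyb (by rw [← h, hφy])
  have hux : u ≠ x := fun h => hD.xX (h ▸ hD.uni.1)
  have huy : u ≠ y := fun h => hyX.2 h.symm
  have hxy : x ≠ y := fun h => hD.xX (h ▸ hyX.1)
  have htu : ∀ {A : Set V}, A ⊆ insert n S → Conn G A → Tch G A {u} := by
    intro A hA hc
    obtain ⟨a, ha⟩ := hc.1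
    have := hISX (hA ha)
    exact Tch.of_adj (hD.uni.2 a this.1 (fun h => this.2 h)).symm ha rfl
  have hnty : ∀ {A : Set V}, A ⊆ insert n S → ¬ Tch G A {y} := by
    rintro A hA ⟨a, ha, b, hb, hab⟩
    rw [Set.mem_singleton_iff] at hb
    subst hb
    rcases hA ha with h | h
    · rw [h] at hab
      exact hynn hab.symm
    · exact hyz a h hab
  have hntx : ∀ {A : Set V}, A ⊆ insert n S → c ∉ A → ¬ Tch G A {x} := by
    rintro A hA hcA ⟨a, ha, b, hb, hab⟩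
    rw [Set.mem_singleton_iff] at hb
    subst hb
    have := (hD.pen a (hISX (hA ha)).1).1 hab.symm
    exact hcA (this ▸ ha)
  have hcB : c ∉ B := fun h => Set.disjoint_left.1 hT.AB hT.qA h
  have hcD : c ∉ D := fun h => Set.disjoint_left.1 hT.AC hT.qA h
  refine hM7 V G Z A {u} B D {x} {y} ⟨hsub hT.sA, ?_, hsub hT.sB, hsub hT.sC, ?_, ?_⟩
    ⟨hT.cA, Conn.singleton G u, hT.cB, hT.cC, Conn.singleton G x, Conn.singleton G y⟩
    ⟨?_, hT.AB, hT.AC, ?_, ?_⟩ ⟨?_, ?_, ?_, ?_⟩ ⟨hT.BC, ?_, ?_, ?_, ?_, ?_⟩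
    ⟨htu hT.sA hT.cA, hT.tAB, hT.tAC, (htu hT.sB hT.cB).symm, (htu hT.sC hT.cC).symm, hT.tBC,
      Tch.of_adj ((hD.pen c hD.cX).2 rfl).symm hT.qA rfl, ?_⟩
    ⟨hnty hT.sA, ?_, hntx hT.sB hcB, hnty hT.sB, hntx hT.sC hcD, hnty hT.sC, ?_⟩ hD.free
  · rw [Set.singleton_subset_iff]; exact hD.XZ hD.uni.1
  · rw [Set.singleton_subset_iff]; exact hD.xZ
  · rw [Set.singleton_subset_iff]; exact hD.XZ hyX.1
  · exact Set.disjoint_singleton_right.2 (hdu hT.sA)
  · exact Set.disjoint_singleton_right.2 (hdx hT.sA)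
  · exact Set.disjoint_singleton_right.2 (hdy hT.sA)
  · exact Set.disjoint_singleton_left.2 (hdu hT.sB)
  · exact Set.disjoint_singleton_left.2 (hdu hT.sC)
  · exact Set.disjoint_singleton_left.2 hux
  · exact Set.disjoint_singleton_left.2 huy
  · exact Set.disjoint_singleton_right.2 (hdx hT.sB)
  · exact Set.disjoint_singleton_right.2 (hdy hT.sB)
  · exact Set.disjoint_singleton_right.2 (hdx hT.sC)
  · exact Set.disjoint_singleton_right.2 (hdy hT.sC)
  · exact Set.disjoint_singleton_left.2 hxy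
  · exact Tch.of_adj (hD.uni.2 y hyX.1 huy.symm) rfl rfl
  · rw [tch_single]
    intro h
    exact hD.cu ((hD.pen u hD.uni.1).1 h.symm).symm
  · rw [tch_single]
    intro h
    exact hyc ((hD.pen y hyX.1).1 h)

end Pool.Agent.MPd439b2.HC
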