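import Pool.Agent.Lib.MP_d439b2_co.BU.Eng

/-!
# MP_d439b2_co, HC: the house column, definitions (helper22, note 2654)

**Theorem.** Let `H` be one of the graphs `K3:0,1,02`, `K3:0,01,12`, `K4:0,12`, `K4:0,1`.  If the graphs without
`H` and `C_4` as induced minors have bounded (rank-, clique-) width, then so do the graphs without `H` and
the house.

`G` is a graph, `X` a set of vertices; everything is relative to the induced subgraph `G[X]`.
-/

set_option autoImplicit false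

namespace Pool.Agent.MPd439b2.HC

open Pool.Agent.MPd439b2
open Pool.Agent.MPd439b2.BU

variable {V : Type}

/-! ### layouts -/

/-- `A` has a layout in `X` with at most `k` rows, where the empty row is always counted -/
abbrev RL0 (G : SimpleGraph V) (X : Set V) (k : ℕ) (A : Set V) : Prop :=
  LT (fun B => (insert ∅ (Rw G X B)).encard ≤ k) A

/-- all chordal subsets of `X` have layouts of width `k` -/
def ChB (G : SimpleGraph V) (X : Set V) (k : ℕ) : Prop := ∀ Y ⊆ X, NoC G Y 4 → RL0 G Y k Y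

/-! ### splits -/

/-- `(A, B)` is a split of `G[C]` -/
structure Spl (G : SimpleGraph V) (C A B : Set V) : Prop where
  un : A ∪ B = C
  dis : Disjoint A B
  nA : ¬ A.Subsingleton
  nB : ¬ B.Subsingleton
  ex : ∃ A₁ ⊆ A, ∃ B₁ ⊆ B, ∀ a ∈ A, ∀ b ∈ B, (G.Adj a b ↔ a ∈ A₁ ∧ b ∈ B₁)

/-- `G[C]` is split-prime -/
def SPr (G : SimpleGraph V) (C : Set V) : Prop := ∀ A B, ¬ Spl G C A B

/-- `C` is a piece of `G[X]`: `φ` maps `X` to `C`, `F` is the set of the full vertices -/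
structure SR (G : SimpleGraph V) (X C : Set V) (φ : V → V) (F : Set V) : Prop where
  cF : C ⊆ F
  FX : F ⊆ X
  map : ∀ x ∈ X, φ x ∈ C
  fix : ∀ c ∈ C, φ c = c
  adj : ∀ x ∈ X, ∀ y ∈ X, φ x ≠ φ y → (G.Adj x y ↔ x ∈ F ∧ y ∈ F ∧ G.Adj (φ x) (φ y))

/-! ### patterns -/

/-- the symmetric relation with the given edges -/
def rel (E : List (ℕ × ℕ)) (i j : ℕ) : Bool := E.elem (i, j) || E.elem (j, i)

/-- the house: the `4`-cycle with the sides `0 1` and `2 3`, the roof `4` on `0 2` (five vertices) -/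
def rH : ℕ → ℕ → Bool := rel [(2, 0), (3, 0), (2, 1), (3, 1), (4, 0), (4, 2)]

/-- `K3:0,1,02`: the triangle `0 1 2`, `3 - 0`, `4 - 1`, `5 - 0, 2` (six vertices) -/
def r1 : ℕ → ℕ → Bool := rel [(1, 0), (2, 0), (2, 1), (3, 0), (4, 1), (5, 0), (5, 2)]

/-- `K3:0,01,12`: the triangle `0 1 2`, `3 - 0`, `4 - 0, 1`, `5 - 1, 2` (six vertices) -/
def r3 : ℕ → ℕ → Bool := rel [(1, 0), (2, 0), (2, 1), (3, 0), (4, 0), (4, 1), (5, 1), (5, 2)]

/-- `K4:0,12`: the clique `0 1 2 3`, `4 - 0`, `5 - 1, 2` (six vertices) -/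
def r6 : ℕ → ℕ → Bool :=
  rel [(1, 0), (2, 0), (2, 1), (3, 0), (3, 1), (3, 2), (4, 0), (5, 1), (5, 2)]

/-- `K4:0,1`: the clique `0 1 2 3`, `4 - 0`, `5 - 1` (six vertices) -/
def r7 : ℕ → ℕ → Bool :=
  rel [(1, 0), (2, 0), (2, 1), (3, 0), (3, 1), (3, 2), (4, 0), (5, 1)]

/-- there are no `m` connected, disjoint subsets of `X` which touch according to the pattern `r` -/
def SPF (G : SimpleGraph V) (X : Set V) (m : ℕ) (r : ℕ → ℕ → Bool) : Prop := ∀ S, ¬ SP G X m S r

theorem SPF.mono {G : SimpleGraph V} {X Y : Set V} {m : ℕ} {r : ℕ → ℕ → Bool} (h : SPF G X m r)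
    (hY : Y ⊆ X) : SPF G Y m r :=
  fun S hS => h S ⟨fun i hi => (hS.sub i hi).trans hY, hS.conn, hS.dis, hS.tch⟩

/-! ### rich graphs -/

/-- `u` is a universal vertex of `G[X]` -/
def Uni (G : SimpleGraph V) (X : Set V) (u : V) : Prop := u ∈ X ∧ ∀ x ∈ X, x ≠ u → G.Adj u x

/-- the rich graphs for `r ∈ {r1, r3, r6}`: there is a universal vertex `u`, and a vertex `d` outside `X`
with exactly one neighbour `c ≠ u` in `X` creates the pattern `r` or the house -/
def RichP (r : ℕ → ℕ → Bool) (G : SimpleGraph V) (X : Set V) (u : V) : Prop :=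
  Uni G X u ∧ ∀ d c, d ∉ X → c ∈ X → c ≠ u → (∀ x ∈ X, (G.Adj d x ↔ x = c)) →
    SPF G (insert d X) 5 rH → ¬ SPF G (insert d X) 6 r

/-- the rich graphs for `r7`: there is a universal vertex `u`, and every other vertex `v` has a non-neighbour
`w ≠ v` on an induced cycle of length at least `4` -/
def Rich7 (G : SimpleGraph V) (X : Set V) (u : V) : Prop :=
  Uni G X u ∧ ∀ v ∈ X, v ≠ u → ∃ w ∈ X, w ≠ v ∧ ¬ G.Adj v w ∧
    ∃ n p, 4 ≤ n ∧ IC G X n p ∧ ∃ i < n, p i = w

/-- the class: no house, no `r`, all chordal subsets have layouts of width `k` -/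
structure Cls (r : ℕ → ℕ → Bool) (k : ℕ) (G : SimpleGraph V) (X : Set V) : Prop where
  house : SPF G X 5 rH
  free : SPF G X 6 r
  chb : ChB G X k

/-- the split-prime members of the class have layouts of width `K` or are rich -/
def OutC (r : ℕ → ℕ → Bool) (Rich : ∀ (V : Type), SimpleGraph V → Set V → V → Prop) (k K : ℕ) : Prop :=
  ∀ (V : Type) [Finite V] (G : SimpleGraph V) (X : Set V), Cls r k G X → SPr G X →
    RL0 G X K X ∨ (4 ≤ X.ncard ∧ ∃ u, Rich V G X u)

theorem ChB.mono {G : SimpleGraph V} {X Y : Set V} {k : ℕ} (h : ChB G X k) (hY : Y ⊆ X) : ChB G Y k :=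
  fun Z hZ => h Z (hZ.trans hY)

theorem Cls.mono {r : ℕ → ℕ → Bool} {k : ℕ} {G : SimpleGraph V} {X Y : Set V} (h : Cls r k G X)
    (hY : Y ⊆ X) : Cls r k G Y := ⟨h.house.mono hY, h.free.mono hY, h.chb.mono hY⟩

theorem RL0.mono {G : SimpleGraph V} {X A : Set V} {k k' : ℕ} (hk : k ≤ k') (h : RL0 G X k A) :
    RL0 G X k' A := LT.mono (fun _ h => h.trans (by exact_mod_cast hk)) h

/-- **INTERFACE 1** (helper29): the classification for `r1`, `r3`, `r6`. -/
def S_OutP : Prop := ∀ r, r = r1 ∨ r = r3 ∨ r = r6 → ∀ k, OutC r (fun _ => RichP r) k (8 * k + 20)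

/-- **INTERFACE 2** (helper29): the classification for `r7`. -/
def S_Out7 : Prop := ∀ k, OutC r7 (fun _ => Rich7) k (8 * k + 20)

end Pool.Agent.MPd439b2.HC
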