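import Pool.Agent.Lib.MP_d439b2_co.HC.SpecE

/-!
# MP_d439b2_co, HC: the rows of the vertices in the core
-/

set_option autoImplicit false

namespace Pool.Agent.MPd439b2.HC

open Pool.Agent.MPd439b2
open Pool.Agent.MPd439b2.BU

namespace E10Aux

theorem key (h1 : S_E1) (h6 : S_E6) {V : Type} {G : SimpleGraph V} {X A : Set V} {𝒯 : Set (Set V)}
    {N : Set V → ℕ} {P : Set V → ℕ → V} (hF : Fam G X 𝒯 N P) (hAX : A ⊆ Xh G X 𝒯 N P) {a b : V}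
    (ha : a ∈ A) (hb : b ∈ A)
    (hex : ∀ T ∈ 𝒯, P T 1 ∈ A → P T 2 ∉ A → a ≠ P T 0 ∧ a ≠ P T 1 ∧ b ≠ P T 0 ∧ b ≠ P T 1)
    (hrow : (G.neighborSet a ∩ Xh G X 𝒯 N P) \ A = (G.neighborSet b ∩ Xh G X 𝒯 N P) \ A) :
    (G.neighborSet a ∩ X) \ (⋃ y ∈ A, Hg G X 𝒯 N P y) ⊆
      (G.neighborSet b ∩ X) \ (⋃ y ∈ A, Hg G X 𝒯 N P y) := by
  rintro x ⟨⟨hax, hx⟩, hxA'⟩
  refine ⟨⟨?_, hx⟩, hxA'⟩
  obtain ⟨e1, e2, e3, e4, e5⟩ := h6 V G X 𝒯 N P hF
  have hxA : x ∉ A := by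
    intro h
    apply hxA'
    rw [Set.mem_iUnion₂]
    exact ⟨x, h, Or.inl rfl⟩
  have hrow' : ∀ y ∈ Xh G X 𝒯 N P, y ∉ A → G.Adj a y → G.Adj b y := by
    intro y hy hyA h
    have h' : y ∈ (G.neighborSet a ∩ Xh G X 𝒯 N P) \ A := ⟨⟨h, hy⟩, hyA⟩
    rw [hrow] at h'
    exact h'.1.1
  by_cases hxX : x ∈ Xh G X 𝒯 N P
  · exact hrow' x hxX hxA hax
  · have hex2 : ∃ T ∈ 𝒯, x ∈ Yb G X (N T) (P T) ∧ x ≠ P T 1 ∧ x ≠ P T 2 := by
      by_contra h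
      exact hxX ⟨hx, h⟩
    obtain ⟨T, hT, hxY, hx1, hx2⟩ := hex2
    have hT2 : P T 2 ∉ A := by
      intro h
      apply hxA'
      rw [Set.mem_iUnion₂]
      exact ⟨P T 2, h, Or.inr ⟨T, hT, rfl, hxY, hx1⟩⟩
    obtain ⟨f0, f1, f2, fU⟩ := e1 T hT
    have hear := hF.ear T hT
    have hn := hear.n4
    obtain ⟨g1, g2, g3, g4, g5, g6⟩ := h1 V G X (N T) (P T) hear
    have haY : a ∉ Yb G X (N T) (P T) := by
      intro haY
      have h3 : a = P T 1 ∨ a = P T 2 := by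
        by_contra hcon
        push Not at hcon
        exact (hAX ha).2 ⟨T, hT, haY, hcon.1, hcon.2⟩
      rcases h3 with h3 | h3
      · have hT1 : P T 1 ∈ A := by rw [← h3]; exact ha
        exact (hex T hT hT1 hT2).2.1 h3
      · apply hT2
        rw [← h3]; exact ha
    have hY1 : P T 1 ∈ Yb G X (N T) (P T) := Or.inl ⟨1, le_rfl, by omega, rfl⟩
    have hY2 : P T 2 ∈ Yb G X (N T) (P T) := Or.inl ⟨2, by omega, by omega, rfl⟩
    rcases g1 x hxY a (hAX ha).1 haY hax.symm with h3 | h3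
    · -- `a = P T 0`
      have hT1 : P T 1 ∉ A := fun h => (hex T hT h hT2).1 h3
      have ha1 : G.Adj a (P T 1) := by
        rw [h3]
        exact (hear.ic.2.2 0 (by omega) 1 (by omega)).2 (Or.inl rfl)
      have hb1 := hrow' _ f1 hT1 ha1
      rcases ((e3 T hT b (hAX hb)).2).1 hb1.symm with h4 | h4 | h4
      · rw [h4, ← h3]; exact hax
      · exfalso
        apply hT2
        rw [← h4]; exact hb
      · exact (g2 b h4).2 x hxY
    · -- `a ∈ U`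
      have hb2 := hrow' _ f2 hT2 ((g2 a h3).2 _ hY2)
      rcases ((e3 T hT b (hAX hb)).1).1 hb2.symm with h4 | h4
      · exfalso
        have hT1 : P T 1 ∈ A := by rw [← h4]; exact hb
        exact (hex T hT hT1 hT2).2.2.2 h4
      · exact (g2 b h4).2 x hxY

end E10Aux

/-- **E10.** -/
theorem e10 (h1 : S_E1) (h6 : S_E6) : S_E10 := by
  intro V G X A 𝒯 N P hF hAX a ha b hb hex hrow
  apply Set.Subset.antisymm
  · exact E10Aux.key h1 h6 hF hAX ha hb hex hrow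
  · exact E10Aux.key h1 h6 hF hAX hb ha (fun T hT h1 h2 =>
      ⟨(hex T hT h1 h2).2.2.1, (hex T hT h1 h2).2.2.2, (hex T hT h1 h2).1, (hex T hT h1 h2).2.1⟩)
      hrow.symm

end Pool.Agent.MPd439b2.HC
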