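import Pool.Agent.Lib.MP_d439b2_co.HC.SpecE
import Pool.Agent.Lib.MP_d439b2_co.HC.E5

/-!
# MP_d439b2_co, HC: Theorem E (graphs all of whose long cycles are ears)
-/

set_option autoImplicit false

namespace Pool.Agent.MPd439b2.HC

open Pool.Agent.MPd439b2
open Pool.Agent.MPd439b2.BU

/-- **Theorem E.** -/
theorem earThm (h5 : S_E5') (h6 : S_E6) (h7 : S_E7) (h11 : S_E11) : S_Ear := by
  intro V _ G X k hA hC
  rcases isEmpty_or_nonempty V with hVe | hVn
  · have hX0 : X = ∅ := Set.eq_empty_of_isEmpty X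
    subst hX0
    exact RL0.mono (by omega) (hC ∅ (Set.Subset.refl _) (fun n hn p _ => (hVe.false (p 0)).elim))
  obtain ⟨𝒯, N, P, hF⟩ := h5 V G X hA
  obtain ⟨e1, e2, e3, e4, e5⟩ := h6 V G X 𝒯 N P hF
  have hXh : RL0 G (Xh G X 𝒯 N P) k (Xh G X 𝒯 N P) :=
    hC (Xh G X 𝒯 N P) Set.sdiff_subset hF.core
  have hB : ∀ y ∈ Xh G X 𝒯 N P, RL0 G X (8 * k + 20) (Hg G X 𝒯 N P y) := by
    intro y hy
    by_cases hex : ∃ T ∈ 𝒯, y = P T 2
    · obtain ⟨T, hT, rfl⟩ := hex
      have hear := hF.ear T hT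
      have hn := hear.n4
      have hY2 : P T 2 ∈ Yb G X (N T) (P T) := Or.inl ⟨2, by omega, by omega, rfl⟩
      have hne : P T 2 ≠ P T 1 := by
        intro h
        have := hear.ic.2.1 2 (by omega) 1 (by omega) h
        omega
      have hHg : Hg G X 𝒯 N P (P T 2) = Yb G X (N T) (P T) \ {P T 1} := by
        ext x
        constructor
        · rintro (h | ⟨T', hT', h1, h2, h3⟩)
          · rw [h]
            exact ⟨hY2, hne⟩
          · have := e2 T hT T' hT' h1
            subst this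
            exact ⟨h2, h3⟩
        · rintro ⟨h1, h2⟩
          exact Or.inr ⟨T, hT, rfl, h1, h2⟩
      rw [hHg]
      exact RL0.mono (by omega) (h7 V G X (N T) (P T) hear)
    · have hHg : Hg G X 𝒯 N P y = {y} := by
        ext x
        constructor
        · rintro (h | ⟨T', hT', h1, h2, h3⟩)
          · exact h
          · exact absurd ⟨T', hT', h1⟩ hex
        · intro h
          exact Or.inl h
      rw [hHg]
      exact LT.single y
  have h := LT.exp hXh (Hg G X 𝒯 N P) e4 hB (fun A hAX hR =>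
    (h11 V G X A 𝒯 N P k hF hAX hR).trans (by exact_mod_cast (by omega : 8 * k + 1 ≤ 8 * k + 20)))
  rw [e5] at h
  exact h

end Pool.Agent.MPd439b2.HC
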