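import Pool.Agent.Lib.MP_d439b2_co.HC.SpecC

/-!
# MP_d439b2_co, HC, A2: BASE, a connected set `Q`, vertices `u`, `z`
-/

set_option autoImplicit false

namespace Pool.Agent.MPd439b2.HC

open Pool.Agent.MPd439b2
open Pool.Agent.MPd439b2.BU

namespace qA2Aux

/-- a code is determined by its bits -/
theorem code_eq {n t c : ℕ} (ht : t < 2 ^ n) (hc : c < 2 ^ n)
    (h : ∀ j < n, (t.testBit j = true ↔ c.testBit j = true)) : t = c := by
  refine Nat.eq_of_testBit_eq fun j => ?_
  by_cases hj : j < n
  · exact Bool.eq_iff_iff.mpr (h j hj)
  · have h1 : 2 ^ n ≤ 2 ^ j := Nat.pow_le_pow_right (by norm_num) (by omega)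
    rw [Nat.testBit_lt_two_pow (by omega), Nat.testBit_lt_two_pow (by omega)]

end qA2Aux

open qA2Aux in
/-- **A2.** -/
theorem qA2 : S_A2 := by
  intro V G X S x y u z Q r hr hH hF hB hQc hQX hQ hxQ hyQ hxQ' hyQ' huX hu hux huy huQ huQ' hzX hz
    hzx hzy hzx' hzy' hzQ hzQ'
  by_contra huz
  have s4 : ∀ j < 4, Sxy S x y j = S j := fun j hj => if_pos hj
  have s4' : Sxy S x y 4 = {x} := rfl
  have s5' : Sxy S x y 5 = {y} := rfl
  have hd1 : ∀ j < 6, Disjoint Q (Sxy S x y j) := by
    intro j hj
    by_cases h4 : j < 4
    · rw [s4 j h4]
      exact (hQ j h4).1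
    · by_cases h5 : j = 4
      · subst h5
        rw [s4']
        exact Set.disjoint_singleton_right.2 hxQ
      · have h6 : j = 5 := by omega
        subst h6
        rw [s5']
        exact Set.disjoint_singleton_right.2 hyQ
  obtain ⟨t1, ht1, hb1, hsp1⟩ := snocS hB.sp rfl hQc hQX hd1
  have e1 : t1 = 15 := by
    refine code_eq ht1 (by norm_num) fun j hj => (hb1 j hj).symm.trans ?_
    by_cases h4 : j < 4
    · rw [s4 j h4]
      refine iff_of_true (hQ j h4).2 ?_
      interval_cases j <;> decide
    · by_cases h5 : j = 4
      · subst h5
        rw [s4']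
        exact iff_of_false (fun h => hxQ' h.symm) (by decide)
      · have h6 : j = 5 := by omega
        subst h6
        rw [s5']
        exact iff_of_false (fun h => hyQ' h.symm) (by decide)
  subst e1
  have hd2 : ∀ j < 7, u ∉ (fun i => if i < 6 then Sxy S x y i else Q) j := by
    intro j hj
    by_cases h6 : j < 6
    · simp only [h6, if_true]
      by_cases h4 : j < 4
      · rw [s4 j h4]
        exact (hu j h4).1
      · by_cases h5 : j = 4
        · subst h5
          rw [s4']
          exact fun h => hux.ne (Set.mem_singleton_iff.mp h)
        · have h7 : j = 5 := by omega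
          subst h7
          rw [s5']
          exact fun h => huy.ne (Set.mem_singleton_iff.mp h)
    · simp only [h6, if_false]
      exact huQ
  obtain ⟨t2, ht2, hb2, hsp2⟩ := snocV hsp1 rfl huX hd2
  have e2 : t2 = 127 := by
    refine code_eq ht2 (by norm_num) fun j hj => (hb2 j hj).symm.trans ?_
    refine iff_of_true ?_ (by interval_cases j <;> decide)
    by_cases h6 : j < 6
    · simp only [h6, if_true]
      by_cases h4 : j < 4
      · rw [s4 j h4]
        exact (hu j h4).2
      · by_cases h5 : j = 4
        · subst h5
          rw [s4']
          exact tch_single.2 hux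
        · have h7 : j = 5 := by omega
          subst h7
          rw [s5']
          exact tch_single.2 huy
    · simp only [h6, if_false]
      exact huQ'
  subst e2
  have hzu : z ≠ u := by
    rintro rfl
    exact (hz 0 (by omega)).2 (hu 0 (by omega)).2
  have hd3 : ∀ j < 8, z ∉ (fun i => if i < 7 then (fun i => if i < 6 then Sxy S x y i else Q) i
      else {u}) j := by
    intro j hj
    by_cases h7 : j < 7
    · simp only [h7, if_true]
      by_cases h6 : j < 6
      · simp only [h6, if_true]
        by_cases h4 : j < 4
        · rw [s4 j h4]
          exact (hz j h4).1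
        · by_cases h5 : j = 4
          · subst h5
            rw [s4']
            exact fun h => hzx (Set.mem_singleton_iff.mp h)
          · have h7 : j = 5 := by omega
            subst h7
            rw [s5']
            exact fun h => hzy (Set.mem_singleton_iff.mp h)
      · simp only [h6, if_false]
        exact hzQ
    · simp only [h7, if_false]
      exact fun h => hzu (Set.mem_singleton_iff.mp h)
  obtain ⟨t3, ht3, hb3, hsp3⟩ := snocV hsp2 rfl hzX hd3
  have e3 : t3 = 64 := by
    refine code_eq ht3 (by norm_num) fun j hj => (hb3 j hj).symm.trans ?_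
    by_cases h7 : j < 7
    · simp only [h7, if_true]
      by_cases h6 : j < 6
      · simp only [h6, if_true]
        refine iff_of_false ?_ (by interval_cases j <;> decide)
        by_cases h4 : j < 4
        · rw [s4 j h4]
          exact (hz j h4).2
        · by_cases h5 : j = 4
          · subst h5
            rw [s4']
            exact fun h => hzx' (tch_single.1 h)
          · have h7 : j = 5 := by omega
            subst h7
            rw [s5']
            exact fun h => hzy' (tch_single.1 h)
      · simp only [h6, if_false]
        refine iff_of_true hzQ' ?_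
        have h8 : j = 6 := by omega
        subst h8
        decide
    · simp only [h7, if_false]
      have h8 : j = 7 := by omega
      subst h8
      exact iff_of_false (fun h => huz (tch_single.1 h).symm) (by decide)
  subst e3
  refine kill hH hF hsp3 rfl csK ?_
  rcases hr with rfl | rfl | rfl <;> decide

end Pool.Agent.MPd439b2.HC
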