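import Pool.Agent.Lib.MP_d439b2_co.HC.SpecC
import Pool.Agent.Lib.MP_d439b2_co.B.Path

/-!
# MP_d439b2_co, HC: arms (`S_B7`)
-/

set_option autoImplicit false

namespace Pool.Agent.MPd439b2.HC

open Pool.Agent.MPd439b2
open Pool.Agent.MPd439b2.BU

namespace qB7Aux

variable {V : Type}

/-- the last `k` vertices of a path and one more vertex -/
def Tl (p : ℕ → V) (l : ℕ) (a : V) (k : ℕ) : Set V := {v | v = a ∨ ∃ i, l + 1 ≤ i + k ∧ i ≤ l ∧ v = p i}

theorem conn_tl (G : SimpleGraph V) (p : ℕ → V) (l : ℕ) (a : V)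
    (hadj : ∀ i < l, G.Adj (p i) (p (i + 1))) (ha : G.Adj (p l) a) :
    ∀ k ≤ l + 1, Conn G (Tl p l a k) := by
  intro k
  induction k with
  | zero =>
    intro _
    have h : Tl p l a 0 = {a} := by
      ext v
      simp only [Tl, Set.mem_setOf_eq, Set.mem_singleton_iff]
      constructor
      · rintro (h | ⟨i, hi, hi', _⟩)
        · exact h
        · omega
      · intro h
        exact Or.inl h
    rw [h]
    exact Conn.singleton G a
  | succ k ih =>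
    intro hk
    have h : Tl p l a (k + 1) = insert (p (l - k)) (Tl p l a k) := by
      ext v
      simp only [Tl, Set.mem_setOf_eq, Set.mem_insert_iff]
      constructor
      · rintro (h | ⟨i, hi, hi', h⟩)
        · exact Or.inr (Or.inl h)
        · by_cases hik : l + 1 ≤ i + k
          · exact Or.inr (Or.inr ⟨i, hik, hi', h⟩)
          · left
            rw [h]
            congr 1
            omega
      · rintro (h | h | ⟨i, hi, hi', h⟩)
        · exact Or.inr ⟨l - k, by omega, by omega, h⟩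
        · exact Or.inl h
        · exact Or.inr ⟨i, by omega, hi', h⟩
    rw [h]
    apply (ih (by omega)).insert
    rcases Nat.eq_zero_or_pos k with h0 | h0
    · subst h0
      exact ⟨a, Or.inl rfl, ha.symm⟩
    · refine ⟨p (l - k + 1), Or.inr ⟨l - k + 1, by omega, by omega, rfl⟩, ?_⟩
      exact (hadj (l - k) (by omega)).symm

/-- the path of a vertex of `FB` to the block -/
theorem pth (h1 : S_B1) (h2 : S_B3) (G : SimpleGraph V) (X W K : Set V) (hM : MaxW G X W)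
    (hK : Blk G W K) (x : V) (hx : x ∈ FB G X W K) :
    ∃ (l : ℕ) (p : ℕ → V) (a o : V), p 0 = x ∧ (∀ i ≤ l, p i ∈ FB G X W K ∧ p i ∉ K) ∧
      (∀ i ≤ l, ∀ j ≤ l, p i = p j → i = j) ∧ (∀ i < l, G.Adj (p i) (p (i + 1))) ∧
      (∀ i ≤ l, (∃ w ∈ K, G.Adj (p i) w) → i = l) ∧ a ∈ K ∧ o ∈ K ∧ G.Adj (p l) a ∧
      ¬ G.Adj (p l) o ∧ a ≠ o ∧ ¬ G.Adj a o := by
  obtain ⟨D, hD, hDc, hxD, hDK⟩ := hx
  obtain ⟨d, hd, w, hw, hdw⟩ := id hDK
  obtain ⟨l, p, hp0, hpl, hpD, hinj, hadj, hX, hY⟩ := path V G D {x} {v | ∃ w ∈ K, G.Adj v w} hDc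
    ⟨x, hxD, rfl⟩ ⟨d, hd, w, hw, hdw⟩
  obtain ⟨b1, b2, b3, b4, b5, b6, b7⟩ := h1 V G W
  have hKW : K ⊆ W := (b1 K hK).1
  obtain ⟨g1, hg1, hg1'⟩ := hpl
  obtain ⟨g2, hg2, hg2'⟩ := h2 V G X W K (p l) hM hK (hD (hpD l le_rfl)).1 (hD (hpD l le_rfl)).2
  obtain ⟨a, ha, o, ho, hga, hgo, hao, hao'⟩ := b7 K hK (p l) ⟨g1, hg1, hg1'⟩ ⟨g2, hg2, hg2'⟩
  refine ⟨l, p, a, o, hp0, fun i hi => ⟨⟨D, hD, hDc, hpD i hi, hDK⟩,
    fun h => (hD (hpD i hi)).2 (hKW h)⟩, hinj, fun i hi => ?_, fun i hi h => hY i hi h, ha, ho, hga,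
    hgo, hao, hao'⟩
  exact (hadj i (by omega) (i + 1) (by omega)).2 (Or.inr rfl)

/-- the tails of the path are arms -/
theorem arm (G : SimpleGraph V) (X W K : Set V) (l : ℕ) (p : ℕ → V) (a o : V)
    (hF : ∀ i ≤ l, p i ∈ FB G X W K ∧ p i ∉ K) (hadj : ∀ i < l, G.Adj (p i) (p (i + 1)))
    (hl : ∀ i ≤ l, (∃ w ∈ K, G.Adj (p i) w) → i = l) (ha : a ∈ K) (ho : o ∈ K)
    (hla : G.Adj (p l) a) (hlo : ¬ G.Adj (p l) o) (hao : a ≠ o) (hao' : ¬ G.Adj a o) (k : ℕ)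
    (hk : k ≤ l + 1) : Arm G X W K (Tl p l a k) o ∧ Tl p l a k ∩ K = {a} := by
  refine ⟨⟨?_, conn_tl G p l a hadj hla k hk, ⟨a, Or.inl rfl, ha⟩, ho, ?_, ?_⟩, ?_⟩
  · rintro v (h | ⟨i, _, hi, h⟩)
    · rw [h]
      exact Or.inl ha
    · rw [h]
      exact Or.inr (hF i hi).1
  · rintro (h | ⟨i, _, hi, h⟩)
    · exact hao h.symm
    · exact (hF i hi).2 (h ▸ ho)
  · rintro ⟨v, hv, w, hw, hvw⟩
    rw [Set.mem_singleton_iff] at hw
    subst hw
    rcases hv with h | ⟨i, _, hi, h⟩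
    · rw [h] at hvw
      exact hao' hvw
    · rw [h] at hvw
      have hil := hl i hi ⟨w, ho, hvw⟩
      rw [hil] at hvw
      exact hlo hvw
  · ext v
    simp only [Set.mem_inter_iff, Set.mem_singleton_iff]
    constructor
    · rintro ⟨h | ⟨i, _, hi, h⟩, hv⟩
      · exact h
      · rw [h] at hv
        exact absurd hv (hF i hi).2
    · intro h
      rw [h]
      exact ⟨Or.inl rfl, ha⟩

end qB7Aux

open qB7Aux in
theorem qB7 (h1 : S_B1) (h2 : S_B3) (_h3 : S_FB) : S_B7 := by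
  intro V G X W K hM hK
  obtain ⟨b1, b2, b3, b4, b5, b6, b7⟩ := h1 V G W
  refine ⟨fun x hx => ?_, fun c hc => ?_⟩
  · obtain ⟨l, p, a, o, h0, hF, hinj, hadj, hl, ha, ho, hla, hlo, hao, hao'⟩ :=
      pth h1 h2 G X W K hM hK x hx
    obtain ⟨hA, hA'⟩ := arm G X W K l p a o hF hadj hl ha ho hla hlo hao hao' l (by omega)
    refine ⟨Tl p l a l, a, o, hA, hA', ?_, ?_, ?_, ?_⟩
    · rintro (h | ⟨i, hi, hi', h⟩)
      · rw [← h0] at h
        exact (hF 0 (by omega)).2 (h ▸ ha)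
      · rw [← h0] at h
        have := hinj 0 (by omega) i hi' h
        omega
    · rw [← h0]
      rcases Nat.eq_zero_or_pos l with hl0 | hl0
      · subst hl0
        exact ⟨p 0, rfl, a, Or.inl rfl, hla⟩
      · exact ⟨p 0, rfl, p 1, Or.inr ⟨1, by omega, by omega, rfl⟩, hadj 0 hl0⟩
    · intro h
      rw [← h0] at h
      have := hl 0 (by omega) ⟨o, ho, h⟩
      subst this
      exact hlo h
    · rintro ⟨w, hw, hxw⟩
      rw [← h0] at hxw
      have := hl 0 (by omega) ⟨w, hw, hxw⟩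
      subst this
      ext v
      simp only [Tl, Set.mem_setOf_eq, Set.mem_singleton_iff]
      constructor
      · rintro (h | ⟨i, hi, hi', _⟩)
        · exact h
        · omega
      · intro h
        exact Or.inl h
  · rcases hc with hc | hc
    · obtain ⟨b, hb, hbc, hcb⟩ := b3 K hK c hc
      refine ⟨{c}, b, ⟨?_, Conn.singleton G c, ⟨c, rfl, hc⟩, hb, ?_, ?_⟩, rfl⟩
      · rintro v rfl
        exact Or.inl hc
      · exact hbc
      · rw [tch_single]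
        exact hcb
    · obtain ⟨l, p, a, o, h0, hF, hinj, hadj, hl, ha, ho, hla, hlo, hao, hao'⟩ :=
        pth h1 h2 G X W K hM hK c hc
      obtain ⟨hA, hA'⟩ := arm G X W K l p a o hF hadj hl ha ho hla hlo hao hao' (l + 1) le_rfl
      exact ⟨_, o, hA, Or.inr ⟨0, by omega, by omega, h0.symm⟩⟩

end Pool.Agent.MPd439b2.HC
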