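import Pool.Agent.Lib.MP_d439b2_co.HC.SpecC

/-!
# MP_d439b2_co, HC: the block `L` has two elements (`S_F7`)
-/

set_option autoImplicit false

namespace Pool.Agent.MPd439b2.HC

open Pool.Agent.MPd439b2
open Pool.Agent.MPd439b2.BU

theorem qF7 (h1 : S_B1) (h2 : S_B4) (h3 : S_FB) (h4 : S_B6) (h5 : S_SPb) (h6 : S_F3) (h7 : S_F4) :
    S_F7 := by
  intro V _ G X W K L u x T p o a b y hD
  obtain ⟨b1, b2, -, -, -, -, -⟩ := h1 V G W
  have hKW : K ⊆ W := (b1 K hD.bK).1
  have hLW : L ⊆ W := (b1 L hD.bL).1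
  have hdKL : Disjoint K L := b2 K L hD.bK hD.bL hD.KL
  have hp : p ∈ T ∩ K := by
    rw [hD.TK]
    rfl
  have hpo : p ≠ o := fun h => hD.arm.oT (h ▸ hp.1)
  obtain ⟨-, -, -, -, f5⟩ := h3 V G X W L K fun D hD' hDc hDt =>
    h2 V G X W L K D hD.hH hD.mw hD.bL hD.bK hD.KL.symm hD' hDc hDt
  have hi : ∀ z ∈ L, z ≠ b → G.Adj z y := by
    intro z hz hzb
    by_cases hza : z = a
    · rw [hza]
      exact hD.ya.symm
    · exact ((h6 V G X W K L u x T p o a b y hD).2.2.1 z hz hza hzb).1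
  have hw' : ∀ w ∈ L, w ≠ b → ¬ G.Adj w b → D7 G X W K L u x T p o w b y := by
    intro w hw hwb hnwb
    exact { hD with aL := hw, ab := hwb, nab := hnwb, ya := (hi w hw hwb).symm }
  have hii : ∀ z ∈ L, ¬ G.Adj z b := by
    intro z hz hzb
    obtain ⟨c, hc, w, hw, hbc, hbw, hcw, hncw⟩ := mixed_co hD.bL.1.2.1 ⟨z, hz, hzb.symm⟩
      ⟨b, hD.bL', G.loopless.irrefl b⟩
    have hwb : w ≠ b := by
      rintro rfl
      exact hncw hbc.symm
    exact hncw (((h6 V G X W K L u x T p o w b y (hw' w hw hwb fun h => hbw h.symm)).2.2.1 c hc hcw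
      hbc.ne.symm).2 hbc.symm)
  have hsub : (L \ {b}).Subsingleton := by
    by_contra hns
    obtain ⟨w1, hw1, w2, hw2, hne⟩ := Set.not_subsingleton_iff.1 hns
    have hcF : ∀ f ∈ FB G X W L, ∀ w ∈ L, w ≠ b → G.Adj f w := by
      intro f hf w hw hwb
      by_cases hfy : f = y
      · rw [hfy]
        exact (hi w hw hwb).symm
      · by_contra hfw
        have hDw := hw' w hw hwb (hii w hw)
        have hfb : G.Adj f b := ((h6 V G X W K L u x T p o w b y hDw).2.2.2.1 f hf hfy).1.resolve_left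
          hfw
        obtain ⟨z, hz, hzb, hzw⟩ : ∃ z ∈ L, z ≠ b ∧ z ≠ w := by
          by_cases h : w1 = w
          · exact ⟨w2, hw2.1, hw2.2, fun h' => hne (h.trans h'.symm)⟩
          · exact ⟨w1, hw1.1, hw1.2, h⟩
        exact hfw ((h7 V G X W K L u x T p o w b y hDw).2.2.1 z hz hzw hzb (hii z hz) f hf hfb)
    have hmod : Mod G X (L \ {b}) := by
      refine ⟨fun v hv => hD.mw.sub (hLW hv.1), ?_⟩
      intro z hzX hzM v hv v' hv' hzv
      by_cases hzW : z ∈ W
      · by_cases hzL : z ∈ L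
        · have hzb : z = b := by
            by_contra h
            exact hzM ⟨hzL, h⟩
          rw [hzb] at hzv
          exact absurd hzv.symm (hii v hv.1)
        · exact ((b1 L hD.bL).2 v' hv'.1 z hzW hzL).symm
      · exact hcF z (f5 z hzX hzW v hv.1 hzv) v' hv'.1 hv'.2
    have h4' := (h4 V G X W K hD.sp hD.mw hD.bK).1
    rcases (h5 V G X hD.sp h4').2.1 _ hmod with h | h
    · exact hns h
    · refine hpo (h ⟨hD.mw.sub (hKW hp.2), fun h' => ?_⟩ ⟨hD.mw.sub (hKW hD.arm.oK), fun h' => ?_⟩)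
      · exact Set.disjoint_left.1 hdKL hp.2 h'.1
      · exact Set.disjoint_left.1 hdKL hD.arm.oK h'.1
  ext v
  constructor
  · intro hv
    by_cases hvb : v = b
    · exact Or.inr hvb
    · left
      exact hsub ⟨hv, hvb⟩ ⟨hD.aL, hD.ab⟩
  · rintro (h | h)
    · rw [h]
      exact hD.aL
    · rw [h]
      exact hD.bL'

end Pool.Agent.MPd439b2.HC
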