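import Pool.Agent.Lib.MP_d439b2_co.HC.QH4
import Pool.Agent.Lib.MP_d439b2_co.HC.QH6

/-!
# MP_d439b2_co, HC: QH7, holes where `U` is not complete to the sets `FB` (helper53)
-/

set_option autoImplicit false

namespace Pool.Agent.MPd439b2.HC

open Pool.Agent.MPd439b2
open Pool.Agent.MPd439b2.BU

theorem qH7 (hH2 : S_H2) (hH4 : S_H4) (hFB : S_FB) (hDel : S_Del) (hSP : S_SPb) (hA4 : S_A4)
    (hA5 : S_A5) (hB5 : BU.S_B5) : S_H7 := by
  intro V _ G X n i c u x hH h7 hspr hn hic hi hcl _ hu hx hux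
  have hfb := fun {i k : ℕ} (hi : i < n) (hk : k < n) (hik : i ≠ k) =>
    q4fb hH2 hFB hH hn hic hi hk hik
  have hvs := qH6Aux.vs_rot c hi
  have huc : UC G X n (fun k => c ((k + i) % n)) = UC G X n c := qH6Aux.uc_of_vs hvs
  have hcX : ∀ k < n, c k ∈ X := hic.1
  have hoth : ∃ k < n, i ≠ k := by
    by_cases h : i = 0
    · exact ⟨1, by omega, by omega⟩
    · exact ⟨0, by omega, h⟩
  obtain ⟨k₀, hk₀, hik₀⟩ := hoth
  have hxX := (hfb hi hk₀ hik₀).2.2.1 x hx
  have hcW : ∀ k < n, c k ∈ Vs n c ∪ UC G X n c := fun k hk => Or.inl ⟨k, hk, rfl⟩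
  obtain ⟨T, hT, hTc, hciT, hxT, htx⟩ := q4arm hDel hx (hcW i hi)
  -- the base pattern for `x`, `y` with an arm `T'`
  have hbase : ∀ j < n, i ≠ j → ∀ y ∈ FB G X (Vs n c ∪ UC G X n c) {c j}, ∀ T' : Set V,
      T' ⊆ {c j} ∪ FB G X (Vs n c ∪ UC G X n c) {c j} → Conn G T' → c j ∈ T' → y ∉ T' →
      Tch G {y} T' → ∃ S : ℕ → Set V, Bas G X S x y ∧ (∀ k < 4, S k ⊆ Vs n c ∪ (T ∪ T')) ∧
        ∀ u ∈ UC G X n c, Ful G S u := by
    intro j hj hij y hy T' hT' hTc' hcjT' hyT' hty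
    obtain ⟨ij1, ij2, ij3, ij4, ij5⟩ := hfb hi hj hij
    obtain ⟨ji1, ji2, ji3, ji4, ji5⟩ := hfb hj hi hij.symm
    have hyX := ji3 y hy
    have hx1 : x ∉ T' := by
      intro h
      rcases hT' h with h' | h'
      · rw [Set.mem_singleton_iff] at h'
        exact hxX.2 (h' ▸ hcW j hj)
      · exact (ij1 x hx x h').1 rfl
    have hx2 : ¬ Tch G {x} T' := by
      rw [tch_single_left]
      rintro ⟨w, hw, hxw⟩
      rcases hT' hw with h' | h'
      · rw [Set.mem_singleton_iff] at h'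
        rw [h'] at hxw
        exact ij2 x hx hxw
      · exact (ij1 x hx w h').2 hxw
    have hx3 : ∀ k < n, k ≠ i → ¬ G.Adj x (c k) := by
      intro k hk hki
      exact (hfb hi hk hki.symm).2.1 x hx
    have hy1 : y ∉ T := by
      intro h
      rcases hT h with h' | h'
      · rw [Set.mem_singleton_iff] at h'
        exact hyX.2 (h' ▸ hcW i hi)
      · exact (ji1 y hy y h').1 rfl
    have hy2 : ¬ Tch G {y} T := by
      rw [tch_single_left]
      rintro ⟨w, hw, hxw⟩
      rcases hT hw with h' | h'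
      · rw [Set.mem_singleton_iff] at h'
        rw [h'] at hxw
        exact ji2 y hy hxw
      · exact (ji1 y hy w h').2 hxw
    have hy3 : ∀ k < n, k ≠ j → ¬ G.Adj y (c k) := by
      intro k hk hkj
      exact (hfb hj hk hkj.symm).2.1 y hy
    obtain ⟨S, hS, _, _, hSs, hSu⟩ := hH4 V G X T T' X n i j c x y hH hn hic hi hj hij hT hTc
      hciT hT' hTc' hcjT' subset_rfl hxX.1 hyX.1 (ij1 x hx y hy).1 (ij1 x hx y hy).2
      ⟨hxT, hx1, fun h => hxX.2 (Or.inl h), htx, hx2, hx3⟩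
      ⟨hy1, hyT', fun h => hyX.2 (Or.inl h), hy2, hty, hy3⟩
    exact ⟨S, hS, hSs, hSu⟩
  -- (1)
  have h1 : ∀ j < n, i ≠ j → ∀ u' ∈ UC G X n c, ∀ y ∈ FB G X (Vs n c ∪ UC G X n c) {c j},
      G.Adj u' y := by
    intro j hj hij u' hu' y hy
    obtain ⟨T', hT', hTc', hcjT', hyT', hty⟩ := q4arm hDel hy (hcW j hj)
    obtain ⟨S, hS, hSs, hSu⟩ := hbase j hj hij y hy T' hT' hTc' hcjT' hyT' hty
    exact ((hA4 V G X S x y hH h7 hS).2 u hu.1 (hSu u hu) u' hu'.1 (hSu u' hu')).resolve_left hux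
  -- (2)
  have h2 : ∀ j < n, i ≠ j → ∀ z ∈ FB G X (Vs n c ∪ UC G X n c) {c j}, G.Adj z (c j) := by
    intro j hj hij z hz
    obtain ⟨ij1, ij2, ij3, ij4, ij5⟩ := hfb hi hj hij
    obtain ⟨ji1, ji2, ji3, ji4, ji5⟩ := hfb hj hi hij.symm
    by_contra hzc
    obtain ⟨D, hD, hDc, hzD, y, hyD, w, hw, hyw⟩ := hz
    rw [Set.mem_singleton_iff] at hw
    rw [hw] at hyw
    have hDF : ∀ d ∈ D, d ∈ FB G X (Vs n c ∪ UC G X n c) {c j} := fun d hd =>
      ⟨D, hD, hDc, hd, y, hyD, c j, rfl, hyw⟩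
    have hyF := hDF y hyD
    have hzF := hDF z hzD
    have hyz : y ≠ z := by
      rintro rfl
      exact hzc hyw
    have hyX := ji3 y hyF
    have hzX := ji3 z hzF
    obtain ⟨S, hS, hSs, hSu⟩ := hbase j hj hij y hyF {c j} (fun z hz => Or.inl hz)
      (Conn.singleton G (c j)) rfl
      (fun h => hyX.2 (by rw [Set.mem_singleton_iff] at h; rw [h]; exact hcW j hj))
      (tch_single.2 hyw)
    have hcz : ∀ k < n, ¬ G.Adj z (c k) := by
      intro k hk
      by_cases hkj : k = j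
      · rw [hkj]
        exact hzc
      · exact (hfb hj hk fun h => hkj h.symm).2.1 z hzF
    have hSz : ∀ k < 4, z ∉ S k ∧ ¬ Tch G {z} (S k) := by
      intro k hk
      constructor
      · intro h
        rcases hSs k hk h with h' | h' | h'
        · exact hzX.2 (Or.inl h')
        · rcases hT h' with h'' | h''
          · rw [Set.mem_singleton_iff] at h''
            exact hzX.2 (h'' ▸ hcW i hi)
          · exact (ji1 z hzF z h'').1 rfl
        · rw [Set.mem_singleton_iff] at h'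
          exact hzX.2 (h' ▸ hcW j hj)
      · rw [tch_single_left]
        rintro ⟨w, hw, hzw⟩
        rcases hSs k hk hw with ⟨m, hm, h'⟩ | h' | h'
        · exact hcz m hm (h'.symm ▸ hzw)
        · rcases hT h' with h'' | h''
          · rw [Set.mem_singleton_iff] at h''
            exact hcz i hi (h'' ▸ hzw)
          · exact (ji1 z hzF w h'').2 hzw
        · rw [Set.mem_singleton_iff] at h'
          exact hcz j hj (h' ▸ hzw)
    have huz : u ≠ z := by
      rintro rfl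
      exact hzX.2 (Or.inr hu)
    have hB7 : B7 G X S x y u := ⟨hH, h7, hS, hu.1, hSu u hu, hux, h1 j hj hij u hu y hyF⟩
    have hOb : Ob X S x y u z := ⟨hzX.1, fun k hk => (hSz k hk).1,
      fun h => (ij1 x hx z hzF).1 h.symm, hyz.symm, huz.symm⟩
    have h5 := ((hA5 V G X S x y u z hB7 hOb).2.2.2.1 (hSz 0 (by omega)).2 (hSz 1 (by omega)).2
      (h1 j hj hij u hu z hzF).symm (fun h => (ij1 x hx z hzF).2 h.symm)).1
    rcases h5 with h5 | h5
    · exact (hSz 2 (by omega)).2 h5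
    · exact (hSz 3 (by omega)).2 h5
  -- (3)
  have h4 : 4 ≤ X.ncard := by
    have h5 : (c '' Set.Iio n).ncard = n := by
      have h7 : Set.InjOn c (Set.Iio n) := fun a ha b hb h => hic.2.1 a ha b hb h
      rw [h7.ncard_image]
      rw [Set.ncard_eq_toFinset_card', Set.toFinset_Iio, Nat.card_Iio]
    have h6 : c '' Set.Iio n ⊆ X := by
      rintro _ ⟨k, hk, rfl⟩
      exact hcX k hk
    have := Set.ncard_le_ncard h6 X.toFinite
    omega
  have h3 : ∀ j < n, i ≠ j → (FB G X (Vs n c ∪ UC G X n c) {c j}).Subsingleton := by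
    intro j hj hij
    obtain ⟨ji1, ji2, ji3, ji4, ji5⟩ := hfb hj hi hij.symm
    have hmod : Mod G X (FB G X (Vs n c ∪ UC G X n c) {c j}) := by
      refine ⟨fun z hz => (ji3 z hz).1, ?_⟩
      intro y hyX hyF a ha b hb hya
      by_cases hyW : y ∈ Vs n c ∪ UC G X n c
      · rcases hyW with ⟨k, hk, rfl⟩ | hyU
        · by_cases hkj : k = j
          · subst hkj
            exact (h2 k hk hij b hb).symm
          · exact absurd hya.symm ((hfb hj hk fun h => hkj h.symm).2.1 a ha)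
        · exact h1 j hj hij y hyU b hb
      · exact absurd (ji4 a ha y hyX hyW hya.symm) hyF
    refine ((hSP V G X hspr h4).2.1 _ hmod).resolve_right ?_
    intro h
    have h01 : c 0 = c 1 := by
      refine h ⟨hcX 0 (by omega), fun h' => (ji3 _ h').2 (hcW 0 (by omega))⟩
        ⟨hcX 1 (by omega), fun h' => (ji3 _ h').2 (hcW 1 (by omega))⟩
    have := hic.2.1 0 (by omega) 1 (by omega) h01
    omega
  -- (4)
  have hoff : ∀ z, Off G X n (fun k => c ((k + i) % n)) z → z ∉ Vs n c ∪ UC G X n c := by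
    rintro z ⟨hz, hz1, hz2⟩ (h | h)
    · rw [← hvs] at h
      obtain ⟨j, hj', h3⟩ := h
      exact hz1 j hj' h3.symm
    · rw [← huc] at h
      exact hz2 h
  have hidx : ∀ k, 1 ≤ k → k < n → (k + i) % n < n ∧ i ≠ (k + i) % n := by
    intro k hk1 hk
    refine ⟨Nat.mod_lt _ (by omega), ?_⟩
    by_cases h : k + i < n
    · rw [Nat.mod_eq_of_lt h]; omega
    · rw [Nat.mod_eq_sub_mod (by omega), Nat.mod_eq_of_lt (by omega)]; omega
  have hinF : ∀ z, Off G X n (fun k => c ((k + i) % n)) z → ∀ k, 1 ≤ k → k < n →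
      G.Adj z (c ((k + i) % n)) → z ∈ FB G X (Vs n c ∪ UC G X n c) {c ((k + i) % n)} := by
    intro z hz k hk1 hk hadj
    obtain ⟨hj, hij⟩ := hidx k hk1 hk
    exact (hfb hj hi hij.symm).2.2.2.2 z hz.1 (hoff z hz) hadj
  refine ⟨fun k => c ((k + i) % n), hvs, ⟨by omega, hB5.1 V G X n i c hic hi, ?_, ?_, ?_⟩⟩
  · rw [huc]
    exact hcl
  · intro z hz k hk1 hk hadj y hyX
    obtain ⟨hj, hij⟩ := hidx k hk1 hk
    have hzF := hinF z hz k hk1 hk hadj
    obtain ⟨ji1, ji2, ji3, ji4, ji5⟩ := hfb hj hi hij.symm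
    rw [huc]
    constructor
    · intro hzy
      by_cases hyW : y ∈ Vs n c ∪ UC G X n c
      · rcases hyW with ⟨l, hl, rfl⟩ | hyU
        · left
          by_cases hlj : l = (k + i) % n
          · show c l = c ((k + i) % n)
            rw [hlj]
          · exact absurd hzy ((hfb hj hl fun h => hlj h.symm).2.1 z hzF)
        · exact Or.inr hyU
      · exfalso
        have hyF := ji4 z hzF y hyX hyW hzy
        have := h3 _ hj hij hzF hyF
        rw [this] at hzy
        exact G.loopless.irrefl _ hzy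
    · rintro (h | h)
      · rw [h]
        exact hadj
      · exact (h1 _ hj hij y h z hzF).symm
  · intro z hz z' hz' k hk1 hk hadj hadj'
    obtain ⟨hj, hij⟩ := hidx k hk1 hk
    exact h3 _ hj hij (hinF z hz k hk1 hk hadj) (hinF z' hz' k hk1 hk hadj')

end Pool.Agent.MPd439b2.HC
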