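import Pool.Agent.Lib.MP_d439b2_co.HC.SpecS

/-!
# MP_d439b2_co, HC: a full vertex can replace the representative of its fibre (S10)
-/

set_option autoImplicit false

namespace Pool.Agent.MPd439b2.HC

open Pool.Agent.MPd439b2 Pool.Agent.MPd439b2.BU

open Classical in
theorem s10 (h9 : S_Iso) : S_Rep := by
  intro V G X C F φ f h hf
  have hfX : f ∈ X := h.FX hf
  have hfC : φ f ∈ C := h.map f hfX
  have h3 : ∀ y ∈ C, y ≠ φ f → (G.Adj f y ↔ G.Adj (φ f) y) := by
    intro y hy hne
    have h1 := h.fix y hy
    rw [h.adj f hfX y (h.FX (h.cF hy)) (by rw [h1]; exact Ne.symm hne), h1]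
    exact ⟨fun h2 => h2.2.2, fun h2 => ⟨hf, h.cF hy, h2⟩⟩
  have h1 : ∃ φ', SR G X (insert f (C \ {φ f})) φ' F := by
    let φ' : V → V := fun x => if φ x = φ f then f else φ x
    have hp : ∀ x, φ x = φ f → φ' x = f := fun x hx => if_pos hx
    have hn : ∀ x, φ x ≠ φ f → φ' x = φ x := fun x hx => if_neg hx
    refine ⟨φ', ?_, h.FX, ?_, ?_, ?_⟩
    · rintro c (hc | hc)
      · rw [hc]; exact hf
      · exact h.cF hc.1
    · intro x hx
      by_cases hxf : φ x = φ f
      · rw [hp x hxf]
        exact Or.inl rfl
      · rw [hn x hxf]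
        exact Or.inr ⟨h.map x hx, hxf⟩
    · rintro c (hc | hc)
      · rw [hc]
        exact hp f rfl
      · have h1 := h.fix c hc.1
        rw [hn c (by rw [h1]; exact hc.2), h1]
    · intro x hx y hy hne
      have hne' : φ x ≠ φ y := by
        intro e
        apply hne
        change (if φ x = φ f then f else φ x) = if φ y = φ f then f else φ y
        rw [e]
      rw [h.adj x hx y hy hne']
      have key : G.Adj (φ x) (φ y) ↔ G.Adj (φ' x) (φ' y) := by
        by_cases hxf : φ x = φ f
        · have hyf : φ y ≠ φ f := fun e => hne' (hxf.trans e.symm)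
          rw [hp x hxf, hn y hyf, h3 _ (h.map y hy) hyf, hxf]
        · by_cases hyf : φ y = φ f
          · rw [hn x hxf, hp y hyf, G.adj_comm (φ x) f, h3 _ (h.map x hx) hxf, hyf, G.adj_comm]
          · rw [hn x hxf, hn y hyf]
      rw [key]
  -- the two remaining parts
  have h24 : (SPr G C → SPr G (insert f (C \ {φ f}))) ∧
      ∀ k, RL0 G (insert f (C \ {φ f})) k (insert f (C \ {φ f})) → RL0 G C k C := by
    by_cases hfin : f ∈ C
    · have he : insert f (C \ {φ f}) = C := by
        rw [h.fix f hfin, Set.insert_sdiff_singleton, Set.insert_eq_of_mem hfin]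
      rw [he]
      exact ⟨fun h => h, fun k h => h⟩
    · have hs : ∀ c ∈ C, c ≠ φ f → Equiv.swap (φ f) f c = c := fun c hc hne =>
        Equiv.swap_apply_of_ne_of_ne hne fun e => hfin (e ▸ hc)
      have himg : Equiv.swap (φ f) f '' C = insert f (C \ {φ f}) := by
        ext z
        constructor
        · rintro ⟨c, hc, rfl⟩
          by_cases hcf : c = φ f
          · rw [hcf, Equiv.swap_apply_left]
            exact Or.inl rfl
          · rw [hs c hc hcf]
            exact Or.inr ⟨hc, hcf⟩
        · rintro (hz | hz)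
          · exact ⟨φ f, hfC, by rw [Equiv.swap_apply_left, hz]⟩
          · exact ⟨z, hz.1, hs z hz.1 hz.2⟩
      have h5 := h9 V G C (Equiv.swap (φ f) f) (by
        intro x hx y hy
        by_cases hxf : x = φ f
        · by_cases hyf : y = φ f
          · rw [hxf, hyf]
            exact iff_of_false (fun e => e.ne rfl) fun e => e.ne rfl
          · rw [hs y hy hyf, hxf, Equiv.swap_apply_left]
            exact h3 y hy hyf
        · by_cases hyf : y = φ f
          · rw [hs x hx hxf, hyf, Equiv.swap_apply_left, G.adj_comm, h3 x hx hxf, G.adj_comm]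
          · rw [hs x hx hxf, hs y hy hyf])
      rw [himg] at h5
      exact h5
  exact ⟨h1, h24.1, h3, h24.2⟩

end Pool.Agent.MPd439b2.HC
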