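import Pool.Agent.Lib.MP_d439b2_co.HC.Defs

/-!
# MP_d439b2_co, HC: Part E, ears (helper22, note 2654, section 2)

Every `S_...` is a statement to be proved in its own file; the docstring contains the complete proof.
`x ~ y` means `G.Adj x y`.
-/

set_option autoImplicit false

namespace Pool.Agent.MPd439b2.HC

open Pool.Agent.MPd439b2
open Pool.Agent.MPd439b2.BU

variable {V : Type}

/-- the vertices of `X` which are complete to the cycle `p` -/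
def UC (G : SimpleGraph V) (X : Set V) (n : ℕ) (p : ℕ → V) : Set V :=
  {x | x ∈ X ∧ ∀ i < n, G.Adj x (p i)}

/-- `x` is neither on the cycle nor complete to it -/
def Off (G : SimpleGraph V) (X : Set V) (n : ℕ) (p : ℕ → V) (x : V) : Prop :=
  x ∈ X ∧ (∀ j < n, x ≠ p j) ∧ x ∉ UC G X n p

/-- the induced cycle `p` of length `n ≥ 4` is an ear with the free vertex `p 0` -/
structure EarS (G : SimpleGraph V) (X : Set V) (n : ℕ) (p : ℕ → V) : Prop where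
  n4 : 4 ≤ n
  ic : IC G X n p
  cl : ∀ x ∈ UC G X n p, ∀ y ∈ UC G X n p, x ≠ y → G.Adj x y
  pen : ∀ x, Off G X n p x → ∀ i, 1 ≤ i → i < n → G.Adj x (p i) →
    ∀ y ∈ X, (G.Adj x y ↔ y = p i ∨ y ∈ UC G X n p)
  uniq : ∀ x, Off G X n p x → ∀ x', Off G X n p x' → ∀ i, 1 ≤ i → i < n → G.Adj x (p i) →
    G.Adj x' (p i) → x = x'

/-- the vertices of a cycle -/
def Vs (n : ℕ) (p : ℕ → V) : Set V := {x | ∃ i < n, p i = x}

/-- all long induced cycles are ears (after a rotation) -/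
def AllEar (G : SimpleGraph V) (X : Set V) : Prop :=
  ∀ n p, 4 ≤ n → IC G X n p → ∃ p', Vs n p' = Vs n p ∧ EarS G X n p'

/-- the body of the ear: the cycle without `p 0`, with the pendant vertices -/
def Yb (G : SimpleGraph V) (X : Set V) (n : ℕ) (p : ℕ → V) : Set V :=
  {x | (∃ i, 1 ≤ i ∧ i < n ∧ x = p i) ∨ (Off G X n p x ∧ ∃ i, 1 ≤ i ∧ i < n ∧ G.Adj x (p i))}

/-- **E1.** One ear.

Proof. (1) `x = p i`: if `y = p j` then `j = 0` (`y ∉ Yb`); if `y` is not on the cycle and not in `UC` then `y` is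
`Off` and adjacent to `p i`, so `y ∈ Yb`: contradiction.  `x` pendant at `p i`: `pen`, `y ≠ p i` since `p i ∈ Yb`.
(2) `u ∈ UC`: `u ~ p i`; `x` pendant: `pen` with `y = u`.  `u ∉ Yb`: `u` is not on the cycle (`u ~ u` is false), not
`Off`.  (3) `p i ∈ X`, `Off .. x → x ∈ X`.  (4) `p 0 ~ p 1`.., `p 0` is on the cycle, `p 0 ≠ p i` for `1 ≤ i`, and `p 0` is
not `Off`.  (5) `cl` and the definition of `UC`.  (6) the pendant vertex `x` at `p i`: if also `x ~ p j`, `1 ≤ j`, then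
`p j = p i` or `p j ∈ UC` (`pen`), the latter is impossible. -/
def S_E1 : Prop := ∀ (V : Type) (G : SimpleGraph V) (X : Set V) (n : ℕ) (p : ℕ → V), EarS G X n p →
  (∀ x ∈ Yb G X n p, ∀ y ∈ X, y ∉ Yb G X n p → G.Adj x y → y = p 0 ∨ y ∈ UC G X n p) ∧
  (∀ u ∈ UC G X n p, u ∉ Yb G X n p ∧ ∀ x ∈ Yb G X n p, G.Adj u x) ∧
  Yb G X n p ⊆ X ∧ p 0 ∉ Yb G X n p ∧
  (∀ x ∈ insert (p 0) (UC G X n p), ∀ y ∈ insert (p 0) (UC G X n p), x ≠ y → G.Adj x y) ∧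
  ∀ x, Off G X n p x → ∀ i j, 1 ≤ i → i < n → 1 ≤ j → j < n → G.Adj x (p i) → G.Adj x (p j) → i = j

/-- **E2.** Long induced cycles and cliques.

Proof. (1) Suppose all `q j ∈ Q`.  `q 0 ≠ q 2`, not adjacent (`4 ≤ n`): contradiction.
(2) At most two vertices of the cycle are in `Q`, and they are consecutive (`q i, q j ∈ Q`, `i ≠ j`, are adjacent;
three pairwise adjacent vertices do not exist on a cycle of length `≥ 4`).  By rotation (`BU.b5 : S_B5`, first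
part) we may assume that `{j < n | q j ∈ Q}` is `∅`, `{0}` or `{0, 1}`; the rest is `{q j | s ≤ j < n}` with
`s = 0, 1, 2`: connected (`Conn.singleton`, `Conn.insert` along the path). -/
def S_E2 : Prop := ∀ (V : Type) (G : SimpleGraph V) (X Q : Set V) (n : ℕ) (q : ℕ → V), 4 ≤ n →
  IC G X n q → (∀ x ∈ Q, ∀ y ∈ Q, x ≠ y → G.Adj x y) →
    (∃ j < n, q j ∉ Q) ∧ Conn G (Vs n q \ Q)

/-- **E3.** Other long cycles avoid the body of an ear.  (Uses `S_E1`, `S_E2`.)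

Proof. `C = Vs n p`, `C' = Vs m q`, `U = UC G X n p`, `Q = insert (p 0) U` (a clique by `S_E1` (5)).
`C' \ Q` is connected and not empty (`S_E2`).  By `S_E1` (1) the neighbours of `Y = Yb G X n p` in `X \ Y` are in `Q`.
So `C' \ Q ⊆ Y` or `(C' \ Q) ∩ Y = ∅` (a connected set in `X \ Q`: if it meets `Y` and `X \ Y` there is an edge
between `Y` and `X \ Y`, whose end in `X \ Y` is in `Q`: contradiction; `Conn` with the subset
`(C' \ Q) ∩ Y`).  In the second case we are done (`Q ∩ Y = ∅`).  Let `C' \ Q ⊆ Y`, so `C' ⊆ Y ∪ Q ⊆ C ∪ U ∪ pendants`.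
(a) No `u ∈ U` is in `C'`: `u` is adjacent to all other elements of `Y ∪ Q`, but `u = q j` has a non-neighbour
`≠ u` on `C'` (`4 ≤ m`).  (b) No pendant vertex `x` is in `C'`: its neighbours are `p i` and the elements of `U`, so
on `C'` at most one neighbour; but `q j` has two neighbours on `C'`.  So `C' ⊆ C`.  Then `C' = C`: every element
of `C'` has two neighbours in `C'`, these are both its neighbours in `C`; so `C'` is closed under `p i → p (i+1)`,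
`C' = C` (start with any `p i ∈ C'`; induction; cyclically).  Contradiction to `Vs m q ≠ Vs n p`. -/
def S_E3 : Prop := ∀ (V : Type) (G : SimpleGraph V) (X : Set V) (n m : ℕ) (p q : ℕ → V), EarS G X n p →
  4 ≤ m → IC G X m q → Vs m q ≠ Vs n p → ∀ j < m, q j ∉ Yb G X n p

/-- **E4.** Different ears are disjoint and anticomplete.  (Uses `S_E1`, `S_E2`, `S_E3`.)

Proof. `Y, Y'` the bodies, `C, C'` the cycles, `U, U'` the complete vertices.  By `S_E3` (twice) `C' ∩ Y = ∅` and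
`C ∩ Y' = ∅`; this gives (3).
(1) Let `z ∈ Y ∩ Y'`.  `z ∉ C'`, `z ∉ C` (`z ∈ Y'`, `z ∈ Y`), so `z` is pendant at `p i` and at `q j`: `N(z) ∩ X = {p i} ∪ U
= {q j} ∪ U'` (`pen`).  `p i ≠ q j` (`p i ∉ Y'`).  So `p i ∈ U'`; `p i` is adjacent to all of `C'`.  `C' ∩ Y = ∅`, so by
`S_E1` (1) (for the first ear, `x = p i ∈ Y`) `C' ⊆ {p 0} ∪ U`, a clique: contradiction to `S_E2` (1).
(2) Let `y ∈ Y`, `y' ∈ Y'`, `y ~ y'`.  `y' ∉ Y` by (1), so `y' = p 0` or `y' ∈ U` (`S_E1` (1)).  `p 0 ∈ C` is not in `Y'`.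
So `y' ∈ U` is adjacent to all of `C`; `C ∩ Y' = ∅`, so by `S_E1` (1) for the second ear `C ⊆ {q 0} ∪ U'`, a clique:
contradiction to `S_E2` (1). -/
def S_E4 : Prop := ∀ (V : Type) (G : SimpleGraph V) (X : Set V) (n m : ℕ) (p q : ℕ → V), EarS G X n p →
  EarS G X m q → Vs m q ≠ Vs n p →
    Disjoint (Yb G X n p) (Yb G X m q) ∧ (∀ x ∈ Yb G X n p, ∀ y ∈ Yb G X m q, ¬ G.Adj x y) ∧
      ∀ j < n, p j ∉ Yb G X m q

/-- a family of pairwise disjoint and anticomplete ears, indexed by the elements `T` of `𝒯`; the rest is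
chordal -/
structure Fam (G : SimpleGraph V) (X : Set V) (𝒯 : Set (Set V)) (N : Set V → ℕ)
    (P : Set V → ℕ → V) : Prop where
  ear : ∀ T ∈ 𝒯, EarS G X (N T) (P T)
  dis : ∀ T ∈ 𝒯, ∀ T' ∈ 𝒯, T ≠ T' → Disjoint (Yb G X (N T) (P T)) (Yb G X (N T') (P T'))
  nad : ∀ T ∈ 𝒯, ∀ T' ∈ 𝒯, T ≠ T' →
    ∀ x ∈ Yb G X (N T) (P T), ∀ y ∈ Yb G X (N T') (P T'), ¬ G.Adj x y
  p0 : ∀ T ∈ 𝒯, ∀ T' ∈ 𝒯, P T 0 ∉ Yb G X (N T') (P T')
  core : NoC G (X \ {x | ∃ T ∈ 𝒯, x ∈ Yb G X (N T) (P T) ∧ x ≠ P T 1 ∧ x ≠ P T 2}) 4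

/-- the chordal core -/
def Xh (G : SimpleGraph V) (X : Set V) (𝒯 : Set (Set V)) (N : Set V → ℕ) (P : Set V → ℕ → V) : Set V :=
  X \ {x | ∃ T ∈ 𝒯, x ∈ Yb G X (N T) (P T) ∧ x ≠ P T 1 ∧ x ≠ P T 2}

/-- what hangs at `y`: if `y = P T 2` then the body of the ear `T` without `P T 1` -/
def Hg (G : SimpleGraph V) (X : Set V) (𝒯 : Set (Set V)) (N : Set V → ℕ) (P : Set V → ℕ → V)
    (y : V) : Set V :=
  {x | x = y ∨ ∃ T ∈ 𝒯, y = P T 2 ∧ x ∈ Yb G X (N T) (P T) ∧ x ≠ P T 1}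

/-- **E5.** The family of all ears.  (Uses `S_E1`, `S_E4`.)

Proof. `𝒯 = {T | ∃ n p, 4 ≤ n ∧ IC G X n p ∧ T = Vs n p}`; for `T ∈ 𝒯` choose (`AllEar`) `N T`, `P T` with
`EarS G X (N T) (P T)`, `Vs (N T) (P T) = T` (use `choose` / `Classical.choose`, arbitrary values for other `T`).
`dis`, `nad` by `S_E4`; `p0` by `S_E4` (3), and for `T' = T` by `S_E1` (4).
`core`: let `IC G Z m q` in the core `Z`, `4 ≤ m`.  `IC G X m q`; `T = Vs m q ∈ 𝒯`, `P T 3 ∈ T` (`3 < N T`) is in the body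
and different from `P T 1`, `P T 2` (injectivity), so it is not in `Z`; but `P T 3 ∈ Vs m q ⊆ Z`: contradiction. -/
def S_E5 : Prop := ∀ (V : Type) (G : SimpleGraph V) (X : Set V), AllEar G X →
  ∃ (𝒯 : Set (Set V)) (N : Set V → ℕ) (P : Set V → ℕ → V), Fam G X 𝒯 N P

/-- **E6.** Membership in the core.  (Uses `S_E1`.)

Proof. (1) `P T 1, P T 2 ∈ X` are in the body of `T` and in no other (`dis`); `P T 0` by `p0`; `u ∈ UC` is adjacent to
`P T 1 ∈` body of `T`, so it is not in the body of another `T'` (`nad`), nor in the body of `T` (`S_E1` (2)).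
(2) If `P T 2 = P T' 2` then `T = T'` (`dis`).  (3) Neighbours of `P T 2` in the core: on the cycle `P T 1` and
`P T 3`, the latter is not in the core; not on the cycle and not in `UC`: pendant, in the body, not in the
core; of `P T 1`: `P T 0`, `P T 2` and `UC`; the converse is clear.
(4) The sets `Hg y`, `y ∈ Xh`, are pairwise disjoint: `x ∈ Hg y`: `x = y ∈ Xh` or `x` in the body of `T`,
`y = P T 2`, and `x ∉ Xh` or `x = P T 2 = y`; `T` is determined by `x` (`dis`).  Their union is `X`: `x ∈ X \ Xh` is in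
the body of some `T`, `≠ P T 1`, so it is in `Hg (P T 2)`; `Hg y ⊆ X` by `S_E1` (3). -/
def S_E6 : Prop := ∀ (V : Type) (G : SimpleGraph V) (X : Set V) (𝒯 : Set (Set V)) (N : Set V → ℕ)
  (P : Set V → ℕ → V), Fam G X 𝒯 N P →
    (∀ T ∈ 𝒯, P T 0 ∈ Xh G X 𝒯 N P ∧ P T 1 ∈ Xh G X 𝒯 N P ∧ P T 2 ∈ Xh G X 𝒯 N P ∧
      UC G X (N T) (P T) ⊆ Xh G X 𝒯 N P) ∧
    (∀ T ∈ 𝒯, ∀ T' ∈ 𝒯, P T 2 = P T' 2 → T = T') ∧
    (∀ T ∈ 𝒯, ∀ y ∈ Xh G X 𝒯 N P, (G.Adj (P T 2) y ↔ y = P T 1 ∨ y ∈ UC G X (N T) (P T)) ∧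
      (G.Adj (P T 1) y ↔ y = P T 0 ∨ y = P T 2 ∨ y ∈ UC G X (N T) (P T))) ∧
    (∀ y ∈ Xh G X 𝒯 N P, ∀ z ∈ Xh G X 𝒯 N P, y ≠ z → Disjoint (Hg G X 𝒯 N P y) (Hg G X 𝒯 N P z)) ∧
    (⋃ y ∈ Xh G X 𝒯 N P, Hg G X 𝒯 N P y) = X

/-- **E7.** The layout of one ear.  (Uses `S_E1`.)

Proof. `U = UC G X n p`.  For `m ≤ n` let `S m = {p i | 2 ≤ i < m} ∪ {x | x` pendant (`Off`, adjacent) at some `p i`,
`1 ≤ i < m}`.  Claim: every set `D` with `S m ⊆ D ⊆ S (m+1)` has at most `10` rows in `X` (also with `∅` counted):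
the vertices `p i`, `2 ≤ i`, `i + 2 ≤ m`, `3 ≤ i` have the row `U` (neighbours in `X`: `p (i-1)`, `p (i+1)`, `U` and the
pendant vertex at `p i`, which are in `D` except `U`); the remaining cycle vertices in `D` are among
`p 2, p (m-1), p m`: three rows; a pendant vertex at `p i`, `2 ≤ i`, `i < m` has the row `U`; the pendant vertices
at `p 1` and at `p m`: two rows.
`LT (S m)` by induction on `m ≤ n`: `S (m+1) = S m ∪ {p m, the pendant vertex at p m}` (each only if it exists,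
`p m` only for `2 ≤ m`; at most one pendant vertex by `uniq`): one or two steps `LT.insert`.  `S 0 = ∅`,
`S n = Yb G X n p \ {p 1}`. -/
def S_E7 : Prop := ∀ (V : Type) [Finite V] (G : SimpleGraph V) (X : Set V) (n : ℕ) (p : ℕ → V),
  EarS G X n p → RL0 G X 10 (Yb G X n p \ {p 1})

/-- **E8.** The crossing ears.  (Uses `S_E1`, `S_E6`.)

Proof. `Xh` the core, `δ T = P T 2`, `v T = P T 1`.  First set: the map `T ↦` row of `δ T` in `Xh`
(`(N(δ T) ∩ Xh) \ A`) is injective on it: this row contains `v T` (`v T ∈ Xh \ A`); if the row of `δ T'`, `T' ≠ T`,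
contains `v T` then `v T ~ δ T'`, impossible (`nad`: both are in the bodies of different ears).  So the number is at
most `|Rw G Xh A| ≤ k`.  Second set: the same with the row of `v T`, which contains `δ T`. -/
def S_E8 : Prop := ∀ (V : Type) [Finite V] (G : SimpleGraph V) (X A : Set V) (𝒯 : Set (Set V))
  (N : Set V → ℕ) (P : Set V → ℕ → V) (k : ℕ), Fam G X 𝒯 N P → A ⊆ Xh G X 𝒯 N P →
    (insert ∅ (Rw G (Xh G X 𝒯 N P) A)).encard ≤ k →
      {T | T ∈ 𝒯 ∧ P T 2 ∈ A ∧ P T 1 ∉ A}.encard ≤ k ∧ {T | T ∈ 𝒯 ∧ P T 1 ∈ A ∧ P T 2 ∉ A}.encard ≤ k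

/-- **E9.** The rows of the vertices in the hanging parts.  (Uses `S_E1`, `S_E6`.)

Proof. `A' = ⋃ y ∈ A, Hg y`; `A' ∩ Xh = A`; `U = UC G X (N T) (P T)`.  Let `T ∈ 𝒯`, `δ T = P T 2 ∈ A`, `a` in the body of `T`,
`a ≠ v T = P T 1` (so `a ∈ A'`).  The body without `v T` is in `A'`.  By `S_E1` (1), (2) the neighbours of `a` outside
`A'` are: all of `U \ A`, perhaps `P T 0` (if not in `A`), perhaps `v T` (if not in `A`); nothing else.  So the row
of `a` is one of the four sets `(U ∪ F) \ A`, `F ⊆ {P T 0, v T}`.  If `v T ∈ A` it is `U \ A` (the row of `δ T` in `Xh`: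
`N(δ T) ∩ Xh = {v T} ∪ U`) or `({P T 0} ∪ U) \ A` (the row of `v T` in `Xh`: `N(v T) ∩ Xh = {P T 0, δ T} ∪ U`). -/
def S_E9 : Prop := ∀ (V : Type) (G : SimpleGraph V) (X A : Set V) (𝒯 : Set (Set V))
  (N : Set V → ℕ) (P : Set V → ℕ → V), Fam G X 𝒯 N P → A ⊆ Xh G X 𝒯 N P → ∀ T ∈ 𝒯, P T 2 ∈ A →
    ∀ a ∈ Yb G X (N T) (P T), a ≠ P T 1 →
      (P T 1 ∈ A → (G.neighborSet a ∩ X) \ (⋃ y ∈ A, Hg G X 𝒯 N P y) ∈ Rw G (Xh G X 𝒯 N P) A) ∧
      ∃ F ⊆ ({P T 0, P T 1} : Set V),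
        (G.neighborSet a ∩ X) \ (⋃ y ∈ A, Hg G X 𝒯 N P y) = (UC G X (N T) (P T) ∪ F) \ A

/-- **E10.** The rows of the vertices in the core.  (Uses `S_E1`, `S_E6`.)

Proof. `X \ A' = (Xh \ A) ∪ {x | x` in the body of some `T` with `P T 2 ∉ A`, `x ≠ P T 1, P T 2}`.  Let `a, b ∈ A` have the
same row in `Xh`, both not exceptional (not `P T 0`, `P T 1` for `T` with `P T 1 ∈ A`, `P T 2 ∉ A`).  Let `x ∈ X \ A'`,
`a ~ x`; claim `b ~ x`.  If `x ∈ Xh`: the rows are equal.  Otherwise `x` is in the body of `T`, `P T 2 ∉ A`,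
`x ≠ P T 1, P T 2`.  `a` is not in the body of `T`: elements of the body in `Xh` are `P T 1`, `P T 2`; `a ≠ P T 2`
(`∉ A`), and if `a = P T 1 ∈ A` then `a` is exceptional.  So (`S_E1` (1)) `a = P T 0` or `a ∈ U`.
If `a ∈ U`: `a ~ P T 2 ∈ Xh \ A`, so `b ~ P T 2`; `b = P T 1` is excluded (exceptional), so (`S_E6` (3)) `b ∈ U`, `b ~ x`.
If `a = P T 0`: since `a` is not exceptional, `P T 1 ∉ A`; `a ~ P T 1 ∈ Xh \ A`, so `b ~ P T 1`, so by `S_E6` (3)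
`b = P T 0 = a`, or `b = P T 2` (impossible, `∉ A`), or `b ∈ U`: then `b ~ x` (`S_E1` (2)). -/
def S_E10 : Prop := ∀ (V : Type) (G : SimpleGraph V) (X A : Set V) (𝒯 : Set (Set V))
  (N : Set V → ℕ) (P : Set V → ℕ → V), Fam G X 𝒯 N P → A ⊆ Xh G X 𝒯 N P → ∀ a ∈ A, ∀ b ∈ A,
    (∀ T ∈ 𝒯, P T 1 ∈ A → P T 2 ∉ A → a ≠ P T 0 ∧ a ≠ P T 1 ∧ b ≠ P T 0 ∧ b ≠ P T 1) →
    (G.neighborSet a ∩ Xh G X 𝒯 N P) \ A = (G.neighborSet b ∩ Xh G X 𝒯 N P) \ A →
      (G.neighborSet a ∩ X) \ (⋃ y ∈ A, Hg G X 𝒯 N P y) =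
        (G.neighborSet b ∩ X) \ (⋃ y ∈ A, Hg G X 𝒯 N P y)

/-- **E11.** The number of rows.  (Uses `S_E6`, `S_E8`, `S_E9`, `S_E10`.)

Proof. `A' = ⋃ y ∈ A, Hg y`; `r a = (N(a) ∩ X) \ A'`.  `a ∈ A'`: `a ∈ A`, or `a` is in the body of some `T` with
`P T 2 ∈ A`, `a ≠ P T 1`.  So `insert ∅ (Rw G X A')` is contained in the union of
(i) `r '' (regular elements of A)` together with the rows in `Rw G Xh A` and `∅`:  careful, count as follows.
Let `𝓘 = {T | P T 2 ∈ A, P T 1 ∉ A}`, `𝓙 = {T | P T 1 ∈ A, P T 2 ∉ A}` (at most `k` elements each, `S_E8`).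
(a) `r a`, `a ∈ A` regular: by `S_E10` at most as many as rows in `Rw G Xh A`: at most `k`.
(b) `r a`, `a ∈ A` exceptional: `a = P T 0` or `P T 1`, `T ∈ 𝓙`: at most `2 k`.
(c) `a` in the body of `T ∈ 𝓘`: the four sets `(U ∪ F) \ A`: at most `4 k`.
(d) `a` in the body of `T`, `P T 2, P T 1 ∈ A`, `a ≠ P T 1`: `r a ∈ Rw G Xh A`: at most `k`; and `∅`: at most `1`.
Together `8 k + 1`.  (`Set.encard_union_le`, images; (a): the set of the rows is the image of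
`Rw G Xh A` under a function: `Set.encard_le_encard_of_injOn` or choose representatives.) -/
def S_E11 : Prop := ∀ (V : Type) [Finite V] (G : SimpleGraph V) (X A : Set V) (𝒯 : Set (Set V))
  (N : Set V → ℕ) (P : Set V → ℕ → V) (k : ℕ), Fam G X 𝒯 N P → A ⊆ Xh G X 𝒯 N P →
    (insert ∅ (Rw G (Xh G X 𝒯 N P) A)).encard ≤ k →
      (insert ∅ (Rw G X (⋃ y ∈ A, Hg G X 𝒯 N P y))).encard ≤ (8 * k + 1 : ℕ)

/-- **THEOREM E.** Graphs all of whose long cycles are ears.  (Uses `S_E5`, `S_E6`, `S_E7`, `S_E11`.)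

Proof. `Fam` from `S_E5`.  `RL0 G Xh k Xh` by `ChB` (`core`; `Xh ⊆ X`).  `LT.exp` with `Y = Xh`, `B = Hg`: disjoint,
union `X` (`S_E6` (4), (5)); `LT R (Hg y)`: if `y ≠ P T 2` for all `T` then `Hg y = {y}`; if `y = P T 2`, `T ∈ 𝒯`, then
`Hg y = Yb \ {P T 1}` (`y` itself is in it; other `T'` are excluded by `S_E6` (2)): `S_E7` (mono `10 ≤ 8 k + 20`);
the unions: `S_E11`. -/
def S_Ear : Prop := ∀ (V : Type) [Finite V] (G : SimpleGraph V) (X : Set V) (k : ℕ), AllEar G X →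
  ChB G X k → RL0 G X (8 * k + 20) X

end Pool.Agent.MPd439b2.HC
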