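import Pool.Agent.Lib.MP_d439b2_co.HC.Defs

/-!
# MP_d439b2_co, HC: Part S, the split reduction (helper22, note 2654, section 3)

Every `S_...` is a statement to be proved in its own file; the docstring contains the complete proof.
`x ~ y` means `G.Adj x y`.  `Rw G X A = {(G.neighborSet a ∩ X) \ A | a ∈ A}`.
Useful: `LT.mono'`, `LT.exp`, `LT.insert`, `LT.union` (BU/Defs), `Conn.eq_of_nb`, `exists_comp_of_not_conn`
(Basic).
-/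

set_option autoImplicit false

namespace Pool.Agent.MPd439b2.HC

open Pool.Agent.MPd439b2
open Pool.Agent.MPd439b2.BU

/-- **S1.** Layouts along a split with edges.

Proof. `C = A ∪ B`, `R S = (insert ∅ (Rw G C S)).encard ≤ k`.  `LT.exp` with `Y = (A ∪ {b}) \ {a₀}`
(`b ∈ Y`: `b ∈ B`, so `b ∉ A`, `b ≠ a₀`), `B b = B`, `B y = {y}` for `y ≠ b` (pairwise disjoint);
`⋃ y ∈ Y, B y = (A \ {a₀}) ∪ B = C \ {a₀}`.
(1) `LT R B`: note `(B ∪ {a}) \ {a} = B`.  By `LT.mono'` it is enough: for `S ⊆ B`,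
`insert ∅ (Rw G C S) ⊆ ψ '' insert ∅ (Rw G (B ∪ {a}) S)` with `ψ T = (T \ {a}) ∪ {z | z ∈ A₁ ∧ a ∈ T}`
(then `Set.encard_image_le`): the row of `s ∈ S` in `C` is `(N(s) ∩ B \ S) ∪ (A₁ if s ∈ B₁)`, in `B ∪ {a}` it is
`(N(s) ∩ B \ S) ∪ ({a} if s ∈ B₁)`; `ψ ∅ = ∅`.
(2) Let `S ⊆ Y` with `(insert ∅ (Rw G (A ∪ {b}) S)).encard ≤ k`, `S' = ⋃ y ∈ S, B y`.
If `b ∉ S`: `S' = S ⊆ A`, as in (1) with the roles exchanged (`ψ T = (T \ {b}) ∪ {z | z ∈ B₁ ∧ b ∈ T}`).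
If `b ∈ S`: `S' = (S \ {b}) ∪ B`, `C \ S' = A \ S = (A ∪ {b}) \ S`; the row of `s ∈ S \ {b}` is unchanged, the
row of `s ∈ B` is the row of `b` in `A ∪ {b}` (if `s ∈ B₁`; `b ∈ B₁`) or `∅`: `insert ∅ (Rw G C S')` is a
subset of `insert ∅ (Rw G (A ∪ {b}) S)`. -/
def S_Comp : Prop := ∀ (V : Type) (G : SimpleGraph V) (A B A₁ B₁ : Set V) (a b a₀ : V) (k : ℕ),
  Disjoint A B → A₁ ⊆ A → B₁ ⊆ B → a ∈ A₁ → b ∈ B₁ →
  (∀ x ∈ A, ∀ y ∈ B, (G.Adj x y ↔ x ∈ A₁ ∧ y ∈ B₁)) → a₀ ∈ A →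
  RL0 G (A ∪ {b}) k ((A ∪ {b}) \ {a₀}) → RL0 G (B ∪ {a}) k ((B ∪ {a}) \ {a}) →
    RL0 G (A ∪ B) k ((A ∪ B) \ {a₀})

/-- **S2.** Layouts of disjoint unions.

Proof. `C = A ∪ B`.  For `S ⊆ A`: `Rw G C S = Rw G A S`; for `S ⊆ B`: `Rw G C S = Rw G B S` (no edges between `A`
and `B`).  So (`LT.mono'`) `RL0 G C k (A \ {a₀})`, `RL0 G C k (B \ {b₀})`.  `LT.insert` with `b₀`:
`insert b₀ (B \ {b₀}) = B`, all rows of `B` in `C` are empty: `insert ∅ (Rw G C B) ⊆ {∅}`, so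
`RL0 G C k B`.  `LT.union` of `A \ {a₀}` and `B` (disjoint): the union is `C \ {a₀}`, its rows are subsets of
`{a₀}`: at most the two sets `∅`, `{a₀}`; `2 ≤ k`. -/
def S_CompD : Prop := ∀ (V : Type) (G : SimpleGraph V) (A B : Set V) (a₀ b₀ : V) (k : ℕ), 2 ≤ k →
  Disjoint A B → (∀ x ∈ A, ∀ y ∈ B, ¬ G.Adj x y) → a₀ ∈ A → b₀ ∈ B →
    RL0 G A k (A \ {a₀}) → RL0 G B k (B \ {b₀}) → RL0 G (A ∪ B) k ((A ∪ B) \ {a₀})

/-- **S3.** Pieces of pieces.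

Proof. (1) `φ' x = if φ x ∈ A then φ x else b`, `F' = {x ∈ F | φ x ∈ A ∨ φ x ∈ B₁}`.  `cF`: `c ∈ A`: `c ∈ F`,
`φ c = c`; `b ∈ B₁`.  `fix`: `φ b = b ∈ B`, so `φ b ∉ A`.  `adj`: `φ' x ≠ φ' y` excludes that both `φ x, φ y` are not
in `A`.  Both in `A`: `SR.adj`, and `x ∈ F' ↔ x ∈ F`.  `φ x ∈ A`, `φ y ∈ B`: `φ x ≠ φ y`, so
`x ~ y ↔ x ∈ F ∧ y ∈ F ∧ φ x ∈ A₁ ∧ φ y ∈ B₁`; the right side: `x ∈ F' ∧ y ∈ F' ∧ φ x ~ b`, and
`y ∈ F' ↔ y ∈ F ∧ φ y ∈ B₁` (`φ y ∉ A`), `φ x ~ b ↔ φ x ∈ A₁`.  The other case by `G.adj_comm`.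
(2) `φ' x = if φ x ∈ A then φ x else a`, `F' = {x ∈ F | φ x ∈ A}`.  `adj`: if `φ x, φ y ∈ A`: `SR.adj`.  If
`φ x ∈ A`, `φ y ∈ B`: `x ~ y` would give `φ x ~ φ y`, impossible; the right side is false since `y ∉ F'`.  If both are
in `B`, `φ' x = φ' y`. -/
def S_SR : Prop :=
  (∀ (V : Type) (G : SimpleGraph V) (X C F A B A₁ B₁ : Set V) (φ : V → V) (b : V), SR G X C φ F →
    A ∪ B = C → Disjoint A B → A₁ ⊆ A → B₁ ⊆ B →
    (∀ x ∈ A, ∀ y ∈ B, (G.Adj x y ↔ x ∈ A₁ ∧ y ∈ B₁)) → b ∈ B₁ → ∃ φ' F', SR G X (A ∪ {b}) φ' F') ∧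
  ∀ (V : Type) (G : SimpleGraph V) (X C F A B : Set V) (φ : V → V) (a : V), SR G X C φ F →
    A ∪ B = C → Disjoint A B → (∀ x ∈ A, ∀ y ∈ B, ¬ G.Adj x y) → a ∈ A → ∃ φ' F', SR G X A φ' F'

/-- **S4.** The induction over splits.  (Uses `S_Comp`, `S_CompD`, `S_SR`.)

Proof. Strong induction on `C.ncard`.  If `SPr G C`: hypothesis.  Otherwise `Spl G C A B` with `A₁, B₁`; by
symmetry (`Spl G C B A` holds as well) `a ∈ A`.  `|A|, |B| ≥ 2`.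
CASE 1: `a' ∈ A₁`, `b' ∈ B₁`.  `S_SR` (1) gives `SR G X (A ∪ {b'}) ..` and, with the roles exchanged,
`SR G X (B ∪ {a'}) ..`; both sets have fewer elements than `C` (`|B| ≥ 2`, `|A| ≥ 2`).  By induction
`RL0 G (A ∪ {b'}) k ((A ∪ {b'}) \ {a})` and `RL0 G (B ∪ {a'}) k ((B ∪ {a'}) \ {a'})`; `S_Comp`.
CASE 2: `A₁` or `B₁` is empty: no edges between `A` and `B`; `S_SR` (2) for `A` and for `B`; induction with
`a ∈ A` and some `b₀ ∈ B`; `S_CompD`. -/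
def S_Split : Prop := ∀ (V : Type) [Finite V] (G : SimpleGraph V) (X : Set V) (k : ℕ), 2 ≤ k →
  (∀ (C F : Set V) (φ : V → V), SR G X C φ F → SPr G C → ∀ a ∈ C, RL0 G C k (C \ {a})) →
    ∀ (C F : Set V) (φ : V → V), SR G X C φ F → ∀ a ∈ C, RL0 G C k (C \ {a})

/-- **S5.** Changing the root.

Proof. `R S = (insert ∅ (Rw G X S)).encard ≤ k`, `R' S = (insert ∅ (Rw G X S)).encard ≤ 2 ^ k`.
(a) If `A ⊆ X` and (`R A` or `A.Subsingleton`) then `R' (X \ A)`: the rows of `X \ A` are the sets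
`N(y) ∩ A`, `y ∈ X \ A` (`(N(y) ∩ X) \ (X \ A) = N(y) ∩ A`).  If `R A`: `N(y) ∩ A` is determined by the set
`𝒯 y = {T ∈ Rw G X A | y ∈ T}`: `N(y) ∩ A = {a ∈ A | (G.neighborSet a ∩ X) \ A ∈ 𝒯 y}`; so
`insert ∅ (Rw G X (X \ A)) ⊆ ψ '' 𝒫 (Rw G X A)` with `ψ 𝒯 = {a ∈ A | (G.neighborSet a ∩ X) \ A ∈ 𝒯}`
(`ψ ∅ = ∅`), and `(𝒫 S).encard = 2 ^ S.encard` (finite sets with at most `k` elements: go through `Finset` /
`Set.ncard_powerset`).  If `A` is subsingleton: subsets of `A`: at most `2 ≤ 2 ^ k`.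
(b) `LT R A → R A ∨ A.Subsingleton` (cases).
(c) CLAIM: if `LT R A`, `A ⊆ X` and `LT R' (X \ A)` then `LT R' (X \ {a})` for all `a ∈ A`.  Induction on
`LT R A`.  `empty`: no `a`.  `single v`: `a = v`.  `union A₁ A₂`, `a ∈ A₁` (the case `a ∈ A₂` is the same):
`X \ A₁ = (X \ (A₁ ∪ A₂)) ∪ A₂` (disjoint); `LT R' A₂` from `LT R A₂` by `LT.mono` (`k ≤ 2 ^ k`,
`Nat.lt_two_pow_self`); `R' (X \ A₁)` by (a), (b).  So `LT R' (X \ A₁)`, and the induction hypothesis.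
The theorem is (c) for `A = X` (`X \ X = ∅`, `LT.empty`). -/
def S_Reroot : Prop := ∀ (V : Type) [Finite V] (G : SimpleGraph V) (X : Set V) (k : ℕ), 1 ≤ k →
  RL0 G X k X → ∀ a ∈ X, RL0 G X (2 ^ k) (X \ {a})

/-- **S6.** Universal vertices.

Proof. For `S ⊆ X \ {u}`: `Rw G X S ⊆ (fun T => T ∪ {u}) '' Rw G (X \ {u}) S`, so
`(insert ∅ (Rw G X S)).encard ≤ k + 1` (`Set.encard_insert_le`, `Set.encard_image_le`, and
`Rw .. ⊆ insert ∅ (Rw ..)`).  `LT.mono'`, `LT.insert` with `u` (`insert u (X \ {u}) = X`; all rows of `X` in `X`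
are empty, so `insert ∅ (Rw G X X) ⊆ {∅}`, `1 ≤ k + 1`). -/
def S_UniL : Prop := ∀ (V : Type) (G : SimpleGraph V) (X : Set V) (u : V) (k : ℕ), Uni G X u →
  RL0 G (X \ {u}) k (X \ {u}) → RL0 G X (k + 1) X

/-- **S7.** Only split-prime pieces matter.  (Uses `S_Split`, `S_Reroot`.)

Proof. `X = ∅`: `LT.empty`.  Let `a ∈ X`.  `SR G X X id X` holds.  `S_Split` with `2 ^ k` (`2 ≤ 2 ^ k`), the
hypothesis by `S_Reroot`: `RL0 G X (2 ^ k) (X \ {a})`.  `LT.insert` with `a`: all rows of `X` in `X` are empty. -/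
def S_SplitMain : Prop := ∀ (V : Type) [Finite V] (G : SimpleGraph V) (X : Set V) (k : ℕ), 1 ≤ k →
  (∀ (C F : Set V) (φ : V → V), SR G X C φ F → SPr G C → RL0 G C k C) → RL0 G X (2 ^ k) X

/-- **S8.** Basic properties of split-prime sets.

Proof. (b) MODULES.  Let `M` and `X \ M` be not subsingleton.  `Spl G X (X \ M) M` with
`A₁ = {y ∈ X \ M | ∃ m ∈ M, y ~ m}`, `B₁ = M`: contradiction.
(a) `X` is nonempty.  If it is not connected, `exists_comp_of_not_conn`: a component `C ≠ X` without edges to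
`D = X \ C`, both nonempty.  If both are not subsingleton: `Spl G X C D` with `A₁ = ∅`.  Otherwise one of them
is a singleton `{c}`, so `c` has no neighbours in `X`.  Take `b ∈ X`, `b ≠ c`: `Spl G X {c, b} (X \ {c, b})` with
`A₁ = {b}`, `B₁ = {y ∈ X \ {c, b} | b ~ y}`; the second set has at least two elements.
(c) Suppose that `X \ {u}` is not connected (it is nonempty); `C` a component, `D = (X \ {u}) \ C` nonempty, no
edges between `C` and `D`.  `C` and `D` are modules of `G[X]` (`u` is complete to both).  By (b) `C` or `X \ C` is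
subsingleton; `X \ C` contains `u` and an element of `D`: so `C` is subsingleton.  In the same way `D` is
subsingleton.  `|X| ≤ 3`: contradiction.
(d) If `u ≠ u'` then `{u, u'}` is a module, not subsingleton, and `X \ {u, u'}` has at least two elements. -/
def S_SPb : Prop := ∀ (V : Type) [Finite V] (G : SimpleGraph V) (X : Set V), SPr G X → 4 ≤ X.ncard →
  Conn G X ∧ (∀ M, Mod G X M → M.Subsingleton ∨ (X \ M).Subsingleton) ∧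
    (∀ u, Uni G X u → Conn G (X \ {u})) ∧ ∀ u u', Uni G X u → Uni G X u' → u = u'

/-- **S9.** Isomorphisms.

Proof. (1) From `Spl G (σ '' C) A B` we get `Spl G C (σ ⁻¹' A) (σ ⁻¹' B)` (with `σ ⁻¹' A₁`, `σ ⁻¹' B₁`):
`A, B ⊆ σ '' C`.  (2) Claim: `LT R' A → A ⊆ σ '' C → LT R (σ ⁻¹' A)` (induction; `σ ⁻¹' {v} = {σ.symm v}`), where for
`A ⊆ σ '' C`: `insert ∅ (Rw G C (σ ⁻¹' A)) ⊆ (fun T => σ ⁻¹' T) '' insert ∅ (Rw G (σ '' C) A)`: for `a ∈ C`, `σ a ∈ A`: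
`(N(a) ∩ C) \ σ ⁻¹' A = σ ⁻¹' ((N(σ a) ∩ σ '' C) \ A)`. -/
def S_Iso : Prop := ∀ (V : Type) (G : SimpleGraph V) (C : Set V) (σ : V ≃ V),
  (∀ x ∈ C, ∀ y ∈ C, (G.Adj (σ x) (σ y) ↔ G.Adj x y)) →
    (SPr G C → SPr G (σ '' C)) ∧ ∀ k, RL0 G (σ '' C) k (σ '' C) → RL0 G C k C

/-- **S10.** A full vertex can replace the representative of its fibre.  (Uses `S_Iso`.)

Proof. `C' = insert f (C \ {c₀})`, `c₀ = φ f`.  For `y ∈ C`, `y ≠ c₀`: `φ y = y ≠ c₀ = φ f`, so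
`f ~ y ↔ f ∈ F ∧ y ∈ F ∧ c₀ ~ y ↔ c₀ ~ y`.  If `f ∈ C` then `f = φ f = c₀` and `C' = C`, everything trivial.
Otherwise `σ = Equiv.swap c₀ f`, `σ '' C = C'`, `σ` fixes the other elements of `C`: `S_Iso`.
`SR G X C' φ' F` with `φ' x = if φ x = c₀ then f else φ x`: `fix`: `φ f = c₀`; `adj`: `φ' x ≠ φ' y` implies
`φ x ≠ φ y`; if `φ x = c₀`, `φ y ≠ c₀` then `φ y ∈ C`, `f ~ φ y ↔ c₀ ~ φ y`. -/
def S_Rep : Prop := ∀ (V : Type) (G : SimpleGraph V) (X C F : Set V) (φ : V → V) (f : V),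
  SR G X C φ F → f ∈ F →
    (∃ φ', SR G X (insert f (C \ {φ f})) φ' F) ∧ (SPr G C → SPr G (insert f (C \ {φ f}))) ∧
    (∀ y ∈ C, y ≠ φ f → (G.Adj f y ↔ G.Adj (φ f) y)) ∧
    ∀ k, RL0 G (insert f (C \ {φ f})) k (insert f (C \ {φ f})) → RL0 G C k C

end Pool.Agent.MPd439b2.HC
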