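import Pool.Agent.Lib.MP_d439b2_co.HC.EngC
import Pool.Agent.Lib.MP_d439b2_co.HC.SpecS
import Pool.Agent.Lib.MP_d439b2_co.HC.SpecE

/-!
# MP_d439b2_co, HC: Part C, the classification of the split-prime members (helper29; note 2654, sections 0, 1, 2)

Every `S_...` is a statement to be proved in its own file; the docstring contains the complete proof; the used
statements are hypotheses of the theorem.  `x ~ y` means `G.Adj x y`.  Useful: `tch_single`, `tch_single_left`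
(BU/Defs), `Conn.union`, `Conn.insert`, `Conn.eq_of_nb`, `exists_comp`, `exists_comp_of_not_conn` (Basic),
`path : S_Path` (B/Path.lean: induced paths inside connected sets), `BU.mixed_co`, `BU.mixed_conn`,
`BU.b5 : S_B5` (rotation of induced cycles), `growAux.shrink` (B/Grow.lean).
-/

set_option autoImplicit false

namespace Pool.Agent.MPd439b2.HC

open Pool.Agent.MPd439b2
open Pool.Agent.MPd439b2.BU

/-! ## Part A: small facts (finite patterns; all certificates were found and checked by program) -/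

/-- certificates for `S_A1`, `S_A2`, `S_A3` -/
def csK : List (List (List ℕ)) := [[[6], [2], [1], [4], [5], [3]], [[6], [0], [3], [5], [4], [1]],
  [[2], [6], [0], [5], [1], [4]], [[0], [6], [2], [4], [3], [5]], [[2], [3, 0], [6], [1], [5], [4]],
  [[3, 0], [2], [6], [1], [4], [5]], [[7], [6], [2], [4], [8], [5]], [[6], [7], [2], [8], [3], [5]],
  [[6], [2], [7], [1], [8], [5]], [[0], [1], [6], [7], [4]]]

/-- certificates for `S_A4` -/
def cs4 : List (List (List ℕ)) := [[[2], [3, 0], [1], [6], [5], [4]], [[2], [3], [6], [7], [5]],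
  [[6], [7], [1], [3], [5], [4]]]

/-- certificates for `S_A5` -/
def cs5 : List (List (List ℕ)) := [[[3, 0], [6], [1], [7], [4], [5]], [[6], [4], [7], [0], [1]],
  [[0], [6], [3], [7], [4], [5]], [[6], [7], [1], [3], [5], [4]], [[1], [5], [7], [2], [3]],
  [[2, 0], [6], [1], [3], [4], [7]], [[2, 0], [7], [3], [5], [1]], [[2], [3], [7], [1], [5]],
  [[0], [7], [6], [4], [3]], [[1], [2, 0], [3], [6], [7], [4]], [[1], [4], [3, 0], [7], [6]],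
  [[6], [7, 0], [1], [3], [5], [4]], [[0], [1], [7], [6], [4]], [[0], [1], [7], [3], [4]]]

/-- certificates for `S_A6` -/
def cs6 : List (List (List ℕ)) := [[[4, 0], [6], [3], [7], [8], [5]], [[0], [7], [6], [4], [8]],
  [[0], [7], [4], [6], [8]], [[6], [4], [7], [8], [3]], [[0], [6], [3], [7], [8], [5]],
  [[6], [7], [2, 1], [3], [8], [4]], [[2, 0], [6], [3], [7], [4], [8]],
  [[1, 3, 0], [6], [7], [8], [4], [5]], [[2, 0], [6], [5], [7], [4], [8]], [[2, 1], [8], [7], [3], [5]],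
  [[0], [6], [2], [7], [4], [8]], [[1], [8], [7], [3], [2]], [[2, 0], [7, 1], [3], [6], [4], [8]],
  [[0], [7], [6], [8], [3]], [[1], [8], [2, 0], [7], [3]], [[4, 0], [7], [6], [8], [3]],
  [[0], [7], [8], [6], [4]], [[3, 0], [7], [8], [1], [4]], [[0], [6], [3], [8], [4], [7]],
  [[1], [5], [6], [8], [7]], [[6], [8], [2], [5], [7], [4]]]

/-- **A1.** BASE and a vertex `u` touching the four-cycle, `r ∈ {r1, r3, r6}`.

Proof. `h.sp` (`Bas.sp`), `snocV` with `z = u` (`u ∉ Sxy S x y j`: for `j < 4` by `Ful`; `u ≠ x, y` since `u`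
touches `S 1` and `S 3`, `x` and `y` do not): a code `t < 64` with `t.testBit j = true` for `j < 4`,
`t.testBit 4 = true ↔ u ~ x`, `t.testBit 5 = true ↔ u ~ y` (`Sxy S x y 4 = {x}`, `tch_single`).  If the claim fails then
`t = 31` or `t = 47` (`interval_cases t`, or a decided statement on all `t < 64`).  `kill` with `csK`:
`killC r csK [0, 0, 3, 3, 1, 4, t] = true` by `decide` (`r1`: certificates 1, 2; `r3`: 3, 4; `r6`: 5, 6 of the list). -/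
def S_A1 : Prop := ∀ (V : Type) (G : SimpleGraph V) (X : Set V) (S : ℕ → Set V) (x y u : V)
  (r : ℕ → ℕ → Bool), r = r1 ∨ r = r3 ∨ r = r6 → SPF G X 5 rH → SPF G X 6 r → Bas G X S x y → u ∈ X →
    Ful G S u → (G.Adj u x ↔ G.Adj u y)

/-- **A2.** BASE, a connected set `Q` touching exactly the four-cycle, a vertex `u` touching everything, a
vertex `z` touching only `Q`, `r ∈ {r1, r3, r6}`.

Proof. `h.sp`; `snocS` with `Q`: the code is `15`; `snocV` with `u`: the code is `127` (touches `S 0, ..., S 3, x, y, Q`);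
`snocV` with `z`: if `u` is not `~ z` the code is `64` (only `Q`).  (`u ≠ z` since `u` touches `S 0`.)  `kill` with
`csK`: `killC r csK [0, 0, 3, 3, 1, 4, 15, 127, 64] = true` by `decide` for the three `r`. -/
def S_A2 : Prop := ∀ (V : Type) (G : SimpleGraph V) (X : Set V) (S : ℕ → Set V) (x y u z : V) (Q : Set V)
  (r : ℕ → ℕ → Bool), r = r1 ∨ r = r3 ∨ r = r6 → SPF G X 5 rH → SPF G X 6 r → Bas G X S x y →
    Conn G Q → Q ⊆ X → (∀ i < 4, Disjoint Q (S i) ∧ Tch G Q (S i)) → x ∉ Q → y ∉ Q →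
    ¬ Tch G {x} Q → ¬ Tch G {y} Q →
    u ∈ X → Ful G S u → G.Adj u x → G.Adj u y → u ∉ Q → Tch G {u} Q →
    z ∈ X → (∀ i < 4, z ∉ S i ∧ ¬ Tch G {z} (S i)) → z ≠ x → z ≠ y → ¬ G.Adj z x → ¬ G.Adj z y →
    z ∉ Q → Tch G {z} Q → G.Adj u z

/-- **A3.** Two vertices touching the four-cycle, only one of them adjacent to `x`.

Proof. `u ≠ u₀`.  `h.sp`, `snocV` with `u` (code `31 + 32 b`), `snocV` with `u₀`; if `u₀` is not `~ u` the code is
`15 + 32 b'`.  The house is `S 0, S 1 | u, u₀`, roof `x`: certificate `[[0], [1], [6], [7], [4]]`, that is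
`chkG 8 5 (rc ts) rH [[0], [1], [6], [7], [4]] = true` for the four lists `ts` (`chkG_sp`). -/
def S_A3 : Prop := ∀ (V : Type) (G : SimpleGraph V) (X : Set V) (S : ℕ → Set V) (x y u u₀ : V),
  SPF G X 5 rH → Bas G X S x y → u ∈ X → Ful G S u → u₀ ∈ X → Ful G S u₀ → G.Adj u x → ¬ G.Adj u₀ x →
    G.Adj u u₀

/-- **A4.** BASE and vertices touching the four-cycle, `K4:0,1`.

Proof. (1) `snocV` with `u`; otherwise the code is `15`: `kill` with `cs4`.  (2) Otherwise by (1) `u ~ y`, `u' ~ x`, so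
`u ≠ u'`; `snocV` with `u` (code `47`) and `u'` (code `31` or `31 + 64`): `kill` with `cs4`. -/
def S_A4 : Prop := ∀ (V : Type) (G : SimpleGraph V) (X : Set V) (S : ℕ → Set V) (x y : V),
  SPF G X 5 rH → SPF G X 6 r7 → Bas G X S x y →
    (∀ u ∈ X, Ful G S u → G.Adj u x ∨ G.Adj u y) ∧
    ∀ u ∈ X, Ful G S u → ∀ u' ∈ X, Ful G S u' → G.Adj u x ∨ G.Adj u' y

/-- BASE and a vertex `u` touching the four-cycle, adjacent to `y` and not to `x`, no house, no `K4:0,1` -/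
structure B7 {V : Type} (G : SimpleGraph V) (X : Set V) (S : ℕ → Set V) (x y u : V) : Prop where
  hH : SPF G X 5 rH
  h7 : SPF G X 6 r7
  bas : Bas G X S x y
  uX : u ∈ X
  ful : Ful G S u
  ux : ¬ G.Adj u x
  uy : G.Adj u y

/-- `z` is a vertex of `X` outside the pattern -/
def Ob {V : Type} (X : Set V) (S : ℕ → Set V) (x y u z : V) : Prop :=
  z ∈ X ∧ (∀ i < 4, z ∉ S i) ∧ z ≠ x ∧ z ≠ y ∧ z ≠ u

/-- **A5.** The table of the one-vertex extensions.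

Proof. `h.bas.sp`, `snocV` with `u` (code `47`: bits `0, 1, 2, 3, 5`), `snocV` with `z`: a code `t < 128` whose bits
`0, ..., 3` say whether `z` touches `S i`, bit `4` (`5`, `6`) whether `z ~ x` (`y`, `u`).  For all `t < 128` which
violate one of the claims `killC r7 cs5 [0, 0, 3, 3, 1, 4, 47, t] = true`; these are: (1) `t ∈ {77, 78, 79, 94, 95}`;
(2) `t = 79`; (3) `t ∈ {67, 71, 75, 79, 107}`; (4) `t ∈ {64, 96, 104, 108}`; (5) `t ∈ {2, 18, 82, 3, 19, 67, 83}` and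
`t ∈ {64, 80}`. -/
def S_A5 : Prop := ∀ (V : Type) (G : SimpleGraph V) (X : Set V) (S : ℕ → Set V) (x y u z : V),
  B7 G X S x y u → Ob X S x y u z →
    (Tch G {z} (S 2) → Tch G {z} (S 3) → G.Adj z u → ¬ G.Adj z y →
      ¬ Tch G {z} (S 1) ∧ (Tch G {z} (S 0) → G.Adj z x)) ∧
    (Ful G S z → G.Adj z u → ¬ G.Adj z x → G.Adj z y) ∧
    (Tch G {z} (S 0) → Tch G {z} (S 1) → G.Adj z u → ¬ G.Adj z x →
      G.Adj z y ∧ (Tch G {z} (S 3) → Tch G {z} (S 2))) ∧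
    (¬ Tch G {z} (S 0) → ¬ Tch G {z} (S 1) → G.Adj z u → ¬ G.Adj z x →
      (Tch G {z} (S 2) ∨ Tch G {z} (S 3)) ∧ (Tch G {z} (S 3) → ¬ G.Adj z y)) ∧
    (¬ Tch G {z} (S 2) → ¬ Tch G {z} (S 3) → ¬ G.Adj z y →
      (Tch G {z} (S 1) → ¬ Tch G {z} (S 0) ∧ G.Adj z u ∧ ¬ G.Adj z x) ∧
      (G.Adj z u → Tch G {z} (S 0) ∨ Tch G {z} (S 1)))

/-- **A6.** Two-vertex extensions.  (Uses `S_A5`.)

Proof. In all cases `w ≠ z` (they touch different sets).  `h.bas.sp`, `snocV` with `u` (code `47`), `snocV` with the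
vertex called `w` below (a code `s < 128`), `snocV` with `z` (a code `t < 256`, bit `7` says whether `z ~ w`); the pairs
which violate the claim are killed by `cs6`: `killC r7 cs6 [0, 0, 3, 3, 1, 4, 47, s, t] = true`.
(1) `s ∈ {92, 93}` (`w` does not touch `S 1` by `S_A5` (1)), `t ∈ {1, 65, 17, 81}` (`z` does not touch `S 1` by
`S_A5` (5)).  (2) `s = 76`, `t ∈ {66, 66 + 128}` (`z ~ u`, `z` not `~ x`, does not touch `S 0`: `S_A5` (5)).
(3) `s ∈ {99, 103}`, `t ∈ {72, 72 + 128}` (`z` not `~ y` by `S_A5` (4)).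
(4) `s = 66` (`S_A5` (5)), `t ∈ {128, 129, 193, 194, 144, 145, 209}` (`S_A5` (5) for `z`: if `z` touches `S 1`: `66`;
otherwise `z ~ u` implies that `z` touches `S 0`).
(5) here `z` touches `S 0, ..., S 3` and `y`; `s = 66`; if `z` is not `~ w`: `t ∈ {111, 127, 47, 63}` (`z ~ u` or
not, `z ~ x` or not). -/
def S_A6 : Prop := ∀ (V : Type) (G : SimpleGraph V) (X : Set V) (S : ℕ → Set V) (x y u w z : V),
  B7 G X S x y u → Ob X S x y u w → Ob X S x y u z → w ≠ z →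
    ((Tch G {w} (S 2) ∧ Tch G {w} (S 3) ∧ G.Adj w u ∧ G.Adj w x ∧ ¬ G.Adj w y) →
      (Tch G {z} (S 0) ∧ ¬ Tch G {z} (S 2) ∧ ¬ Tch G {z} (S 3) ∧ ¬ G.Adj z y) → G.Adj z w) ∧
    ((Tch G {w} (S 2) ∧ Tch G {w} (S 3) ∧ G.Adj w u ∧ ¬ Tch G {w} (S 0) ∧ ¬ Tch G {w} (S 1) ∧
        ¬ G.Adj w x ∧ ¬ G.Adj w y) →
      (Tch G {z} (S 1) ∧ ¬ Tch G {z} (S 2) ∧ ¬ Tch G {z} (S 3) ∧ ¬ G.Adj z y) → False) ∧
    ((Tch G {w} (S 0) ∧ Tch G {w} (S 1) ∧ ¬ Tch G {w} (S 3) ∧ G.Adj w u ∧ ¬ G.Adj w x ∧ G.Adj w y) →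
      (Tch G {z} (S 3) ∧ ¬ Tch G {z} (S 0) ∧ ¬ Tch G {z} (S 1) ∧ ¬ Tch G {z} (S 2) ∧ G.Adj z u ∧
        ¬ G.Adj z x) → False) ∧
    ((Tch G {w} (S 1) ∧ ¬ Tch G {w} (S 2) ∧ ¬ Tch G {w} (S 3) ∧ ¬ G.Adj w y) →
      (¬ Tch G {z} (S 2) ∧ ¬ Tch G {z} (S 3) ∧ ¬ G.Adj z y) → ¬ G.Adj w z) ∧
    ((Tch G {w} (S 1) ∧ ¬ Tch G {w} (S 2) ∧ ¬ Tch G {w} (S 3) ∧ ¬ G.Adj w y) →
      (Ful G S z ∧ G.Adj z y) → G.Adj z w)

/-! ## Part R: rich structures -/

/-- BASE inside `B`, with the vertices of `U` touching the four-cycle -/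
def BasB {V : Type} (G : SimpleGraph V) (X B U : Set V) (x y : V) : Prop :=
  ∃ S : ℕ → Set V, Bas G X S x y ∧ (∀ i < 4, S i ⊆ B) ∧ ∀ u ∈ U, Ful G S u

/-- **Rich structures.**  `X = B + U + M`, `F ⊆ B`; `U` is complete to `B \ F`, `M` is anticomplete to `B`;
`cut`: a split of `G[B]` which extends to `U` if `U` is anticomplete to `F`; `bas`: two elements of `F` are
the vertices `x, y` of a BASE, or each of them is with a common `y`; `pen`: a pendant vertex at an element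
of `B` is the vertex `x` of a BASE; `cyc`: every vertex of `B` has a non-neighbour on a long induced cycle -/
structure Rst {V : Type} (G : SimpleGraph V) (X B F U M : Set V) : Prop where
  cov : X = B ∪ (U ∪ M)
  dBU : Disjoint B U
  dBM : Disjoint B M
  dUM : Disjoint U M
  FB : F ⊆ B
  ne : F.Nonempty
  UB : ∀ u ∈ U, ∀ b ∈ B, b ∉ F → G.Adj u b
  MB : ∀ m ∈ M, ∀ b ∈ B, ¬ G.Adj m b
  cut : ∃ A ⊆ B, ¬ A.Subsingleton ∧ ¬ (B \ A).Subsingleton ∧ ∃ B₁ ⊆ B \ A,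
    ∀ a ∈ A, ∀ b ∈ B \ A, (G.Adj a b ↔ a ∉ F ∧ b ∈ B₁)
  bas : ∀ x ∈ F, ∀ x' ∈ F, BasB G X B U x x' ∨ ∃ y ∈ F, BasB G X B U x y ∧ BasB G X B U x' y
  pen : ∀ c ∈ B, ∀ d, d ∉ X → (∀ z ∈ X, (G.Adj d z ↔ z = c)) → ∃ y ∈ F, BasB G (insert d X) B U d y
  cyc : ∀ b ∈ B, ∃ w ∈ B, w ≠ b ∧ ¬ G.Adj b w ∧ ∃ n p, 4 ≤ n ∧ IC G X n p ∧ ∃ i < n, p i = w

/-- **R1.** If `U` is complete to `F` then `U + M` is one vertex.  (Uses `S_SPb`.)

Proof. `4 ≤ X.ncard` by `cut` (`A` and `B \ A` have at least two elements).  `B` is a module of `G[X]`: `U` is complete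
to `B` (`UB` and the hypothesis), `M` is anticomplete.  By `S_SPb` (b) (`B` is not subsingleton) `X \ B = U ∪ M` is
subsingleton.  If there is `u ∈ U`: `U ∪ M = {u}`, `X = insert u B`, `u` is complete to `B`.  Otherwise `U = ∅`:
`Spl G X A (X \ A)` with `A₁ = A \ F`, and `B₁` from `cut` (the elements of `M` are anticomplete to `A`):
contradiction to `SPr G X`. -/
def S_Rst1 : Prop := ∀ (V : Type) [Finite V] (G : SimpleGraph V) (X B F U M : Set V), SPr G X →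
  Rst G X B F U M → (∀ u ∈ U, ∀ b ∈ F, G.Adj u b) → 4 ≤ X.ncard ∧ ∃ u ∈ U, X = insert u B ∧ Uni G X u

/-- **R2.** The rich graphs for `K4:0,1`.  (Uses `S_Rst1`.)

Proof. `u` from `S_Rst1`.  For `v ∈ X`, `v ≠ u`: `v ∈ B`, and `cyc` gives `w`. -/
def S_Rst2 : Prop := ∀ (V : Type) [Finite V] (G : SimpleGraph V) (X B F U M : Set V), SPr G X →
  Rst G X B F U M → (∀ u ∈ U, ∀ b ∈ F, G.Adj u b) → 4 ≤ X.ncard ∧ ∃ u, Rich7 G X u

/-- the vertices of `U` anticomplete to `F` -/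
def Ua {V : Type} (G : SimpleGraph V) (F U : Set V) : Set V := {u | u ∈ U ∧ ∀ x ∈ F, ¬ G.Adj u x}

/-- the vertices of `M` joined to `Ua` in `M` -/
def Ma {V : Type} (G : SimpleGraph V) (F U M : Set V) : Set V :=
  {z | ∃ D ⊆ M, Conn G D ∧ z ∈ D ∧ Tch G D (Ua G F U)}

/-- **R3.** The vertices of `U` for `r ∈ {r1, r3, r6}`.  (Uses `S_A1`, `S_A2`, `S_A3`.)

Proof. (1) Let `x, x' ∈ F`, `u ∈ U`.  By `bas` and `S_A1` (`Ful G S u` is part of `BasB`; `u ∈ X` by `cov`):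
`u ~ x ↔ u ~ x'` (directly or through `y`).  So if `u ∉ Ua` then `u` is adjacent to some, hence to all
elements of `F`.
(2) Let `u ∈ U \ Ua`, `u₀ ∈ Ua`.  Take `x ∈ F` (`ne`), and a BASE with some `y ∈ F` (`bas x x`: the first
alternative is impossible since `Bas.ne`).  `u ~ x`, `u₀` not `~ x`: `S_A3`.
(3) Let `z ∈ M`, `Q ⊆ U ∪ M` connected, `z ∉ Q`, `z` touches `Q`, `Q ∩ U ⊆ Ua`, and `Q` contains some
`u₀ ∈ Ua`.  Then `u ~ z` for `u ∈ U \ Ua`: BASE for `x, y ∈ F` as in (2); `S_A2`: `Q` is disjoint from `S i ⊆ B`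
(`dBU`, `dBM`) and touches it (through `u₀`, `Ful`); `x, y ∉ Q`; `Q` does not touch `x` and `y` (elements of `Ua`
and of `M`: `MB`); `u` touches `Q` by (2), `u ∉ Q`; `z ∈ M` does not touch `S i`, `x`, `y` (`MB`). -/
def S_Rst3 : Prop := ∀ (V : Type) [Finite V] (G : SimpleGraph V) (X B F U M : Set V)
  (r : ℕ → ℕ → Bool), r = r1 ∨ r = r3 ∨ r = r6 → SPF G X 5 rH → SPF G X 6 r → Rst G X B F U M →
    (∀ u ∈ U, u ∉ Ua G F U → ∀ x ∈ F, G.Adj u x) ∧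
    (∀ u ∈ U, u ∉ Ua G F U → ∀ u₀ ∈ Ua G F U, G.Adj u u₀) ∧
    ∀ u ∈ U, u ∉ Ua G F U → ∀ z ∈ M, ∀ Q ⊆ Ua G F U ∪ M, Conn G Q → z ∉ Q → Tch G {z} Q →
      (Q ∩ Ua G F U).Nonempty → G.Adj u z

/-- **R4.** Removing a vertex from a connected set.

Proof. Let `Q` be the component of `a` in `G[D \ {x}]` (`exists_comp`).  If `x` did not touch `Q` then `Q` would be a
nonempty proper subset of `D` (`x ∉ Q`) without neighbours in `D \ Q`: contradiction to `Conn G D`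
(`Conn.eq_of_nb`). -/
def S_Del : Prop := ∀ (V : Type) (G : SimpleGraph V) (D : Set V) (a x : V), Conn G D → a ∈ D → x ∈ D →
  a ≠ x → ∃ Q ⊆ D \ {x}, Conn G Q ∧ a ∈ Q ∧ Tch G {x} Q

/-- **R5.** The rich graphs for `r ∈ {r1, r3, r6}`, the universal vertex.  (Uses `S_SPb`, `S_Rst3`, `S_Del`.)

Proof. `4 ≤ X.ncard` by `cut`.  `U_a = Ua G F U`, `U_c = U \ U_a`, `M_a = Ma G F U M`, `M_c = M \ M_a`.
`U_c` is nonempty: otherwise all `u ∈ U` are anticomplete to `F` and `Spl G X A (X \ A)` with `A₁ = A \ F`,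
`B₁' = B₁ ∪ U` (`UB`: `U` is complete to `A \ F`; `MB`: `M` is anticomplete to `A`): contradiction to `SPr`.
`N = B ∪ (U_a ∪ M_a)` is a module of `G[X]`: (i) `u ∈ U_c` is complete to `B` (`UB`, `S_Rst3` (1)), to `U_a`
(`S_Rst3` (2)), to `M_a`: let `z ∈ D ⊆ M`, `D` connected, touching `u₀ ∈ U_a`.  `D ∪ {u₀}` is connected;
`S_Del` with `a = u₀`, `x = z`: `Q ⊆ (D ∪ {u₀}) \ {z}`, `u₀ ∈ Q`; `S_Rst3` (3).  (ii) `m ∈ M_c` is anticomplete to
`B` (`MB`), to `U_a` (otherwise `m ∈ M_a` with `D = {m}`), to `M_a` (otherwise `D ∪ {m}` shows `m ∈ M_a`).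
`N` is not subsingleton, so by `S_SPb` (b) `X \ N = U_c ∪ M_c` is subsingleton, so it is `{u}` with `u ∈ U_c`, and
`u` is complete to `N` by (i). -/
def S_Rst4 : Prop := ∀ (V : Type) [Finite V] (G : SimpleGraph V) (X B F U M : Set V)
  (r : ℕ → ℕ → Bool), r = r1 ∨ r = r3 ∨ r = r6 → SPF G X 5 rH → SPF G X 6 r → SPr G X →
    Rst G X B F U M → 4 ≤ X.ncard ∧ ∃ u ∈ U, u ∉ Ua G F U ∧ Uni G X u ∧
      ∀ x ∈ X, x ≠ u → x ∈ B ∨ x ∈ Ua G F U ∨ x ∈ Ma G F U M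

/-- **R6.** The rich graphs for `r ∈ {r1, r3, r6}`.  (Uses `S_Rst3`, `S_Rst4`, `S_A1`, `S_A2`.)

Proof. `u` from `S_Rst4`.  Let `d ∉ X`, `c ∈ X`, `c ≠ u`, `d ~ z ↔ z = c` for `z ∈ X`, and suppose that `insert d X`
contains neither the house nor `r`.
CASE 1: `c ∈ B`.  `pen`: `y ∈ F` and a BASE in `insert d X` with `x := d`; `Ful G S u`; `S_A1`: `u ~ d ↔ u ~ y`.  But
`u ~ y` (`S_Rst3` (1)) and `d` is not `~ u` (`u ≠ c`).
CASE 2: `c ∈ U_a` or `c ∈ M_a`.  There is a connected `Q ⊆ U_a ∪ M` containing `c` and some `u₀ ∈ U_a`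
(`Q = {c}`, resp. `Q = D ∪ {u₀}`).  Take `x ∈ F`, `y ∈ F` and a BASE in `X` (as in `S_Rst3` (2)), `Bas.mono`.  `S_A2` in
`insert d X` with `z := d`: `d` touches only `c ∈ Q`; `u ~ x, y`; `u` touches `Q` (`S_Rst3` (2), `u₀ ∈ Q`);
`u ∉ Q`.  So `u ~ d`: contradiction. -/
def S_Rst5 : Prop := ∀ (V : Type) [Finite V] (G : SimpleGraph V) (X B F U M : Set V)
  (r : ℕ → ℕ → Bool), r = r1 ∨ r = r3 ∨ r = r6 → SPF G X 5 rH → SPF G X 6 r → SPr G X →
    Rst G X B F U M → 4 ≤ X.ncard ∧ ∃ u, RichP r G X u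

/-! ## Part B: the structure with two blocks -/

/-- `K` is a block of `W`: a component of the complement of `G[W]` with at least two elements -/
def Blk {V : Type} (G : SimpleGraph V) (W K : Set V) : Prop := IsComp Gᶜ W K ∧ ¬ K.Subsingleton

/-- `W ⊆ X` is maximal with at least two blocks -/
structure MaxW {V : Type} (G : SimpleGraph V) (X W : Set V) : Prop where
  sub : W ⊆ X
  two : ∃ K L, Blk G W K ∧ Blk G W L ∧ K ≠ L
  max : ∀ W', W ⊆ W' → W' ⊆ X → (∃ K L, Blk G W' K ∧ Blk G W' L ∧ K ≠ L) → W' = W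

/-- the universal vertices of `G[W]` -/
def UW {V : Type} (G : SimpleGraph V) (W : Set V) : Set V := {u | u ∈ W ∧ ∀ w ∈ W, w ≠ u → G.Adj u w}

/-- the vertices of `X \ W` joined to `K` in `X \ W` -/
def FB {V : Type} (G : SimpleGraph V) (X W K : Set V) : Set V :=
  {x | ∃ D ⊆ X \ W, Conn G D ∧ x ∈ D ∧ Tch G D K}

/-- **B1.** Blocks.

Proof. `IsComp Gᶜ W K`: `K ⊆ W`, `Conn Gᶜ K`, and no element of `W \ K` has a neighbour in `K` in `Gᶜ`.
(1) `a ≠ b`, not adjacent in `Gᶜ`, so `a ~ b`.  (2) Two components which meet are equal (`Conn.eq_of_nb`: the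
set `K ∩ L` is closed in `K` and in `L`).  (3) `K` has another element; `Conn Gᶜ K` with the subset `{a}` gives a
`Gᶜ`-neighbour of `a` in `K`.  (4) The component of `a` in `Gᶜ[W]` (`exists_comp`) contains `b`.  (5) If `w ∉ UW`, (4).
(6) (3).  (7) `BU.mixed_co`. -/
def S_B1 : Prop := ∀ (V : Type) (G : SimpleGraph V) (W : Set V),
  (∀ K, Blk G W K → K ⊆ W ∧ ∀ a ∈ K, ∀ b ∈ W, b ∉ K → G.Adj a b) ∧
  (∀ K L, Blk G W K → Blk G W L → K ≠ L → Disjoint K L) ∧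
  (∀ K, Blk G W K → ∀ a ∈ K, ∃ b ∈ K, b ≠ a ∧ ¬ G.Adj a b) ∧
  (∀ a ∈ W, ∀ b ∈ W, a ≠ b → ¬ G.Adj a b → ∃ K, Blk G W K ∧ a ∈ K ∧ b ∈ K) ∧
  (∀ w ∈ W, w ∈ UW G W ∨ ∃ K, Blk G W K ∧ w ∈ K) ∧
  (∀ K, Blk G W K → ∀ w ∈ K, w ∉ UW G W) ∧
  ∀ K, Blk G W K → ∀ y, (∃ a ∈ K, G.Adj y a) → (∃ b ∈ K, ¬ G.Adj y b) →
    ∃ a ∈ K, ∃ b ∈ K, G.Adj y a ∧ ¬ G.Adj y b ∧ a ≠ b ∧ ¬ G.Adj a b

/-- **B2.** Existence of the structure.

Proof. `W₀ = P ∪ Q`.  The component `K` of `a` in `Gᶜ[W₀]` contains `b` and is a subset of `P` (no edges of `Gᶜ`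
between `P` and `Q`: `Conn Gᶜ K` with the subset `K ∩ P`); in the same way `L ∋ c, d`, `L ⊆ Q`; `K ≠ L` since
`a ∈ P`, `a ∉ Q` (`G` has no loops, `P` is complete to `Q`).  So `W₀` has two blocks.  Let `W` be maximal among the
subsets of `X` which contain `W₀` and have two blocks (`Set.Finite.exists_maximal`). -/
def S_B2 : Prop := ∀ (V : Type) [Finite V] (G : SimpleGraph V) (X P Q : Set V) (a b c d : V), P ⊆ X →
  Q ⊆ X → (∀ p ∈ P, ∀ q ∈ Q, G.Adj p q) → a ∈ P → b ∈ P → a ≠ b → ¬ G.Adj a b → c ∈ Q → d ∈ Q → c ≠ d →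
  ¬ G.Adj c d → ∃ W, P ∪ Q ⊆ W ∧ MaxW G X W

/-- **B3.** Outside vertices have non-neighbours in all blocks.  (Uses `S_B1`.)

Proof. Suppose `x` is complete to `K`.  `W' = insert x W`.  `K` is a component of `Gᶜ[W']` (`x` has no `Gᶜ`-neighbour in
`K`): `Blk G W' K`.  Let `L ≠ K` be another block of `W` (one of the two blocks of `MaxW.two`), `c ≠ d ∈ L` not
adjacent (`S_B1` (3)); by `S_B1` (4) for `W'` there is a block `L'` of `W'` containing `c, d`; `L' ≠ K` since `c ∉ K`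
(`S_B1` (2)).  By `MaxW.max` `W' = W`: contradiction to `x ∉ W`. -/
def S_B3 : Prop := ∀ (V : Type) (G : SimpleGraph V) (X W K : Set V) (x : V), MaxW G X W → Blk G W K →
  x ∈ X → x ∉ W → ∃ w ∈ K, ¬ G.Adj x w

/-- **B4.** A connected set outside `W` touches at most one block.  (Uses `S_B1`, `S_B3`.)

Proof. Suppose `D` touches `K` and `L`.  `path` in `D` from `{v | ∃ w ∈ K, v ~ w}` to `{v | ∃ w ∈ L, v ~ w}`:
`p 0, ..., p l`; only `p 0` has neighbours in `K`, only `p l` in `L`.  `S_B1` (7) for `p 0` and `K` (`S_B3`):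
`a, b ∈ K`, `p 0 ~ a`, `p 0` not `~ b`, `a` not `~ b`; for `p l` and `L`: `c, d`.  The house: `S 0 = {a}`, `S 1 = {b}`,
`S 2 = {c}`, `S 3 = {d}`, `S 4 = {p i | i ≤ l}` (connected by induction): `SP G X 5 S rH` (`K` is complete to `L`). -/
def S_B4 : Prop := ∀ (V : Type) (G : SimpleGraph V) (X W K L D : Set V), SPF G X 5 rH → MaxW G X W →
  Blk G W K → Blk G W L → K ≠ L → D ⊆ X \ W → Conn G D → Tch G D K → ¬ Tch G D L

/-- **B5.** The sets `FB`.  (Used for blocks and for the vertices of a hole.)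

Proof. (1) `x ∈ D`, `y ∈ D'`.  If `x = y` or `x ~ y` then `D ∪ D'` is connected (`Conn.union`) and touches `K` and `L`.
(2) otherwise `D` touches `K` and `L`.  (3) `x ∈ D ⊆ X \ W`.  (4) `insert x' D` is connected (`Conn.insert`).
(5) `D = {x}`. -/
def S_FB : Prop := ∀ (V : Type) (G : SimpleGraph V) (X W K L : Set V),
  (∀ D ⊆ X \ W, Conn G D → Tch G D K → ¬ Tch G D L) →
    (∀ x ∈ FB G X W K, ∀ y ∈ FB G X W L, x ≠ y ∧ ¬ G.Adj x y) ∧
    (∀ x ∈ FB G X W K, ∀ w ∈ L, ¬ G.Adj x w) ∧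
    (∀ x ∈ FB G X W K, x ∈ X ∧ x ∉ W) ∧
    (∀ x ∈ FB G X W K, ∀ x' ∈ X, x' ∉ W → G.Adj x x' → x' ∈ FB G X W K) ∧
    ∀ x ∈ X, x ∉ W → ∀ w ∈ K, G.Adj x w → x ∈ FB G X W K

/-- **B6.** The sets `FB` are nonempty.  (Uses `S_B1`, `S_SPb`, `S_FB`.)

Proof. `4 ≤ X.ncard` (two disjoint blocks).  Suppose that no `y ∈ X \ W` has a neighbour in `K`.  Then `K` is a module of
`G[X]` (`W \ K` is complete to `K`), not subsingleton, and `X \ K` contains another block (`MaxW.two`, `S_B1` (2)):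
contradiction to `S_SPb` (b).  So there are `y ∈ X \ W`, `w ∈ K`, `y ~ w`; `y ∈ FB` with `D = {y}`. -/
def S_B6 : Prop := ∀ (V : Type) [Finite V] (G : SimpleGraph V) (X W K : Set V), SPr G X → MaxW G X W →
  Blk G W K → 4 ≤ X.ncard ∧ ∃ y ∈ FB G X W K, ∃ w ∈ K, G.Adj y w

/-- arms at the block `K`: the sides `T`, `{o}` of a four-cycle -/
structure Arm {V : Type} (G : SimpleGraph V) (X W K T : Set V) (o : V) : Prop where
  sub : T ⊆ K ∪ FB G X W K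
  con : Conn G T
  mt : (T ∩ K).Nonempty
  oK : o ∈ K
  oT : o ∉ T
  no : ¬ Tch G T {o}

/-- **B7.** Arms.  (Uses `S_B1`, `S_B3`, `S_FB`.)

Proof. (1) `x ∈ D ⊆ X \ W`, `D` connected, touching `K`.  `path` in `D` from `{x}` to `{v | ∃ w ∈ K, v ~ w}`:
`p 0 = x, ..., p l = g`; only `p l` has neighbours in `K`; all `p i ∈ FB G X W K`.  `S_B1` (7) for `g` (`S_B3`): `a, o ∈ K`,
`g ~ a`, `g` not `~ o`, `a ≠ o`, `a` not `~ o`.  If `l = 0`: `T = {a}`, `p = a`.  If `1 ≤ l`: `T = {p i | 1 ≤ i ≤ l} ∪ {a}`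
(connected), `T ∩ K = {a}`, `x = p 0 ∉ T` (the `p i` are different), `x ~ p 1`, `x` has no neighbour in `K`.
(2) `c ∈ K`: `T = {c}`, `o` from `S_B1` (3).  `c ∈ FB`: the same path from `c`, `T = {p i | i ≤ l} ∪ {a}`. -/
def S_B7 : Prop := ∀ (V : Type) (G : SimpleGraph V) (X W K : Set V), MaxW G X W → Blk G W K →
  (∀ x ∈ FB G X W K, ∃ T p o, Arm G X W K T o ∧ T ∩ K = {p} ∧ x ∉ T ∧ Tch G {x} T ∧ ¬ G.Adj x o ∧
    ((∃ w ∈ K, G.Adj x w) → T = {p})) ∧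
  ∀ c, c ∈ K ∨ c ∈ FB G X W K → ∃ T o, Arm G X W K T o ∧ c ∈ T

/-- the four sets of a base pattern -/
def Sq {V : Type} (T : Set V) (o : V) (T' : Set V) (o' : V) (i : ℕ) : Set V :=
  if i = 0 then T else if i = 1 then {o} else if i = 2 then T' else {o'}

/-- **B8.** BASE from two arms.  (Uses `S_B1`, `S_B4`, `S_FB`.)

Proof. `S_FB` for `K, L` and for `L, K` (hypothesis by `S_B4`).  `T ⊆ K ∪ FB K`, `T' ⊆ L ∪ FB L` are disjoint, and
touch since `T ∩ K`, `T' ∩ L` are nonempty and `K` is complete to `L` (`S_B1` (1), (2)); `o ∈ K` touches `T' ∩ L` and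
`o'`; `T` touches `o'`; `T` and `o`, `T'` and `o'` do not touch (`Arm.no`).  (`tch`: `interval_cases i`, `interval_cases j`.)
`u ∈ UW G W`: `u ∉ K, L` (`S_B1` (6)), `u ∈ W` is not in `FB`; `u` is adjacent to the elements of `T ∩ K`, `T' ∩ L`,
to `o`, `o'`. -/
def S_B8 : Prop := ∀ (V : Type) (G : SimpleGraph V) (X W K L T T' Z : Set V) (o o' x y : V),
  SPF G X 5 rH → MaxW G X W → Blk G W K → Blk G W L → K ≠ L → Arm G X W K T o → Arm G X W L T' o' →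
    X ⊆ Z → x ∈ Z → y ∈ Z → x ≠ y → ¬ G.Adj x y →
    (x ∉ T ∧ x ≠ o ∧ x ∉ T' ∧ x ≠ o') → (Tch G {x} T ∧ ¬ G.Adj x o ∧ ¬ Tch G {x} T' ∧ ¬ G.Adj x o') →
    (y ∉ T ∧ y ≠ o ∧ y ∉ T' ∧ y ≠ o') → (¬ Tch G {y} T ∧ ¬ G.Adj y o ∧ Tch G {y} T' ∧ ¬ G.Adj y o') →
      Bas G Z (Sq T o T' o') x y ∧
      (∀ i < 4, Sq T o T' o' i ⊆ (K ∪ FB G X W K) ∪ (L ∪ FB G X W L)) ∧
      ∀ u ∈ UW G W, Ful G (Sq T o T' o') u

/-- **B9.** The rich structure of `W`: the fields `bas` and `pen`.  (Uses `S_B1`, `S_B4`, `S_FB`, `S_B6`, `S_B7`, `S_B8`.)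

Proof. `B = (W \ UW) ∪ F`; `K ∪ FB K ⊆ B` for blocks `K` (`S_B1` (6)).
(a) If `K ≠ L`, `x ∈ FB K`, `y ∈ FB L`: arms `T, o` for `x` and `T', o'` for `y` (`S_B7` (1)); the conditions of `S_B8` by
`S_FB` for `K, L` and `L, K` (`x` has no neighbour in `L ∪ FB L`, `x ∉ L ∪ FB L`, ...).  So `BasB G X B U x y`.
(1) `x ∈ FB K`, `x' ∈ FB L`.  `K ≠ L`: (a).  `K = L`: let `L' ≠ K` be another block, `y ∈ FB L'` (`S_B6`), (a) twice.
(2) `c ∈ B` is in `K ∪ FB K` for a block `K` (`S_B1` (5)).  `S_B7` (2): `T, o`, `c ∈ T`.  Let `L ≠ K` be another block,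
`y ∈ FB L` (`S_B6`), `T', o'` for `y` (`S_B7` (1)).  `S_B8` with `Z = insert d X`, `x := d`: `d ∉ X`, `d ~ c ∈ T`, and
`d` has no other neighbours in `X` (`c ≠ o` since `o ∉ T`; `c ∉ T'`, `c ≠ o'`, `c ≠ y`: they are in `L ∪ FB L`, disjoint
from `K ∪ FB K`). -/
def S_B9 : Prop := ∀ (V : Type) [Finite V] (G : SimpleGraph V) (X W B F : Set V), SPF G X 5 rH →
  SPr G X → MaxW G X W → F = {x | ∃ K, Blk G W K ∧ x ∈ FB G X W K} → B = (W \ UW G W) ∪ F →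
    (∀ x ∈ F, ∀ x' ∈ F, BasB G X B (UW G W) x x' ∨
      ∃ y ∈ F, BasB G X B (UW G W) x y ∧ BasB G X B (UW G W) x' y) ∧
    ∀ c ∈ B, ∀ d, d ∉ X → (∀ z ∈ X, (G.Adj d z ↔ z = c)) →
      ∃ y ∈ F, BasB G (insert d X) B (UW G W) d y

/-- **B10.** The rich structure of `W`.  (Uses `S_B1`, `S_B4`, `S_FB`, `S_B6`, `S_B9`.)

Proof. The elements of `F` are in `X \ W` (`S_FB` (3); take for `L` the other block in `MaxW.two`, hypothesis by `S_B4`).
`cov`, `dBU`, `dBM`, `dUM`, `FB`: clear.  `ne`: `S_B6`.  `UB`: `b ∈ W \ UW`, `u ∈ UW`, `b ≠ u`.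
`MB`: `m ∈ X`, `m ∉ W`, `m ∉ F`; if `b ∈ W \ UW` then `b` is in a block `K` (`S_B1` (5)), `m ~ b` would give
`m ∈ FB K` (`S_FB` (5)); if `b ∈ FB K`: `S_FB` (4).
`cut`: `K, L` the two blocks, `A = K ∪ FB K`, `B₁ = (W \ UW) \ K`; `L ⊆ B \ A`.  `a ∈ K`: `a ∉ F`; `b ∈ B \ A`: if
`b ∈ W \ UW` then `b ∉ K` and `a ~ b` (`S_B1` (1)), `b ∈ B₁`; if `b ∈ F`, `b ∈ FB K'` with `K' ≠ K`: `a` not `~ b`
(`S_FB` (2)), `b ∉ W`.  `a ∈ FB K`: `a ∈ F`; `b ∈ W \ UW`, `b ∉ K` is in a block `K' ≠ K`: not adjacent (`S_FB` (2));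
`b ∈ FB K'`: `S_FB` (1).
`bas`, `pen`: `S_B9`.  `cyc`: `b ∈ K'` for a block `K'`: `w ∈ K'` not `~ b` (`S_B1` (3)), `c, d` a nonadjacent pair of
another block: the four-cycle `w, c, b, d`.  `b ∈ FB K'`: let `L' ≠ K'` be another block, `w ∈ L'`, `w' ∈ L'` not
`~ w`, `c, d` a nonadjacent pair in `K'`: the four-cycle `w, c, w', d`; `b` is not adjacent to `w` (`S_FB` (2)). -/
def S_B10 : Prop := ∀ (V : Type) [Finite V] (G : SimpleGraph V) (X W : Set V), SPF G X 5 rH →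
  SPr G X → MaxW G X W → ∃ B M, Rst G X B {x | ∃ K, Blk G W K ∧ x ∈ FB G X W K} (UW G W) M

/-! ## Part H: holes -/

/-! Definitions from SpecE: `Vs n c = {x | ∃ i < n, c i = x}`, `UC G X n c = {x | x ∈ X ∧ ∀ i < n, G.Adj x (c i)}` (such
`x` are not on the cycle), `Off`, `EarS`, `AllEar`. -/

/-- **H1.** The trace of a connected set on a hole.  (Uses `BU.S_B5`.)

Proof. Suppose `D` touches some but not all `c i`, and at least two of them.
CASE 1: two consecutive vertices are not touched.  Going on from them cyclically until a touched vertex is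
reached and rotating (`S_B5` (1)) we may assume: `c 0` is touched, `c 1, ..., c m` are not touched, `2 ≤ m`, `c (m+1)` is
touched (`m + 1 < n` since a second vertex is touched).  House: `S 0 = {c 0}`, `S 1 = {c m}`,
`S 2 = {c i | m + 1 ≤ i < n}`, `S 3 = {c i | 1 ≤ i < m}`, `S 4 = D`.
CASE 2: there are no two consecutive untouched vertices.  After rotation `c 1` is not touched, `c 0`, `c 2` are
touched.  If `c 3` is touched: house `S 0 = {c 2}`, `S 1 = {c 0}`, `S 2 = D`, `S 3 = {c 1}`, `S 4 = {c 3}` (`c 3` is not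
adjacent to `c 0`, `c 1` since `5 ≤ n`).  If `c (n-1)` is touched: `S 0 = {c 0}`, `S 1 = {c 2}`, `S 2 = D`,
`S 3 = {c 1}`, `S 4 = {c (n-1)}`.  Otherwise `c 3` and `c (n-1)` are not touched, so `c 4` is touched, `4 < n - 1`;
house `S 0 = {c 2}`, `S 1 = {c 0}`, `S 2 = D`, `S 3 = {c 1}`, `S 4 = {c 3, c 4}`. -/
def S_H1 : Prop := ∀ (V : Type) (G : SimpleGraph V) (X D : Set V) (n : ℕ) (c : ℕ → V), SPF G X 5 rH →
  5 ≤ n → IC G X n c → D ⊆ X \ Vs n c → Conn G D →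
    (∀ i < n, Tch G D {c i}) ∨ ∀ i < n, ∀ j < n, Tch G D {c i} → Tch G D {c j} → i = j

/-- **H2.** Connected sets outside `C` and `U(C)` touch at most one vertex of the hole.  (Uses `S_H1`.)

Proof. Suppose not; let `D' ⊆ D` be connected, touching at least two `c i`, with the smallest number of elements.
By `S_H1` it touches all `c i`.  If `D' = {x}` then `x ∈ UC`: contradiction.  Otherwise `growAux.shrink`: `v ∈ D'` with
`Conn G (D' \ {v})`; `{v}` and `D' \ {v}` have fewer elements, so each of them touches at most one `c i`; but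
`c 0, c 1, c 2` are touched by `D' = {v} ∪ (D' \ {v})`: contradiction. -/
def S_H2 : Prop := ∀ (V : Type) [Finite V] (G : SimpleGraph V) (X D : Set V) (n : ℕ) (c : ℕ → V),
  SPF G X 5 rH → 5 ≤ n → IC G X n c → D ⊆ X \ (Vs n c ∪ UC G X n c) → Conn G D →
    ∀ i < n, ∀ j < n, Tch G D {c i} → Tch G D {c j} → i = j

/-- **H3.** Four arcs of a cycle.  (Uses `BU.S_B5`.)

Proof. By rotation (`S_B5` (1)) we may assume `i = 0`, `0 < j < n`.  If `j ≤ n - 3`: `A 0 = {c 0}`,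
`A 2 = {c s | 1 ≤ s ≤ j}`, `A 1 = {c s | j < s ≤ n - 2}`, `A 3 = {c (n-1)}`.  If `n - 2 ≤ j` (so `3 ≤ j`): `A 0 = {c 0}`,
`A 3 = {c 1}`, `A 1 = {c s | 2 ≤ s < j}`, `A 2 = {c s | j ≤ s < n}`.  Connected: induction.  (The rotated cycle has the
same vertex set.) -/
def S_H3 : Prop := ∀ (V : Type) (G : SimpleGraph V) (X : Set V) (n i j : ℕ) (c : ℕ → V), 5 ≤ n →
  IC G X n c → i < n → j < n → i ≠ j → ∃ A : ℕ → Set V, c i ∈ A 0 ∧ c j ∈ A 2 ∧
    (∀ k < 4, A k ⊆ Vs n c ∧ Conn G (A k)) ∧ (∀ k < 4, ∀ l < k, Disjoint (A k) (A l)) ∧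
    ∀ k < 4, ∀ l < k, (Tch G (A k) (A l) ↔ 2 ≤ k ∧ l < 2)

/-- **H4.** BASE at two vertices of a hole.  (Uses `S_H2`, `S_H3`, `S_FB`.)

Proof. `A` from `S_H3`; `S 0 = A 0 ∪ T`, `S 1 = A 1`, `S 2 = A 2 ∪ T'`, `S 3 = A 3`.  `T ⊆ {c i} ∪ FB {c i}`, `c i ∈ T`; by
`S_FB` (with `W = C ∪ U`, `K = {c i}`, `L = {c k}`, `k ≠ i`, hypothesis by `S_H2`) the elements of `FB {c i}` are not
adjacent to any `c k`, `k ≠ i`, nor to `FB {c j}`.  So the touching relations of the `S k` are those of the `A k`.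
`A 0 ∪ T` is connected (`c i` is in both).  `x` touches `T` but no `c k` with `k ≠ i`, so it touches none of `S 1`,
`S 2`, `S 3`.  `u ∈ UC G X n c` is adjacent to all vertices of `C`. -/
def S_H4 : Prop := ∀ (V : Type) [Finite V] (G : SimpleGraph V) (X T T' Z : Set V) (n i j : ℕ)
  (c : ℕ → V) (x y : V), SPF G X 5 rH → 5 ≤ n → IC G X n c → i < n → j < n → i ≠ j →
    T ⊆ {c i} ∪ FB G X (Vs n c ∪ UC G X n c) {c i} → Conn G T → c i ∈ T →
    T' ⊆ {c j} ∪ FB G X (Vs n c ∪ UC G X n c) {c j} → Conn G T' → c j ∈ T' →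
    X ⊆ Z → x ∈ Z → y ∈ Z → x ≠ y → ¬ G.Adj x y →
    (x ∉ T ∧ x ∉ T' ∧ x ∉ Vs n c ∧ Tch G {x} T ∧ ¬ Tch G {x} T' ∧ ∀ k < n, k ≠ i → ¬ G.Adj x (c k)) →
    (y ∉ T ∧ y ∉ T' ∧ y ∉ Vs n c ∧ ¬ Tch G {y} T ∧ Tch G {y} T' ∧ ∀ k < n, k ≠ j → ¬ G.Adj y (c k)) →
      ∃ S : ℕ → Set V, Bas G Z S x y ∧ T ⊆ S 0 ∧ T' ⊆ S 2 ∧ (∀ k < 4, S k ⊆ Vs n c ∪ (T ∪ T')) ∧
        ∀ u ∈ UC G X n c, Ful G S u

/-- **H5.** The rich structure of a hole with two nonempty sets `FB`.  (Uses `S_H2`, `S_H4`, `S_FB`, `S_Del`.)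

Proof. `C = Vs n c`, `U = UC G X n c`, `W = C ∪ U`, `F_i = FB G X W {c i}`, `B = C ∪ F`, `M = X \ (B ∪ U)`.  `S_FB` for
`{c i}, {c j}` (`i ≠ j`) by `S_H2`.
ARMS: for `x ∈ F_i`: `x ∈ D ⊆ X \ W`, `D` connected, touching `c i`; `D ∪ {c i}` is connected, `S_Del` with `a = c i`:
`T ⊆ (D ∪ {c i}) \ {x}`, `c i ∈ T`, `x` touches `T`; `D ⊆ F_i`.  For `c₀ = c i`: `T = {c i}`; for `c₀ ∈ F_i`:
`T = D ∪ {c i} ∋ c₀`.
(a) `i ≠ j`, `x ∈ F_i`, `y ∈ F_j`: `S_H4` with the arms of `x` and `y` (`S_FB`: `x` is not adjacent to `T'`, `c k`, `y`):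
`BasB G X B U x y`.
`cov`, `dBU`, ..: clear.  `UB`: `b ∈ C`.  `MB`: `m` is not adjacent to `c i` (otherwise `m ∈ F_i`) nor to `F_i`
(`S_FB` (4)).  `ne`: hypothesis.  `cut`: `A = {c i₀} ∪ F_{i₀}` (two elements), `B \ A` contains the other `c k`;
`B₁ = {b ∈ C | b ~ c i₀}`.  `bas`: `x ∈ F_i`, `x' ∈ F_j`, `i ≠ j`: (a); `i = j`: one of `i₀`, `j₀` is `≠ i`; (a) twice.
`pen`: `c₀ = c i` or `c₀ ∈ F_i`; `k ∈ {i₀, j₀}`, `k ≠ i`, `y ∈ F_k`; `S_H4` with `Z = insert d X`, `x := d`.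
`cyc`: `b = c i`: `w = c k` with `k ≠ i` not adjacent; `b ∈ F_i`: `w = c k`, `k ≠ i`.  The cycle is `c`. -/
def S_H5 : Prop := ∀ (V : Type) [Finite V] (G : SimpleGraph V) (X : Set V) (n i₀ j₀ : ℕ) (c : ℕ → V),
  SPF G X 5 rH → 5 ≤ n → IC G X n c → i₀ < n → j₀ < n → i₀ ≠ j₀ →
    (FB G X (Vs n c ∪ UC G X n c) {c i₀}).Nonempty →
    (FB G X (Vs n c ∪ UC G X n c) {c j₀}).Nonempty →
      ∃ B M, Rst G X B {x | ∃ i < n, x ∈ FB G X (Vs n c ∪ UC G X n c) {c i}}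
        (UC G X n c) M

/-- **H6.** Holes with at most one nonempty set `FB` are ears.  (Uses `S_H2`, `BU.S_B5`.)

Proof. `C = Vs n c`, `U = UC G X n c`.  All vertices `w ∈ X \ (C ∪ U)` adjacent to `c j` are in `FB {c j}` (`D = {w}`), so
there are none for `j ≠ i`.  Rotate by `i` (`S_B5` (1)): `c' k = c ((k + i) % n)`, `Vs n c' = C`, `UC G X n c' = U`,
`c' 0 = c i`.  `EarS G X n c'`: `cl`: hypothesis; `pen`, `uniq`: there is no `x` with `Off` adjacent to `c' k = c j`,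
`1 ≤ k < n` (`j ≠ i`). -/
def S_H6 : Prop := ∀ (V : Type) [Finite V] (G : SimpleGraph V) (X : Set V) (n i : ℕ) (c : ℕ → V),
  5 ≤ n → IC G X n c → i < n → (∀ u ∈ UC G X n c, ∀ u' ∈ UC G X n c, u ≠ u' → G.Adj u u') →
    (∀ j < n, j ≠ i → FB G X (Vs n c ∪ UC G X n c) {c j} = ∅) →
      ∃ c', Vs n c' = Vs n c ∧ EarS G X n c'

/-- **H7.** Holes for `K4:0,1` where `U` is not complete to the sets `FB`.  (Uses `S_H2`, `S_H4`, `S_FB`, `S_Del`, `S_SPb`,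
`S_A4`, `S_A5`, `BU.S_B5`.)

Proof. `C`, `U`, `F_k = FB G X (C ∪ U) {c k}`.  `S_FB` for `{c k}, {c l}` by `S_H2`; arms as in `S_H5`.
(1) `U` is complete to `F_j` for all `j ≠ i`: let `u' ∈ U`, `y ∈ F_j`; BASE `S` for `x, y` (`S_H4`); `S_A4` (2) for
`u, u'`: `u ~ x` or `u' ~ y`; so `u' ~ y`.
(2) `z ∈ F_j`, `j ≠ i`, is adjacent to `c j`.  Suppose not.  `z ∈ D`, `D` touches `c j`: `y ∈ D ⊆ F_j`, `y ~ c j`,
`y ≠ z`.  BASE for `x, y` with the arm `T' = {c j}` (`S_H4`): `S k ⊆ C ∪ T ∪ {c j}`, `T ⊆ {c i} ∪ F_i`.  `B7 G X S x y u`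
(`u ~ y` by (1)).  `z` does not touch any `S k` (`S_FB`; the only `c k` it may be adjacent to is `c j`), `z ~ u` by
(1), `z` not `~ x`; `Ob`: `z ∉ S k`, `z ≠ x, y, u`.  `S_A5` (4): contradiction.
(3) `F_j` (`j ≠ i`) is a module of `G[X]`: `c j` and `U` are complete to it, all others are anticomplete
(`S_FB` (1), (2), (4)).  `X \ F_j` contains `C`, so `F_j` is subsingleton (`S_SPb` (b)).
(4) `c' k = c ((k + i) % n)` (`S_B5` (1)), `c' 0 = c i`, `Vs n c' = C`, `UC G X n c' = U`.  `EarS G X n c'`: `cl`: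
hypothesis.  `pen`: `z` with `Off`, `z ~ c' k = c j`, `1 ≤ k`, so `j ≠ i`: `z ∈ F_j` (`S_FB` (5)); `z ~ c j`, `z ~ U` (1), no
other neighbours (not `c l`, `l ≠ j`; a neighbour outside `C ∪ U` is in `F_j` (`S_FB` (4)), which is subsingleton).
`uniq`: (3). -/
def S_H7 : Prop := ∀ (V : Type) [Finite V] (G : SimpleGraph V) (X : Set V) (n i : ℕ) (c : ℕ → V)
  (u x : V), SPF G X 5 rH → SPF G X 6 r7 → SPr G X → 5 ≤ n → IC G X n c → i < n →
    (∀ u ∈ UC G X n c, ∀ u' ∈ UC G X n c, u ≠ u' → G.Adj u u') →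
    (∃ j < n, j ≠ i ∧ (FB G X (Vs n c ∪ UC G X n c) {c j}).Nonempty) →
    u ∈ UC G X n c → x ∈ FB G X (Vs n c ∪ UC G X n c) {c i} → ¬ G.Adj u x →
      ∃ c', Vs n c' = Vs n c ∧ EarS G X n c'

/-! ## Part F: `K4:0,1`, two blocks, `U` not complete to `FB K` -/

/-- the setting: `K`, `L` are blocks, `u ∈ UW G W` misses `x ∈ FB K`; `T, {o}` is an arm at `K` with `T ∩ K = {p}`, `x`
touches `T`, not `o`; `a, b ∈ L` not adjacent, `y ∈ FB L` is adjacent to `a`, not to `b` -/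
structure D7 {V : Type} (G : SimpleGraph V) (X W K L : Set V) (u x : V) (T : Set V) (p o a b y : V) :
    Prop where
  hH : SPF G X 5 rH
  h7 : SPF G X 6 r7
  sp : SPr G X
  mw : MaxW G X W
  bK : Blk G W K
  bL : Blk G W L
  KL : K ≠ L
  uU : u ∈ UW G W
  xF : x ∈ FB G X W K
  ux : ¬ G.Adj u x
  arm : Arm G X W K T o
  TK : T ∩ K = {p}
  xT : x ∉ T
  tx : Tch G {x} T
  xo : ¬ G.Adj x o
  aL : a ∈ L
  bL' : b ∈ L
  ab : a ≠ b
  nab : ¬ G.Adj a b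
  yF : y ∈ FB G X W L
  ya : G.Adj y a
  yb : ¬ G.Adj y b

/-- **F1.** `UW` is complete to `FB L` for the other blocks `L`.  (Uses `S_B4`, `S_FB`, `S_B7`, `S_B8`, `S_A4`.)

Proof. Arms for `x` and for `y` (`S_B7` (1)), `S_B8` with `Z = X` (the conditions by `S_FB` for `K, L` and `L, K`): a BASE `S`
for `x, y` with `Ful G S u`, `Ful G S u'`.  `S_A4` (2): `u ~ x` or `u' ~ y`. -/
def S_F1 : Prop := ∀ (V : Type) [Finite V] (G : SimpleGraph V) (X W K L : Set V) (u x : V),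
  SPF G X 5 rH → SPF G X 6 r7 → MaxW G X W → Blk G W K → Blk G W L → K ≠ L → u ∈ UW G W →
    x ∈ FB G X W K → ¬ G.Adj u x → ∀ u' ∈ UW G W, ∀ y ∈ FB G X W L, G.Adj u' y

/-- **F2.** The pattern `B7`.  (Uses `S_B4`, `S_FB`, `S_B8`, `S_F1`.)

Proof. `Arm G X W L {a} b` (`nab`).  `S_B8` with `Z = X`, `T' = {a}`, `o' = b`; `u ~ y` by `S_F1`. -/
def S_F2 : Prop := ∀ (V : Type) [Finite V] (G : SimpleGraph V) (X W K L : Set V) (u x : V) (T : Set V)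
  (p o a b y : V), D7 G X W K L u x T p o a b y → B7 G X (Sq T o {a} b) x y u

/-- **F3.** The one-vertex facts in the graph.  (Uses `S_B1`, `S_B4`, `S_FB`, `S_F1`, `S_F2`, `S_A5`.)

Proof. `B7` by `S_F2`, `S = Sq T o {a} b`: `S 0 = T`, `S 1 = {o}`, `S 2 = {a}`, `S 3 = {b}`; `T ⊆ K ∪ FB K`, `T ∩ K = {p}`.
`S_A5` (1), ..., (5) for the vertex `z`; `Ob` by the disjointness of `K, L, FB K, FB L, UW` (`S_B1`, `S_FB`).
(1) `z = w ∈ K`, `w ≠ p, o`: `w ∉ T`; adjacent to `a, b` (`S_B1` (1)), to `u` (`UW`), not to `y` (`S_FB` (2) for `L, K`).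
(2) Suppose `K'` is a third block, `z ∈ K'`: adjacent to `p ∈ T`, `o`, `a`, `b`, `u`; not to `x`, `y` (`S_FB` (2) for
`K, K'` and `L, K'`): contradiction to `S_A5` (2).
(3) `z ∈ L`, `z ≠ a, b`: adjacent to `p ∈ T`, `o`, `u`, not to `x`.
(4) `z = f ∈ FB L`, `f ≠ y`: `f` has no neighbours in `K ∪ FB K ∋ x`; `f ~ u` by `S_F1`.
(5) `z = f ∈ FB K`, `f ∉ T`, `f ≠ x`: no neighbours in `L`, `f` not `~ y`. -/
def S_F3 : Prop := ∀ (V : Type) [Finite V] (G : SimpleGraph V) (X W K L : Set V) (u x : V) (T : Set V)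
  (p o a b y : V), D7 G X W K L u x T p o a b y →
    (∀ w ∈ K, w ≠ p → w ≠ o → ¬ G.Adj w o ∧ (Tch G {w} T → G.Adj w x)) ∧
    (∀ K', Blk G W K' → K' = K ∨ K' = L) ∧
    (∀ z ∈ L, z ≠ a → z ≠ b → G.Adj z y ∧ (G.Adj z b → G.Adj z a)) ∧
    (∀ f ∈ FB G X W L, f ≠ y → (G.Adj f a ∨ G.Adj f b) ∧ (G.Adj f b → ¬ G.Adj f y)) ∧
    ∀ f ∈ FB G X W K, f ∉ T → f ≠ x → G.Adj f o → ¬ Tch G {f} T ∧ G.Adj f u ∧ ¬ G.Adj f x

/-- **F4.** The two-vertex facts in the graph.  (Uses `S_B1`, `S_B4`, `S_FB`, `S_F1`, `S_F2`, `S_F3`, `S_A6`.)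

Proof. As in `S_F3`; `S_A6` (1), ..., (5) with: (1) `w = q ∈ K`, `z = f ∈ FB K`.  (2) `w = q ∈ K` (`q` not `~ o` by
`S_F3` (1)), `z = f ∈ FB K`; `f ∉ T` since `T` does not touch `o`, `f ≠ x` since `x` is not `~ o`.  (3) `w = z' ∈ L`
(`z' ~ y` by `S_F3` (3)), `z = f ∈ FB L` (`f ≠ y` since `y` is not `~ b`; `f ~ u` by `S_F1`).  (4) `w = f`, `z = f'`; if
`f' ∈ T` or `f' = x` use `S_F3` (5) for `f`.  (5) `w = f`, `z = u'` (`u' ~ y` by `S_F1`); for `u' = u` use `S_F3` (5). -/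
def S_F4 : Prop := ∀ (V : Type) [Finite V] (G : SimpleGraph V) (X W K L : Set V) (u x : V) (T : Set V)
  (p o a b y : V), D7 G X W K L u x T p o a b y →
    (∀ q ∈ K, q ≠ p → q ≠ o → G.Adj q x → ∀ f ∈ FB G X W K, f ∉ T → f ≠ x → Tch G {f} T → G.Adj f q) ∧
    (∀ q ∈ K, q ≠ p → q ≠ o → ¬ Tch G {q} T → ¬ G.Adj q x → ∀ f ∈ FB G X W K, ¬ G.Adj f o) ∧
    (∀ z ∈ L, z ≠ a → z ≠ b → ¬ G.Adj z b → ∀ f ∈ FB G X W L, G.Adj f b → G.Adj f a) ∧
    (∀ f ∈ FB G X W K, G.Adj f o → ∀ f' ∈ FB G X W K, ¬ G.Adj f f') ∧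
    ∀ f ∈ FB G X W K, G.Adj f o → ∀ u' ∈ UW G W, G.Adj u' f

/-- **F5.** Existence of the setting, the set `P` of the neighbours is `{p}`.  (Uses `S_B1`, `S_B3`, `S_B4`, `S_FB`, `S_B6`,
`S_B7`, `S_SPb`, `S_F3`, `S_F4`.)

Proof. `S_B6` for `L`: `y ∈ FB L` with a neighbour in `L`; `S_B3`, `S_B1` (7): `a, b`.  `S_B7` (1) for `x`: `T, p, o`
with `T = {p}` if `x` has a neighbour in `K`.  So `D7 .. T p o a b y`.  It remains: no `w ∈ K`, `w ≠ p`, touches `T` or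
is adjacent to `x`.
CASE B: `x` has no neighbour in `K`.  `w ≠ o`: `S_F3` (1): if `w` touches `T` then `w ~ x`, impossible.  `w = o`: `Arm.no`.
CASE A: `x` has a neighbour in `K`, `T = {p}`, `x ~ p` (`tx`).  `P = {w ∈ K | w ~ x} ∋ p`; `o ∉ P`.  For `q ∈ P`, `q ≠ p`:
`q` not `~ o` (`S_F3` (1)).  So for all `q ∈ P`: `D7 .. {q} q o a b y` (`Arm G X W K {q} o`).  (i) `w ∈ K \ P`,
`q ∈ P`: `w` not `~ q` (`w = o`: above; otherwise `S_F3` (1) for `D7 .. {q} q o ..`: `w ~ q` gives `w ~ x`).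
(ii) `f ∈ FB K`, `f ≠ x`, `q, q' ∈ P`, `f ~ q`: `f ~ q'` (`S_F4` (1) for `D7 .. {q} q o ..`, `q' ≠ q, o`).
So `P` is a module of `G[X]`: `x` is complete to `P`; the other vertices of `FB K`: (ii); vertices of `X \ W` which are
not in `FB K` are anticomplete to `K` (`S_FB` (5)); `K \ P`: (i); `W \ K` is complete to `P` (`S_B1` (1)).  `X \ P`
contains `L`, so `P` is subsingleton (`S_SPb` (b), `4 ≤ X.ncard` by `S_B6`): `P = {p}`.  For `w ∈ K`, `w ≠ p`: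
`w ∉ P`, so `w` is not `~ x`, and not `~ p` by (i). -/
def S_F5 : Prop := ∀ (V : Type) [Finite V] (G : SimpleGraph V) (X W K L : Set V) (u x : V),
  SPF G X 5 rH → SPF G X 6 r7 → SPr G X → MaxW G X W → Blk G W K → Blk G W L → K ≠ L → u ∈ UW G W →
    x ∈ FB G X W K → ¬ G.Adj u x → ∃ T p o a b y, D7 G X W K L u x T p o a b y ∧
      ∀ w ∈ K, w ≠ p → ¬ Tch G {w} T ∧ ¬ G.Adj w x

/-- **F6.** `K` has two elements.  (Uses `S_B1`, `S_FB`, `S_B4`, `S_B6`, `S_SPb`, `S_F3`, `S_F4`.)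

Proof. For every `w ∈ K`, `w ≠ p`: `D7 G X W K L u x T p w a b y` (`Arm G X W K T w`: `w ∉ T` since `T ∩ K = {p}`).  So by
`S_F3` (1) (for `o := w`): no two different elements of `K \ {p}` are adjacent; and `w` is not `~ p` (`p ∈ T`).
Suppose that `K \ {p}` is not subsingleton.  Then no `f ∈ FB K` has a neighbour `w ∈ K \ {p}`: take `q ∈ K`,
`q ≠ p, w`; `S_F4` (2) for `o := w`.  So `K \ {p}` is a module of `G[X]` (`p` is anticomplete, `W \ K` complete, `X \ W`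
anticomplete), and its complement contains `L`: contradiction to `S_SPb` (b).  So `K \ {p} = {o}`. -/
def S_F6 : Prop := ∀ (V : Type) [Finite V] (G : SimpleGraph V) (X W K L : Set V) (u x : V) (T : Set V)
  (p o a b y : V), D7 G X W K L u x T p o a b y → (∀ w ∈ K, w ≠ p → ¬ Tch G {w} T ∧ ¬ G.Adj w x) →
    K = {p, o}

/-- **F7.** `L` has two elements.  (Uses `S_B1`, `S_B4`, `S_FB`, `S_B6`, `S_SPb`, `S_F3`, `S_F4`.)

Proof. (i) All `z ∈ L`, `z ≠ b`, are adjacent to `y` (`ya`, `S_F3` (3)).  (ii) No `z ∈ L` is adjacent to `b`: otherwise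
by `BU.mixed_co` (`Conn Gᶜ L`, `b` as the vertex `y` there: `b` has the neighbour `z` and the non-neighbour `b` in `L`)
there are `z, w ∈ L`, `b ~ z`, `b` not `~ w`, `z ≠ w`, `z` not `~ w`; `w ≠ b` since `z ~ b`.  So `w ~ y` by (i), and
`D7 .. T p o w b y`; `S_F3` (3) for it: `z ~ b` implies `z ~ w`: contradiction (`z ≠ w, b`).
(iii) So `D7 .. T p o w b y` for all `w ∈ L`, `w ≠ b`.  Suppose that `L \ {b}` is not subsingleton.  Every `f ∈ FB L` is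
complete to `L \ {b}`: for `f = y` by (i); let `f ≠ y`, `w ∈ L`, `w ≠ b`, `f` not `~ w`; by `S_F3` (4) for `a := w`:
`f ~ b`; take `z ∈ L`, `z ≠ w, b`; `S_F4` (3) for `a := w`: `f ~ w`: contradiction.  So `L \ {b}` is a module of `G[X]`
(`b` is anticomplete by (ii), `W \ L` complete, `FB L` complete, the rest of `X \ W` anticomplete), the complement
contains `K`: contradiction to `S_SPb` (b).  So `L \ {b} = {a}`. -/
def S_F7 : Prop := ∀ (V : Type) [Finite V] (G : SimpleGraph V) (X W K L : Set V) (u x : V) (T : Set V)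
  (p o a b y : V), D7 G X W K L u x T p o a b y → L = {a, b}

/-- **F8.** The pendant vertices.  (Uses `S_B1`, `S_B3`, `S_B4`, `S_FB`, `S_B6`, `S_SPb`, `S_F1`, `S_F3`, `S_F4`.)

Proof. (1) `f ∈ FB L` has a non-neighbour in `L = {a, b}` (`S_B3`), and a neighbour (`f = y`, or `S_F3` (4)).
(2) Let `f ~ a`, `f' ~ b`: `D7 .. T p o a b f` (`f` not `~ b` by (1)), `f' ≠ f`; `S_F3` (4): `f'` not `~ f`.
(3) `A = {f ∈ FB L | f ~ a}` is a module of `G[X]`: `a` is complete, `UW` is complete (`S_F1`), everything else is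
anticomplete (`b` by (1), `K`, the vertices of `X \ W` outside `FB L`, and `FB L \ A` by (1), (2)); the complement
contains `K`: `A` is subsingleton (`S_SPb` (b)).  In the same way for `b` (here `FB L \ A_b = A_a`).
(4) `A = {f ∈ FB K | f ~ o}`: `o` is complete, `UW` is complete (`S_F4` (5)), everything else is anticomplete:
`FB K` by `S_F4` (4), `p` by `S_F3` (5) (`f ∉ T`, `f ≠ x` since they are not adjacent to `o`; `p ∈ T`), `L`, the rest of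
`X \ W`.  So `A` is subsingleton. -/
def S_F8 : Prop := ∀ (V : Type) [Finite V] (G : SimpleGraph V) (X W K L : Set V) (u x : V) (T : Set V)
  (p o a b y : V), D7 G X W K L u x T p o a b y → K = {p, o} → L = {a, b} →
    (∀ f ∈ FB G X W L, (G.Adj f a ∧ ¬ G.Adj f b) ∨ (G.Adj f b ∧ ¬ G.Adj f a)) ∧
    (∀ f ∈ FB G X W L, ∀ f' ∈ FB G X W L, ¬ G.Adj f f' ∧ (G.Adj f a → G.Adj f' a → f = f') ∧
      (G.Adj f b → G.Adj f' b → f = f')) ∧
    ∀ f ∈ FB G X W K, G.Adj f o → ¬ G.Adj f p ∧ ∀ f' ∈ FB G X W K, G.Adj f' o → f = f'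

/-- **F9.** The ear.  (Uses `S_B1`, `S_B3`, `S_B4`, `S_FB`, `S_F1`, `S_F3`, `S_F4`, `S_F8`.)

Proof. `c i = if i = 0 then p else if i = 1 then a else if i = 2 then o else b`: `IC G X 4 c` (`p` not `~ o` by `Arm.no`,
`p ∈ T`; `a` not `~ b`; `K` is complete to `L`).  By `S_F3` (2) and `S_B1` (5) `W = K ∪ L ∪ UW G W`.
`UC G X 4 c = UW G W`: `u ∈ UW` is adjacent to all `c i` (`S_B1` (6): `u ∉ K, L`); conversely let `u ∈ X` be adjacent to all
`c i`: `u ∈ W` by `S_B3` (`K = {p, o}`), `u ∉ K ∪ L = {c i}` (no loops), so `u ∈ UW`.  So `Off G X 4 c z ↔ z ∈ X ∧ z ∉ W`.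
`EarS G X 4 c`: `cl`: elements of `UW` are adjacent.  `pen`: `z ∈ X \ W`.  `z ~ c 1 = a`: `z ∈ FB L` (`S_FB` (5)); its
neighbours in `W` are `a` and `UW` (`S_F1`), not `b` (`S_F8` (1)), not in `K` (`S_FB` (2)); a neighbour outside `W` is in
`FB L` (`S_FB` (4)), excluded by `S_F8` (2).  `z ~ c 3 = b`: the same.  `z ~ c 2 = o`: `z ∈ FB K`: neighbours `o`, `UW`
(`S_F4` (5)), not `p` (`S_F8` (3)), not in `L`, not in `FB K` (`S_F4` (4)), so no others outside `W`.  `uniq`: `S_F8` (2), (3).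
Last claim: a non-neighbour `≠ w` of `w ∈ W` is in the same block `K` or `L` (`S_B1` (1)), which has two elements. -/
def S_F9 : Prop := ∀ (V : Type) [Finite V] (G : SimpleGraph V) (X W K L : Set V) (u x : V) (T : Set V)
  (p o a b y : V), D7 G X W K L u x T p o a b y → K = {p, o} → L = {a, b} →
    (∃ c, EarS G X 4 c ∧ W = Vs 4 c ∪ UW G W) ∧
    ∀ w ∈ W, ∀ s ∈ W, ∀ t ∈ W, s ≠ w → t ≠ w → ¬ G.Adj w s → ¬ G.Adj w t → s = t

/-- **F10.** `K4:0,1`, two blocks.  (Uses `S_B10`, `S_Rst2`, `S_F5`, `S_F6`, `S_F7`, `S_F9`.)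

Proof. `S_B10`: `Rst`.  If `UW G W` is complete to `F`: `S_Rst2`.  Otherwise there are `u ∈ UW G W`, a block `K`, `x ∈ FB K`,
`u` not `~ x`; let `L ≠ K` be another block (`MaxW.two`); `S_F5`, `S_F6`, `S_F7`, `S_F9`. -/
def S_F10 : Prop := ∀ (V : Type) [Finite V] (G : SimpleGraph V) (X W : Set V), SPF G X 5 rH →
  SPF G X 6 r7 → SPr G X → MaxW G X W → (4 ≤ X.ncard ∧ ∃ u, Rich7 G X u) ∨
    ((∃ c, EarS G X 4 c ∧ W = Vs 4 c ∪ UW G W) ∧
    ∀ w ∈ W, ∀ s ∈ W, ∀ t ∈ W, s ≠ w → t ≠ w → ¬ G.Adj w s → ¬ G.Adj w t → s = t)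

/-! ## Part Z: assembly -/

/-- **Z1.** Induced four-cycles and nonadjacent pairs in `UC` give two blocks.  (Uses `S_B2`.)

Proof. (1) `P = {q 0, q 2}`, `Q = {q 1, q 3}`.  (2) `P = {u, u'}`, `Q = Vs n c`, `c 0` and `c 2` are not adjacent. -/
def S_Z1 : Prop := ∀ (V : Type) [Finite V] (G : SimpleGraph V) (X : Set V),
  (∀ q, IC G X 4 q → ∃ W, Vs 4 q ⊆ W ∧ MaxW G X W) ∧
  ∀ (n : ℕ) (c : ℕ → V), 4 ≤ n → IC G X n c → ∀ u ∈ UC G X n c, ∀ u' ∈ UC G X n c, u ≠ u' →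
    ¬ G.Adj u u' → ∃ W, Vs n c ⊆ W ∧ MaxW G X W

/-- **Z2.** The classification for `r ∈ {r1, r3, r6}`.  (Uses `S_Z1`, `S_B10`, `S_Rst5`, `S_H5`, `S_H6`, `S_Ear`.)

Proof. `Cls` gives `SPF G X 5 rH`, `SPF G X 6 r`, `ChB G X k`.  If there is `W` with `MaxW G X W`: `S_B10`, `S_Rst5`:
rich.  Otherwise by `S_Z1` there is no `IC G X 4 q`, and `UC G X n c` is a clique for all induced cycles.  `AllEar G X`
(then `S_Ear`): let `IC G X m q`, `4 ≤ m`; then `5 ≤ m`.  If two sets `FB {q i}`, `FB {q j}`, `i ≠ j`, are nonempty: `S_H5`,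
`S_Rst5`: rich (we are done).  Otherwise there is `i < m` such that all others are empty: `S_H6`. -/
def S_Z2 : Prop := S_OutP

/-- **Z3.** The classification for `r7`.  (Uses `S_Z1`, `S_F10`, `S_Rst2`, `S_H5`, `S_H6`, `S_H7`, `S_Ear`.)

Proof. Suppose that `X` is not rich (`¬ (4 ≤ X.ncard ∧ ∃ u, Rich7 G X u)`).  By `S_F10` every `W` with `MaxW G X W`
is `Vs 4 c ∪ UW G W` for an ear `EarS G X 4 c`, and every vertex of `W` has at most one non-neighbour `≠` itself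
in `W`.  So `UC G X m q` is a clique for all `IC G X m q`, `5 ≤ m`: otherwise (`S_Z1` (2)) `q 0, q 2, q 3 ∈ W`, `q 0`
has the non-neighbours `q 2`, `q 3`.
`AllEar G X` (then `S_Ear`): let `IC G X m q`, `4 ≤ m`.  `m = 4`: `S_Z1` (1): `Vs 4 q ⊆ W`, and the ear
`c` with `W = Vs 4 c ∪ UW G W`; no `q i` is in `UW G W` (it has a non-neighbour in `W`), so `Vs 4 q ⊆ Vs 4 c`; both have four
elements, so they are equal.  `5 ≤ m`: if two sets `FB {q i}`, `FB {q j}`, `i ≠ j`, are nonempty: `S_H5`: `Rst`; if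
`UC` is complete to `F`: `S_Rst2`: rich, excluded; otherwise `u ∈ UC`, `x ∈ FB {q i'}`, `u` not `~ x`, and another
nonempty `FB {q j'}`, `j' ≠ i'`: `S_H7`.  Otherwise there is `i < m` such that all others are empty: `S_H6`. -/
def S_Z3 : Prop := S_Out7

end Pool.Agent.MPd439b2.HC
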